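import Pool.Agent.T2H68.UB.Stm

/-!
# Project UB, package AC: there are active slots
-/

set_option autoImplicit false

open MeasureTheory ProbabilityTheory Set Filter Finset
open scoped ENNReal NNReal Topology ComplexConjugate

namespace Pool.Agent.T2H68.UB

namespace PkgAC

theorem measurable_X (t : ℝ) : Measurable (X t) := by
  unfold X
  exact (continuous_eval_const _).measurable

theorem measurable_pair (k j : ℕ) : Measurable fun ω => (wv k j ω, (xv k j ω).re) := by
  refine Measurable.prodMk ?_ ?_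
  · unfold wv
    exact (Complex.measurable_re.comp ((measurable_X _).sub (measurable_X _))).const_mul _
  · unfold xv
    exact Complex.measurable_re.comp (((measurable_X _).sub (measurable_X _)).const_mul _)

theorem main (μ : Measure Om) [IsProbabilityMeasure μ] (hWH : S_WH μ) (hGT : S_GT) (k c : ℕ) (hc : c < 2)
    (P : ℕ → Prop) (hP : ∀ i, P (2 * i + c)) :
    (μ {ω | ¬ ∃ j < mm k, P j ∧ lam k + 1 / lam k ≤ wv k j ω}).toReal ≤ Real.exp (-lam k) := by
  classical
  obtain ⟨-, -, h3, h4⟩ := hWH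
  set a : ℝ := lam k + 1 / lam k with ha
  obtain ⟨n, hn⟩ : ∃ n, mm k = 2 * n := ⟨_, rfl⟩
  have hlt : ∀ i : Fin n, 2 * (i : ℕ) + c < mm k := fun i => by have := i.2; omega
  let g : Fin n → Fin (mm k) := fun i => ⟨2 * i + c, hlt i⟩
  have hg : Function.Injective g := by
    intro i i' h
    have h1 : 2 * (i : ℕ) + c = 2 * (i' : ℕ) + c := congrArg Fin.val h
    exact Fin.ext (by omega)
  have hind := (h3 k).precomp hg
  have hsets := hind.measure_inter_preimage_eq_mul Finset.univ
    (sets := fun _ => Set.Iio a ×ˢ Set.univ) (fun i _ => measurableSet_Iio.prod MeasurableSet.univ)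
  have hone : ∀ i : Fin n, μ ((fun ω => (wv k (g i) ω, (xv k (g i) ω).re)) ⁻¹' (Set.Iio a ×ˢ Set.univ)) =
      (gaussianReal 0 1) (Set.Iio a) := by
    intro i
    rw [← Measure.map_apply (measurable_pair k (g i)) (measurableSet_Iio.prod MeasurableSet.univ),
      h4 k (g i) (g i).2, Measure.prod_prod, measure_univ, mul_one]
  have hprod : μ (⋂ i ∈ (Finset.univ : Finset (Fin n)), (fun ω => (wv k (g i) ω, (xv k (g i) ω).re)) ⁻¹'
      (Set.Iio a ×ˢ Set.univ)) = (gaussianReal 0 1) (Set.Iio a) ^ n := by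
    have h5 := hsets
    rw [h5, Finset.prod_congr rfl fun i _ => hone i]
    simp
  have hsub : {ω | ¬ ∃ j < mm k, P j ∧ a ≤ wv k j ω} ⊆
      ⋂ i ∈ (Finset.univ : Finset (Fin n)), (fun ω => (wv k (g i) ω, (xv k (g i) ω).re)) ⁻¹'
      (Set.Iio a ×ˢ Set.univ) := by
    intro ω hω
    simp only [Set.mem_iInter, Set.mem_preimage, Set.mem_prod, Set.mem_Iio, Set.mem_univ, and_true]
    intro i _
    by_contra hcon
    push Not at hcon
    exact hω ⟨2 * i + c, hlt i, hP i, hcon⟩
  have hle : μ {ω | ¬ ∃ j < mm k, P j ∧ a ≤ wv k j ω} ≤ (gaussianReal 0 1) (Set.Iio a) ^ n :=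
    (measure_mono hsub).trans hprod.le
  have hγ : ((gaussianReal 0 1) (Set.Iio a)).toReal = 1 - ((gaussianReal 0 1) (Set.Ici a)).toReal := by
    have h6 : (Set.Ici a)ᶜ = Set.Iio a := Set.compl_Ici
    rw [← h6]
    exact probReal_compl_eq_one_sub measurableSet_Ici
  have hle2 : (μ {ω | ¬ ∃ j < mm k, P j ∧ a ≤ wv k j ω}).toReal ≤
      (1 - ((gaussianReal 0 1) (Set.Ici a)).toReal) ^ n := by
    rw [← hγ, ← ENNReal.toReal_pow]
    exact ENNReal.toReal_mono (ENNReal.pow_ne_top (measure_ne_top _ _)) hle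
  refine hle2.trans ?_
  have h1 := hGT.1 k
  have hn' : (mm k : ℝ) / 2 = n := by
    rw [hn]
    push_cast
    ring
  rw [hn'] at h1
  set π : ℝ := ((gaussianReal 0 1) (Set.Ici a)).toReal with hπ
  have hπ1 : π ≤ 1 := by
    rw [hπ]
    exact measureReal_le_one
  calc (1 - π) ^ n ≤ (Real.exp (-π)) ^ n := by
        refine pow_le_pow_left₀ (by linarith) ?_ n
        have := Real.add_one_le_exp (-π)
        linarith
    _ = Real.exp (-(n * π)) := by rw [← Real.exp_nat_mul]; ring_nf
    _ ≤ _ := Real.exp_le_exp.2 (by linarith)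

end PkgAC

open PkgAC in
theorem pAC (μ : Measure Om) (hμ : IsW μ) (hWH : S_WH μ) (hGT : S_GT) : S_AC μ := by
  have hprob : IsProbabilityMeasure μ := by
    have := hμ.gauss
    infer_instance
  intro k
  exact ⟨main μ hWH hGT k 0 (by norm_num) Even (fun i => ⟨i, by ring⟩),
    main μ hWH hGT k 1 (by norm_num) (fun j => ¬ Even j) (fun i => by
      rw [Nat.not_even_iff_odd]
      exact ⟨i, rfl⟩)⟩

end Pool.Agent.T2H68.UB
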