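import Pool.Agent.T2H68.UB.Stm
import Pool.Agent.R876.WM.LEIB
import Pool.Agent.R876.WM.MP

/-!
# Project UB, package AS: the products are rotation smooth
-/

set_option autoImplicit false

open MeasureTheory ProbabilityTheory Set Filter Finset
open scoped ENNReal NNReal Topology ComplexConjugate

namespace Pool.Agent.T2H68.UB

open Pool.Agent.R876.WM

namespace PkgAS

/-! ### Leibniz rule -/

theorem leib2_seq {V F : Type*} [NormedAddCommGroup V] [NormedSpace ℝ V] [NormedAddCommGroup F]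
    [NormedSpace ℝ F] (K : ℕ) : ∀ (a : ℕ → (V →L[ℝ] F)) (b : ℕ → V) (n : ℕ),
    (fwdDiff 1)^[K] (fun m => a m (b m)) n =
      ∑ j ∈ Finset.range (K + 1), K.choose j • ((fwdDiff 1)^[j] a n)
        ((fwdDiff 1)^[K - j] b (n + j)) := by
  induction K with
  | zero => intro a b n; simp
  | succ K ih =>
    intro a b n
    have h1 : fwdDiff 1 (fun m => a m (b m)) =
        (fun m => a m (fwdDiff 1 b m)) + (fun m => (fwdDiff 1 a m) (b (m + 1))) := by
      funext m
      simp only [fwdDiff, Pi.add_apply, map_sub, sub_apply]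
      abel
    rw [Function.iterate_succ_apply, h1, fwdDiff_iter_add, Pi.add_apply, ih, ih]
    have h2 := Finset.sum_choose_succ_nsmul
      (fun i m => ((fwdDiff 1)^[i] a n) ((fwdDiff 1)^[m] b (n + i))) K
    rw [h2]
    congr 1
    · apply Finset.sum_congr rfl
      intro j hj
      have hj' : j ≤ K := Nat.lt_succ_iff.1 (Finset.mem_range.1 hj)
      rw [Nat.sub_add_comm hj', Function.iterate_succ_apply]
    · apply Finset.sum_congr rfl
      intro j hj
      rw [Function.iterate_succ_apply, fwdDiff_iter_comp_add, add_assoc]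

/-- rotation of a pair -/
noncomputable def rt (α : ℝ) (z : Om × Om) : Om × Om :=
  (Real.cos α • z.1 + Real.sin α • z.2, -Real.sin α • z.1 + Real.cos α • z.2)

theorem r1_rt (α β : ℝ) (z : Om × Om) : r1 α (rt β z) = r1 (α + β) z := by
  simp only [r1, rt]
  rw [Real.cos_add, Real.sin_add]
  module

theorem rt_fst (α : ℝ) (z : Om × Om) : (rt α z).1 = r1 α z := rfl

theorem leib2 (A : Om → (HH →L[ℝ] HH)) (V : Om → HH) (K : ℕ) (θ : ℝ) (z : Om × Om) :
    dif K θ (fun ω => A ω (V ω)) z = ∑ j ∈ Finset.range (K + 1),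
      (K.choose j : ℝ) • (dif j θ A z) (dif (K - j) θ V (rt (j * θ) z)) := by
  rw [dif_eq, leib2_seq]
  apply Finset.sum_congr rfl
  intro j _
  rw [rt, dif_eq, dif_eq', Nat.cast_smul_eq_nsmul, zero_add]

theorem dif_rt (V : Om → HH) (c n : ℕ) (θ : ℝ) (z : Om × Om) :
    dif c θ V (rt (n * θ) z) = ∑ l ∈ Finset.range (c + 1), ((-1 : ℝ) ^ (c - l) * (c.choose l : ℝ)) •
      V (r1 ((n + l : ℕ) * θ) z) := by
  rw [dif]
  apply Finset.sum_congr rfl
  intro l _
  congr 2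
  have h := r1_rt (l * θ) (n * θ) z
  rw [r1] at h
  rw [h]
  congr 1
  push_cast
  ring

/-! ### Minkowski -/

section Mink

variable {α : Type*} [MeasurableSpace α] (ν : Measure α)

noncomputable def NN (p : ℝ) (f : α → ℝ≥0∞) : ℝ≥0∞ := (∫⁻ a, f a ^ p ∂ν) ^ (1 / p)

variable {ν}

theorem NN_mono {p : ℝ} (hp : 1 ≤ p) {f g : α → ℝ≥0∞} (h : ∀ a, f a ≤ g a) : NN ν p f ≤ NN ν p g := by
  unfold NN
  have hp0 : 0 ≤ p := by linarith
  exact ENNReal.rpow_le_rpow (lintegral_mono fun a => ENNReal.rpow_le_rpow (h a) hp0)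
    (by positivity)

theorem NN_mono_ae {p : ℝ} (hp : 1 ≤ p) {f g : α → ℝ≥0∞} (h : ∀ᵐ a ∂ν, f a ≤ g a) : NN ν p f ≤ NN ν p g := by
  unfold NN
  have hp0 : 0 ≤ p := by linarith
  exact ENNReal.rpow_le_rpow (lintegral_mono_ae (h.mono fun a ha => ENNReal.rpow_le_rpow ha hp0))
    (by positivity)

theorem NN_add {p : ℝ} (hp : 1 ≤ p) {f g : α → ℝ≥0∞} (hf : AEMeasurable f ν) (hg : AEMeasurable g ν) :
    NN ν p (fun a => f a + g a) ≤ NN ν p f + NN ν p g :=
  ENNReal.lintegral_Lp_add_le hf hg hp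

theorem NN_zero {p : ℝ} (hp : 1 ≤ p) : NN ν p (fun _ => 0) = 0 := by
  have hp0 : 0 < p := by linarith
  simp [NN, ENNReal.zero_rpow_of_pos hp0, hp0]

theorem NN_sum {p : ℝ} (hp : 1 ≤ p) {ι : Type*} (s : Finset ι) (f : ι → α → ℝ≥0∞)
    (hf : ∀ i ∈ s, AEMeasurable (f i) ν) :
    NN ν p (fun a => ∑ i ∈ s, f i a) ≤ ∑ i ∈ s, NN ν p (f i) := by
  classical
  induction s using Finset.induction_on with
  | empty => simp [NN_zero hp]
  | insert i s hi ih =>
    simp only [Finset.sum_insert hi]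
    refine (NN_add hp (hf i (Finset.mem_insert_self _ _)) ?_).trans ?_
    · exact Finset.aemeasurable_fun_sum _ fun j hj => hf j (Finset.mem_insert_of_mem hj)
    · gcongr
      exact ih fun j hj => hf j (Finset.mem_insert_of_mem hj)

theorem NN_tsum {p : ℝ} (hp : 1 ≤ p) (f : ℕ → α → ℝ≥0∞) (hf : ∀ i, AEMeasurable (f i) ν) :
    NN ν p (fun a => ∑' i, f i a) ≤ ∑' i, NN ν p (f i) := by
  have hp0 : 0 < p := by linarith
  have h1 : ∀ a, (∑' i, f i a) ^ p = ⨆ n : ℕ, (∑ i ∈ Finset.range n, f i a) ^ p := by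
    intro a
    rw [ENNReal.tsum_eq_iSup_nat]
    exact (ENNReal.orderIsoRpow p hp0).map_iSup _
  have h2 : ∫⁻ a, (∑' i, f i a) ^ p ∂ν = ⨆ n : ℕ, ∫⁻ a, (∑ i ∈ Finset.range n, f i a) ^ p ∂ν := by
    rw [← lintegral_iSup']
    · exact lintegral_congr h1
    · intro n
      exact (Finset.aemeasurable_fun_sum _ fun j _ => hf j).pow_const p
    · refine Eventually.of_forall fun a m n hmn => ?_
      refine ENNReal.rpow_le_rpow ?_ hp0.le
      exact Finset.sum_le_sum_of_subset (Finset.range_mono hmn)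
  unfold NN
  rw [h2]
  have h3 : (⨆ n : ℕ, ∫⁻ a, (∑ i ∈ Finset.range n, f i a) ^ p ∂ν) ^ (1 / p) =
      ⨆ n : ℕ, (∫⁻ a, (∑ i ∈ Finset.range n, f i a) ^ p ∂ν) ^ (1 / p) :=
    (ENNReal.orderIsoRpow (1 / p) (by positivity)).map_iSup _
  rw [h3]
  refine iSup_le fun n => ?_
  refine (NN_sum hp (Finset.range n) f fun i _ => hf i).trans ?_
  exact ENNReal.sum_le_tsum _

theorem NN_const_mul {p : ℝ} (hp : 1 ≤ p) (c : ℝ≥0∞) (hc : c ≠ ∞) (f : α → ℝ≥0∞) :
    NN ν p (fun a => c * f a) = c * NN ν p f := by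
  have hp0 : 0 < p := by linarith
  unfold NN
  simp only [ENNReal.mul_rpow_of_nonneg _ _ hp0.le]
  rw [lintegral_const_mul' _ _ (ENNReal.rpow_ne_top_of_nonneg hp0.le hc),
    ENNReal.mul_rpow_of_nonneg _ _ (by positivity), ← ENNReal.rpow_mul,
    mul_one_div_cancel hp0.ne', ENNReal.rpow_one]

/-- Cauchy-Schwarz -/
theorem NN_mul {p : ℝ} (hp : 1 ≤ p) {f g : α → ℝ≥0∞} (hf : AEMeasurable f ν) (hg : AEMeasurable g ν) :
    NN ν p (fun a => f a * g a) ≤ NN ν (2 * p) f * NN ν (2 * p) g := by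
  have hp0 : 0 < p := by linarith
  have h := ENNReal.lintegral_mul_le_Lp_mul_Lq ν (p := 2) (q := 2) Real.HolderConjugate.two_two
    (hf.pow_const p) (hg.pow_const p)
  simp only [← ENNReal.rpow_mul] at h
  unfold NN
  simp only [ENNReal.mul_rpow_of_nonneg _ _ hp0.le]
  calc (∫⁻ a, f a ^ p * g a ^ p ∂ν) ^ (1 / p)
      ≤ ((∫⁻ a, f a ^ (p * 2) ∂ν) ^ (1 / 2 : ℝ) * (∫⁻ a, g a ^ (p * 2) ∂ν) ^ (1 / 2 : ℝ)) ^ (1 / p) := by
        refine ENNReal.rpow_le_rpow ?_ (by positivity)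
        simpa using h
    _ = _ := by
        rw [ENNReal.mul_rpow_of_nonneg _ _ (by positivity), ← ENNReal.rpow_mul, ← ENNReal.rpow_mul]
        have e : (1 / 2 : ℝ) * (1 / p) = 1 / (2 * p) := by field_simp
        rw [e, mul_comm p 2]

end Mink

/-! ### Measurability -/

theorem continuous_X (t : ℝ) : Continuous (X t) := by
  unfold X
  exact continuous_eval_const _

theorem measurable_X (t : ℝ) : Measurable (X t) := (continuous_X t).measurable

theorem measurable_wv (k j : ℕ) : Measurable (wv k j) := by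
  unfold wv
  exact (Complex.measurable_re.comp ((measurable_X _).sub (measurable_X _))).const_mul _

theorem measurable_xvre (k j : ℕ) : Measurable (fun ω => (xv k j ω).re) := by
  unfold xv
  exact Complex.measurable_re.comp (((measurable_X _).sub (measurable_X _)).const_mul _)

theorem measurable_SS (n k : ℕ) : Measurable (SS n k) := by
  unfold SS
  have hw1 : ∀ j, Measurable fun z : Om × Om => wv k j z.1 := fun j =>
    (measurable_wv k j).comp measurable_fst
  have hw2 : ∀ j, Measurable fun z : Om × Om => wv k j z.2 := fun j =>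
    (measurable_wv k j).comp measurable_snd
  have hx1 : ∀ j, Measurable fun z : Om × Om => |(xv k j z.1).re| := fun j =>
    measurable_abs.comp ((measurable_xvre k j).comp measurable_fst)
  have hx2 : ∀ j, Measurable fun z : Om × Om => |(xv k j z.2).re| := fun j =>
    measurable_abs.comp ((measurable_xvre k j).comp measurable_snd)
  refine Finset.measurable_fun_sum _ fun j _ => Measurable.ite ?_ ?_ measurable_const
  · exact measurableSet_lt measurable_const (((hw1 j).pow_const 2).add ((hw2 j).pow_const 2))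
  · refine Measurable.mul ((measurable_const.add (hx1 j)).add (hx2 j)) (Measurable.pow_const ?_ n)
    exact measurable_const.add (((measurable_const.add (measurable_abs.comp (hw1 j))).add
      (measurable_abs.comp (hw2 j))).const_mul _)

theorem lam_pos (k : ℕ) : 0 < lam k := by unfold lam; positivity

theorem one_le_lam (k : ℕ) : 1 ≤ lam k := by
  unfold lam
  exact one_le_pow₀ (by norm_num)

theorem lam_succ (k : ℕ) : lam (k + 1) = 2 * lam k := by
  unfold lam
  ring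

theorem SS_nonneg (n k : ℕ) (z : Om × Om) : 0 ≤ SS n k z := by
  unfold SS
  refine Finset.sum_nonneg fun j _ => ?_
  have := lam_pos k
  split_ifs
  · positivity
  · exact le_rfl

theorem amp_nonneg (k : ℕ) : 0 ≤ amp k := by
  have := lam_pos k
  unfold amp; positivity

noncomputable def Gx (n k : ℕ) (z : Om × Om) : ℝ := 1 + SS n k z + amp (k + 1) * SS n (k + 1) z

theorem measurable_Gx (n k : ℕ) : Measurable (Gx n k) :=
  (measurable_const.add (measurable_SS n k)).add ((measurable_SS n (k + 1)).const_mul _)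

theorem one_le_Gx (n k : ℕ) (z : Om × Om) : 1 ≤ Gx n k z := by
  have h1 := SS_nonneg n k z
  have h2 := mul_nonneg (amp_nonneg (k + 1)) (SS_nonneg n (k + 1) z)
  unfold Gx
  linarith

theorem pow3 {a b : ℝ} (ha : 0 ≤ a) (hb : 0 ≤ b) (q : ℕ) :
    (1 + a + b) ^ q ≤ 4 ^ q * (1 + a ^ q + b ^ q) := by
  have h2 : (2 : ℝ) ^ (q - 1) ≤ 2 ^ q := pow_le_pow_right₀ (by norm_num) (by omega)
  have e4 : (4 : ℝ) ^ q = 2 ^ q * 2 ^ q := by rw [← mul_pow]; norm_num
  have h1 : (1 : ℝ) ≤ 2 ^ q := one_le_pow₀ (by norm_num)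
  have hA := add_pow_le (show (0 : ℝ) ≤ 1 + a by positivity) hb q
  have hB := add_pow_le (show (0 : ℝ) ≤ 1 by norm_num) ha q
  rw [one_pow] at hB
  have ha' : 0 ≤ a ^ q := by positivity
  have hb' : 0 ≤ b ^ q := by positivity
  calc (1 + a + b) ^ q ≤ 2 ^ (q - 1) * ((1 + a) ^ q + b ^ q) := hA
    _ ≤ 2 ^ q * (2 ^ q * (1 + a ^ q) + b ^ q) := by
        gcongr
        calc (1 + a) ^ q ≤ 2 ^ (q - 1) * (1 + a ^ q) := hB
          _ ≤ _ := by gcongr
    _ ≤ 2 ^ q * (2 ^ q * (1 + a ^ q) + 2 ^ q * b ^ q) := by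
        gcongr
        nlinarith
    _ = _ := by rw [e4]; ring

theorem I1 (μ : Measure Om) [IsProbabilityMeasure μ] (hMO : S_MO μ) (n q : ℕ) :
    ∃ (C : ℝ) (c : ℕ), 0 ≤ C ∧ ∀ k : ℕ,
      ∫⁻ z, ENNReal.ofReal (Gx n k z ^ q) ∂(μ.prod μ) ≤ ENNReal.ofReal (C * lam k ^ c) := by
  obtain ⟨C1, c1, hC1, h1⟩ := hMO n q
  refine ⟨4 ^ q * (1 + C1 + 32 ^ q * (C1 * 2 ^ c1)), 5 * q + c1, by positivity, fun k => ?_⟩
  have e32 : (32 : ℝ) ^ q = 2 ^ (5 * q) := by rw [pow_mul]; norm_num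
  have hl := one_le_lam k
  have hl0 := lam_pos k
  have hb : ∀ z, Gx n k z ^ q ≤ 4 ^ q * (1 + SS n k z ^ q + (amp (k + 1)) ^ q * SS n (k + 1) z ^ q) := by
    intro z
    have := pow3 (SS_nonneg n k z) (mul_nonneg (amp_nonneg (k + 1)) (SS_nonneg n (k + 1) z)) q
    rw [mul_pow] at this
    exact this
  have hm1 : Measurable fun z => ENNReal.ofReal (SS n k z ^ q) :=
    ENNReal.measurable_ofReal.comp ((measurable_SS n k).pow_const q)
  have hm2 : Measurable fun z => ENNReal.ofReal (SS n (k + 1) z ^ q) :=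
    ENNReal.measurable_ofReal.comp ((measurable_SS n (k + 1)).pow_const q)
  have h4 : (0 : ℝ) ≤ 4 ^ q := by positivity
  have ha : 0 ≤ amp (k + 1) ^ q := pow_nonneg (amp_nonneg _) _
  calc ∫⁻ z, ENNReal.ofReal (Gx n k z ^ q) ∂(μ.prod μ)
      ≤ ∫⁻ z, ENNReal.ofReal (4 ^ q) * (1 + ENNReal.ofReal (SS n k z ^ q) +
          ENNReal.ofReal (amp (k + 1) ^ q) * ENNReal.ofReal (SS n (k + 1) z ^ q)) ∂(μ.prod μ) := by
        refine lintegral_mono fun z => ?_
        refine (ENNReal.ofReal_le_ofReal (hb z)).trans ?_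
        have s1 : 0 ≤ SS n k z ^ q := pow_nonneg (SS_nonneg n k z) _
        have s2 : 0 ≤ SS n (k + 1) z ^ q := pow_nonneg (SS_nonneg n (k + 1) z) _
        rw [ENNReal.ofReal_mul h4, ENNReal.ofReal_add (by positivity) (by positivity),
          ENNReal.ofReal_add (by norm_num) s1, ENNReal.ofReal_one, ENNReal.ofReal_mul ha]
    _ = ENNReal.ofReal (4 ^ q) * (1 + ∫⁻ z, ENNReal.ofReal (SS n k z ^ q) ∂(μ.prod μ) +
          ENNReal.ofReal (amp (k + 1) ^ q) * ∫⁻ z, ENNReal.ofReal (SS n (k + 1) z ^ q) ∂(μ.prod μ)) := by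
        have hmA : Measurable fun z => 1 + ENNReal.ofReal (SS n k z ^ q) := hm1.const_add 1
        rw [lintegral_const_mul' _ _ ENNReal.ofReal_ne_top, lintegral_add_left hmA,
          lintegral_add_left (f := fun _ => 1) measurable_const, lintegral_const_mul' _ _ ENNReal.ofReal_ne_top]
        simp
    _ ≤ ENNReal.ofReal (4 ^ q) * (ENNReal.ofReal 1 + ENNReal.ofReal (C1 * lam k ^ c1) +
          ENNReal.ofReal (amp (k + 1) ^ q) * ENNReal.ofReal (C1 * lam (k + 1) ^ c1)) := by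
        rw [ENNReal.ofReal_one]
        gcongr
        · exact h1 k
        · exact h1 (k + 1)
    _ = ENNReal.ofReal (4 ^ q * (1 + C1 * lam k ^ c1 + amp (k + 1) ^ q * (C1 * lam (k + 1) ^ c1))) := by
        have := lam_pos (k + 1)
        rw [ENNReal.ofReal_mul h4, ENNReal.ofReal_add (by positivity) (by positivity),
          ENNReal.ofReal_add (by norm_num) (by positivity), ENNReal.ofReal_mul ha]
    _ ≤ _ := by
        refine ENNReal.ofReal_le_ofReal ?_
        have e1 : lam k ^ c1 ≤ lam k ^ (5 * q + c1) := pow_le_pow_right₀ hl (by omega)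
        have e0 : 1 ≤ lam k ^ (5 * q + c1) := one_le_pow₀ hl
        have e2 : amp (k + 1) ^ q * (C1 * lam (k + 1) ^ c1) =
            32 ^ q * (C1 * 2 ^ c1) * lam k ^ (5 * q + c1) := by
          unfold amp
          rw [lam_succ, e32, ← pow_mul, mul_pow, mul_pow, pow_add]
          ring
        rw [e2]
        calc (4 : ℝ) ^ q * (1 + C1 * lam k ^ c1 + 32 ^ q * (C1 * 2 ^ c1) * lam k ^ (5 * q + c1))
            ≤ 4 ^ q * (lam k ^ (5 * q + c1) + C1 * lam k ^ (5 * q + c1) +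
              32 ^ q * (C1 * 2 ^ c1) * lam k ^ (5 * q + c1)) := by
              gcongr
          _ = _ := by ring

/-! ### Rotations -/

theorem mp_rt {μ : Measure Om} (hμ : IsW μ) (α : ℝ) : MeasurePreserving (rt α) (μ.prod μ) (μ.prod μ) := by
  have := hμ.gauss
  exact (mp_thm μ hμ.mean).2 α

theorem mp_r1 {μ : Measure Om} (hμ : IsW μ) (α : ℝ) : MeasurePreserving (r1 α) (μ.prod μ) μ := by
  have := hμ.gauss
  exact (mp_thm μ hμ.mean).1 α

/-! ### The selected slots -/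

/-- the selected part of `V` -/
noncomputable def Yf (E : ℕ → ℕ → HH →L[ℝ] HH) (V : Om → HH) (k : ℕ) (a b : ℝ) (z : Om × Om) : ℝ :=
  ∑ j ∈ Finset.range (mm k), (if lam k < wv k j (r1 a z) then ‖E k j (V (r1 b z))‖ ^ 2 else 0)

theorem Yf_nonneg (E : ℕ → ℕ → HH →L[ℝ] HH) (V : Om → HH) (k : ℕ) (a b : ℝ) (z : Om × Om) :
    0 ≤ Yf E V k a b z := by
  unfold Yf
  refine Finset.sum_nonneg fun j _ => ?_
  split_ifs
  · positivity
  · exact le_rfl

theorem aem_Yf {μ : Measure Om} (hμ : IsW μ) (E : ℕ → ℕ → HH →L[ℝ] HH) (V : Om → HH)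
    (hV : AEStronglyMeasurable V μ) (k : ℕ) (a b : ℝ) : AEMeasurable (Yf E V k a b) (μ.prod μ) := by
  have hV' : AEStronglyMeasurable (fun z => V (r1 b z)) (μ.prod μ) :=
    hV.comp_measurePreserving (mp_r1 hμ b)
  unfold Yf
  refine Finset.aemeasurable_fun_sum _ fun j _ => ?_
  have h1 : AEMeasurable (fun z => ‖E k j (V (r1 b z))‖ ^ 2) (μ.prod μ) :=
    (((E k j).continuous.comp_aestronglyMeasurable hV').norm.aemeasurable).pow_const 2
  have h2 : MeasurableSet {z : Om × Om | lam k < wv k j (r1 a z)} :=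
    measurableSet_lt measurable_const ((measurable_wv k j).comp (mp_r1 hμ a).measurable)
  have h3 : (fun z => if lam k < wv k j (r1 a z) then ‖E k j (V (r1 b z))‖ ^ 2 else 0) =
      Set.indicator {z : Om × Om | lam k < wv k j (r1 a z)} (fun z => ‖E k j (V (r1 b z))‖ ^ 2) := by
    funext z
    simp only [Set.indicator_apply, Set.mem_ofPred_eq]
  rw [h3]
  exact h1.indicator h2

theorem Ybound {μ : Measure Om} (hμ : IsW μ) (hSL : S_SL μ) (E : ℕ → ℕ → HH →L[ℝ] HH)
    (hE : ∀ k v, ∑ j ∈ Finset.range (mm k), ‖E k j v‖ ^ 2 ≤ ‖v‖ ^ 2)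
    (S : Set (Om → HH)) (hUB : ∀ p : ℕ, 2 ≤ p → UB μ p S) (hUS : ∀ p : ℕ, 2 ≤ p → USm μ p S)
    (p R : ℕ) (hp : 1 ≤ p) : ∃ C : ℝ, 0 ≤ C ∧ ∀ V ∈ S, ∀ (k : ℕ) (a b : ℝ), a ≤ b → b - a ≤ 1 / 2 →
      ∫⁻ z, ENNReal.ofReal (Yf E V k a b z ^ p) ∂(μ.prod μ) ≤ ENNReal.ofReal (C / lam k ^ R) := by
  obtain ⟨C, hC, h⟩ := hSL E hE S hUB hUS p R hp
  obtain ⟨D0, hD0, hD⟩ := hUB 2 le_rfl
  refine ⟨C, hC, fun V hV k a b hab hab2 => ?_⟩
  have h1 := h V hV k (b - a) (by linarith) hab2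
  have hVm : AEStronglyMeasurable V μ := (hD V hV).1.1
  have e1 : ∀ z, Yf E V k a b z = Yf E V k 0 (b - a) (rt a z) := by
    intro z
    simp only [Yf, r1_rt, zero_add, sub_add_cancel]
  have e2 : ∀ z : Om × Om, Yf E V k 0 (b - a) z = ∑ j ∈ Finset.range (mm k),
      (if lam k < wv k j z.1 then ‖E k j (V (r1 (b - a) z))‖ ^ 2 else 0) := by
    intro z
    have : r1 0 z = z.1 := by
      ext t
      simp [r1]
    simp only [Yf, this]
  have hm : AEMeasurable (fun z => ENNReal.ofReal (Yf E V k 0 (b - a) z ^ p)) (μ.prod μ) :=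
    ((aem_Yf hμ E V hVm k 0 (b - a)).pow_const p).ennreal_ofReal
  calc ∫⁻ z, ENNReal.ofReal (Yf E V k a b z ^ p) ∂(μ.prod μ)
      = ∫⁻ z, ENNReal.ofReal (Yf E V k 0 (b - a) (rt a z) ^ p) ∂(μ.prod μ) := by simp only [e1]
    _ = ∫⁻ z, ENNReal.ofReal (Yf E V k 0 (b - a) z ^ p) ∂(μ.prod μ) := by
        have hr := mp_rt hμ a
        conv_rhs => rw [← hr.map_eq]
        rw [lintegral_map' (by rw [hr.map_eq]; exact hm) hr.measurable.aemeasurable]
    _ ≤ _ := by simpa only [e2] using h1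

theorem sum_pow_le {ι : Type*} (s : Finset ι) (f : ι → ℝ) (hf : ∀ i ∈ s, 0 ≤ f i) (p : ℕ) :
    (∑ i ∈ s, f i) ^ p ≤ (s.card : ℝ) ^ p * ∑ i ∈ s, f i ^ p + (if p = 0 then 1 else 0) := by
  classical
  rcases Nat.eq_zero_or_pos p with rfl | hp
  · simp only [pow_zero, if_true]
    have : (0 : ℝ) ≤ 1 * ∑ i ∈ s, (1 : ℝ) := by positivity
    linarith
  rw [if_neg hp.ne', add_zero]
  rcases s.eq_empty_or_nonempty with rfl | hs
  · simp [hp.ne']
  obtain ⟨i0, hi0, hmax⟩ := s.exists_max_image f hs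
  have h1 : ∑ i ∈ s, f i ≤ s.card * f i0 := by
    have := Finset.sum_le_card_nsmul s f (f i0) hmax
    simpa [nsmul_eq_mul] using this
  calc (∑ i ∈ s, f i) ^ p ≤ (s.card * f i0) ^ p :=
        pow_le_pow_left₀ (Finset.sum_nonneg hf) h1 p
    _ = (s.card : ℝ) ^ p * f i0 ^ p := mul_pow _ _ _
    _ ≤ _ := by
        refine mul_le_mul_of_nonneg_left ?_ (by positivity)
        exact Finset.single_le_sum (f := fun i => f i ^ p) (fun i hi => pow_nonneg (hf i hi) p) hi0

theorem tsum_lam : ∑' k : ℕ, ENNReal.ofReal (1 / lam k) ≤ 1 := by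
  have h : HasSum (fun k : ℕ => 1 / lam k) (1 / 4) := by
    have h1 := (hasSum_geometric_of_lt_one (show (0 : ℝ) ≤ 1 / 2 by norm_num)
      (by norm_num)).mul_left (1 / 8)
    have e : (fun k : ℕ => 1 / lam k) = fun k : ℕ => (1 / 8 : ℝ) * (1 / 2) ^ k := by
      funext k
      unfold lam
      rw [pow_add, one_div_pow]
      field_simp
      norm_num
    rw [e]
    have h2 : (1 / 8 : ℝ) * (1 - 1 / 2)⁻¹ = 1 / 4 := by norm_num
    rw [h2] at h1
    exact h1
  rw [← ENNReal.ofReal_tsum_of_nonneg (fun k => by have := lam_pos k; positivity) h.summable, h.tsum_eq]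
  rw [← ENNReal.ofReal_one]
  exact ENNReal.ofReal_le_ofReal (by norm_num)

/-- the weight times the selected part, pointwise -/
theorem point_bound (E : ℕ → ℕ → HH →L[ℝ] HH) (V : Om → HH) (n k : ℕ) (Cd θ b : ℝ)
    (hCd : 0 ≤ Cd) (hθ : 0 < θ) (z : Om × Om) :
    Real.sqrt (∑ j ∈ Finset.range (mm k), (Cd * θ ^ n * Gx n k z ^ n *
      (if ∃ a ≤ n, lam k < wv k j (r1 (a * θ) z) then 1 else 0)) ^ 2 * ‖E k j (V (r1 b z))‖ ^ 2) ≤
    Cd * θ ^ n * (Gx n k z ^ n * Real.sqrt (∑ a ∈ Finset.range (n + 1), Yf E V k (a * θ) b z)) := by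
  classical
  have hG : 0 ≤ Gx n k z ^ n := pow_nonneg (zero_le_one.trans (one_le_Gx n k z)) n
  have hc : 0 ≤ Cd * θ ^ n * Gx n k z ^ n := by positivity
  have h1 : ∑ j ∈ Finset.range (mm k), (Cd * θ ^ n * Gx n k z ^ n *
      (if ∃ a ≤ n, lam k < wv k j (r1 (a * θ) z) then 1 else 0)) ^ 2 * ‖E k j (V (r1 b z))‖ ^ 2 ≤
      (Cd * θ ^ n * Gx n k z ^ n) ^ 2 * ∑ a ∈ Finset.range (n + 1), Yf E V k (a * θ) b z := by
    simp only [Yf]
    rw [Finset.sum_comm, Finset.mul_sum]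
    refine Finset.sum_le_sum fun j _ => ?_
    rw [mul_pow, mul_assoc]
    refine mul_le_mul_of_nonneg_left ?_ (by positivity)
    split_ifs with hex
    · obtain ⟨a, ha, haw⟩ := hex
      rw [one_pow, one_mul]
      have h2 : ‖E k j (V (r1 b z))‖ ^ 2 =
          if lam k < wv k j (r1 (a * θ) z) then ‖E k j (V (r1 b z))‖ ^ 2 else 0 := by rw [if_pos haw]
      refine h2.trans_le ?_
      exact Finset.single_le_sum (s := Finset.range (n + 1)) (a := a)
        (f := fun a : ℕ => if lam k < wv k j (r1 (a * θ) z) then ‖E k j (V (r1 b z))‖ ^ 2 else 0)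
        (fun i _ => by positivity) (Finset.mem_range.2 (Nat.lt_succ_of_le ha))
    · rw [zero_pow two_ne_zero, zero_mul]
      exact Finset.sum_nonneg fun a _ => by positivity
  calc Real.sqrt _ ≤ Real.sqrt ((Cd * θ ^ n * Gx n k z ^ n) ^ 2 *
        ∑ a ∈ Finset.range (n + 1), Yf E V k (a * θ) b z) := Real.sqrt_le_sqrt h1
    _ = _ := by
        rw [Real.sqrt_mul (by positivity), Real.sqrt_sq hc]
        ring

theorem term_bound {μ : Measure Om} (hμ : IsW μ) (hSL : S_SL μ) (hDB : S_DB) (hMO : S_MO μ) (hML : S_ML)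
    (A : Om → (HH →L[ℝ] HH)) (hA : IsA A) (E : ℕ → ℕ → HH →L[ℝ] HH) (hE : IsE E)
    (hE2 : ∀ k v, ∑ j ∈ Finset.range (mm k), ‖E k j v‖ ^ 2 ≤ ‖v‖ ^ 2)
    (S : Set (Om → HH)) (hUB : ∀ p : ℕ, 2 ≤ p → UB μ p S) (hUS : ∀ p : ℕ, 2 ≤ p → USm μ p S)
    (p n : ℕ) (hp : 1 ≤ p) (hn : 1 ≤ n) : ∃ B : ℝ, 0 ≤ B ∧ ∀ V ∈ S, ∀ (l : ℕ) (θ : ℝ), 0 < θ →
      ((n + l : ℕ) : ℝ) * θ ≤ 1 / 2 → ∃ g : Om × Om → ℝ≥0∞, AEMeasurable g (μ.prod μ) ∧
        (∀ z, ‖(dif n θ A z) (V (r1 ((n + l : ℕ) * θ) z))‖ₑ ≤ g z) ∧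
        NN (μ.prod μ) p g ≤ ENNReal.ofReal (B * θ ^ n) := by
  classical
  have hprob : IsProbabilityMeasure μ := by
    have := hμ.gauss
    infer_instance
  obtain ⟨Cd, hCd, hdb⟩ := hDB n hn
  obtain ⟨C1, c1, hC1, h1⟩ := I1 μ hMO n (n * (2 * p))
  obtain ⟨C2, hC2, h2⟩ := Ybound hμ hSL E hE2 S hUB hUS p (c1 + 2 * p) hp
  obtain ⟨D0, hD0, hD⟩ := hUB 2 le_rfl
  set D2 : ℝ := ((n + 1 : ℕ) : ℝ) ^ p * ((n + 1 : ℕ) * C2) with hD2
  have hD2' : 0 ≤ D2 := by positivity
  set B0 : ℝ := 1 + C1 * D2 with hB0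
  have hB01 : 1 ≤ B0 := by
    have : 0 ≤ C1 * D2 := by positivity
    linarith
  have hp1 : (1 : ℝ) ≤ p := by exact_mod_cast hp
  have hp0 : (0 : ℝ) < p := by linarith
  refine ⟨Cd * B0, by positivity, fun V hV l θ hθ hθ2 => ?_⟩
  have hVm : AEStronglyMeasurable V μ := (hD V hV).1.1
  set b : ℝ := ((n + l : ℕ) : ℝ) * θ with hb
  set YY : ℕ → Om × Om → ℝ := fun k z => ∑ a ∈ Finset.range (n + 1), Yf E V k (a * θ) b z with hYY
  have hYY0 : ∀ k z, 0 ≤ YY k z := fun k z => Finset.sum_nonneg fun a _ => Yf_nonneg E V k _ _ z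
  have hYYm : ∀ k, AEMeasurable (YY k) (μ.prod μ) := fun k =>
    Finset.aemeasurable_fun_sum _ fun a _ => aem_Yf hμ E V hVm k _ _
  have hGm : ∀ k, Measurable fun z => ENNReal.ofReal (Gx n k z ^ n) := fun k =>
    ((measurable_Gx n k).pow_const n).ennreal_ofReal
  have hSm : ∀ k, AEMeasurable (fun z => ENNReal.ofReal (Real.sqrt (YY k z))) (μ.prod μ) := fun k =>
    (Real.continuous_sqrt.measurable.comp_aemeasurable (hYYm k)).ennreal_ofReal
  set f : ℕ → Om × Om → ℝ≥0∞ := fun k z => ENNReal.ofReal (Cd * θ ^ n) *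
    (ENNReal.ofReal (Gx n k z ^ n) * ENNReal.ofReal (Real.sqrt (YY k z))) with hf
  -- pointwise bound
  have hpt : ∀ z, ‖(dif n θ A z) (V (r1 b z))‖ₑ ≤ ∑' k, f k z := by
    intro z
    rw [← ofReal_norm]
    have h3 := hML E A hE hA n θ z (V (r1 b z)) (fun k j => Cd * θ ^ n * Gx n k z ^ n *
      (if ∃ a ≤ n, lam k < wv k j (r1 (a * θ) z) then 1 else 0))
      (fun k j => by
        have := one_le_Gx n k z
        positivity)
      (fun k j hj b' hb0 hb1 => hdb k j z b' θ hj hb0 hb1 hθ)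
    refine h3.trans (ENNReal.tsum_le_tsum fun k => ?_)
    refine (ENNReal.ofReal_le_ofReal (point_bound E V n k Cd θ b hCd hθ z)).trans ?_
    have hG : 0 ≤ Gx n k z ^ n := pow_nonneg (zero_le_one.trans (one_le_Gx n k z)) n
    rw [ENNReal.ofReal_mul (by positivity), ENNReal.ofReal_mul hG]
  -- the two factors
  have hNG : ∀ k, NN (μ.prod μ) (2 * p) (fun z => ENNReal.ofReal (Gx n k z ^ n)) ≤
      (ENNReal.ofReal (C1 * lam k ^ c1)) ^ (1 / (2 * (p : ℝ))) := by
    intro k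
    unfold NN
    refine ENNReal.rpow_le_rpow ?_ (by positivity)
    refine le_trans (le_of_eq ?_) (h1 k)
    refine lintegral_congr fun z => ?_
    have hG : 0 ≤ Gx n k z ^ n := pow_nonneg (zero_le_one.trans (one_le_Gx n k z)) n
    rw [pow_mul, ENNReal.ofReal_pow hG]
    rw [show (2 * (p : ℝ)) = ((2 * p : ℕ) : ℝ) by push_cast; ring, ENNReal.rpow_natCast]
  have hNY : ∀ k, NN (μ.prod μ) (2 * p) (fun z => ENNReal.ofReal (Real.sqrt (YY k z))) ≤
      (ENNReal.ofReal (D2 / lam k ^ (c1 + 2 * p))) ^ (1 / (2 * (p : ℝ))) := by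
    intro k
    unfold NN
    refine ENNReal.rpow_le_rpow ?_ (by positivity)
    have e : ∀ z, ENNReal.ofReal (Real.sqrt (YY k z)) ^ (2 * (p : ℝ)) = ENNReal.ofReal (YY k z ^ p) := by
      intro z
      rw [show (2 * (p : ℝ)) = ((2 * p : ℕ) : ℝ) by push_cast; ring, ENNReal.rpow_natCast,
        ← ENNReal.ofReal_pow (Real.sqrt_nonneg _), pow_mul, Real.sq_sqrt (hYY0 k z)]
    simp only [e]
    have hle : ∀ z, ENNReal.ofReal (YY k z ^ p) ≤ ENNReal.ofReal (((n + 1 : ℕ) : ℝ) ^ p) *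
        ∑ a ∈ Finset.range (n + 1), ENNReal.ofReal (Yf E V k (a * θ) b z ^ p) := by
      intro z
      have h4 := sum_pow_le (Finset.range (n + 1)) (fun a : ℕ => Yf E V k (a * θ) b z)
        (fun a _ => Yf_nonneg E V k _ _ z) p
      rw [if_neg (by omega), add_zero, Finset.card_range] at h4
      refine (ENNReal.ofReal_le_ofReal h4).trans ?_
      rw [ENNReal.ofReal_mul (by positivity), ENNReal.ofReal_sum_of_nonneg]
      intro a _
      exact pow_nonneg (Yf_nonneg E V k _ _ z) p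
    calc ∫⁻ z, ENNReal.ofReal (YY k z ^ p) ∂(μ.prod μ)
        ≤ ∫⁻ z, ENNReal.ofReal (((n + 1 : ℕ) : ℝ) ^ p) *
          ∑ a ∈ Finset.range (n + 1), ENNReal.ofReal (Yf E V k (a * θ) b z ^ p) ∂(μ.prod μ) :=
          lintegral_mono hle
      _ = ENNReal.ofReal (((n + 1 : ℕ) : ℝ) ^ p) * ∑ a ∈ Finset.range (n + 1),
          ∫⁻ z, ENNReal.ofReal (Yf E V k (a * θ) b z ^ p) ∂(μ.prod μ) := by
          rw [lintegral_const_mul' _ _ ENNReal.ofReal_ne_top, lintegral_finsetSum']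
          intro a _
          exact ((aem_Yf hμ E V hVm k _ _).pow_const p).ennreal_ofReal
      _ ≤ ENNReal.ofReal (((n + 1 : ℕ) : ℝ) ^ p) * ∑ a ∈ Finset.range (n + 1),
          ENNReal.ofReal (C2 / lam k ^ (c1 + 2 * p)) := by
          gcongr with a ha
          have ha' : (a : ℝ) ≤ ((n + l : ℕ) : ℝ) := by
            have := Finset.mem_range.1 ha
            exact_mod_cast (by omega : a ≤ n + l)
          refine h2 V hV k (a * θ) b (by rw [hb]; gcongr) ?_
          have : 0 ≤ (a : ℝ) * θ := by positivity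
          linarith
      _ = _ := by
          have := lam_pos k
          rw [Finset.sum_const, Finset.card_range, nsmul_eq_mul, ← ENNReal.ofReal_natCast,
            ← ENNReal.ofReal_mul (by positivity), ← ENNReal.ofReal_mul (by positivity), hD2]
          congr 1
          ring
  have hNf : ∀ k, NN (μ.prod μ) p (f k) ≤ ENNReal.ofReal (Cd * B0 * θ ^ n) * ENNReal.ofReal (1 / lam k) := by
    intro k
    have hlam := lam_pos k
    rw [hf]
    simp only
    rw [NN_const_mul hp1 _ ENNReal.ofReal_ne_top]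
    have h5 : NN (μ.prod μ) p (fun z => ENNReal.ofReal (Gx n k z ^ n) * ENNReal.ofReal (Real.sqrt (YY k z)))
        ≤ ENNReal.ofReal (B0 / lam k) := by
      refine (NN_mul hp1 (hGm k).aemeasurable (hSm k)).trans ?_
      refine (mul_le_mul' (hNG k) (hNY k)).trans ?_
      rw [← ENNReal.mul_rpow_of_nonneg _ _ (by positivity), ← ENNReal.ofReal_mul (by positivity)]
      have h6 : C1 * lam k ^ c1 * (D2 / lam k ^ (c1 + 2 * p)) ≤ (B0 / lam k) ^ (2 * p) := by
        rw [div_pow, pow_add]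
        have e : C1 * lam k ^ c1 * (D2 / (lam k ^ c1 * lam k ^ (2 * p))) = C1 * D2 / lam k ^ (2 * p) := by
          field_simp
        rw [e]
        gcongr
        calc C1 * D2 ≤ B0 := by rw [hB0]; linarith
          _ ≤ B0 ^ (2 * p) := le_self_pow₀ hB01 (by omega)
      calc (ENNReal.ofReal (C1 * lam k ^ c1 * (D2 / lam k ^ (c1 + 2 * p)))) ^ (1 / (2 * (p : ℝ)))
          ≤ (ENNReal.ofReal ((B0 / lam k) ^ (2 * p))) ^ (1 / (2 * (p : ℝ))) :=
            ENNReal.rpow_le_rpow (ENNReal.ofReal_le_ofReal h6) (by positivity)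
        _ = ENNReal.ofReal (B0 / lam k) := by
            rw [ENNReal.ofReal_pow (by positivity), ← ENNReal.rpow_natCast, ← ENNReal.rpow_mul]
            have : (((2 * p : ℕ) : ℝ)) * (1 / (2 * (p : ℝ))) = 1 := by
              push_cast
              field_simp
            rw [this, ENNReal.rpow_one]
    calc ENNReal.ofReal (Cd * θ ^ n) * NN (μ.prod μ) p (fun z => ENNReal.ofReal (Gx n k z ^ n) *
          ENNReal.ofReal (Real.sqrt (YY k z)))
        ≤ ENNReal.ofReal (Cd * θ ^ n) * ENNReal.ofReal (B0 / lam k) := by gcongr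
      _ = _ := by
          rw [← ENNReal.ofReal_mul (by positivity), ← ENNReal.ofReal_mul (by positivity)]
          congr 1
          ring
  have hfm : ∀ k, AEMeasurable (f k) (μ.prod μ) := fun k =>
    ((hGm k).aemeasurable.mul (hSm k)).const_mul _
  refine ⟨fun z => ∑' k, f k z, AEMeasurable.ennreal_tsum hfm, hpt, ?_⟩
  calc NN (μ.prod μ) p (fun z => ∑' k, f k z)
      ≤ ∑' k, NN (μ.prod μ) p (f k) := NN_tsum hp1 f hfm
    _ ≤ ∑' k, ENNReal.ofReal (Cd * B0 * θ ^ n) * ENNReal.ofReal (1 / lam k) :=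
        ENNReal.tsum_le_tsum hNf
    _ = ENNReal.ofReal (Cd * B0 * θ ^ n) * ∑' k, ENNReal.ofReal (1 / lam k) := ENNReal.tsum_mul_left
    _ ≤ ENNReal.ofReal (Cd * B0 * θ ^ n) * 1 := by
        gcongr
        exact tsum_lam
    _ = _ := mul_one _

/-- the operators are contractions, so the differences are bounded -/
theorem dif_op_le (A : Om → (HH →L[ℝ] HH)) (hA : ∀ ω v, ‖A ω v‖ = ‖v‖) (i : ℕ) (θ : ℝ) (z : Om × Om)
    (w : HH) : ‖(dif i θ A z) w‖ ≤ 2 ^ i * ‖w‖ := by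
  rw [dif, _root_.sum_apply]
  refine (norm_sum_le _ _).trans ?_
  have h : ∀ l ∈ Finset.range (i + 1), ‖((((-1 : ℝ) ^ (i - l) * (i.choose l : ℝ)) •
      A (Real.cos (l * θ) • z.1 + Real.sin (l * θ) • z.2)) w)‖ ≤ (i.choose l : ℝ) * ‖w‖ := by
    intro l _
    rw [smul_apply, norm_smul, hA, norm_mul, norm_pow, norm_neg, norm_one, one_pow,
      one_mul, Real.norm_of_nonneg (by positivity)]
  refine (Finset.sum_le_sum h).trans (le_of_eq ?_)
  rw [← Finset.sum_mul]
  congr 1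
  exact_mod_cast Nat.sum_range_choose i

theorem dif_aesm {μ : Measure Om} (hμ : IsW μ) (V : Om → HH) (hV : AEStronglyMeasurable V μ) (c : ℕ) (θ : ℝ) :
    AEStronglyMeasurable (dif c θ V) (μ.prod μ) := by
  unfold dif
  refine Finset.aestronglyMeasurable_fun_sum _ fun l _ => ?_
  exact (hV.comp_measurePreserving (mp_r1 hμ (l * θ))).const_smul ((-1 : ℝ) ^ (c - l) * (c.choose l : ℝ))

end PkgAS

open PkgAS in
theorem pAS (μ : Measure Om) (hμ : IsW μ) (hSL : S_SL μ) (hDB : S_DB) (hMO : S_MO μ) (hMA : S_MA μ)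
    (hML : S_ML) : S_AS μ := by
  classical
  intro A hA S hUB hUS p hp J
  have hprob : IsProbabilityMeasure μ := by
    have := hμ.gauss
    infer_instance
  obtain ⟨⟨E, hE, hE2⟩, -, hMA3⟩ := hMA
  obtain ⟨hAn, -, hAm⟩ := hMA3 A hA
  obtain ⟨Ku, hKu⟩ := hUS p hp J
  obtain ⟨D0, hD0, hD⟩ := hUB 2 le_rfl
  have hp1' : 1 ≤ p := by omega
  have hp1 : (1 : ℝ) ≤ p := by exact_mod_cast hp1'
  have hpne : (p : ℝ≥0∞) ≠ 0 := by
    have : p ≠ 0 := by omega
    exact_mod_cast this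
  have heL : ∀ f : Om × Om → HH, eLpNorm f (p : ℝ≥0∞) (μ.prod μ) = NN (μ.prod μ) p (fun z => ‖f z‖ₑ) := by
    intro f
    rw [eLpNorm_eq_lintegral_rpow_enorm_toReal hpne (ENNReal.natCast_ne_top p)]
    simp [NN]
  refine ⟨Ku + J + 1, fun K hK => ?_⟩
  have hK1 : 1 ≤ K := by omega
  -- the constants of the terms
  have hterm : ∀ i ∈ Finset.range (K + 1), ∃ B : ℝ, 0 ≤ B ∧ ∀ V ∈ S, ∀ θ : ℝ, 0 < θ →
      θ ≤ 1 / (2 * (K : ℝ)) → ∃ g : Om × Om → ℝ≥0∞, AEMeasurable g (μ.prod μ) ∧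
        (∀ z, ‖(dif i θ A z) (dif (K - i) θ V (rt (i * θ) z))‖ₑ ≤ g z) ∧
        NN (μ.prod μ) p g ≤ ENNReal.ofReal (B * θ ^ J) := by
    intro i hi
    have hiK : i ≤ K := Nat.lt_succ_iff.1 (Finset.mem_range.1 hi)
    by_cases hcase : i < J ∨ i = 0
    · -- small `i`
      have hKi : Ku ≤ K - i := by omega
      have hKi1 : 1 ≤ K - i := by omega
      obtain ⟨D', hD', hD2⟩ := hKu (K - i) hKi
      refine ⟨2 ^ i * D', by positivity, fun V hV θ hθ hθK => ?_⟩
      have hVm : AEStronglyMeasurable V μ := (hD V hV).1.1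
      have hWm : AEStronglyMeasurable (fun z => dif (K - i) θ V (rt (i * θ) z)) (μ.prod μ) :=
        (dif_aesm hμ V hVm (K - i) θ).comp_measurePreserving (mp_rt hμ (i * θ))
      refine ⟨fun z => ENNReal.ofReal (2 ^ i) * ‖dif (K - i) θ V (rt (i * θ) z)‖ₑ,
        hWm.enorm.const_mul _, fun z => ?_, ?_⟩
      · show ‖(dif i θ A z) (dif (K - i) θ V (rt (i * θ) z))‖ₑ ≤
          ENNReal.ofReal (2 ^ i) * ‖dif (K - i) θ V (rt (i * θ) z)‖ₑ
        rw [← ofReal_norm, ← ofReal_norm, ← ENNReal.ofReal_mul (by positivity)]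
        exact ENNReal.ofReal_le_ofReal (dif_op_le A hAn i θ z _)
      · rw [NN_const_mul hp1 _ ENNReal.ofReal_ne_top]
        have h1 : NN (μ.prod μ) p (fun z => ‖dif (K - i) θ V (rt (i * θ) z)‖ₑ) =
            eLpNorm (dif (K - i) θ V) (p : ℝ≥0∞) (μ.prod μ) := by
          rw [← heL (fun z => dif (K - i) θ V (rt (i * θ) z))]
          exact eLpNorm_comp_measurePreserving (dif_aesm hμ V hVm (K - i) θ) (mp_rt hμ (i * θ))
        rw [h1]
        have hθ2 : θ ≤ 1 / (2 * ((K - i : ℕ) : ℝ)) := by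
          refine hθK.trans ?_
          have hc : (0 : ℝ) < ((K - i : ℕ) : ℝ) := by exact_mod_cast hKi1
          have hc2 : ((K - i : ℕ) : ℝ) ≤ K := by exact_mod_cast Nat.sub_le K i
          gcongr
        calc ENNReal.ofReal (2 ^ i) * eLpNorm (dif (K - i) θ V) (p : ℝ≥0∞) (μ.prod μ)
            ≤ ENNReal.ofReal (2 ^ i) * ENNReal.ofReal (D' * θ ^ J) := by
              gcongr
              exact hD2 V hV θ hθ hθ2
          _ = _ := by
              rw [← ENNReal.ofReal_mul (by positivity)]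
              congr 1
              ring
    · -- large `i`
      push Not at hcase
      obtain ⟨hJi, hi0⟩ := hcase
      obtain ⟨B, hB, hb⟩ := term_bound hμ hSL hDB hMO hML A hA E hE hE2 S hUB hUS p i hp1' (by omega)
      refine ⟨∑ l ∈ Finset.range (K - i + 1), ((K - i).choose l : ℝ) * B, by positivity,
        fun V hV θ hθ hθK => ?_⟩
      have hl : ∀ l ∈ Finset.range (K - i + 1), ∃ g : Om × Om → ℝ≥0∞, AEMeasurable g (μ.prod μ) ∧
          (∀ z, ‖(dif i θ A z) (V (r1 ((i + l : ℕ) * θ) z))‖ₑ ≤ g z) ∧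
          NN (μ.prod μ) p g ≤ ENNReal.ofReal (B * θ ^ i) := by
        intro l hl
        refine hb V hV l θ hθ ?_
        have h1 : ((i + l : ℕ) : ℝ) ≤ K := by
          have := Finset.mem_range.1 hl
          exact_mod_cast (by omega : i + l ≤ K)
        have hK0 : (0 : ℝ) < K := by exact_mod_cast hK1
        calc ((i + l : ℕ) : ℝ) * θ ≤ K * (1 / (2 * (K : ℝ))) := by gcongr
          _ = 1 / 2 := by field_simp
      choose! g hgm hg1 hg2 using hl
      refine ⟨fun z => ∑ l ∈ Finset.range (K - i + 1), ENNReal.ofReal ((K - i).choose l) * g l z,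
        Finset.aemeasurable_fun_sum _ fun l hl => (hgm l hl).const_mul _, fun z => ?_, ?_⟩
      · rw [dif_rt, map_sum]
        refine (enorm_sum_le _ _).trans (Finset.sum_le_sum fun l hl => ?_)
        rw [map_smul, enorm_smul, enorm_mul, enorm_pow, enorm_neg, enorm_one, one_pow, one_mul,
          Real.enorm_of_nonneg (by positivity)]
        gcongr
        exact hg1 l hl z
      · refine (NN_sum hp1 _ _ fun l hl => (hgm l hl).const_mul _).trans ?_
        have hθ1 : θ ≤ 1 := by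
          have hK0 : (1 : ℝ) ≤ K := by exact_mod_cast hK1
          refine hθK.trans ?_
          rw [div_le_one (by positivity)]
          linarith
        rw [Finset.sum_mul, ENNReal.ofReal_sum_of_nonneg fun l _ => by positivity]
        refine Finset.sum_le_sum fun l hl => ?_
        rw [NN_const_mul hp1 _ ENNReal.ofReal_ne_top, mul_assoc, ENNReal.ofReal_mul (by positivity)]
        gcongr
        refine (hg2 l hl).trans (ENNReal.ofReal_le_ofReal ?_)
        exact mul_le_mul_of_nonneg_left (pow_le_pow_of_le_one hθ.le hθ1 hJi) hB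
  choose! B hB hBB using hterm
  refine ⟨∑ i ∈ Finset.range (K + 1), (K.choose i : ℝ) * B i,
    Finset.sum_nonneg fun i hi => mul_nonneg (by positivity) (hB i hi), ?_⟩
  rintro W ⟨V, hV, rfl⟩ θ hθ hθK
  choose! g hgm hg1 hg2 using fun i hi => hBB i hi V hV θ hθ hθK
  rw [heL]
  have hpt : ∀ z, ‖dif K θ (fun ω => A ω (V ω)) z‖ₑ ≤
      ∑ i ∈ Finset.range (K + 1), ENNReal.ofReal (K.choose i) * g i z := by
    intro z
    rw [leib2]
    refine (enorm_sum_le _ _).trans (Finset.sum_le_sum fun i hi => ?_)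
    rw [enorm_smul, Real.enorm_of_nonneg (by positivity)]
    gcongr
    exact hg1 i hi z
  refine (NN_mono hp1 hpt).trans ?_
  refine (NN_sum hp1 _ _ fun i hi => (hgm i hi).const_mul _).trans ?_
  rw [ENNReal.ofReal_mul (Finset.sum_nonneg fun i hi => mul_nonneg (by positivity) (hB i hi)),
    ENNReal.ofReal_sum_of_nonneg fun i hi => mul_nonneg (by positivity) (hB i hi), Finset.sum_mul]
  refine Finset.sum_le_sum fun i hi => ?_
  rw [NN_const_mul hp1 _ ENNReal.ofReal_ne_top, ENNReal.ofReal_mul (by positivity), mul_assoc,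
    ← ENNReal.ofReal_mul (hB i hi)]
  gcongr
  exact hg2 i hi

end Pool.Agent.T2H68.UB
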