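import Pool.Agent.T2H68.UB.Stm

/-!
# Package BE : the pathwise integral

The integral is the limit of the left Riemann sums for the dyadic partitions. The estimates are proved
for the partial sums of the series `phi` (which are smooth functions of the time) and pass to the limit.
-/

set_option autoImplicit false
set_option linter.unusedSectionVars false
set_option linter.unusedVariables false

open MeasureTheory ProbabilityTheory Set Filter Finset
open scoped ENNReal NNReal Topology ComplexConjugate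

namespace Pool.Agent.T2H68.UB

namespace PkgBE

/-- left Riemann sums -/
noncomputable def RS (f w : ℝ → ℂ) (τ : ℕ → ℝ) (n : ℕ) : ℂ :=
  ∑ i ∈ Finset.range n, f (τ i) * (w (τ (i + 1)) - w (τ i))

/-- admissible partitions: the oscillation of `w` in each cell is at most `ε` -/
def Adm (w : ℝ → ℂ) (ε : ℝ) (τ : ℕ → ℝ) (n : ℕ) : Prop :=
  τ 0 = 0 ∧ τ n ≤ 1 ∧
    ∀ i < n, τ i ≤ τ (i + 1) ∧ ∀ s ∈ Set.Icc (τ i) (τ (i + 1)), ‖w s - w (τ (i + 1))‖ ≤ ε

lemma smooth_est {g g' w : ℝ → ℂ} (hg : ∀ x, HasDerivAt g (g' x) x) (hg' : Continuous g')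
    (hw : Continuous w) (hw0 : w 0 = 0) {ε : ℝ} (hε : 0 ≤ ε) (n : ℕ) (τ : ℕ → ℝ) (h0 : τ 0 = 0)
    (h : ∀ i < n, τ i ≤ τ (i + 1) ∧ ∀ s ∈ Set.Icc (τ i) (τ (i + 1)), ‖w s - w (τ (i + 1))‖ ≤ ε) :
    0 ≤ τ n ∧ ‖RS g w τ n - (g (τ n) * w (τ n) - ∫ s in (0 : ℝ)..τ n, w s * g' s)‖ ≤
      ε * ∫ s in (0 : ℝ)..τ n, ‖g' s‖ := by
  induction n with
  | zero => simp [RS, h0, hw0]
  | succ n ih =>
    obtain ⟨ih0, ih1⟩ := ih fun i hi => h i (by omega)
    obtain ⟨hab, hosc⟩ := h n (by omega)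
    refine ⟨ih0.trans hab, ?_⟩
    have hgi : ∀ a b : ℝ, IntervalIntegrable g' volume a b := fun a b => hg'.intervalIntegrable a b
    have hwi : ∀ a b : ℝ, IntervalIntegrable (fun s => w s * g' s) volume a b := fun a b =>
      (hw.mul hg').intervalIntegrable a b
    have hni : ∀ a b : ℝ, IntervalIntegrable (fun s => ‖g' s‖) volume a b := fun a b =>
      hg'.norm.intervalIntegrable a b
    have e1 : ∫ s in (0 : ℝ)..τ (n + 1), w s * g' s =
        (∫ s in (0 : ℝ)..τ n, w s * g' s) + ∫ s in τ n..τ (n + 1), w s * g' s :=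
      (intervalIntegral.integral_add_adjacent_intervals (hwi _ _) (hwi _ _)).symm
    have e2 : ∫ s in (0 : ℝ)..τ (n + 1), ‖g' s‖ =
        (∫ s in (0 : ℝ)..τ n, ‖g' s‖) + ∫ s in τ n..τ (n + 1), ‖g' s‖ :=
      (intervalIntegral.integral_add_adjacent_intervals (hni _ _) (hni _ _)).symm
    have e3 : ∫ s in τ n..τ (n + 1), g' s = g (τ (n + 1)) - g (τ n) :=
      intervalIntegral.integral_eq_sub_of_hasDerivAt (fun x _ => hg x) (hgi _ _)
    have e4 : ∫ s in τ n..τ (n + 1), (w s - w (τ (n + 1))) * g' s =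
        (∫ s in τ n..τ (n + 1), w s * g' s) - w (τ (n + 1)) * (g (τ (n + 1)) - g (τ n)) := by
      rw [← e3, ← intervalIntegral.integral_const_mul, ← intervalIntegral.integral_sub (hwi _ _)
        ((hgi _ _).const_mul _)]
      refine intervalIntegral.integral_congr fun s _ => ?_
      ring
    have e5 : RS g w τ (n + 1) = RS g w τ n + g (τ n) * (w (τ (n + 1)) - w (τ n)) := by
      unfold RS; rw [Finset.sum_range_succ]
    have e6 : RS g w τ (n + 1) - (g (τ (n + 1)) * w (τ (n + 1)) -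
        ∫ s in (0 : ℝ)..τ (n + 1), w s * g' s) =
        (RS g w τ n - (g (τ n) * w (τ n) - ∫ s in (0 : ℝ)..τ n, w s * g' s)) +
        ∫ s in τ n..τ (n + 1), (w s - w (τ (n + 1))) * g' s := by
      rw [e4, e5, e1]
      ring
    have e7 : ‖∫ s in τ n..τ (n + 1), (w s - w (τ (n + 1))) * g' s‖ ≤
        ε * ∫ s in τ n..τ (n + 1), ‖g' s‖ := by
      rw [← intervalIntegral.integral_const_mul]
      refine intervalIntegral.norm_integral_le_of_norm_le hab (ae_of_all _ fun s hs => ?_)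
        ((hni _ _).const_mul _)
      rw [norm_mul]
      exact mul_le_mul_of_nonneg_right (hosc s ⟨hs.1.le, hs.2⟩) (norm_nonneg _)
    rw [e6, e2, mul_add]
    exact (norm_add_le _ _).trans (add_le_add ih1 e7)

lemma two_smooth {g g' w : ℝ → ℂ} (hg : ∀ x, HasDerivAt g (g' x) x) (hg' : Continuous g')
    (hw : Continuous w) (hw0 : w 0 = 0) {ε M : ℝ} (hε : 0 ≤ ε)
    (hM : ∫ s in (0 : ℝ)..1, ‖g' s‖ ≤ M) {n n' : ℕ} {τ τ' : ℕ → ℝ} (h : Adm w ε τ n)
    (h' : Adm w ε τ' n') (he : τ n = τ' n') : ‖RS g w τ n - RS g w τ' n'‖ ≤ 2 * (ε * M) := by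
  obtain ⟨a0, a1⟩ := smooth_est hg hg' hw hw0 hε n τ h.1 h.2.2
  obtain ⟨b0, b1⟩ := smooth_est hg hg' hw hw0 hε n' τ' h'.1 h'.2.2
  have hni : ∀ a b : ℝ, IntervalIntegrable (fun s => ‖g' s‖) volume a b := fun a b =>
    hg'.norm.intervalIntegrable a b
  have h3 : ∫ s in (0 : ℝ)..τ n, ‖g' s‖ ≤ M := by
    refine le_trans ?_ hM
    rw [← intervalIntegral.integral_add_adjacent_intervals (hni 0 (τ n)) (hni (τ n) 1)]
    have : 0 ≤ ∫ s in τ n..1, ‖g' s‖ :=
      intervalIntegral.integral_nonneg h.2.1 fun s _ => norm_nonneg _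
    linarith
  have h4 := mul_le_mul_of_nonneg_left h3 hε
  rw [← he] at b1
  have e : RS g w τ n - RS g w τ' n' =
      (RS g w τ n - (g (τ n) * w (τ n) - ∫ s in (0 : ℝ)..τ n, w s * g' s)) -
      (RS g w τ' n' - (g (τ n) * w (τ n) - ∫ s in (0 : ℝ)..τ n, w s * g' s)) := by ring
  rw [e]
  refine (norm_sub_le _ _).trans ?_
  linarith

/-- the functions which are limits of smooth functions with bounded variation at most `M` -/
def BV (M : ℝ) (f : ℝ → ℂ) : Prop := ∃ g g' : ℕ → ℝ → ℂ, (∀ K x, HasDerivAt (g K) (g' K x) x) ∧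
  (∀ K, Continuous (g' K)) ∧ (∀ K, ∫ s in (0 : ℝ)..1, ‖g' K s‖ ≤ M) ∧
  ∀ x, Tendsto (fun K => g K x) atTop (𝓝 (f x))

lemma two_part {f w : ℝ → ℂ} {M : ℝ} (hf : BV M f) (hw : Continuous w) (hw0 : w 0 = 0) {ε : ℝ}
    (hε : 0 ≤ ε) {n n' : ℕ} {τ τ' : ℕ → ℝ} (h : Adm w ε τ n)
    (h' : Adm w ε τ' n') (he : τ n = τ' n') : ‖RS f w τ n - RS f w τ' n'‖ ≤ 2 * (ε * M) := by
  obtain ⟨g, g', h1, h2, h3, h4⟩ := hf
  have hlim : ∀ (τ : ℕ → ℝ) (n : ℕ), Tendsto (fun K => RS (g K) w τ n) atTop (𝓝 (RS f w τ n)) := by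
    intro τ n
    unfold RS
    exact tendsto_finsetSum _ fun i _ => (h4 _).mul_const _
  refine le_of_tendsto ((hlim τ n).sub (hlim τ' n')).norm (Eventually.of_forall fun K => ?_)
  exact two_smooth (h1 K) (h2 K) hw hw0 hε (h3 K) h h' he

/-! ### the dyadic sums as paths -/

/-- `x ↦ min x c` -/
noncomputable def clip (c : ℝ) : C(Set.Icc (0 : ℝ) 1, Set.Icc (0 : ℝ) 1) :=
  ⟨fun x => Set.projIcc 0 1 zero_le_one (min (x : ℝ) c), by
    exact continuous_projIcc.comp (continuous_subtype_val.min continuous_const)⟩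

/-- the increment of the path between `c` and `c'`, stopped -/
noncomputable def inc (c c' : ℝ) (ω : Om) : Om := ω.comp (clip c') - ω.comp (clip c)

/-- the Riemann sums of level `n` -/
noncomputable def Rn (u : ℝ → ℂ) (n : ℕ) (ω : Om) : Om :=
  ∑ i ∈ Finset.range (2 ^ n), (conj (u ((i : ℝ) / 2 ^ n))) •
    inc ((i : ℝ) / 2 ^ n) (((i + 1 : ℕ) : ℝ) / 2 ^ n) ω

lemma X_sub (t : ℝ) (a b : Om) : X t (a - b) = X t a - X t b := rfl

lemma X_smul (t : ℝ) (c : ℂ) (a : Om) : X t (c • a) = c * X t a := rfl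

lemma X_sum (t : ℝ) (s : Finset ℕ) (a : ℕ → Om) : X t (∑ i ∈ s, a i) = ∑ i ∈ s, X t (a i) := by
  unfold X
  rw [ContinuousMap.sum_apply]

lemma X_clip {t c : ℝ} (h0 : 0 ≤ t) (h1 : t ≤ 1) (ω : Om) :
    X t (ω.comp (clip c)) = X (min t c) ω := by
  unfold X clip
  simp only [ContinuousMap.comp_apply, ContinuousMap.coe_mk]
  congr 2
  rw [Set.projIcc_of_mem zero_le_one ⟨h0, h1⟩]

lemma X_Rn {t : ℝ} (h0 : 0 ≤ t) (h1 : t ≤ 1) (u : ℝ → ℂ) (n : ℕ) (ω : Om) :
    X t (Rn u n ω) = RS (fun s => conj (u s)) (fun s => X s ω)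
      (fun i => min t ((i : ℝ) / 2 ^ n)) (2 ^ n) := by
  unfold Rn RS
  rw [X_sum]
  refine Finset.sum_congr rfl fun i _ => ?_
  rw [X_smul]
  unfold inc
  rw [X_sub, X_clip h0 h1, X_clip h0 h1]
  by_cases hi : (i : ℝ) / 2 ^ n ≤ t
  · simp only [min_eq_right hi]
  · push Not at hi
    have h2 : (i : ℝ) / 2 ^ n ≤ ((i + 1 : ℕ) : ℝ) / 2 ^ n := by
      push_cast
      gcongr
      linarith
    simp only [min_eq_left hi.le, min_eq_left (hi.le.trans h2), sub_self, mul_zero]

lemma X_cont (ω : Om) : Continuous fun s => X s ω := ω.continuous.comp continuous_projIcc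

lemma X_unif (ω : Om) : UniformContinuous fun s => X s ω :=
  (CompactSpace.uniformContinuous_of_continuous ω.continuous).comp
    (LipschitzWith.projIcc zero_le_one).uniformContinuous

lemma X_lin_cont (t : ℝ) : Continuous fun ω : Om => X t ω := continuous_eval_const _

lemma norm_le_of_X {a : Om} {C : ℝ} (hC : 0 ≤ C) (h : ∀ t, 0 ≤ t → t ≤ 1 → ‖X t a‖ ≤ C) :
    ‖a‖ ≤ C := by
  rw [ContinuousMap.norm_le _ hC]
  intro x
  have := h x x.2.1 x.2.2
  unfold X at this
  rwa [Set.projIcc_val] at this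

/-- fine partitions are admissible -/
lemma adm_of_mesh {ω : Om} {ε δ : ℝ} (hδ : ∀ s t : ℝ, |s - t| ≤ δ → ‖X s ω - X t ω‖ ≤ ε) {n : ℕ}
    {τ : ℕ → ℝ} (h0 : τ 0 = 0) (h1 : τ n ≤ 1)
    (h : ∀ i < n, τ i ≤ τ (i + 1) ∧ τ (i + 1) - τ i ≤ δ) : Adm (fun s => X s ω) ε τ n := by
  refine ⟨h0, h1, fun i hi => ⟨(h i hi).1, fun s hs => hδ _ _ ?_⟩⟩
  have := (h i hi).2
  rw [abs_le]
  constructor <;> linarith [hs.1, hs.2]

lemma adm_dyadic {ω : Om} {ε δ : ℝ} (hδ : ∀ s t : ℝ, |s - t| ≤ δ → ‖X s ω - X t ω‖ ≤ ε) {n : ℕ}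
    (hn : 1 / 2 ^ n ≤ δ) {t : ℝ} (h0 : 0 ≤ t) (h1 : t ≤ 1) :
    Adm (fun s => X s ω) ε (fun i => min t ((i : ℝ) / 2 ^ n)) (2 ^ n) := by
  refine adm_of_mesh hδ ?_ ?_ ?_
  · simp [h0]
  · exact (min_le_left _ _).trans h1
  · intro i _
    have h2 : ((i + 1 : ℕ) : ℝ) / 2 ^ n = (i : ℝ) / 2 ^ n + 1 / 2 ^ n := by
      push_cast
      ring
    have h3 : (0 : ℝ) < 1 / 2 ^ n := by positivity
    rw [h2]
    constructor
    · exact min_le_min le_rfl (by linarith)
    · rcases le_total t ((i : ℝ) / 2 ^ n) with h4 | h4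
      · rw [min_eq_left h4, min_eq_left (by linarith)]
        linarith
      · rw [min_eq_right h4]
        have := min_le_right t ((i : ℝ) / 2 ^ n + 1 / 2 ^ n)
        linarith

lemma dyadic_end {t : ℝ} (h1 : t ≤ 1) (n : ℕ) :
    min t (((2 ^ n : ℕ) : ℝ) / 2 ^ n) = t := by
  rw [Nat.cast_pow, Nat.cast_ofNat, div_self (by positivity), min_eq_left h1]

/-- existence of the integral -/
theorem exists_b {u : ℝ → ℂ} {M : ℝ} (hM : 0 ≤ M) (hf : BV M fun s => conj (u s)) {ω : Om}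
    (hω : X 0 ω = 0) : ∃ b : Om, Tendsto (fun n => Rn u n ω) atTop (𝓝 b) ∧ IsRS u ω b := by
  have hunif : ∀ ε : ℝ, 0 < ε → ∃ δ : ℝ, 0 < δ ∧ ∀ s t : ℝ, |s - t| ≤ δ → ‖X s ω - X t ω‖ ≤ ε := by
    intro ε hε
    obtain ⟨δ, hδ, h⟩ := Metric.uniformContinuous_iff.1 (X_unif ω) ε hε
    refine ⟨δ / 2, by linarith, fun s t hst => ?_⟩
    have := h (a := s) (b := t) (by rw [Real.dist_eq]; linarith)
    rw [dist_eq_norm] at this
    exact this.le
  have hw := X_cont ω
  -- the dyadic sums are a Cauchy sequence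
  have hC : CauchySeq fun n => Rn u n ω := by
    rw [Metric.cauchySeq_iff']
    intro ε hε
    obtain ⟨ε', hε', hεM⟩ : ∃ ε' : ℝ, 0 < ε' ∧ 2 * (ε' * M) < ε := by
      refine ⟨ε / (2 * (M + 1)), by positivity, ?_⟩
      have h1 : 2 * (ε / (2 * (M + 1)) * M) = ε * (M / (M + 1)) := by
        field_simp
      rw [h1]
      have h2 : M / (M + 1) < 1 := by rw [div_lt_one (by linarith)]; linarith
      nlinarith
    obtain ⟨δ, hδ, hδ'⟩ := hunif ε' hε'
    obtain ⟨N, hN⟩ := exists_pow_lt_of_lt_one hδ (by norm_num : (1 / 2 : ℝ) < 1)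
    refine ⟨N, fun n hn => ?_⟩
    rw [dist_eq_norm]
    refine lt_of_le_of_lt (norm_le_of_X (by positivity) fun t h0 h1 => ?_) hεM
    have hm : ∀ m, N ≤ m → (1 : ℝ) / 2 ^ m ≤ δ := by
      intro m hm
      refine le_trans ?_ hN.le
      rw [one_div_pow]
      exact one_div_le_one_div_of_le (by positivity) (pow_le_pow_right₀ (by norm_num) hm)
    rw [X_sub, X_Rn h0 h1, X_Rn h0 h1]
    refine two_part hf hw hω hε'.le (adm_dyadic hδ' (hm n hn) h0 h1)
      (adm_dyadic hδ' (hm N le_rfl) h0 h1) ?_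
    rw [dyadic_end h1, dyadic_end h1]
  obtain ⟨b, hb⟩ := cauchySeq_tendsto_of_complete hC
  refine ⟨b, hb, fun ε hε => ?_⟩
  obtain ⟨ε', hε', hεM⟩ : ∃ ε' : ℝ, 0 < ε' ∧ 2 * (ε' * M) < ε := by
    refine ⟨ε / (2 * (M + 1)), by positivity, ?_⟩
    have h1 : 2 * (ε / (2 * (M + 1)) * M) = ε * (M / (M + 1)) := by
      field_simp
    rw [h1]
    have h2 : M / (M + 1) < 1 := by rw [div_lt_one (by linarith)]; linarith
    nlinarith
  obtain ⟨δ, hδ, hδ'⟩ := hunif ε' hε'
  obtain ⟨N, hN⟩ := exists_pow_lt_of_lt_one hδ (by norm_num : (1 / 2 : ℝ) < 1)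
  refine ⟨δ, hδ, fun n τ t0 t1 ht => ?_⟩
  have hadm := adm_of_mesh hδ' t0 t1 ht
  have hτ0 : 0 ≤ τ n := by
    have : ∀ m ≤ n, 0 ≤ τ m := by
      intro m
      induction m with
      | zero => intro _; rw [t0]
      | succ m ih => intro hm; exact (ih (by omega)).trans (ht m (by omega)).1
    exact this n le_rfl
  have hlim : Tendsto (fun m => RS (fun s => conj (u s)) (fun s => X s ω) τ n - X (τ n) (Rn u m ω))
      atTop (𝓝 (RS (fun s => conj (u s)) (fun s => X s ω) τ n - X (τ n) b)) :=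
    tendsto_const_nhds.sub (((X_lin_cont (τ n)).tendsto b).comp hb)
  refine le_of_tendsto hlim.norm ?_
  filter_upwards [eventually_ge_atTop N] with m hm
  refine le_trans ?_ hεM.le
  rw [X_Rn hτ0 t1]
  refine two_part hf hw hω hε'.le hadm (adm_dyadic hδ' ?_ hτ0 t1) ?_
  · refine le_trans ?_ hN.le
    rw [one_div_pow]
    exact one_div_le_one_div_of_le (by positivity) (pow_le_pow_right₀ (by norm_num) hm)
  · rw [dyadic_end t1]

/-! ### measurability -/

lemma inc_cont (c c' : ℝ) : Continuous (inc c c') :=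
  (ContinuousMap.continuous_precomp _).sub (ContinuousMap.continuous_precomp _)

lemma Rn_meas {u : ℝ → Om → ℂ} (hu : ∀ t, Measurable (u t)) (n : ℕ) :
    Measurable fun ω : Om => Rn (fun t => u t ω) n ω := by
  unfold Rn
  refine Finset.measurable_sum _ fun i _ => ?_
  exact ((Complex.continuous_conj.measurable.comp (hu _)).smul (inc_cont _ _).measurable)

lemma lim_meas {u : ℝ → Om → ℂ} (hu : ∀ t, Measurable (u t)) :
    Measurable fun ω : Om => limUnder atTop fun n => Rn (fun t => u t ω) n ω :=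
  (StronglyMeasurable.limUnder fun n => (Rn_meas hu n).stronglyMeasurable).measurable

/-! ### the bumps -/

/-- increasing part of the bump -/
noncomputable def bA (k j : ℕ) (t : ℝ) : ℝ := Real.smoothTransition (4 * ((t - st k j) / hh k) - 1)
/-- decreasing part of the bump -/
noncomputable def bB (k j : ℕ) (t : ℝ) : ℝ := Real.smoothTransition (4 - 4 * ((t - st k j) / hh k))

lemma bA_smooth (k j : ℕ) : ContDiff ℝ 1 (bA k j) := by
  unfold bA
  refine Real.smoothTransition.contDiff.comp ?_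
  fun_prop

lemma bB_smooth (k j : ℕ) : ContDiff ℝ 1 (bB k j) := by
  unfold bB
  refine Real.smoothTransition.contDiff.comp ?_
  fun_prop

lemma bA_mono {k : ℕ} (hk : 0 < hh k) (j : ℕ) : Monotone (bA k j) := by
  intro s t hst
  unfold bA
  refine Real.smoothTransition.monotone ?_
  have : (s - st k j) / hh k ≤ (t - st k j) / hh k := by gcongr
  linarith

lemma bB_anti {k : ℕ} (hk : 0 < hh k) (j : ℕ) : Antitone (bB k j) := by
  intro s t hst
  unfold bB
  refine Real.smoothTransition.monotone ?_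
  have : (s - st k j) / hh k ≤ (t - st k j) / hh k := by gcongr
  linarith

lemma bA_01 (k j : ℕ) (t : ℝ) : 0 ≤ bA k j t ∧ bA k j t ≤ 1 :=
  ⟨Real.smoothTransition.nonneg _, Real.smoothTransition.le_one _⟩

lemma bB_01 (k j : ℕ) (t : ℝ) : 0 ≤ bB k j t ∧ bB k j t ≤ 1 :=
  ⟨Real.smoothTransition.nonneg _, Real.smoothTransition.le_one _⟩

/-- the derivative of the bump -/
noncomputable def dbt (k j : ℕ) (t : ℝ) : ℝ :=
  deriv (bA k j) t * bB k j t + bA k j t * deriv (bB k j) t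

lemma bt_deriv (k j : ℕ) (t : ℝ) : HasDerivAt (bt k j) (dbt k j t) t := by
  have h1 : HasDerivAt (bA k j) (deriv (bA k j) t) t :=
    ((bA_smooth k j).differentiable (by norm_num) t).hasDerivAt
  have h2 : HasDerivAt (bB k j) (deriv (bB k j) t) t :=
    ((bB_smooth k j).differentiable (by norm_num) t).hasDerivAt
  have h3 := h1.mul h2
  have h4 : bt k j = bA k j * bB k j := by
    funext t
    rfl
  rw [h4]
  exact h3

lemma dbt_cont (k j : ℕ) : Continuous (dbt k j) := by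
  unfold dbt
  have h1 := (bA_smooth k j).continuous_deriv le_rfl
  have h2 := (bB_smooth k j).continuous_deriv le_rfl
  have h3 := (bA_smooth k j).continuous
  have h4 := (bB_smooth k j).continuous
  fun_prop

lemma dbt_le {k : ℕ} (hk : 0 < hh k) (j : ℕ) (t : ℝ) :
    |dbt k j t| ≤ deriv (bA k j) t - deriv (bB k j) t := by
  have h1 : 0 ≤ deriv (bA k j) t := (bA_mono hk j).deriv_nonneg
  have h2 : deriv (bB k j) t ≤ 0 := (bB_anti hk j).deriv_nonpos
  obtain ⟨a0, a1⟩ := bA_01 k j t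
  obtain ⟨b0, b1⟩ := bB_01 k j t
  unfold dbt
  rw [abs_le]
  constructor
  · nlinarith [mul_nonneg h1 b0]
  · nlinarith [mul_nonneg h1 b0]

lemma dbt_int {k : ℕ} (hk : 0 < hh k) (j : ℕ) : ∫ t in (0 : ℝ)..1, |dbt k j t| ≤ 2 := by
  have c1 := (bA_smooth k j).continuous_deriv le_rfl
  have c2 := (bB_smooth k j).continuous_deriv le_rfl
  have h1 : ∫ t in (0 : ℝ)..1, |dbt k j t| ≤
      ∫ t in (0 : ℝ)..1, (deriv (bA k j) t - deriv (bB k j) t) :=
    intervalIntegral.integral_mono_on zero_le_one ((dbt_cont k j).abs.intervalIntegrable _ _)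
      ((c1.sub c2).intervalIntegrable _ _) fun t _ => dbt_le hk j t
  refine h1.trans ?_
  rw [intervalIntegral.integral_sub (c1.intervalIntegrable _ _) (c2.intervalIntegrable _ _),
    intervalIntegral.integral_deriv_eq_sub
      (fun t _ => (bA_smooth k j).differentiable (by norm_num) t) (c1.intervalIntegrable _ _),
    intervalIntegral.integral_deriv_eq_sub
      (fun t _ => (bB_smooth k j).differentiable (by norm_num) t) (c2.intervalIntegrable _ _)]
  have a0 := bA_01 k j 0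
  have a1 := bA_01 k j 1
  have b0 := bB_01 k j 0
  have b1 := bB_01 k j 1
  linarith [a0.1, a1.2, b0.2, b1.1]

/-! ### the angle -/

/-- partial sums of the angle -/
noncomputable def phK (K : ℕ) (ω : Om) (t : ℝ) : ℝ :=
  ∑ k ∈ Finset.range K, ∑ j ∈ Finset.range (mm k), ang k j ω * bt k j t

/-- the derivative -/
noncomputable def dphK (K : ℕ) (ω : Om) (t : ℝ) : ℝ :=
  ∑ k ∈ Finset.range K, ∑ j ∈ Finset.range (mm k), ang k j ω * dbt k j t

lemma phK_deriv (K : ℕ) (ω : Om) (t : ℝ) : HasDerivAt (phK K ω) (dphK K ω t) t := by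
  have : HasDerivAt (fun t => ∑ k ∈ Finset.range K, ∑ j ∈ Finset.range (mm k),
      ang k j ω * bt k j t) (∑ k ∈ Finset.range K, ∑ j ∈ Finset.range (mm k),
      ang k j ω * dbt k j t) t :=
    HasDerivAt.fun_sum fun k _ => HasDerivAt.fun_sum fun j _ => (bt_deriv k j t).const_mul _
  exact this

lemma dphK_cont (K : ℕ) (ω : Om) : Continuous (dphK K ω) := by
  unfold dphK
  exact continuous_finsetSum _ fun k _ => continuous_finsetSum _ fun j _ =>
    (dbt_cont k j).const_mul _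

lemma dphK_int (hh0 : ∀ k, 0 < hh k) (K : ℕ) (ω : Om) : ∫ t in (0 : ℝ)..1, |dphK K ω t| ≤
    ∑ k ∈ Finset.range K, ∑ j ∈ Finset.range (mm k), |ang k j ω| * 2 := by
  have h1 : ∫ t in (0 : ℝ)..1, |dphK K ω t| ≤ ∫ t in (0 : ℝ)..1,
      ∑ k ∈ Finset.range K, ∑ j ∈ Finset.range (mm k), |ang k j ω| * |dbt k j t| := by
    refine intervalIntegral.integral_mono_on zero_le_one
      ((dphK_cont K ω).abs.intervalIntegrable _ _) (Continuous.intervalIntegrable ?_ _ _)
      fun t _ => ?_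
    · exact continuous_finsetSum _ fun k _ => continuous_finsetSum _ fun j _ =>
        (dbt_cont k j).abs.const_mul _
    · unfold dphK
      refine (Finset.abs_sum_le_sum_abs _ _).trans (Finset.sum_le_sum fun k _ => ?_)
      refine (Finset.abs_sum_le_sum_abs _ _).trans (Finset.sum_le_sum fun j _ => ?_)
      rw [abs_mul]
  refine h1.trans ?_
  have hi : ∀ k j, IntervalIntegrable (fun t => |ang k j ω| * |dbt k j t|) volume 0 1 := fun k j =>
    ((dbt_cont k j).abs.const_mul _).intervalIntegrable _ _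
  rw [intervalIntegral.integral_finsetSum fun k _ =>
    Continuous.intervalIntegrable (continuous_finsetSum _ fun j _ =>
        (dbt_cont k j).abs.const_mul _) _ _]
  refine Finset.sum_le_sum fun k _ => ?_
  rw [intervalIntegral.integral_finsetSum fun j _ => hi k j]
  refine Finset.sum_le_sum fun j _ => ?_
  rw [intervalIntegral.integral_const_mul]
  exact mul_le_mul_of_nonneg_left (dbt_int (hh0 k) j) (abs_nonneg _)

lemma conj_UU (x : ℝ) : conj (Complex.exp (Complex.I * (x : ℂ))) = Complex.exp (-Complex.I * x) := by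
  rw [← Complex.exp_conj, map_mul, Complex.conj_I, Complex.conj_ofReal]

/-- the integrand is a limit of smooth functions -/
theorem BV_UU (hh0 : ∀ k, 0 < hh k) (hb01 : ∀ k j t, 0 ≤ bt k j t ∧ bt k j t ≤ 1) {ω : Om}
    (hs : Summable fun k : ℕ => ∑ j ∈ Finset.range (mm k), |ang k j ω|) :
    BV (2 * ∑' k : ℕ, ∑ j ∈ Finset.range (mm k), |ang k j ω|) fun t => conj (UU t ω) := by
  refine ⟨fun K t => Complex.exp (-Complex.I * (phK K ω t : ℝ)),
    fun K t => Complex.exp (-Complex.I * (phK K ω t : ℝ)) * (-Complex.I * (dphK K ω t : ℝ)),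
    fun K x => ?_, fun K => ?_, fun K => ?_, fun x => ?_⟩
  · exact ((phK_deriv K ω x).ofReal_comp.const_mul (-Complex.I)).cexp
  · have h1 : Continuous (phK K ω) := by
      have : Differentiable ℝ (phK K ω) := fun t => (phK_deriv K ω t).differentiableAt
      exact this.continuous
    have h2 := dphK_cont K ω
    fun_prop
  · have h1 : ∀ s, ‖Complex.exp (-Complex.I * (phK K ω s : ℝ)) *
        (-Complex.I * (dphK K ω s : ℝ))‖ = |dphK K ω s| := by
      intro s
      have : -Complex.I * ((phK K ω s : ℝ) : ℂ) = ((-phK K ω s : ℝ) : ℂ) * Complex.I := by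
        push_cast; ring
      rw [norm_mul, this, Complex.norm_exp_ofReal_mul_I, one_mul, norm_mul, norm_neg,
        Complex.norm_I, one_mul, Complex.norm_real, Real.norm_eq_abs]
    simp only [h1]
    refine (dphK_int hh0 K ω).trans ?_
    have h2 : ∑ k ∈ Finset.range K, ∑ j ∈ Finset.range (mm k), |ang k j ω| * 2 =
        2 * ∑ k ∈ Finset.range K, ∑ j ∈ Finset.range (mm k), |ang k j ω| := by
      rw [Finset.mul_sum]
      refine Finset.sum_congr rfl fun k _ => ?_
      rw [← Finset.sum_mul, mul_comm]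
    rw [h2]
    refine mul_le_mul_of_nonneg_left (hs.sum_le_tsum _ fun k _ => ?_) (by norm_num)
    exact Finset.sum_nonneg fun j _ => abs_nonneg _
  · have h1 : Summable fun k : ℕ => ∑ j ∈ Finset.range (mm k), ang k j ω * bt k j x := by
      refine Summable.of_norm_bounded hs fun k => ?_
      rw [Real.norm_eq_abs]
      refine (Finset.abs_sum_le_sum_abs _ _).trans (Finset.sum_le_sum fun j _ => ?_)
      rw [abs_mul, abs_of_nonneg (hb01 k j x).1]
      exact mul_le_of_le_one_right (abs_nonneg _) (hb01 k j x).2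
    have h2 : Tendsto (fun K => phK K ω x) atTop (𝓝 (phi x ω)) := h1.hasSum.tendsto_sum_nat
    have h3 : Continuous fun r : ℝ => Complex.exp (-Complex.I * (r : ℂ)) := by fun_prop
    have h4 := (h3.tendsto _).comp h2
    have h5 : conj (UU x ω) = Complex.exp (-Complex.I * (phi x ω : ℝ)) := conj_UU _
    change Tendsto _ _ (𝓝 (conj (UU x ω)))
    rw [h5]
    exact h4

end PkgBE

open PkgBE in
theorem pBE (hEV : S_EV) (hSU : S_SU) (hCT : S_CT) : S_BE := by
  obtain ⟨hSU1, hSU2, -⟩ := hSU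
  obtain ⟨-, -, hCT3, -⟩ := hCT
  have hphi : ∀ t, Measurable fun ω : Om => phi t ω := by
    intro t
    have h : Measurable ((fun q : ℝ × Om => phi q.1 q.2) ∘ fun ω => (t, ω)) :=
      hCT3.comp measurable_prodMk_left
    exact h
  have hU : ∀ t, Measurable fun ω : Om => UU t ω := by
    intro t
    unfold UU
    have h3 : Continuous fun r : ℝ => Complex.exp (Complex.I * (r : ℂ)) := by fun_prop
    exact h3.measurable.comp (hphi t)
  refine ⟨fun ω => limUnder atTop fun n => Rn (fun t => UU t ω) n ω, lim_meas hU, fun ω h0 hs => ?_⟩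
  have hM : 0 ≤ 2 * ∑' k : ℕ, ∑ j ∈ Finset.range (mm k), |ang k j ω| :=
    mul_nonneg (by norm_num) (tsum_nonneg fun k => Finset.sum_nonneg fun j _ => abs_nonneg _)
  obtain ⟨b, hb, hRS⟩ := exists_b hM
    (BV_UU (fun k => (hSU1 k).2.1) (fun k j t => ⟨(hSU2 k j t).1, (hSU2 k j t).2.1⟩) hs) h0
  dsimp only
  rw [hb.limUnder_eq]
  exact hRS

end Pool.Agent.T2H68.UB
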