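import Pool.Agent.T2H68.UB.Stm

/-!
# Package BI: increments of the integral
-/

set_option autoImplicit false

open MeasureTheory ProbabilityTheory Set Filter Finset
open scoped ENNReal NNReal Topology ComplexConjugate

namespace Pool.Agent.T2H68.UB

namespace PkgBI

/-- the broken line through `(0,0)`, `(1,s)`, `(2,t)` -/
noncomputable def gl (s t x : ℝ) : ℝ := s * min x 1 + (t - s) * max (x - 1) 0

lemma min_max (x : ℝ) : min x 1 + max (x - 1) 0 = x := by
  rcases le_total x 1 with h | h
  · rw [min_eq_left h, max_eq_right (by linarith), add_zero]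
  · rw [min_eq_right h, max_eq_left (by linarith)]; ring

lemma gl_mono {s t : ℝ} (hs : 0 ≤ s) (hst : s ≤ t) {x y : ℝ} (hxy : x ≤ y) :
    gl s t x ≤ gl s t y := by
  unfold gl
  have h1 : min x 1 ≤ min y 1 := min_le_min_right _ hxy
  have h2 : max (x - 1) 0 ≤ max (y - 1) 0 := max_le_max_right _ (by linarith)
  have h3 := mul_le_mul_of_nonneg_left h1 hs
  have h4 := mul_le_mul_of_nonneg_left h2 (sub_nonneg.2 hst)
  linarith

lemma gl_sub {s t : ℝ} (hs : 0 ≤ s) (hst : s ≤ t) (ht : t ≤ 1) {x y : ℝ} (hxy : x ≤ y) :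
    gl s t y - gl s t x ≤ y - x := by
  unfold gl
  have h1 : min x 1 ≤ min y 1 := min_le_min_right _ hxy
  have h2 : max (x - 1) 0 ≤ max (y - 1) 0 := max_le_max_right _ (by linarith)
  have h3 : s * (min y 1 - min x 1) ≤ 1 * (min y 1 - min x 1) :=
    mul_le_mul_of_nonneg_right (by linarith) (by linarith)
  have h4 : (t - s) * (max (y - 1) 0 - max (x - 1) 0) ≤ 1 * (max (y - 1) 0 - max (x - 1) 0) :=
    mul_le_mul_of_nonneg_right (by linarith) (by linarith)
  have h5 := min_max x
  have h6 := min_max y
  linarith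

lemma gl_zero (s t : ℝ) : gl s t 0 = 0 := by
  unfold gl
  rw [min_eq_left (by norm_num), max_eq_right (by norm_num)]
  ring

lemma gl_one (s t : ℝ) : gl s t 1 = s := by
  unfold gl
  rw [min_self, max_eq_right (by norm_num)]
  ring

lemma gl_two (s t : ℝ) : gl s t 2 = t := by
  unfold gl
  rw [min_eq_right (by norm_num), max_eq_left (by norm_num)]
  ring

lemma gl_lt {s t : ℝ} (hst : s < t) {x : ℝ} (h1 : 1 ≤ x) (h2 : x < 2) : gl s t x < t := by
  unfold gl
  rw [min_eq_right h1, max_eq_left (by linarith)]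
  have : (t - s) * (x - 1) < (t - s) * 1 := mul_lt_mul_of_pos_left (by linarith) (by linarith)
  linarith

/-- increments of the integral over an interval on which the integrand is constant -/
theorem incr {u : ℝ → ℂ} {ω b : Om} (h : IsRS u ω b) {s t : ℝ} (hs : 0 ≤ s) (hst : s ≤ t)
    (ht : t ≤ 1) {c : ℂ} (hc : ∀ r, s ≤ r → r < t → u r = c) :
    X t b - X s b = conj c * (X t ω - X s ω) := by
  rcases hst.eq_or_lt with rfl | hlt
  · simp
  have key : ∀ ε > (0 : ℝ), ‖conj c * (X t ω - X s ω) - (X t b - X s b)‖ ≤ ε + ε := by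
    intro ε hε
    obtain ⟨δ, hδ, H⟩ := h ε hε
    obtain ⟨N, hN⟩ := exists_nat_gt (1 / δ)
    have hN0 : 0 < N := by
      rcases Nat.eq_zero_or_pos N with h0 | h0
      · rw [h0, Nat.cast_zero] at hN
        have : 0 < 1 / δ := by positivity
        linarith
      · exact h0
    have hNr : (0 : ℝ) < N := by exact_mod_cast hN0
    have hNδ : 1 / (N : ℝ) ≤ δ := by
      rw [div_lt_iff₀ hδ] at hN
      rw [div_le_iff₀ hNr]
      linarith
    set τ : ℕ → ℝ := fun i => gl s t ((i : ℝ) / N) with hτ
    have τ0 : τ 0 = 0 := by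
      simp only [hτ, Nat.cast_zero, zero_div]
      exact gl_zero s t
    have τN : τ N = s := by
      simp only [hτ]
      rw [div_self hNr.ne']
      exact gl_one s t
    have τ2 : τ (N + N) = t := by
      simp only [hτ]
      rw [show (((N + N : ℕ) : ℝ) / N) = 2 by push_cast; field_simp; norm_num]
      exact gl_two s t
    have hstep : ∀ i, τ i ≤ τ (i + 1) ∧ τ (i + 1) - τ i ≤ δ := by
      intro i
      have h1 : ((i : ℝ) / N) ≤ (((i + 1 : ℕ) : ℝ) / N) := by
        push_cast
        gcongr
        linarith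
      refine ⟨gl_mono hs hst h1, (gl_sub hs hst ht h1).trans ?_⟩
      push_cast
      rw [← sub_div]
      simpa using hNδ
    have h1 := H N τ τ0 (by rw [τN]; linarith) (fun i _ => hstep i)
    have h2 := H (N + N) τ τ0 (by rw [τ2]; exact ht) (fun i _ => hstep i)
    rw [τN] at h1
    rw [τ2, Finset.sum_range_add] at h2
    have h3 : ∑ i ∈ Finset.range N, conj (u (τ (N + i))) * (X (τ (N + i + 1)) ω - X (τ (N + i)) ω) =
        conj c * (X t ω - X s ω) := by
      have h4 : ∀ i ∈ Finset.range N, conj (u (τ (N + i))) *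
          (X (τ (N + i + 1)) ω - X (τ (N + i)) ω) =
            conj c * (X (τ (N + (i + 1))) ω - X (τ (N + i)) ω) := by
        intro i hi
        rw [Finset.mem_range] at hi
        have h5 : (1 : ℝ) ≤ ((N + i : ℕ) : ℝ) / N := by
          rw [le_div_iff₀ hNr]
          push_cast
          have : (0 : ℝ) ≤ i := Nat.cast_nonneg i
          linarith
        have h6 : ((N + i : ℕ) : ℝ) / N < 2 := by
          rw [div_lt_iff₀ hNr]
          push_cast
          have : (i : ℝ) < N := by exact_mod_cast hi
          linarith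
        rw [hc (τ (N + i)) ?_ ?_]
        · rfl
        · calc s = gl s t 1 := (gl_one s t).symm
            _ ≤ _ := gl_mono hs hst h5
        · exact gl_lt hlt h5 h6
      rw [Finset.sum_congr rfl h4, ← Finset.mul_sum,
        Finset.sum_range_sub (fun i => X (τ (N + i)) ω) N, τ2, Nat.add_zero, τN]
    have h3' : ∑ x ∈ Finset.range N, conj (u (τ (N + x))) *
        (X (τ (N + x + 1)) ω - X (τ (N + x)) ω) = conj c * (X t ω - X s ω) := h3
    rw [h3'] at h2
    set W := ∑ i ∈ Finset.range N, conj (u (τ i)) * (X (τ (i + 1)) ω - X (τ i) ω) with hW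
    calc ‖conj c * (X t ω - X s ω) - (X t b - X s b)‖ =
          ‖(W + conj c * (X t ω - X s ω) - X t b) - (W - X s b)‖ := by
            congr 1; ring
      _ ≤ _ := norm_sub_le _ _
      _ ≤ ε + ε := add_le_add h2 h1
  have h0 : ‖conj c * (X t ω - X s ω) - (X t b - X s b)‖ ≤ 0 := by
    refine le_of_forall_pos_le_add fun ε hε => ?_
    have := key (ε / 2) (by positivity)
    linarith
  have h1 := norm_le_zero_iff.1 h0
  exact (sub_eq_zero.1 h1).symm

end PkgBI

open PkgBI in
theorem pBI (hSU : S_SU) : S_BI := by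
  obtain ⟨s1, s2, -, s4, -, -, -⟩ := hSU
  intro ω b h
  have hslot : ∀ k j : ℕ, j < mm k → 0 ≤ st k j ∧ st k j + hh k ≤ 1 := by
    intro k j hj
    obtain ⟨-, hh0, hst⟩ := s1 k
    constructor
    · unfold st
      positivity
    · have h1 : st k j + hh k ≤ st k (mm k) := by
        unfold st
        have : ((j : ℝ) + 1) ≤ mm k := by exact_mod_cast hj
        have := mul_le_mul_of_nonneg_right this hh0.le
        linarith
      have h2 : (1 : ℝ) / 2 ^ k ≤ 1 := by
        rw [div_le_one (by positivity)]
        exact one_le_pow₀ (by norm_num)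
      rw [hst] at h1
      linarith
  have hA : ∀ k j : ℕ, j < mm k → wv k j b = wv k j ω ∧
      xv k j ω = Complex.exp (Complex.I * ((ang k j ω : ℝ) : ℂ)) * xv k j b := by
    intro k j hj
    obtain ⟨-, hh0, -⟩ := s1 k
    obtain ⟨p1, p2⟩ := hslot k j hj
    constructor
    · have h1 := incr h (s := st k j) (t := st k j + hh k / 4) p1 (by linarith) (by linarith)
        (c := 1) (by
          intro r hr1 hr2
          simp only [UU]
          rw [s4 k j r ω hj hr1 (by linarith), (s2 k j r).2.2.1 (by linarith)]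
          simp)
      unfold wv
      rw [h1, map_one, one_mul]
    · set c : ℂ := Complex.exp (Complex.I * ((ang k j ω : ℝ) : ℂ)) with hcd
      have h1 := incr h (s := st k j + hh k / 2) (t := st k j + 3 * hh k / 4) (by linarith)
        (by linarith) (by linarith) (c := c) (by
          intro r hr1 hr2
          simp only [UU]
          rw [s4 k j r ω hj (by linarith) (by linarith), (s2 k j r).2.2.2.2 hr1 (by linarith),
            mul_one])
      have h2 : c * conj c = 1 := by
        rw [Complex.mul_conj, hcd, mul_comm Complex.I, Complex.normSq_eq_norm_sq,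
          Complex.norm_exp_ofReal_mul_I]
        simp
      unfold xv
      rw [h1]
      calc ((2 / Real.sqrt (hh k) : ℝ) : ℂ) *
            (X (st k j + 3 * hh k / 4) ω - X (st k j + hh k / 2) ω) =
            (c * conj c) * (((2 / Real.sqrt (hh k) : ℝ) : ℂ) *
            (X (st k j + 3 * hh k / 4) ω - X (st k j + hh k / 2) ω)) := by rw [h2, one_mul]
        _ = _ := by ring
  have hB : ∀ k : ℕ, ph k ω = stepf k (ph (k + 1) ω) b := by
    intro k
    unfold stepf
    rw [ph]
    congr 1
    refine Finset.sum_congr rfl fun j hj => ?_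
    obtain ⟨h1, h2⟩ := hA k j (Finset.mem_range.1 hj)
    rw [h2, h1]
    rfl
  refine ⟨hA, hB, fun K => ?_⟩
  induction K with
  | zero => rfl
  | succ K ih =>
    rw [ih, hB K]
    rfl

end Pool.Agent.T2H68.UB
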