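import Pool.Agent.T2H68.UB.Stm

/-!
# Project UB, package CF: characteristic function of the integral.
-/

set_option autoImplicit false

open MeasureTheory ProbabilityTheory Set Filter Finset
open scoped ENNReal NNReal Topology ComplexConjugate

namespace Pool.Agent.T2H68.UB

open Pool.Agent.R876.WM

namespace PkgCF

lemma continuous_X (t : ℝ) : Continuous (X t) := by
  unfold X
  exact continuous_eval_const _

lemma measurable_X (t : ℝ) : Measurable (X t) := (continuous_X t).measurable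

lemma Fil_le (t : ℝ) : Fil t ≤ (instMeasurableSpaceOm : MeasurableSpace Om) := by
  refine iSup₂_le fun s _ => ?_
  exact (measurable_X s).comap_le

lemma Fil_mono {s t : ℝ} (h : s ≤ t) : Fil s ≤ Fil t := by
  refine iSup₂_le fun r hr => ?_
  exact le_iSup₂_of_le (f := fun (s : ℝ) (_ : s ≤ t) => MeasurableSpace.comap (X s) inferInstance)
    r (hr.trans h) le_rfl

lemma X_Fil {s t : ℝ} (h : s ≤ t) : Measurable[Fil t] (X s) := by
  have h1 : MeasurableSpace.comap (X s) inferInstance ≤ Fil t :=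
    le_iSup₂_of_le (f := fun (s : ℝ) (_ : s ≤ t) => MeasurableSpace.comap (X s) inferInstance)
      s h le_rfl
  exact (comap_measurable (X s)).mono h1 le_rfl

variable {μ : Measure Om}

/-- Fubini for independent functions -/
lemma indep_integral [IsProbabilityMeasure μ] {A : Om → ℂ × ℂ} {Z : Om → ℂ}
    (h : IndepFun A Z μ) (hA : Measurable A) (hZ : Measurable Z) {F : (ℂ × ℂ) × ℂ → ℂ}
    (hF : Measurable F) {C : ℝ} (hb : ∀ ω ω', ‖F (A ω, Z ω')‖ ≤ C) :
    ∫ ω, F (A ω, Z ω) ∂μ = ∫ ω, ∫ ω', F (A ω, Z ω') ∂μ ∂μ := by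
  have h1 : μ.map (fun ω => (A ω, Z ω)) = (μ.map A).prod (μ.map Z) :=
    (indepFun_iff_map_prod_eq_prod_map_map hA.aemeasurable hZ.aemeasurable).1 h
  rw [Measure.map_prod_map _ _ hA hZ] at h1
  have h2 : ∫ ω, F (A ω, Z ω) ∂μ = ∫ q, F q ∂(μ.map (fun ω => (A ω, Z ω))) := by
    rw [integral_map (hA.prodMk hZ).aemeasurable hF.aestronglyMeasurable]
  have hm : Measurable (Prod.map A Z) := (hA.comp measurable_fst).prodMk (hZ.comp measurable_snd)
  rw [h2, h1, integral_map hm.aemeasurable hF.aestronglyMeasurable]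
  have hint : Integrable (fun q : Om × Om => F (Prod.map A Z q)) (μ.prod μ) := by
    refine Integrable.of_bound (hF.comp hm).aestronglyMeasurable C ?_
    exact ae_of_all _ fun q => hb q.1 q.2
  rw [integral_prod _ hint]
  rfl

/-- one step -/
lemma one_step [IsProbabilityMeasure μ] (hIN : S_IN μ) {s t : ℝ} (hs : 0 ≤ s) (hst : s ≤ t)
    (ht : t ≤ 1) {Y u : Om → ℂ} (hY : Measurable[Fil s] Y) (hu : Measurable[Fil s] u) {C : ℝ}
    (hC : ∀ ω, ‖Y ω‖ ≤ C) (hn : ∀ ω, ‖u ω‖ = 1) (ξ : ℂ) :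
    ∫ ω, Y ω * Complex.exp (Complex.I *
      (((conj ξ * (conj (u ω) * (X t ω - X s ω))).re : ℝ) : ℂ)) ∂μ =
      (∫ ω, Y ω ∂μ) * ((Real.exp (-(‖ξ‖ ^ 2 * (t - s) / 2)) : ℝ) : ℂ) := by
  have hind := hIN.1 s t hs hst ht
  have hA : Measurable[Fil s] fun ω => (Y ω, u ω) := hY.prodMk hu
  have hI : IndepFun (fun ω => (Y ω, u ω)) (fun ω => X t ω - X s ω) μ := by
    refine indep_of_indep_of_le_left hind ?_
    exact hA.comap_le
  have hZ : Measurable fun ω => X t ω - X s ω := (measurable_X t).sub (measurable_X s)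
  have hF : Measurable fun q : (ℂ × ℂ) × ℂ => q.1.1 * Complex.exp (Complex.I *
      (((conj ξ * (conj (q.1.2) * q.2)).re : ℝ) : ℂ)) := by
    have hc : Continuous fun q : (ℂ × ℂ) × ℂ => q.1.1 * Complex.exp (Complex.I *
      (((conj ξ * (conj (q.1.2) * q.2)).re : ℝ) : ℂ)) := by fun_prop
    exact hc.measurable
  have hb : ∀ ω ω' : Om, ‖(fun q : (ℂ × ℂ) × ℂ => q.1.1 * Complex.exp (Complex.I *
      (((conj ξ * (conj (q.1.2) * q.2)).re : ℝ) : ℂ))) ((Y ω, u ω), X t ω' - X s ω')‖ ≤ C := by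
    intro ω ω'
    simp only [norm_mul]
    rw [mul_comm Complex.I, Complex.norm_exp_ofReal_mul_I, mul_one]
    exact hC ω
  have hmain := indep_integral hI (hA.mono (Fil_le s) le_rfl) hZ hF hb
  simp only at hmain
  rw [hmain, ← integral_mul_const]
  refine integral_congr_ae (ae_of_all _ fun ω => ?_)
  simp only
  rw [integral_const_mul]
  congr 1
  have h3 := hIN.2.1 s t (ξ * u ω) hs hst ht
  rw [norm_mul, hn ω, mul_one] at h3
  rw [← h3]
  refine integral_congr_ae (ae_of_all _ fun ω' => ?_)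
  simp only [map_mul]
  congr 4
  ring

/-- discrete version -/
lemma discrete [IsProbabilityMeasure μ] (hIN : S_IN μ) {U : ℝ → Om → ℂ}
    (hn : ∀ t ω, ‖U t ω‖ = 1) (hU : ∀ t : ℝ, 0 ≤ t → t ≤ 1 → Measurable[Fil t] (U t))
    (ξ : ℕ → ℂ) {τ : ℕ → ℝ} {Y : Om → ℂ} {C : ℝ} (h0 : 0 ≤ τ 0)
    (hY : Measurable[Fil (τ 0)] Y) (hC : ∀ ω, ‖Y ω‖ ≤ C) (n : ℕ) (hmono : ∀ i < n, τ i ≤ τ (i + 1))
    (h1 : τ n ≤ 1) :
    ∫ ω, Y ω * Complex.exp (Complex.I * ((∑ i ∈ Finset.range n,
        (conj (ξ i) * (conj (U (τ i) ω) * (X (τ (i + 1)) ω - X (τ i) ω))).re : ℝ) : ℂ)) ∂μ =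
      (∫ ω, Y ω ∂μ) *
        ((Real.exp (-(∑ i ∈ Finset.range n, ‖ξ i‖ ^ 2 * (τ (i + 1) - τ i) / 2)) : ℝ) : ℂ) := by
  induction n with
  | zero => simp
  | succ n ih =>
    have hle : τ n ≤ τ (n + 1) := hmono n (Nat.lt_succ_self n)
    have hmono' : ∀ i < n, τ i ≤ τ (i + 1) := fun i hi => hmono i (by omega)
    have hmm : ∀ i j, i ≤ j → j ≤ n → τ i ≤ τ j := by
      intro i j hij
      induction j, hij using Nat.le_induction with
      | base => intro _; exact le_rfl
      | succ j hij ihj =>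
        intro hj
        exact (ihj (by omega)).trans (hmono' j (by omega))
    have hpos : 0 ≤ τ n := h0.trans (hmm 0 n (Nat.zero_le _) le_rfl)
    have ih' := ih hmono' (hle.trans h1)
    set E : Om → ℝ := fun ω => ∑ i ∈ Finset.range n,
        (conj (ξ i) * (conj (U (τ i) ω) * (X (τ (i + 1)) ω - X (τ i) ω))).re with hE
    have hEm : Measurable[Fil (τ n)] E := by
      refine Finset.measurable_sum _ fun i hi => ?_
      have hi' := Finset.mem_range.1 hi
      have m1 : Measurable[Fil (τ n)] (U (τ i)) :=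
        (hU (τ i) (h0.trans (hmm 0 i (Nat.zero_le _) hi'.le))
          ((hmm i n hi'.le le_rfl).trans (hle.trans h1))).mono (Fil_mono (hmm i n hi'.le le_rfl)) le_rfl
      have m2 : Measurable[Fil (τ n)] (X (τ (i + 1))) := X_Fil (hmm (i + 1) n hi' le_rfl)
      have m3 : Measurable[Fil (τ n)] (X (τ i)) := X_Fil (hmm i n hi'.le le_rfl)
      have m4 : Measurable[Fil (τ n)] fun ω => conj (U (τ i) ω) :=
        Complex.continuous_conj.measurable.comp m1
      exact Complex.measurable_re.comp (measurable_const.mul (m4.mul (m2.sub m3)))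
    have hYE : Measurable[Fil (τ n)] fun ω => Y ω * Complex.exp (Complex.I * ((E ω : ℝ) : ℂ)) := by
      have m1 : Measurable[Fil (τ n)] Y := hY.mono (Fil_mono (hmm 0 n (Nat.zero_le _) le_rfl)) le_rfl
      refine m1.mul ?_
      exact Complex.measurable_exp.comp (measurable_const.mul (Complex.measurable_ofReal.comp hEm))
    have hCE : ∀ ω, ‖Y ω * Complex.exp (Complex.I * ((E ω : ℝ) : ℂ))‖ ≤ C := by
      intro ω
      rw [norm_mul, mul_comm Complex.I, Complex.norm_exp_ofReal_mul_I, mul_one]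
      exact hC ω
    have hstep := one_step hIN hpos hle h1 hYE (hU (τ n) hpos (hle.trans h1)) hCE (hn (τ n)) (ξ n)
    rw [ih'] at hstep
    rw [Finset.sum_range_succ (fun i => ‖ξ i‖ ^ 2 * (τ (i + 1) - τ i) / 2), neg_add, Real.exp_add]
    push_cast
    rw [← mul_assoc]
    push_cast at hstep
    rw [← hstep]
    refine integral_congr_ae (ae_of_all _ fun ω => ?_)
    simp only
    rw [mul_assoc, ← Complex.exp_add, ← mul_add, ← Complex.ofReal_add, ← Complex.ofReal_sum,
      Finset.sum_range_succ]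

/-! ### partitions -/

/-- the partition with `m` equal cells in every interval `[ρ a, ρ (a+1)]` -/
noncomputable def tau (m : ℕ) (ρ : ℕ → ℝ) (j : ℕ) : ℝ :=
  ∑ i ∈ Finset.range j, (ρ (i / m + 1) - ρ (i / m)) / m

lemma tau_succ (m : ℕ) (ρ : ℕ → ℝ) (j : ℕ) :
    tau m ρ (j + 1) - tau m ρ j = (ρ (j / m + 1) - ρ (j / m)) / m := by
  unfold tau
  rw [Finset.sum_range_succ]
  ring

lemma div_block {m a b : ℕ} (hb : b < m) : (m * a + b) / m = a := by
  rw [Nat.mul_add_div (by omega), Nat.div_eq_of_lt hb, add_zero]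

lemma tau_block {m : ℕ} (hm : 1 ≤ m) (ρ : ℕ → ℝ) (a : ℕ) :
    tau m ρ (m * a) = ρ a - ρ 0 := by
  induction a with
  | zero => simp [PkgCF.tau]
  | succ a ih =>
    have h : tau m ρ (m * (a + 1)) = tau m ρ (m * a) +
        ∑ b ∈ Finset.range m, (ρ ((m * a + b) / m + 1) - ρ ((m * a + b) / m)) / m := by
      unfold tau
      rw [mul_add, mul_one, Finset.sum_range_add]
    have h2 : ∑ b ∈ Finset.range m, (ρ ((m * a + b) / m + 1) - ρ ((m * a + b) / m)) / m =
        ρ (a + 1) - ρ a := by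
      have : ∀ b ∈ Finset.range m, (ρ ((m * a + b) / m + 1) - ρ ((m * a + b) / m)) / m =
          (ρ (a + 1) - ρ a) / m := by
        intro b hb
        rw [div_block (Finset.mem_range.1 hb)]
      rw [Finset.sum_congr rfl this, Finset.sum_const, Finset.card_range, nsmul_eq_mul]
      have hm0 : (m : ℝ) ≠ 0 := by
        have : (1 : ℝ) ≤ m := by exact_mod_cast hm
        linarith
      field_simp
    rw [h, h2, ih]
    ring

/-- summation by blocks -/
lemma blocks {M : Type*} [AddCommMonoid M] (m N : ℕ) (g : ℕ → ℕ → M) :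
    ∑ i ∈ Finset.range (m * N), g (i / m) i =
      ∑ l ∈ Finset.range N, ∑ b ∈ Finset.range m, g l (m * l + b) := by
  induction N with
  | zero => simp
  | succ N ih =>
    rw [mul_add, mul_one, Finset.sum_range_add, ih, Finset.sum_range_succ]
    congr 1
    refine Finset.sum_congr rfl fun b hb => ?_
    rw [div_block (Finset.mem_range.1 hb)]

/-- Riemann sums up to an index -/
noncomputable def RR (u : ℝ → ℂ) (ω : Om) (τ : ℕ → ℝ) (n : ℕ) : ℂ :=
  ∑ i ∈ Finset.range n, conj (u (τ i)) * (X (τ (i + 1)) ω - X (τ i) ω)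

lemma RR_diff (u : ℝ → ℂ) (ω : Om) (τ : ℕ → ℝ) (n m : ℕ) :
    RR u ω τ (n + m) - RR u ω τ n =
      ∑ b ∈ Finset.range m, conj (u (τ (n + b))) * (X (τ (n + b + 1)) ω - X (τ (n + b)) ω) := by
  unfold RR
  rw [Finset.sum_range_add]
  ring

/-- the Riemann sums converge -/
lemma tendsto_RR {u : ℝ → ℂ} {ω b : Om} (h : IsRS u ω b) {ρ : ℕ → ℝ} {A : ℕ} (h0 : ρ 0 = 0)
    (hmono : ∀ a < A, ρ a ≤ ρ (a + 1)) (h1 : ρ A ≤ 1) {a : ℕ} (ha : a ≤ A) :
    Tendsto (fun m : ℕ => RR u ω (tau m ρ) (m * a)) atTop (𝓝 (X (ρ a) b)) := by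
  have hmm : ∀ i j, i ≤ j → j ≤ A → ρ i ≤ ρ j := by
    intro i j hij
    induction j, hij using Nat.le_induction with
    | base => intro _; exact le_rfl
    | succ j hij ihj =>
      intro hj
      exact (ihj (by omega)).trans (hmono j (by omega))
  rw [Metric.tendsto_atTop]
  intro ε hε
  obtain ⟨δ, hδ, hR⟩ := h (ε / 2) (by positivity)
  obtain ⟨M, hM⟩ := exists_nat_gt (1 / δ)
  refine ⟨max M 1, fun m hm => ?_⟩
  have hm1 : 1 ≤ m := le_trans (le_max_right _ _) hm
  have hmM : M ≤ m := le_trans (le_max_left _ _) hm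
  have hmp : (0 : ℝ) < m := by exact_mod_cast hm1
  have hmδ : 1 / (m : ℝ) ≤ δ := by
    rw [div_le_iff₀ hmp]
    have h2 : 1 / δ < m := lt_of_lt_of_le hM (by exact_mod_cast hmM)
    rw [div_lt_iff₀ hδ] at h2
    linarith
  have hblk : tau m ρ (m * a) = ρ a := by rw [tau_block hm1, h0, sub_zero]
  have h3 := hR (m * a) (tau m ρ) (by simp [PkgCF.tau]) (by rw [hblk]; exact (hmm a A ha le_rfl).trans h1)
    (by
      intro i hi
      have hq : i / m < a := Nat.div_lt_of_lt_mul hi
      have h4 := tau_succ m ρ i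
      have h5 : ρ (i / m) ≤ ρ (i / m + 1) := hmono _ (lt_of_lt_of_le hq ha)
      have h6 : ρ (i / m + 1) ≤ 1 := (hmm (i / m + 1) A (by omega) le_rfl).trans h1
      have h7 : 0 ≤ ρ (i / m) := by
        rw [← h0]
        exact hmm 0 (i / m) (Nat.zero_le _) (by omega)
      constructor
      · have : 0 ≤ (ρ (i / m + 1) - ρ (i / m)) / m := div_nonneg (by linarith) hmp.le
        linarith
      · rw [h4]
        refine le_trans ?_ hmδ
        exact div_le_div_of_nonneg_right (by linarith) hmp.le)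
  rw [hblk] at h3
  rw [dist_eq_norm]
  exact lt_of_le_of_lt h3 (by linarith)

end PkgCF

open PkgCF in
/-- Package CF -/
theorem pCF (μ : Measure Om) (hμ : IsW μ) (hIN : S_IN μ) : S_CF μ := by
  have := hμ.gauss
  intro U β hInt N r ξ Y C hmono h0 h1 hY hC
  set ρ : ℕ → ℝ := fun a => if a = 0 then 0 else r (a - 1) with hρ
  have hρ0 : ρ 0 = 0 := by simp [hρ]
  have hρs : ∀ a, ρ (a + 1) = r a := by
    intro a
    simp [hρ]
  have hρm : ∀ a < N + 1, ρ a ≤ ρ (a + 1) := by
    intro a ha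
    rcases Nat.eq_zero_or_pos a with rfl | hpos
    · rw [hρ0, hρs]
      exact h0
    · obtain ⟨b, rfl⟩ : ∃ b, a = b + 1 := ⟨a - 1, by omega⟩
      rw [hρs, hρs]
      exact hmono b (by omega)
  have hρ1 : ρ (N + 1) ≤ 1 := by rw [hρs]; exact h1
  have hρmm : ∀ i j, i ≤ j → j ≤ N + 1 → ρ i ≤ ρ j := by
    intro i j hij
    induction j, hij using Nat.le_induction with
    | base => intro _; exact le_rfl
    | succ j hij ihj =>
      intro hj
      exact (ihj (by omega)).trans (hρm j (by omega))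
  -- the approximations
  set G : ℕ → Om → ℝ := fun m ω => ∑ l ∈ Finset.range N, (conj (ξ l) *
      (RR (fun t => U t ω) ω (tau m ρ) (m * (l + 2)) -
        RR (fun t => U t ω) ω (tau m ρ) (m * (l + 1)))).re with hG
  set G' : Om → ℝ := fun ω => ∑ l ∈ Finset.range N,
        (conj (ξ l) * (X (r (l + 1)) (β ω) - X (r l) (β ω))).re with hG'
  have hlim : ∀ᵐ ω ∂μ, Tendsto (fun m => G m ω) atTop (𝓝 (G' ω)) := by
    filter_upwards [hInt.rs] with ω hω
    refine tendsto_finsetSum _ fun l hl => ?_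
    have hl' := Finset.mem_range.1 hl
    have t1 := tendsto_RR hω hρ0 hρm hρ1 (a := l + 2) (by omega)
    have t2 := tendsto_RR hω hρ0 hρm hρ1 (a := l + 1) (by omega)
    rw [hρs] at t1 t2
    exact (Complex.continuous_re.tendsto _).comp (tendsto_const_nhds.mul (t1.sub t2))
  -- blocks
  have hGm : ∀ m ω, G m ω = ∑ i ∈ Finset.range (m * N), (conj (ξ (i / m)) *
      (conj (U (tau m ρ (m + i)) ω) * (X (tau m ρ (m + i + 1)) ω - X (tau m ρ (m + i)) ω))).re := by
    intro m ω
    rw [blocks m N (fun l i => (conj (ξ l) *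
      (conj (U (tau m ρ (m + i)) ω) * (X (tau m ρ (m + i + 1)) ω - X (tau m ρ (m + i)) ω))).re)]
    refine Finset.sum_congr rfl fun l _ => ?_
    rw [show m * (l + 2) = m * (l + 1) + m by ring, RR_diff, Finset.mul_sum, Complex.re_sum]
    refine Finset.sum_congr rfl fun b _ => ?_
    rw [show m * (l + 1) + b = m + (m * l + b) by ring]
  have htau : ∀ m : ℕ, 1 ≤ m → ∀ a, tau m ρ (m * a) = ρ a := by
    intro m hm a
    rw [tau_block hm, hρ0, sub_zero]
  have hval : ∀ m : ℕ, 1 ≤ m → ∫ ω, Y ω * Complex.exp (Complex.I * ((G m ω : ℝ) : ℂ)) ∂μ =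
      (∫ ω, Y ω ∂μ) *
        ((Real.exp (-(∑ l ∈ Finset.range N, ‖ξ l‖ ^ 2 * (r (l + 1) - r l) / 2)) : ℝ) : ℂ) := by
    intro m hm
    have hmp : (0 : ℝ) < m := by exact_mod_cast hm
    have e1 : tau m ρ (m + 0) = r 0 := by
      have := htau m hm 1
      rw [mul_one] at this
      rw [add_zero, this]
      exact hρs 0
    have e2 : tau m ρ (m + m * N) = ρ (N + 1) := by
      rw [show m + m * N = m * (N + 1) by ring]
      exact htau m hm (N + 1)
    have hY' : Measurable[Fil (PkgCF.tau m ρ (m + 0))] Y := by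
      rw [e1]
      exact hY
    have h0' : 0 ≤ PkgCF.tau m ρ (m + 0) := by
      rw [e1]
      exact h0
    have hd := discrete hIN hInt.norm hInt.adapted (fun i => ξ (i / m)) (τ := fun i => tau m ρ (m + i))
      (Y := Y) (C := C) h0' hY' hC (m * N)
      (by
        intro i hi
        have h4 := tau_succ m ρ (m + i)
        have hq : (m + i) / m < N + 1 := by
          refine Nat.div_lt_of_lt_mul ?_
          calc m + i < m + m * N := by omega
            _ = m * (N + 1) := by ring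
        have h5 := hρm _ hq
        have : 0 ≤ (ρ ((m + i) / m + 1) - ρ ((m + i) / m)) / m := div_nonneg (by linarith) hmp.le
        show tau m ρ (m + i) ≤ tau m ρ (m + (i + 1))
        rw [← add_assoc]
        linarith)
      (by
        show PkgCF.tau m ρ (m + m * N) ≤ 1
        rw [e2]
        exact hρ1)
    simp only [← add_assoc] at hd
    simp_rw [hGm]
    rw [hd]
    congr 4
    have hb := blocks m N (fun l i => ‖ξ l‖ ^ 2 * (tau m ρ (m + i + 1) - tau m ρ (m + i)) / 2)
    rw [hb]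
    refine Finset.sum_congr rfl fun l _ => ?_
    have h6 : ∀ b, ‖ξ l‖ ^ 2 * (tau m ρ (m + (m * l + b) + 1) - tau m ρ (m + (m * l + b))) / 2 =
        ‖ξ l‖ ^ 2 / 2 * (tau m ρ (m * (l + 1) + (b + 1)) - tau m ρ (m * (l + 1) + b)) := by
      intro b
      rw [show m + (m * l + b) + 1 = m * (l + 1) + (b + 1) by ring,
        show m + (m * l + b) = m * (l + 1) + b by ring]
      ring
    simp_rw [h6]
    rw [← Finset.mul_sum, Finset.sum_range_sub (fun b => tau m ρ (m * (l + 1) + b)),
      show m * (l + 1) + m = m * (l + 2) by ring, add_zero, htau m hm, htau m hm, hρs, hρs]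
    ring
  -- passage to the limit
  have hYm : Measurable Y := hY.mono (Fil_le _) le_rfl
  have hUm : ∀ t, 0 ≤ t → t ≤ 1 → Measurable (U t) := fun t h0 h1 =>
    (hInt.adapted t h0 h1).mono (Fil_le _) le_rfl
  have hlim2 : Tendsto (fun m => ∫ ω, Y ω * Complex.exp (Complex.I * ((G (m + 1) ω : ℝ) : ℂ)) ∂μ)
      atTop (𝓝 (∫ ω, Y ω * Complex.exp (Complex.I * ((G' ω : ℝ) : ℂ)) ∂μ)) := by
    refine tendsto_integral_of_dominated_convergence (fun _ => C) ?_ (integrable_const C) ?_ ?_
    · intro m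
      have hGmeas : Measurable (G (m + 1)) := by
        have : G (m + 1) = fun ω => ∑ i ∈ Finset.range ((m + 1) * N), (conj (ξ (i / (m + 1))) *
            (conj (U (tau (m + 1) ρ ((m + 1) + i)) ω) * (X (tau (m + 1) ρ ((m + 1) + i + 1)) ω -
              X (tau (m + 1) ρ ((m + 1) + i)) ω))).re := by
          funext ω
          exact hGm (m + 1) ω
        rw [this]
        refine Finset.measurable_sum _ fun i hi => ?_
        have hi' := Finset.mem_range.1 hi
        have hm1 : 1 ≤ m + 1 := by omega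
        have hmp : (0 : ℝ) < ((m + 1 : ℕ) : ℝ) := by positivity
        have hmon : ∀ i j, i ≤ j → j ≤ (m + 1) * (N + 1) → tau (m + 1) ρ i ≤ tau (m + 1) ρ j := by
          intro i j hij
          induction j, hij using Nat.le_induction with
          | base => intro _; exact le_rfl
          | succ j hij ihj =>
            intro hj
            refine (ihj (by omega)).trans ?_
            have h4 := tau_succ (m + 1) ρ j
            have hq : j / (m + 1) < N + 1 := Nat.div_lt_of_lt_mul (by omega)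
            have h5 := hρm _ hq
            have : 0 ≤ (ρ (j / (m + 1) + 1) - ρ (j / (m + 1))) / ((m + 1 : ℕ) : ℝ) :=
              div_nonneg (by linarith) hmp.le
            linarith
        have hle1 : m + 1 + i ≤ (m + 1) * (N + 1) := by
          have : (m + 1) * (N + 1) = (m + 1) * N + (m + 1) := by ring
          omega
        have b1 : 0 ≤ tau (m + 1) ρ (m + 1 + i) := by
          have h7 := hmon 0 (m + 1 + i) (Nat.zero_le _) hle1
          have h8 : tau (m + 1) ρ 0 = 0 := by simp [PkgCF.tau]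
          rwa [h8] at h7
        have b2 : tau (m + 1) ρ (m + 1 + i) ≤ 1 := by
          have h7 := hmon (m + 1 + i) ((m + 1) * (N + 1)) hle1 le_rfl
          rw [htau (m + 1) hm1] at h7
          exact h7.trans hρ1
        have m4 : Measurable fun ω => conj (U (tau (m + 1) ρ (m + 1 + i)) ω) :=
          Complex.continuous_conj.measurable.comp (hUm _ b1 b2)
        exact Complex.measurable_re.comp (measurable_const.mul
          (m4.mul ((measurable_X _).sub (measurable_X _))))
      exact (hYm.mul (Complex.measurable_exp.comp (measurable_const.mul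
        (Complex.measurable_ofReal.comp hGmeas)))).aestronglyMeasurable
    · intro m
      refine ae_of_all _ fun ω => ?_
      rw [norm_mul, mul_comm Complex.I, Complex.norm_exp_ofReal_mul_I, mul_one]
      exact hC ω
    · filter_upwards [hlim] with ω hω
      have h9 : Tendsto (fun m => G (m + 1) ω) atTop (𝓝 (G' ω)) := hω.comp (tendsto_add_atTop_nat 1)
      refine tendsto_const_nhds.mul ?_
      have hc : Continuous fun x : ℝ => Complex.exp (Complex.I * ((x : ℝ) : ℂ)) := by fun_prop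
      exact (hc.tendsto _).comp h9
  have hconst : ∀ m, ∫ ω, Y ω * Complex.exp (Complex.I * ((G (m + 1) ω : ℝ) : ℂ)) ∂μ =
      (∫ ω, Y ω ∂μ) *
        ((Real.exp (-(∑ l ∈ Finset.range N, ‖ξ l‖ ^ 2 * (r (l + 1) - r l) / 2)) : ℝ) : ℂ) :=
    fun m => hval (m + 1) (by omega)
  simp_rw [hconst] at hlim2
  exact tendsto_nhds_unique hlim2 tendsto_const_nhds

end Pool.Agent.T2H68.UB
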