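import Pool.Agent.T2H68.UB.P_SU

/-!
# Package CT: continuity in time, adaptedness
-/

set_option autoImplicit false

open MeasureTheory ProbabilityTheory Set Filter Finset
open scoped ENNReal NNReal Topology ComplexConjugate

namespace Pool.Agent.T2H68.UB

namespace PkgCT

open PkgSU

theorem X_cont (s : ℝ) : Continuous (X s) := by
  unfold X
  exact continuous_eval_const _

theorem X_fil {s t : ℝ} (h : s ≤ t) : Measurable[Fil t] (X s) := by
  have h1 : Measurable[MeasurableSpace.comap (X s) inferInstance] (X s) := comap_measurable (X s)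
  exact h1.mono (le_iSup₂ (f := fun (s : ℝ) (_ : s ≤ t) =>
    MeasurableSpace.comap (X s) inferInstance) s h) le_rfl

theorem Fil_le (t : ℝ) : Fil t ≤ instMeasurableSpaceOm :=
  iSup₂_le fun s _ => measurable_iff_comap_le.1 (X_cont s).measurable

theorem Fil_mono {s t : ℝ} (h : s ≤ t) : Fil s ≤ Fil t :=
  iSup₂_le fun r hr => le_iSup₂ (f := fun (s : ℝ) (_ : s ≤ t) =>
    MeasurableSpace.comap (X s) inferInstance) r (hr.trans h)

theorem wv_fil {k j : ℕ} {t : ℝ} (h : st k j + hh k / 4 ≤ t) : Measurable[Fil t] (wv k j) := by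
  have hp := hh_pos k
  have h1 : Measurable[Fil t] (X (st k j + hh k / 4)) := X_fil h
  have h2 : Measurable[Fil t] (X (st k j)) := X_fil (by linarith)
  unfold wv
  exact (Complex.measurable_re.comp (h1.sub h2)).const_mul _

theorem xv_fil {k j : ℕ} {t : ℝ} (h : st k j + 3 * hh k / 4 ≤ t) : Measurable[Fil t] (xv k j) := by
  have hp := hh_pos k
  have h1 : Measurable[Fil t] (X (st k j + 3 * hh k / 4)) := X_fil h
  have h2 : Measurable[Fil t] (X (st k j + hh k / 2)) := X_fil (by linarith)
  unfold xv
  exact (h1.sub h2).const_mul _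

theorem chi_meas (k : ℕ) : Measurable (chi k) := by
  unfold chi
  exact Real.smoothTransition.continuous.measurable.comp
    ((measurable_id.sub_const _).const_mul _)

theorem gg_meas (j : ℕ) : Measurable (gg j) := by
  unfold gg
  split_ifs
  · exact Real.measurable_cos
  · exact Real.measurable_sin

theorem ph_fil (k : ℕ) : Measurable[Fil (1 / 2 ^ k)] (ph k) := by
  have hp := hh_pos k
  unfold ph
  refine Measurable.const_mul ?_ _
  refine Finset.measurable_sum _ fun j hj => ?_
  have h1 := st_end k (Finset.mem_range.1 hj)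
  exact ((chi_meas k).comp (wv_fil (by linarith))).mul
    (Complex.measurable_re.comp (xv_fil (by linarith)))

theorem ang_fil {k j : ℕ} {t : ℝ} (h : st k j + hh k / 4 ≤ t) :
    Measurable[Fil t] (ang k j) := by
  have hp := hh_pos k
  have h1 : Fil (1 / 2 ^ (k + 1)) ≤ Fil t := Fil_mono (by have := st_ge k j; linarith)
  unfold ang
  exact (((chi_meas k).comp (wv_fil h)).const_mul _).mul
    ((gg_meas j).comp ((ph_fil (k + 1)).mono h1 le_rfl))

theorem phi_fil (t : ℝ) : Measurable[Fil t] fun ω => phi t ω := by
  have hSU := pSU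
  rcases le_or_gt t 0 with h0 | h0
  · have : (fun ω => phi t ω) = fun _ => 0 := funext fun ω => hSU.2.2.2.2.1 t ω h0
    rw [this]
    exact measurable_const
  rcases le_or_gt 1 t with h1 | h1
  · have : (fun ω => phi t ω) = fun _ => 0 := funext fun ω => hSU.2.2.2.2.2.1 t ω h1
    rw [this]
    exact measurable_const
  obtain ⟨k, j, hj, h2, h3⟩ := hSU.2.2.2.2.2.2 t h0 h1
  have e : (fun ω => phi t ω) = fun ω => ang k j ω * bt k j t :=
    funext fun ω => hSU.2.2.2.1 k j t ω hj h2 h3.le
  rw [e]
  by_cases h4 : st k j + hh k / 4 ≤ t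
  · exact (ang_fil h4).mul_const _
  · rw [bt_left (not_le.1 h4).le]
    simp only [mul_zero]
    exact measurable_const

theorem eta_summable : Summable eta := by
  have h : ∀ k, eta k = (1 / 512) * (1 / 8 : ℝ) ^ k := by
    intro k
    unfold eta lam
    rw [← pow_mul, show (k + 3) * 3 = 3 * k + 9 by ring, pow_add, pow_mul, one_div_pow]
    norm_num
  have h2 : Summable fun k : ℕ => (1 / 512 : ℝ) * (1 / 8 : ℝ) ^ k :=
    (summable_geometric_of_lt_one (by norm_num) (by norm_num)).mul_left _
  exact h2.congr fun k => (h k).symm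

theorem term_bd (k : ℕ) (t : ℝ) (ω : Om) :
    ‖∑ j ∈ Finset.range (mm k), ang k j ω * bt k j t‖ ≤ eta k := by
  by_cases h : ∃ j ∈ Finset.range (mm k), bt k j t ≠ 0
  · obtain ⟨j, hj, hne⟩ := h
    have hj' := Finset.mem_range.1 hj
    have hp := hh_pos k
    have h3 : st k j ≤ t := by
      by_contra hc
      exact hne (bt_left (by linarith))
    have h4 : t ≤ st k j + hh k := by
      by_contra hc
      exact hne (bt_right (not_le.1 hc).le)
    rw [Finset.sum_eq_single j]
    · rw [norm_mul, Real.norm_eq_abs, Real.norm_eq_abs, abs_of_nonneg (show 0 ≤ bt k j t from bmp_nonneg _)]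
      calc |ang k j ω| * bt k j t ≤ eta k * 1 := mul_le_mul (ang_le k j ω) (bmp_le _)
            (bmp_nonneg _) (eta_nonneg k)
        _ = eta k := mul_one _
    · intro j' hj2 hne'
      by_contra hc
      exact hne' (bt_ne hj' (Finset.mem_range.1 hj2) h3 h4 (right_ne_zero_of_mul hc)).2
    · intro hc
      exact absurd hj hc
  · push Not at h
    rw [Finset.sum_eq_zero fun j hj => by rw [h j hj, mul_zero], norm_zero]
    exact eta_nonneg k

theorem bt_cont (k j : ℕ) : Continuous (bt k j) := by
  unfold bt bmp
  have h : Continuous fun t : ℝ => (t - st k j) / hh k := (continuous_id.sub continuous_const).div_const _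
  exact (Real.smoothTransition.continuous.comp ((continuous_const.mul h).sub continuous_const)).mul
    (Real.smoothTransition.continuous.comp (continuous_const.sub (continuous_const.mul h)))

theorem phi_cont (ω : Om) : Continuous fun t => phi t ω := by
  unfold phi
  exact continuous_tsum (fun k => continuous_finsetSum _ fun j _ =>
    continuous_const.mul (bt_cont k j)) eta_summable fun k t => term_bd k t ω

end PkgCT

open PkgCT in
theorem pCT (_hSU : S_SU) : S_CT := by
  refine ⟨phi_cont, phi_fil, ?_, ph_fil⟩
  exact measurable_uncurry_of_continuous_of_measurable (u := fun (t : ℝ) (ω : Om) => phi t ω)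
    phi_cont fun t => (phi_fil t).mono (Fil_le t) le_rfl

end Pool.Agent.T2H68.UB
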