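import Pool.Agent.T2H68.UB.Stm

/-!
# Package DB: deterministic bound of the finite differences of the rotations.
-/

set_option autoImplicit false

open MeasureTheory ProbabilityTheory Set Filter Finset
open scoped ENNReal NNReal Topology ComplexConjugate Nat

namespace Pool.Agent.T2H68.UB

open Pool.Agent.R876.WM

namespace PkgDB

section Gen

variable {F : Type*} [NormedAddCommGroup F] [NormedSpace ℝ F]

/-- smooth, with the derivatives of order `1 ≤ i ≤ n` bounded by `A * D ^ i` -/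
structure B1 (n : ℕ) (A D : ℝ) (f : ℝ → F) : Prop where
  smooth : ContDiff ℝ ((⊤ : ℕ∞) : WithTop ℕ∞) f
  bd : ∀ i, 1 ≤ i → i ≤ n → ∀ x, ‖iteratedFDeriv ℝ i f x‖ ≤ A * D ^ i

/-- smooth, with the derivatives of order `0 ≤ i ≤ n` bounded by `A * D ^ i` -/
structure B0 (n : ℕ) (A D : ℝ) (f : ℝ → F) : Prop where
  smooth : ContDiff ℝ ((⊤ : ℕ∞) : WithTop ℕ∞) f
  bd : ∀ i, i ≤ n → ∀ x, ‖iteratedFDeriv ℝ i f x‖ ≤ A * D ^ i

lemma B0.toB1 {n : ℕ} {A D : ℝ} {f : ℝ → F} (h : B0 n A D f) : B1 n A D f :=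
  ⟨h.smooth, fun i _ hi => h.bd i hi⟩

lemma B0.mono {n : ℕ} {A D A' D' : ℝ} {f : ℝ → F} (h : B0 n A D f) (hA : A ≤ A') (hD : D ≤ D')
    (hD0 : 0 ≤ D) (hA' : 0 ≤ A') : B0 n A' D' f :=
  ⟨h.smooth, fun i hi x => (h.bd i hi x).trans
    (mul_le_mul hA (pow_le_pow_left₀ hD0 hD i) (pow_nonneg hD0 i) hA')⟩

lemma B1.mono {n : ℕ} {A D A' D' : ℝ} {f : ℝ → F} (h : B1 n A D f) (hA : A ≤ A') (hD : D ≤ D')
    (hD0 : 0 ≤ D) (hA' : 0 ≤ A') : B1 n A' D' f :=
  ⟨h.smooth, fun i h1 hi x => (h.bd i h1 hi x).trans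
    (mul_le_mul hA (pow_le_pow_left₀ hD0 hD i) (pow_nonneg hD0 i) hA')⟩

lemma B0.mul {n : ℕ} {A B D E : ℝ} {f g : ℝ → ℝ} (hf : B0 n A D f) (hg : B0 n B E g)
    (hA : 0 ≤ A) (hD : 0 ≤ D) : B0 n (A * B) (D + E) (fun x => f x * g x) := by
  refine ⟨hf.smooth.mul hg.smooth, fun i hi x => ?_⟩
  have h1 := norm_iteratedFDeriv_mul_le (𝕜 := ℝ) hf.smooth hg.smooth x (n := i)
    (by exact_mod_cast le_top)
  refine h1.trans ?_
  rw [add_pow, Finset.mul_sum]
  refine Finset.sum_le_sum fun l hl => ?_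
  have hl' : l ≤ i := Nat.lt_succ_iff.1 (Finset.mem_range.1 hl)
  have e1 := hf.bd l (hl'.trans hi) x
  have e2 := hg.bd (i - l) ((Nat.sub_le _ _).trans hi) x
  have e3 : ‖iteratedFDeriv ℝ l f x‖ * ‖iteratedFDeriv ℝ (i - l) g x‖ ≤
      (A * D ^ l) * (B * E ^ (i - l)) :=
    mul_le_mul e1 e2 (norm_nonneg _) (mul_nonneg hA (pow_nonneg hD _))
  calc (i.choose l : ℝ) * ‖iteratedFDeriv ℝ l f x‖ * ‖iteratedFDeriv ℝ (i - l) g x‖
      = (i.choose l : ℝ) * (‖iteratedFDeriv ℝ l f x‖ * ‖iteratedFDeriv ℝ (i - l) g x‖) := by ring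
    _ ≤ (i.choose l : ℝ) * ((A * D ^ l) * (B * E ^ (i - l))) :=
        mul_le_mul_of_nonneg_left e3 (Nat.cast_nonneg _)
    _ = A * B * (D ^ l * E ^ (i - l) * (i.choose l : ℝ)) := by ring

lemma B0.comp {n : ℕ} {C D : ℝ} {g : ℝ → F} {f : ℝ → ℝ} (hg : B0 n C 1 g)
    (hf : B1 n 1 D f) (hD : 0 ≤ D) (hC : 0 ≤ C) : B0 n (n ! * C) D (fun x => g (f x)) := by
  refine ⟨hg.smooth.comp hf.smooth, fun i hi x => ?_⟩
  have h := norm_iteratedFDeriv_comp_le (𝕜 := ℝ) (n := i) hg.smooth hf.smooth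
    (by exact_mod_cast le_top) x (C := C) (D := D)
    (fun l hl => by simpa using hg.bd l (hl.trans hi) (f x))
    (fun l h1 hl => by simpa using hf.bd l h1 (hl.trans hi) x)
  refine h.trans ?_
  refine mul_le_mul_of_nonneg_right ?_ (pow_nonneg hD i)
  refine mul_le_mul_of_nonneg_right ?_ hC
  exact_mod_cast Nat.factorial_le hi

lemma B0.const_mul {n : ℕ} {A D : ℝ} {f : ℝ → ℝ} (h : B0 n A D f) (c : ℝ) :
    B0 n (|c| * A) D (fun x => c * f x) := by
  refine ⟨contDiff_const.mul h.smooth, fun i hi x => ?_⟩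
  have e : iteratedFDeriv ℝ i (fun x => c * f x) x = c • iteratedFDeriv ℝ i f x :=
    iteratedFDeriv_const_smul_apply' (𝕜 := ℝ) (a := c) (f := f)
      ((h.smooth.of_le (by exact_mod_cast le_top)).contDiffAt)
  rw [e, norm_smul, Real.norm_eq_abs, mul_assoc]
  exact mul_le_mul_of_nonneg_left (h.bd i hi x) (abs_nonneg _)

/-- from `A * D ^ i` to `1 * (max..)^i` for the orders `≥ 1` -/
lemma B0.toUnit {n : ℕ} {A D : ℝ} {f : ℝ → F} (h : B0 n A D f) (hD : 0 ≤ D) (hA : 0 ≤ A) :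
    B1 n 1 ((1 + A) * D) f := by
  refine ⟨h.smooth, fun i h1 hi x => (h.bd i hi x).trans ?_⟩
  rw [one_mul, mul_pow]
  refine mul_le_mul_of_nonneg_right ?_ (pow_nonneg hD i)
  calc A ≤ 1 + A := by linarith
    _ = (1 + A) ^ 1 := (pow_one _).symm
    _ ≤ (1 + A) ^ i := pow_le_pow_right₀ (by linarith) h1

/-! ### elementary functions -/

lemma norm_iter_eq (i : ℕ) (f : ℝ → F) (x : ℝ) :
    ‖iteratedFDeriv ℝ i f x‖ = ‖iteratedDeriv i f x‖ := norm_iteratedFDeriv_eq_norm_iteratedDeriv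

lemma B0_cos (n : ℕ) : B0 n 1 1 Real.cos :=
  ⟨Real.contDiff_cos, fun i _ x => by
    rw [norm_iter_eq, Real.norm_eq_abs, one_pow, mul_one]; exact Real.abs_iteratedDeriv_cos_le_one i x⟩

lemma B0_sin (n : ℕ) : B0 n 1 1 Real.sin :=
  ⟨Real.contDiff_sin, fun i _ x => by
    rw [norm_iter_eq, Real.norm_eq_abs, one_pow, mul_one]; exact Real.abs_iteratedDeriv_sin_le_one i x⟩

lemma iter_cexp (i : ℕ) : iteratedDeriv i (fun x : ℝ => Complex.exp (Complex.I * (x : ℂ))) =
    fun x : ℝ => Complex.I ^ i * Complex.exp (Complex.I * (x : ℂ)) := by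
  induction i with
  | zero => simp
  | succ i ih =>
    rw [iteratedDeriv_succ, ih]
    funext x
    have h1 : HasDerivAt (fun x : ℝ => Complex.exp (Complex.I * (x : ℂ)))
        (Complex.exp (Complex.I * (x : ℂ)) * (Complex.I * 1)) x := by
      have h0 : HasDerivAt (fun x : ℝ => Complex.I * (x : ℂ)) (Complex.I * 1) x :=
        (Complex.ofRealCLM.hasDerivAt (x := x)).const_mul Complex.I
      exact h0.cexp
    rw [(h1.const_mul (Complex.I ^ i)).deriv]
    ring

lemma contDiff_cexpI : ContDiff ℝ ((⊤ : ℕ∞) : WithTop ℕ∞)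
    (fun x : ℝ => Complex.exp (Complex.I * (x : ℂ))) :=
  (contDiff_const.mul Complex.ofRealCLM.contDiff).cexp

lemma B0_cexp (n : ℕ) : B0 n 1 1 (fun x : ℝ => Complex.exp (Complex.I * (x : ℂ))) :=
  ⟨contDiff_cexpI, fun i _ x => by
    rw [norm_iter_eq, iter_cexp, norm_mul, norm_pow, Complex.norm_I, one_pow,
      mul_comm Complex.I, Complex.norm_exp_ofReal_mul_I]⟩

lemma iter_zero_of_eventually_const {f : ℝ → ℝ} {x c : ℝ} (h : f =ᶠ[𝓝 x] fun _ => c) {i : ℕ}
    (hi : 1 ≤ i) : iteratedFDeriv ℝ i f x = 0 := by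
  obtain ⟨m, rfl⟩ : ∃ m, i = m + 1 := ⟨i - 1, by omega⟩
  rw [(h.iteratedFDeriv ℝ (m + 1)).eq_of_nhds, iteratedFDeriv_succ_const]
  rfl

lemma exists_st (n : ℕ) : ∃ C : ℝ, 1 ≤ C ∧ B0 n C 1 Real.smoothTransition := by
  have hsm : ContDiff ℝ ((⊤ : ℕ∞) : WithTop ℕ∞) Real.smoothTransition :=
    Real.smoothTransition.contDiff
  have key : ∀ i : ℕ, ∃ C : ℝ, 1 ≤ C ∧ ∀ x, ‖iteratedFDeriv ℝ i Real.smoothTransition x‖ ≤ C := by
    intro i
    have hc : Continuous fun x => ‖iteratedFDeriv ℝ i Real.smoothTransition x‖ :=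
      (hsm.continuous_iteratedFDeriv (by exact_mod_cast le_top)).norm
    obtain ⟨C, hC⟩ := (isCompact_Icc (a := (0 : ℝ)) (b := 1)).bddAbove_image hc.continuousOn
    refine ⟨max C 1, le_max_right _ _, fun x => ?_⟩
    by_cases hx : x ∈ Set.Icc (0 : ℝ) 1
    · exact (hC (Set.mem_image_of_mem _ hx)).trans (le_max_left _ _)
    · rcases Nat.eq_zero_or_pos i with rfl | hi
      · refine le_trans ?_ (le_max_right _ _)
        rw [norm_iteratedFDeriv_zero, Real.norm_eq_abs, abs_of_nonneg (Real.smoothTransition.nonneg x)]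
        exact Real.smoothTransition.le_one x
      · have : iteratedFDeriv ℝ i Real.smoothTransition x = 0 := by
          rw [Set.mem_Icc, not_and_or, not_le, not_le] at hx
          rcases hx with hx | hx
          · exact iter_zero_of_eventually_const (c := 0)
              (by
                filter_upwards [Iio_mem_nhds hx] with y hy
                exact Real.smoothTransition.zero_of_nonpos (le_of_lt hy)) hi
          · exact iter_zero_of_eventually_const (c := 1)
              (by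
                filter_upwards [Ioi_mem_nhds hx] with y hy
                exact Real.smoothTransition.one_of_one_le (le_of_lt hy)) hi
        rw [this, norm_zero]
        exact zero_le_one.trans (le_max_right _ _)
  choose C hC1 hC using key
  refine ⟨∑ i ∈ Finset.range (n + 1), C i, ?_, hsm, fun i hi x => ?_⟩
  · calc (1 : ℝ) ≤ C 0 := hC1 0
      _ ≤ _ := Finset.single_le_sum (f := C) (fun i _ => zero_le_one.trans (hC1 i))
        (Finset.mem_range.2 (Nat.succ_pos n))
  · rw [one_pow, mul_one]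
    exact (hC i x).trans (Finset.single_le_sum (f := C) (fun i _ => zero_le_one.trans (hC1 i))
        (Finset.mem_range.2 (Nat.lt_succ_of_le hi)))

/-! ### finite differences -/

lemma fwd_bound (θ : ℝ) (hθ : 0 ≤ θ) : ∀ (n : ℕ) (f : ℝ → F) (M : ℝ),
    ContDiff ℝ ((⊤ : ℕ∞) : WithTop ℕ∞) f → (∀ x, ‖iteratedDeriv n f x‖ ≤ M) →
    ∀ x, ‖(fwdDiff θ)^[n] f x‖ ≤ θ ^ n * M := by
  intro n
  induction n with
  | zero => intro f M _ h x; simpa using h x
  | succ n ih =>
    intro f M hf h x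
    have hg : ContDiff ℝ ((⊤ : ℕ∞) : WithTop ℕ∞) (fun x => f (x + θ)) :=
      hf.comp (contDiff_id.add contDiff_const)
    have e : ∀ y, iteratedDeriv n (fwdDiff θ f) y = iteratedDeriv n f (y + θ) - iteratedDeriv n f y := by
      intro y
      have h1 : iteratedDeriv n ((fun x => f (x + θ)) - f) y =
          iteratedDeriv n (fun x => f (x + θ)) y - iteratedDeriv n f y :=
        iteratedDeriv_sub ((hg.of_le (by exact_mod_cast le_top)).contDiffAt)
          ((hf.of_le (by exact_mod_cast le_top)).contDiffAt)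
      rw [iteratedDeriv_comp_add_const] at h1
      exact h1
    rw [Function.iterate_succ_apply, pow_succ, mul_assoc]
    refine ih (fwdDiff θ f) (θ * M) (hg.sub hf) (fun y => ?_) x
    rw [e y]
    have hd : Differentiable ℝ (iteratedDeriv n f) :=
      hf.differentiable_iteratedDeriv n (by exact_mod_cast ENat.natCast_lt_top n)
    have := Convex.norm_image_sub_le_of_norm_deriv_le (f := iteratedDeriv n f) (s := Set.univ)
      (C := M) (x := y) (y := y + θ) (fun x _ => hd x)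
      (fun x _ => by rw [← iteratedDeriv_succ]; exact h x) convex_univ (mem_univ _) (mem_univ _)
    rw [add_sub_cancel_left, Real.norm_eq_abs, abs_of_nonneg hθ] at this
    linarith

lemma B0.add {n : ℕ} {A B D : ℝ} {f g : ℝ → F} (hf : B0 n A D f) (hg : B0 n B D g) :
    B0 n (A + B) D (fun x => f x + g x) := by
  refine ⟨hf.smooth.add hg.smooth, fun i hi x => ?_⟩
  have e : iteratedFDeriv ℝ i (fun x => f x + g x) x =
      iteratedFDeriv ℝ i f x + iteratedFDeriv ℝ i g x :=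
    iteratedFDeriv_add_apply ((hf.smooth.of_le (by exact_mod_cast le_top)).contDiffAt)
      ((hg.smooth.of_le (by exact_mod_cast le_top)).contDiffAt)
  rw [e, add_mul]
  exact (norm_add_le _ _).trans (add_le_add (hf.bd i hi x) (hg.bd i hi x))

lemma B1.add_const {n : ℕ} {A D : ℝ} {f : ℝ → F} (hf : B1 n A D f) (c : F) :
    B1 n A D (fun x => f x + c) := by
  refine ⟨hf.smooth.add contDiff_const, fun i h1 hi x => ?_⟩
  have e : iteratedFDeriv ℝ i (fun x => f x + c) x =
      iteratedFDeriv ℝ i f x + iteratedFDeriv ℝ i (fun _ : ℝ => c) x :=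
    iteratedFDeriv_add_apply ((hf.smooth.of_le (by exact_mod_cast le_top)).contDiffAt)
      contDiff_const.contDiffAt
  obtain ⟨m, rfl⟩ : ∃ m, i = m + 1 := ⟨i - 1, by omega⟩
  rw [e, iteratedFDeriv_succ_const, Pi.zero_apply, add_zero]
  exact hf.bd _ h1 hi x

lemma B0_lin (n : ℕ) (a b : ℝ) : B0 n (|a| + |b|) 1 (fun x => Real.cos x * a + Real.sin x * b) := by
  have h1 := (B0_cos n).const_mul a
  have h2 := (B0_sin n).const_mul b
  have h := h1.add h2
  rw [mul_one, mul_one] at h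
  simpa only [mul_comm] using h

end Gen

/-! ### linearity -/

lemma X_r1 (t ϑ : ℝ) (z : Om × Om) :
    X t (r1 ϑ z) = (Real.cos ϑ : ℂ) * X t z.1 + (Real.sin ϑ : ℂ) * X t z.2 := by
  simp only [X, r1, ContinuousMap.add_apply, ContinuousMap.smul_apply, Complex.real_smul]

lemma wv_r1 (k j : ℕ) (ϑ : ℝ) (z : Om × Om) :
    wv k j (r1 ϑ z) = Real.cos ϑ * wv k j z.1 + Real.sin ϑ * wv k j z.2 := by
  simp only [wv, X_r1, Complex.sub_re, Complex.add_re, Complex.re_ofReal_mul]
  ring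

lemma xv_r1 (k j : ℕ) (ϑ : ℝ) (z : Om × Om) :
    (xv k j (r1 ϑ z)).re = Real.cos ϑ * (xv k j z.1).re + Real.sin ϑ * (xv k j z.2).re := by
  simp only [xv, X_r1, Complex.sub_re, Complex.add_re, Complex.re_ofReal_mul]
  ring

lemma dif_eq (n : ℕ) (θ : ℝ) (f : Om → ℂ) (z : Om × Om) :
    dif n θ f z = (fwdDiff θ)^[n] (fun ϑ : ℝ => f (r1 ϑ z)) 0 := by
  rw [fwdDiff_iter_eq_sum_shift, dif]
  refine Finset.sum_congr rfl fun i _ => ?_
  rw [zero_add, nsmul_eq_mul, r1, ← Int.cast_smul_eq_zsmul ℝ]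
  push_cast
  rfl

lemma lam_pos (k : ℕ) : 0 < lam k := by unfold lam; positivity

lemma lam_ge (k : ℕ) : 8 ≤ lam k := by
  unfold lam
  calc (8 : ℝ) = 2 ^ 3 := by norm_num
    _ ≤ 2 ^ (k + 3) := pow_le_pow_right₀ (by norm_num) (by omega)

lemma eta_nonneg (k : ℕ) : 0 ≤ eta k := by
  unfold eta; have := lam_pos k; positivity

lemma eta_le (k : ℕ) : eta k ≤ 1 := by
  unfold eta
  rw [div_le_one (pow_pos (lam_pos k) 3)]
  exact one_le_pow₀ (by linarith [lam_ge k])

lemma amp_nonneg (k : ℕ) : 0 ≤ amp k := by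
  unfold amp; have := lam_pos k; positivity

lemma chi_zero {k : ℕ} {w : ℝ} (h : w ≤ lam k) : chi k w = 0 := by
  unfold chi
  exact Real.smoothTransition.zero_of_nonpos
    (mul_nonpos_of_nonneg_of_nonpos (lam_pos k).le (by linarith))

lemma cs_le (c s a b : ℝ) (h : c ^ 2 + s ^ 2 = 1) : (c * a + s * b) ^ 2 ≤ a ^ 2 + b ^ 2 := by
  nlinarith [sq_nonneg (c * b - s * a)]

lemma wv_r1_sq (k j : ℕ) (ϑ : ℝ) (z : Om × Om) :
    wv k j (r1 ϑ z) ^ 2 ≤ wv k j z.1 ^ 2 + wv k j z.2 ^ 2 := by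
  rw [wv_r1]
  exact cs_le _ _ _ _ (by rw [← Real.cos_sq_add_sin_sq ϑ])

/-- the activity along a rotation -/
lemma B0_chi (n k j : ℕ) (z : Om × Om) {C : ℝ} (hC : 1 ≤ C) (hst : B0 n C 1 Real.smoothTransition) :
    B0 n (n ! * C) (1 + lam k * (|wv k j z.1| + |wv k j z.2|)) (fun ϑ => chi k (wv k j (r1 ϑ z))) := by
  have hw : B0 n (|wv k j z.1| + |wv k j z.2|) 1 (fun ϑ => wv k j (r1 ϑ z)) := by
    simp only [wv_r1]
    exact B0_lin n _ _
  have hl := lam_pos k
  have h1 : B0 n (|lam k| * (|wv k j z.1| + |wv k j z.2|)) 1 (fun ϑ => lam k * wv k j (r1 ϑ z)) :=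
    hw.const_mul _
  have h2 := (h1.toB1).add_const (-(lam k * lam k))
  have h3 : B1 n 1 (1 + lam k * (|wv k j z.1| + |wv k j z.2|))
      (fun ϑ => lam k * wv k j (r1 ϑ z) + -(lam k * lam k)) := by
    refine ⟨h2.smooth, fun i hi1 hi x => (h2.bd i hi1 hi x).trans ?_⟩
    rw [one_pow, mul_one, one_mul, abs_of_pos hl]
    have h0 : 0 ≤ lam k * (|wv k j z.1| + |wv k j z.2|) := by positivity
    calc lam k * (|wv k j z.1| + |wv k j z.2|) ≤ 1 + lam k * (|wv k j z.1| + |wv k j z.2|) := by linarith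
      _ = (1 + lam k * (|wv k j z.1| + |wv k j z.2|)) ^ 1 := (pow_one _).symm
      _ ≤ _ := pow_le_pow_right₀ (by linarith) hi1
  have h4 := hst.comp h3 (by positivity) (by linarith)
  have e : (fun ϑ => chi k (wv k j (r1 ϑ z))) =
      fun ϑ => Real.smoothTransition (lam k * wv k j (r1 ϑ z) + -(lam k * lam k)) := by
    funext ϑ
    simp only [chi]
    congr 1
    ring
  rw [e]
  exact h4

/-- the phase along a rotation -/
lemma B0_ph (n k : ℕ) (z : Om × Om) {C : ℝ} (hC : 1 ≤ C) (hst : B0 n C 1 Real.smoothTransition) :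
    B0 n (n ! * C * (amp k * SS n k z)) 1 (fun ϑ => ph k (r1 ϑ z)) := by
  have hterm : ∀ j, B0 n (n ! * C * (if lam k ^ 2 < wv k j z.1 ^ 2 + wv k j z.2 ^ 2 then
    (1 + |(xv k j z.1).re| + |(xv k j z.2).re|) * (1 + lam k * (1 + |wv k j z.1| + |wv k j z.2|)) ^ n
    else 0)) 1 (fun ϑ => chi k (wv k j (r1 ϑ z)) * (xv k j (r1 ϑ z)).re) := by
    intro j
    split_ifs with hj
    · have h1 := B0_chi n k j z hC hst
      have h2 : B0 n (|(xv k j z.1).re| + |(xv k j z.2).re|) 1 (fun ϑ => (xv k j (r1 ϑ z)).re) := by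
        simp only [xv_r1]
        exact B0_lin n _ _
      have hl := lam_ge k
      have h3 := h1.mul h2 (by positivity) (by have := lam_pos k; positivity)
      refine ⟨h3.smooth, fun i hi x => (h3.bd i hi x).trans ?_⟩
      rw [one_pow, mul_one, mul_assoc]
      refine mul_le_mul_of_nonneg_left ?_ (by positivity)
      have hb : 1 + lam k * (|wv k j z.1| + |wv k j z.2|) + 1 ≤
          1 + lam k * (1 + |wv k j z.1| + |wv k j z.2|) := by nlinarith
      have hb1 : 1 ≤ 1 + lam k * (1 + |wv k j z.1| + |wv k j z.2|) := by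
        have : 0 ≤ lam k * (1 + |wv k j z.1| + |wv k j z.2|) := by positivity
        linarith
      refine mul_le_mul (by linarith [abs_nonneg ((xv k j z.1).re)]) ?_ (by positivity) (by positivity)
      calc _ ≤ (1 + lam k * (1 + |wv k j z.1| + |wv k j z.2|)) ^ i :=
            pow_le_pow_left₀ (by positivity) hb i
        _ ≤ _ := pow_le_pow_right₀ hb1 hi
    · have e : (fun ϑ => chi k (wv k j (r1 ϑ z)) * (xv k j (r1 ϑ z)).re) = fun _ => (0 : ℝ) := by
        funext ϑ
        have h0 : wv k j (r1 ϑ z) ≤ lam k := by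
          have := wv_r1_sq k j ϑ z
          exact abs_le_of_sq_le_sq' (by linarith [not_lt.1 hj]) (lam_pos k).le |>.2
        rw [chi_zero h0, zero_mul]
      rw [e]
      refine ⟨contDiff_const, fun i hi x => ?_⟩
      rw [mul_zero, zero_mul]
      have : iteratedFDeriv ℝ i (fun _ : ℝ => (0 : ℝ)) x = 0 := by
        have := iteratedFDeriv_fun_zero (𝕜 := ℝ) (E := ℝ) (F := ℝ) (n := i)
        exact congrFun this x
      rw [this, norm_zero]
  have hsum : B0 n (∑ j ∈ Finset.range (mm k), n ! * C *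
      (if lam k ^ 2 < wv k j z.1 ^ 2 + wv k j z.2 ^ 2 then
    (1 + |(xv k j z.1).re| + |(xv k j z.2).re|) * (1 + lam k * (1 + |wv k j z.1| + |wv k j z.2|)) ^ n
    else 0)) 1 (fun ϑ => ∑ j ∈ Finset.range (mm k), chi k (wv k j (r1 ϑ z)) * (xv k j (r1 ϑ z)).re) := by
    induction Finset.range (mm k) using Finset.induction_on with
    | empty =>
      simp only [Finset.sum_empty]
      refine ⟨contDiff_const, fun i hi x => ?_⟩
      have : iteratedFDeriv ℝ i (fun _ : ℝ => (0 : ℝ)) x = 0 := by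
        have := iteratedFDeriv_fun_zero (𝕜 := ℝ) (E := ℝ) (F := ℝ) (n := i)
        exact congrFun this x
      rw [this, norm_zero, zero_mul]
    | insert a s ha ih =>
      simp only [Finset.sum_insert ha]
      exact (hterm a).add ih
  have h := hsum.const_mul (amp k)
  rw [abs_of_nonneg (amp_nonneg k)] at h
  have e1 : amp k * (∑ j ∈ Finset.range (mm k), n ! * C *
      (if lam k ^ 2 < wv k j z.1 ^ 2 + wv k j z.2 ^ 2 then
    (1 + |(xv k j z.1).re| + |(xv k j z.2).re|) * (1 + lam k * (1 + |wv k j z.1| + |wv k j z.2|)) ^ n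
    else 0)) = n ! * C * (amp k * SS n k z) := by
    rw [← Finset.mul_sum, SS]
    ring
  rw [e1] at h
  exact h

lemma SS_nonneg (n k : ℕ) (z : Om × Om) : 0 ≤ SS n k z := by
  unfold SS
  refine Finset.sum_nonneg fun j _ => ?_
  split_ifs
  · have := lam_pos k
    positivity
  · exact le_rfl

lemma B0_gg (n j : ℕ) : B0 n 1 1 (gg j) := by
  unfold gg
  by_cases h : Even j
  · simp only [h, if_true]; exact B0_cos n
  · simp only [h, if_false]; exact B0_sin n

/-- the rotation along the circle: bound of the derivatives -/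
lemma B0_main (n k j : ℕ) (hn : 1 ≤ n) (hj : j < mm k) (z : Om × Om) {C b : ℝ} (hC : 1 ≤ C)
    (hst : B0 n C 1 Real.smoothTransition) (hb0 : 0 ≤ b) (hb1 : b ≤ 1)
    (hz : lam k ^ 2 < wv k j z.1 ^ 2 + wv k j z.2 ^ 2) :
    B0 n (n !) ((1 + n ! * C * n !) * ((1 + n ! * C) *
        (1 + SS n k z + amp (k + 1) * SS n (k + 1) z)))
      (fun ϑ => Complex.exp (Complex.I * ((b * ang k j (r1 ϑ z) : ℝ) : ℂ))) := by
  have hS := SS_nonneg n k z
  have hS1 := SS_nonneg n (k + 1) z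
  have hA := amp_nonneg (k + 1)
  have hl := lam_pos k
  have hnf : (1 : ℝ) ≤ n ! := by exact_mod_cast Nat.one_le_iff_ne_zero.2 (Nat.factorial_ne_zero n)
  set Q : ℝ := 1 + n ! * C * (amp (k + 1) * SS n (k + 1) z) with hQ
  have hQ1 : 1 ≤ Q := by
    have : 0 ≤ n ! * C * (amp (k + 1) * SS n (k + 1) z) := by positivity
    linarith
  set D : ℝ := 1 + lam k * (|wv k j z.1| + |wv k j z.2|) with hD
  have hD0 : 0 ≤ D := by positivity
  -- the phase
  have hP := B0_ph n (k + 1) z hC hst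
  have hP1 : B1 n 1 Q (fun ϑ => ph (k + 1) (r1 ϑ z)) := by
    refine ⟨hP.smooth, fun i hi1 hi x => (hP.bd i hi x).trans ?_⟩
    rw [one_pow, mul_one, one_mul]
    calc n ! * C * (amp (k + 1) * SS n (k + 1) z) ≤ Q := by linarith
      _ = Q ^ 1 := (pow_one _).symm
      _ ≤ Q ^ i := pow_le_pow_right₀ hQ1 hi1
  have hg := (B0_gg n j).comp hP1 (by linarith) zero_le_one
  have hch := B0_chi n k j z hC hst
  have hprod := (hch.const_mul (eta k)).mul hg (by positivity) hD0
  have hang : B0 n (n ! * C * n !) (D + Q) (fun ϑ => b * ang k j (r1 ϑ z)) := by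
    have h1 := hprod.const_mul b
    have h2 := h1.mono (A' := n ! * C * n !) (D' := D + Q) ?_ le_rfl (by positivity) (by positivity)
    · have e : (fun ϑ => b * ang k j (r1 ϑ z)) = fun ϑ => b * (eta k * chi k (wv k j (r1 ϑ z)) *
          gg j (ph (k + 1) (r1 ϑ z))) := by
        funext ϑ
        rw [ang]
      rw [e]
      exact h2
    · rw [abs_of_nonneg hb0, abs_of_nonneg (eta_nonneg k), mul_one]
      have he := eta_le k
      have he0 := eta_nonneg k
      have h3 : b * (eta k * (n ! * C) * n !) = (b * eta k) * (n ! * C * n !) := by ring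
      rw [h3]
      have h4 : b * eta k ≤ 1 := mul_le_one₀ hb1 he0 he
      have h5 : (0 : ℝ) ≤ n ! * C * n ! := by positivity
      nlinarith
  have hunit := hang.toUnit (by positivity) (by positivity)
  have hfin := (B0_cexp n).comp hunit (by positivity) zero_le_one
  rw [mul_one] at hfin
  refine hfin.mono le_rfl ?_ (by positivity) (by positivity)
  refine mul_le_mul_of_nonneg_left ?_ (by positivity)
  -- `D + Q ≤ ...`
  have hDS : D ≤ SS n k z := by
    have hterm : D ≤ (if lam k ^ 2 < wv k j z.1 ^ 2 + wv k j z.2 ^ 2 then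
      (1 + |(xv k j z.1).re| + |(xv k j z.2).re|) * (1 + lam k * (1 + |wv k j z.1| + |wv k j z.2|)) ^ n
      else 0) := by
      rw [if_pos hz]
      have h1 : D ≤ 1 + lam k * (1 + |wv k j z.1| + |wv k j z.2|) := by
        rw [hD]; nlinarith
      have h2 : (1 : ℝ) ≤ 1 + lam k * (1 + |wv k j z.1| + |wv k j z.2|) := by
        have : 0 ≤ lam k * (1 + |wv k j z.1| + |wv k j z.2|) := by positivity
        linarith
      calc D ≤ (1 + lam k * (1 + |wv k j z.1| + |wv k j z.2|)) ^ 1 := by rw [pow_one]; exact h1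
        _ ≤ (1 + lam k * (1 + |wv k j z.1| + |wv k j z.2|)) ^ n := pow_le_pow_right₀ h2 hn
        _ = 1 * (1 + lam k * (1 + |wv k j z.1| + |wv k j z.2|)) ^ n := (one_mul _).symm
        _ ≤ _ := by
          refine mul_le_mul_of_nonneg_right ?_ (by positivity)
          linarith [abs_nonneg ((xv k j z.1).re), abs_nonneg ((xv k j z.2).re)]
    refine hterm.trans ?_
    rw [SS]
    refine Finset.single_le_sum (f := fun j => if lam k ^ 2 < wv k j z.1 ^ 2 + wv k j z.2 ^ 2 then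
      (1 + |(xv k j z.1).re| + |(xv k j z.2).re|) * (1 + lam k * (1 + |wv k j z.1| + |wv k j z.2|)) ^ n
      else 0) (fun j _ => ?_) (Finset.mem_range.2 hj)
    split_ifs
    · positivity
    · exact le_rfl
  have hx : 0 ≤ amp (k + 1) * SS n (k + 1) z := by positivity
  have hc : 0 ≤ n ! * C := by positivity
  rw [hQ]
  nlinarith [mul_nonneg hc hS]

end PkgDB

open PkgDB in
theorem pDB : S_DB := by
  intro n hn
  obtain ⟨C, hC, hst⟩ := exists_st n
  have hnf : (1 : ℝ) ≤ n ! := by exact_mod_cast Nat.one_le_iff_ne_zero.2 (Nat.factorial_ne_zero n)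
  refine ⟨n ! * ((1 + n ! * C * n !) * (1 + n ! * C)) ^ n, by positivity, ?_⟩
  intro k j z b θ hj hb0 hb1 hθ
  have hS := SS_nonneg n k z
  have hS1 := SS_nonneg n (k + 1) z
  have hA := amp_nonneg (k + 1)
  split_ifs with ha
  · -- some node is active
    obtain ⟨a, _, ha⟩ := ha
    have hz : lam k ^ 2 < wv k j z.1 ^ 2 + wv k j z.2 ^ 2 := by
      have h1 := wv_r1_sq k j (a * θ) z
      have h2 : lam k ^ 2 < wv k j (r1 (a * θ) z) ^ 2 := pow_lt_pow_left₀ ha (lam_pos k).le (by norm_num)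
      linarith
    have hmain := B0_main n k j hn hj z hC hst hb0 hb1 hz
    rw [dif_eq]
    have h := fwd_bound θ hθ.le n _ _ hmain.smooth
      (fun x => by rw [← norm_iter_eq]; exact hmain.bd n le_rfl x) 0
    refine h.trans (le_of_eq ?_)
    rw [mul_pow, mul_pow, mul_pow]
    ring
  · -- no active node
    have e : dif n θ (fun ω : Om => Complex.exp (Complex.I * ((b * ang k j ω : ℝ) : ℂ))) z =
        dif n θ (fun _ : Om => (1 : ℂ)) z := by
      unfold dif
      refine Finset.sum_congr rfl fun i hi => ?_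
      have hi' : i ≤ n := Nat.lt_succ_iff.1 (Finset.mem_range.1 hi)
      have h0 : wv k j (r1 (i * θ) z) ≤ lam k := by
        by_contra hcon
        exact ha ⟨i, hi', not_le.1 hcon⟩
      have h1 : ang k j (Real.cos (i * θ) • z.1 + Real.sin (i * θ) • z.2) = 0 := by
        have h2 : chi k (wv k j (Real.cos (i * θ) • z.1 + Real.sin (i * θ) • z.2)) = 0 := chi_zero h0
        rw [ang, h2, mul_zero, zero_mul]
      beta_reduce
      rw [h1, mul_zero, Complex.ofReal_zero, mul_zero, Complex.exp_zero]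
    rw [e, dif_eq]
    have h := fwd_bound θ hθ.le n (fun _ : ℝ => (1 : ℂ)) 0 contDiff_const (fun x => by
      rw [← norm_iter_eq]
      obtain ⟨m, rfl⟩ : ∃ m, n = m + 1 := ⟨n - 1, by omega⟩
      rw [iteratedFDeriv_succ_const, Pi.zero_apply, norm_zero]) 0
    rw [mul_zero] at h
    rw [mul_zero]
    exact h

end Pool.Agent.T2H68.UB
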