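import Pool.Agent.T2H68.UB.Stm

/-!
# Project UB, package GD: the angles are summable
-/

set_option autoImplicit false

open MeasureTheory ProbabilityTheory Set Filter Finset
open scoped ENNReal NNReal Topology ComplexConjugate

namespace Pool.Agent.T2H68.UB

namespace PkgGD

lemma lam_pos (k : ℕ) : 0 < lam k := by
  unfold lam
  positivity

lemma eta_pos (k : ℕ) : 0 < eta k := by
  unfold eta
  have := lam_pos k
  positivity

lemma X_cont (t : ℝ) : Continuous (X t) := by
  unfold X
  exact continuous_eval_const _

lemma X_meas (t : ℝ) : Measurable (X t) := (X_cont t).measurable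

lemma wv_meas (k j : ℕ) : Measurable (wv k j) := by
  unfold wv
  exact (Complex.measurable_re.comp ((X_meas _).sub (X_meas _))).const_mul _

lemma xv_meas (k j : ℕ) : Measurable (xv k j) := by
  unfold xv
  exact ((X_meas _).sub (X_meas _)).const_mul _

lemma chi_meas (k : ℕ) : Measurable (chi k) := by
  unfold chi
  exact (Real.smoothTransition.continuous.comp
    (continuous_const.mul (continuous_id.sub continuous_const))).measurable

lemma ph_meas (k : ℕ) : Measurable (ph k) := by
  unfold ph
  refine (Finset.measurable_sum _ fun j _ => ?_).const_mul _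
  exact ((chi_meas k).comp (wv_meas k j)).mul (Complex.measurable_re.comp (xv_meas k j))

lemma gg_meas (j : ℕ) : Measurable (gg j) := by
  unfold gg
  split_ifs
  · exact Real.measurable_cos
  · exact Real.measurable_sin

lemma ang_meas (k j : ℕ) : Measurable (ang k j) := by
  unfold ang
  exact (((chi_meas k).comp (wv_meas k j)).const_mul _).mul ((gg_meas j).comp (ph_meas (k + 1)))

lemma gg_le (j : ℕ) (p : ℝ) : |gg j p| ≤ 1 := by
  unfold gg
  split_ifs
  · exact Real.abs_cos_le_one p
  · exact Real.abs_sin_le_one p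

lemma ang_le (k j : ℕ) (ω : Om) : |ang k j ω| ≤ if lam k < wv k j ω then eta k else 0 := by
  unfold ang
  have he := eta_pos k
  have hg := gg_le j (ph (k + 1) ω)
  split_ifs with h
  · have h1 : chi k (wv k j ω) ≤ 1 := Real.smoothTransition.le_one _
    have h2 : 0 ≤ chi k (wv k j ω) := Real.smoothTransition.nonneg _
    rw [abs_mul, abs_mul, abs_of_pos he, abs_of_nonneg h2]
    calc eta k * chi k (wv k j ω) * |gg j (ph (k + 1) ω)| ≤ eta k * 1 * 1 := by gcongr
      _ = eta k := by ring
  · have h1 : chi k (wv k j ω) = 0 := by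
      unfold chi
      apply Real.smoothTransition.zero_of_nonpos
      have := lam_pos k
      exact mul_nonpos_of_nonneg_of_nonpos this.le (by linarith [not_lt.mp h])
    rw [h1]
    simp

lemma prob_le (μ : Measure Om) (h1 : S_WH μ) (h2 : S_GT) (k j : ℕ) (hj : j < mm k) :
    μ {ω | lam k < wv k j ω} ≤ ENNReal.ofReal (Real.exp (-(lam k ^ 2 / 2))) := by
  have hmap := h1.2.2.2 k j hj
  have hm : Measurable fun ω => (wv k j ω, (xv k j ω).re) :=
    (wv_meas k j).prodMk (Complex.measurable_re.comp (xv_meas k j))
  have e1 : {ω | lam k < wv k j ω} = (fun ω => (wv k j ω, (xv k j ω).re)) ⁻¹' (Set.Ioi (lam k) ×ˢ Set.univ) := by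
    ext ω
    simp
  rw [e1, ← Measure.map_apply hm (measurableSet_Ioi.prod MeasurableSet.univ), hmap,
    Measure.prod_prod, measure_univ, mul_one]
  have h3 := h2.2.1 (lam k) (lam_pos k).le
  rw [← ENNReal.ofReal_toReal (measure_ne_top (gaussianReal 0 1) (Set.Ioi (lam k)))]
  exact ENNReal.ofReal_le_ofReal h3

end PkgGD

open PkgGD in
theorem pGD (μ : Measure Om) (_hμ : IsW μ) (h1 : S_WH μ) (h2 : S_GT) : S_GD μ := by
  -- the expectation of one term
  have hterm : ∀ k : ℕ, ∫⁻ ω, ENNReal.ofReal (∑ j ∈ Finset.range (mm k), |ang k j ω|) ∂μ ≤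
      ENNReal.ofReal (100 / lam k) := by
    intro k
    have hl := lam_pos k
    have he := eta_pos k
    calc ∫⁻ ω, ENNReal.ofReal (∑ j ∈ Finset.range (mm k), |ang k j ω|) ∂μ
        = ∫⁻ ω, ∑ j ∈ Finset.range (mm k), ENNReal.ofReal |ang k j ω| ∂μ := by
          refine lintegral_congr fun ω => ?_
          rw [ENNReal.ofReal_sum_of_nonneg fun j _ => abs_nonneg _]
      _ = ∑ j ∈ Finset.range (mm k), ∫⁻ ω, ENNReal.ofReal |ang k j ω| ∂μ := by
          rw [lintegral_finsetSum]
          intro j _
          exact (ang_meas k j).abs.ennreal_ofReal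
      _ ≤ ∑ j ∈ Finset.range (mm k), ENNReal.ofReal (eta k * Real.exp (-(lam k ^ 2 / 2))) := by
          refine Finset.sum_le_sum fun j hj => ?_
          have hS : MeasurableSet {ω | lam k < wv k j ω} := measurableSet_lt measurable_const (wv_meas k j)
          calc ∫⁻ ω, ENNReal.ofReal |ang k j ω| ∂μ
              ≤ ∫⁻ ω, Set.indicator {ω | lam k < wv k j ω} (fun _ => ENNReal.ofReal (eta k)) ω ∂μ := by
                refine lintegral_mono fun ω => ?_
                have h3 := ang_le k j ω
                by_cases hω : lam k < wv k j ω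
                · rw [if_pos hω] at h3
                  rw [Set.indicator_of_mem (by exact hω)]
                  exact ENNReal.ofReal_le_ofReal h3
                · rw [if_neg hω] at h3
                  rw [Set.indicator_of_notMem (by exact hω), nonpos_iff_eq_zero, ENNReal.ofReal_eq_zero]
                  exact h3
            _ = ENNReal.ofReal (eta k) * μ {ω | lam k < wv k j ω} := by
                rw [lintegral_indicator_const hS]
            _ ≤ ENNReal.ofReal (eta k) * ENNReal.ofReal (Real.exp (-(lam k ^ 2 / 2))) := by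
                gcongr
                exact prob_le μ h1 h2 k j (Finset.mem_range.mp hj)
            _ = _ := by rw [← ENNReal.ofReal_mul he.le]
      _ = ENNReal.ofReal ((mm k : ℝ) * (eta k * Real.exp (-(lam k ^ 2 / 2)))) := by
          rw [Finset.sum_const, Finset.card_range, nsmul_eq_mul,
            ENNReal.ofReal_mul (p := (mm k : ℝ)) (by positivity), ENNReal.ofReal_natCast]
      _ ≤ ENNReal.ofReal (100 / lam k) := by
          apply ENNReal.ofReal_le_ofReal
          have h3 := h2.2.2 k
          have h4 : 0 ≤ eta k * Real.exp (-(lam k ^ 2 / 2)) := by positivity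
          calc (mm k : ℝ) * (eta k * Real.exp (-(lam k ^ 2 / 2)))
              ≤ (100 * lam k ^ 2 * Real.exp (lam k ^ 2 / 2)) * (eta k * Real.exp (-(lam k ^ 2 / 2))) :=
                mul_le_mul_of_nonneg_right h3 h4
            _ = 100 / lam k := by
                rw [eta, Real.exp_neg]
                have := (Real.exp_pos (lam k ^ 2 / 2)).ne'
                field_simp
  have hmeas : ∀ k, Measurable fun ω => ENNReal.ofReal (∑ j ∈ Finset.range (mm k), |ang k j ω|) := by
    intro k
    exact (Finset.measurable_sum _ fun j _ => (ang_meas k j).abs).ennreal_ofReal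
  have hsum : ∑' k, ∫⁻ ω, ENNReal.ofReal (∑ j ∈ Finset.range (mm k), |ang k j ω|) ∂μ ≠ ⊤ := by
    have hs : Summable fun k : ℕ => 100 / lam k := by
      have h3 : ∀ k : ℕ, 100 / lam k = (100 / 8) * (1 / 2) ^ k := by
        intro k
        unfold lam
        rw [pow_add, one_div_pow]
        field_simp
        norm_num
      simp_rw [h3]
      exact (summable_geometric_of_lt_one (by norm_num) (by norm_num)).mul_left _
    have h4 : ∑' k, ENNReal.ofReal (100 / lam k) ≠ ⊤ := hs.tsum_ofReal_ne_top
    exact ne_top_of_le_ne_top h4 (ENNReal.tsum_le_tsum hterm)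
  have hlt : ∀ᵐ ω ∂μ, ∑' k, ENNReal.ofReal (∑ j ∈ Finset.range (mm k), |ang k j ω|) < ⊤ := by
    refine ae_lt_top (Measurable.ennreal_tsum hmeas) ?_
    rwa [lintegral_tsum fun k => (hmeas k).aemeasurable]
  filter_upwards [hlt] with ω hω
  have h5 := ENNReal.summable_toReal hω.ne
  refine h5.congr fun k => ?_
  rw [ENNReal.toReal_ofReal (Finset.sum_nonneg fun j _ => abs_nonneg _)]

end Pool.Agent.T2H68.UB
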