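import Pool.Agent.T2H68.UB.Stm

/-!
# Project UB, package GT: Gaussian tails and the number of slots
-/

set_option autoImplicit false

open MeasureTheory ProbabilityTheory Set Filter Finset
open scoped ENNReal NNReal Topology ComplexConjugate

namespace Pool.Agent.T2H68.UB

namespace PkgGT

lemma lam_ge (k : ℕ) : 8 ≤ lam k := by
  unfold lam
  have : (2 : ℝ) ^ 3 ≤ 2 ^ (k + 3) := pow_le_pow_right₀ (by norm_num) (by omega)
  linarith

lemma lower (l : ℝ) (hl : 8 ≤ l) :
    Real.exp (-(l ^ 2 / 2)) / (40 * l) ≤ ((gaussianReal 0 1) (Set.Ici (l + 1 / l))).toReal := by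
  have hl0 : 0 < l := by linarith
  set a := l + 1 / l with ha
  set b := l + 2 / l with hb
  have hab : a ≤ b := by
    have : 1 / l ≤ 2 / l := by gcongr; norm_num
    linarith
  have ha0 : 0 < a := by positivity
  have hb2 : b ^ 2 = l ^ 2 + 4 + 4 / l ^ 2 := by
    rw [hb]; field_simp; ring
  have h4 : 4 / l ^ 2 ≤ 1 / 16 := by
    rw [div_le_div_iff₀ (by positivity) (by norm_num)]
    nlinarith
  -- lower bound of the density
  have hpdf : ∀ x ∈ Set.Icc a b, Real.exp (-(l ^ 2 / 2)) / 40 ≤ gaussianPDFReal 0 1 x := by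
    intro x hx
    have hx2 : x ^ 2 ≤ b ^ 2 := pow_le_pow_left₀ (ha0.le.trans hx.1) hx.2 2
    rw [gaussianPDFReal]
    simp only [NNReal.coe_one, mul_one, sub_zero]
    have h1 : Real.exp (-(l ^ 2 / 2)) * Real.exp (-(33 / 16)) ≤ Real.exp (-x ^ 2 / 2) := by
      rw [← Real.exp_add]
      apply Real.exp_le_exp.mpr
      linarith
    have h2 : (1 : ℝ) / 13 ≤ Real.exp (-(33 / 16)) := by
      rw [Real.exp_neg, ← one_div]
      apply one_div_le_one_div_of_le (Real.exp_pos _)
      have h3 : Real.exp (33 / 16) = Real.exp 1 ^ 2 * Real.exp (1 / 16) := by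
        rw [← Real.exp_nat_mul, ← Real.exp_add]
        norm_num
      rw [h3]
      have h5 := Real.exp_one_lt_d9
      have h6 : Real.exp (1 / 16) ≤ 1.1 := by
        have := Real.exp_bound' (x := 1 / 16) (by norm_num) (by norm_num) (n := 2) (by norm_num)
        norm_num [Finset.sum_range_succ] at this
        linarith
      have h7 : Real.exp 1 ^ 2 ≤ 2.72 ^ 2 := pow_le_pow_left₀ (Real.exp_pos _).le (by linarith) 2
      calc Real.exp 1 ^ 2 * Real.exp (1 / 16) ≤ 2.72 ^ 2 * 1.1 :=
            mul_le_mul h7 h6 (Real.exp_pos _).le (by norm_num)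
        _ ≤ 13 := by norm_num
    have h3 : (13 : ℝ) / 40 ≤ (Real.sqrt (2 * Real.pi))⁻¹ := by
      rw [inv_eq_one_div, div_le_div_iff₀ (by norm_num) (by positivity)]
      have h8 : Real.sqrt (2 * Real.pi) ≤ 40 / 13 := by
        rw [Real.sqrt_le_left (by norm_num)]
        have := Real.pi_lt_d2
        norm_num at this ⊢
        linarith
      linarith
    have he : 0 < Real.exp (-(l ^ 2 / 2)) := Real.exp_pos _
    calc Real.exp (-(l ^ 2 / 2)) / 40 = (13 / 40) * (Real.exp (-(l ^ 2 / 2)) * (1 / 13)) := by ring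
      _ ≤ (13 / 40) * (Real.exp (-(l ^ 2 / 2)) * Real.exp (-(33 / 16))) := by gcongr
      _ ≤ (13 / 40) * Real.exp (-x ^ 2 / 2) := by gcongr
      _ ≤ (Real.sqrt (2 * Real.pi))⁻¹ * Real.exp (-x ^ 2 / 2) := by gcongr
  have hlow : ENNReal.ofReal (Real.exp (-(l ^ 2 / 2)) / (40 * l)) ≤ (gaussianReal 0 1) (Set.Ici a) := by
    rw [gaussianReal_apply _ one_ne_zero]
    calc ENNReal.ofReal (Real.exp (-(l ^ 2 / 2)) / (40 * l))
        = ENNReal.ofReal (Real.exp (-(l ^ 2 / 2)) / 40) * volume (Set.Icc a b) := by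
          rw [Real.volume_Icc, ← ENNReal.ofReal_mul (by positivity)]
          congr 1
          rw [ha, hb]
          field_simp
          ring
      _ = ∫⁻ _ in Set.Icc a b, ENNReal.ofReal (Real.exp (-(l ^ 2 / 2)) / 40) := by
          rw [setLIntegral_const]
      _ ≤ ∫⁻ x in Set.Icc a b, gaussianPDF 0 1 x := by
          apply setLIntegral_mono' measurableSet_Icc
          intro x hx
          rw [gaussianPDF]
          exact ENNReal.ofReal_le_ofReal (hpdf x hx)
      _ ≤ ∫⁻ x in Set.Ici a, gaussianPDF 0 1 x :=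
          lintegral_mono_set Set.Icc_subset_Ici_self
  have := ENNReal.toReal_mono (measure_ne_top _ _) hlow
  rwa [ENNReal.toReal_ofReal (by positivity)] at this

end PkgGT

theorem pGT : S_GT := by
  refine ⟨?_, ?_, ?_⟩
  · intro k
    have hl := PkgGT.lam_ge k
    have hl0 : 0 < lam k := by linarith
    have h1 := PkgGT.lower (lam k) hl
    have h2 : 40 * lam k ^ 2 * Real.exp (lam k ^ 2 / 2) ≤ (mm k : ℝ) / 2 := by
      unfold mm
      push_cast
      have := Nat.le_ceil (40 * lam k ^ 2 * Real.exp (lam k ^ 2 / 2))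
      linarith
    calc lam k = (40 * lam k ^ 2 * Real.exp (lam k ^ 2 / 2)) *
          (Real.exp (-(lam k ^ 2 / 2)) / (40 * lam k)) := by
          rw [Real.exp_neg]
          have := (Real.exp_pos (lam k ^ 2 / 2)).ne'
          field_simp
      _ ≤ _ := mul_le_mul h2 h1 (by positivity) (by positivity)
  · intro t ht
    have h1 := measure_ge_le_exp_mul_mgf (μ := gaussianReal 0 1) (X := id) t ht
      (integrable_exp_mul_gaussianReal t)
    rw [mgf_id_gaussianReal] at h1
    have h2 : ((gaussianReal 0 1) (Set.Ioi t)).toReal ≤ (gaussianReal 0 1).real {ω | t ≤ id ω} := by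
      apply ENNReal.toReal_mono (measure_ne_top _ _)
      exact measure_mono fun x (hx : t < x) => (show t ≤ x from hx.le)
    refine h2.trans (h1.trans (le_of_eq ?_))
    rw [← Real.exp_add]
    congr 1
    simp only [NNReal.coe_one]
    ring
  · intro k
    have hl := PkgGT.lam_ge k
    have hl0 : 0 < lam k := by linarith
    have he : 1 ≤ Real.exp (lam k ^ 2 / 2) := Real.one_le_exp (by positivity)
    have h1 := Nat.ceil_lt_add_one (show 0 ≤ 40 * lam k ^ 2 * Real.exp (lam k ^ 2 / 2) by positivity)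
    have h2 : (64 : ℝ) ≤ lam k ^ 2 := by nlinarith
    have h3 : (64 : ℝ) * 1 ≤ lam k ^ 2 * Real.exp (lam k ^ 2 / 2) :=
      mul_le_mul h2 he zero_le_one (by positivity)
    unfold mm
    push_cast
    linarith

end Pool.Agent.T2H68.UB
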