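import Pool.Agent.T2H68.UB.Defs

/-!
# Project UB: Gaussian base (helper74)

The continuous linear functionals of the path are jointly Gaussian; covariances of the increments.
-/

set_option autoImplicit false

open MeasureTheory ProbabilityTheory Set Filter Finset
open scoped ENNReal NNReal Topology ComplexConjugate

namespace Pool.Agent.T2H68.UB.PkgG

open Pool.Agent.T2H68.UB

/-- evaluation -/
noncomputable def ev (t : ℝ) : Om →L[ℝ] ℂ :=
  ContinuousMap.evalCLM ℝ (Set.projIcc 0 1 zero_le_one t)

lemma ev_apply (t : ℝ) (ω : Om) : ev t ω = X t ω := rfl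

/-- real and imaginary coordinates (`false` = real part) -/
noncomputable def co : Bool → (ℂ →L[ℝ] ℝ)
  | false => Complex.reCLM
  | true => Complex.imCLM

lemma co_false (z : ℂ) : co false z = z.re := rfl
lemma co_true (z : ℂ) : co true z = z.im := rfl

/-- increment of one coordinate -/
noncomputable def inc (c : Bool) (s t : ℝ) : StrongDual ℝ Om := (co c).comp (ev t - ev s)

lemma inc_apply (c : Bool) (s t : ℝ) (ω : Om) : inc c s t ω = co c (X t ω - X s ω) := rfl

lemma X_clamp (t : ℝ) (ω : Om) : X t ω = X (max 0 (min 1 t)) ω := by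
  unfold X
  congr 1
  rw [Set.projIcc, Set.projIcc]
  ext
  simp only [Subtype.coe_mk]
  rcases le_total t 1 with h | h <;> rcases le_total 0 t with h' | h' <;>
    simp [h, h']

variable {μ : Measure Om}

/-- covariance form -/
noncomputable def cv (μ : Measure Om) (L M : StrongDual ℝ Om) : ℝ := ∫ ω, L ω * M ω ∂μ

lemma memLp (hμ : IsW μ) (L : StrongDual ℝ Om) : MemLp (fun ω => L ω) 2 μ := by
  haveI := hμ.gauss
  exact IsGaussian.memLp_dual μ L 2 (by simp)

lemma int_mul (hμ : IsW μ) (L M : StrongDual ℝ Om) : Integrable (fun ω => L ω * M ω) μ :=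
  (memLp hμ L).integrable_mul (memLp hμ M)

lemma cv_comm (L M : StrongDual ℝ Om) : cv μ L M = cv μ M L := by
  unfold cv; simp_rw [mul_comm]

lemma cv_add_left (hμ : IsW μ) (L L' M : StrongDual ℝ Om) :
    cv μ (L + L') M = cv μ L M + cv μ L' M := by
  unfold cv
  rw [← integral_add (int_mul hμ L M) (int_mul hμ L' M)]
  refine integral_congr_ae (Eventually.of_forall fun ω => ?_)
  simp only [ContinuousLinearMap.add_apply]; ring

lemma cv_sub_left (hμ : IsW μ) (L L' M : StrongDual ℝ Om) :
    cv μ (L - L') M = cv μ L M - cv μ L' M := by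
  unfold cv
  rw [← integral_sub (int_mul hμ L M) (int_mul hμ L' M)]
  refine integral_congr_ae (Eventually.of_forall fun ω => ?_)
  simp only [ContinuousLinearMap.sub_apply]; ring

lemma cv_smul_left (c : ℝ) (L M : StrongDual ℝ Om) :
    cv μ (c • L) M = c * cv μ L M := by
  unfold cv
  rw [← integral_const_mul]
  refine integral_congr_ae (Eventually.of_forall fun ω => ?_)
  simp only [ContinuousLinearMap.smul_apply, smul_eq_mul]; ring

lemma cv_add_right (hμ : IsW μ) (L M M' : StrongDual ℝ Om) :
    cv μ L (M + M') = cv μ L M + cv μ L M' := by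
  rw [cv_comm, cv_add_left hμ, cv_comm M, cv_comm M']

lemma cv_sub_right (hμ : IsW μ) (L M M' : StrongDual ℝ Om) :
    cv μ L (M - M') = cv μ L M - cv μ L M' := by
  rw [cv_comm, cv_sub_left hμ, cv_comm M, cv_comm M']

lemma cv_smul_right (c : ℝ) (L M : StrongDual ℝ Om) :
    cv μ L (c • M) = c * cv μ L M := by
  rw [cv_comm, cv_smul_left, cv_comm M]

lemma cov_eq (hμ : IsW μ) (L M : StrongDual ℝ Om) :
    covariance (fun ω => L ω) (fun ω => M ω) μ = cv μ L M := by
  unfold covariance cv
  rw [hμ.mean L, hμ.mean M]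
  simp

/-- coordinates at a time -/
noncomputable def cr (c : Bool) (t : ℝ) : StrongDual ℝ Om := (co c).comp (ev t)

lemma cr_apply (c : Bool) (t : ℝ) (ω : Om) : cr c t ω = co c (X t ω) := rfl

lemma inc_eq (c : Bool) (s t : ℝ) : inc c s t = cr c t - cr c s := by
  ext ω
  simp [inc, cr]

lemma cv_cr (hμ : IsW μ) (c d : Bool) (s t : ℝ) (hs : 0 ≤ s) (hst : s ≤ t) (ht : t ≤ 1) :
    cv μ (cr c s) (cr d t) = if c = d then s else 0 := by
  cases c <;> cases d
  · simpa [cv, cr_apply, co_false] using hμ.rr s t hs hst ht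
  · simpa [cv, cr_apply, co_false, co_true] using hμ.ri s t hs (hst.trans ht) (hs.trans hst) ht
  · have := hμ.ri t s (hs.trans hst) ht hs (hst.trans ht)
    simpa [cv, cr_apply, co_false, co_true, mul_comm] using this
  · simpa [cv, cr_apply, co_true] using hμ.ii s t hs hst ht

lemma cv_cr' (hμ : IsW μ) (c d : Bool) (s t : ℝ) (hs : 0 ≤ s) (hst : s ≤ t) (ht : t ≤ 1) :
    cv μ (cr c t) (cr d s) = if c = d then s else 0 := by
  rw [cv_comm, cv_cr hμ d c s t hs hst ht]
  simp [eq_comm]

/-- disjoint increments are uncorrelated -/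
lemma cv_inc_disj (hμ : IsW μ) (c d : Bool) (a b s t : ℝ) (h0 : 0 ≤ a) (hab : a ≤ b) (hbs : b ≤ s)
    (hst : s ≤ t) (h1 : t ≤ 1) : cv μ (inc c a b) (inc d s t) = 0 := by
  rw [inc_eq, inc_eq, cv_sub_left hμ, cv_sub_right hμ, cv_sub_right hμ,
    cv_cr hμ c d b t (by linarith) (by linarith) (by linarith),
    cv_cr hμ c d b s (by linarith) (by linarith) (by linarith),
    cv_cr hμ c d a t (by linarith) (by linarith) (by linarith),
    cv_cr hμ c d a s (by linarith) (by linarith) (by linarith)]
  ring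

/-- the same increment -/
lemma cv_inc_self (hμ : IsW μ) (c d : Bool) (s t : ℝ) (h0 : 0 ≤ s) (hst : s ≤ t) (h1 : t ≤ 1) :
    cv μ (inc c s t) (inc d s t) = if c = d then t - s else 0 := by
  rw [inc_eq, inc_eq, cv_sub_left hμ, cv_sub_right hμ, cv_sub_right hμ,
    cv_cr hμ c d t t (by linarith) (by linarith) (by linarith),
    cv_cr' hμ c d s t (by linarith) (by linarith) (by linarith),
    cv_cr hμ c d s t (by linarith) (by linarith) (by linarith),
    cv_cr hμ c d s s (by linarith) (by linarith) (by linarith)]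
  split_ifs <;> ring

/-- a coordinate at a time before the increment -/
lemma cv_cr_inc (hμ : IsW μ) (c d : Bool) (r s t : ℝ) (hrs : r ≤ s) (h0 : 0 ≤ s)
    (hst : s ≤ t) (h1 : t ≤ 1) : cv μ (cr c r) (inc d s t) = 0 := by
  have e : cr c r = cr c (max 0 (min 1 r)) := by
    ext ω
    rw [cr_apply, cr_apply, ← X_clamp]
  have hr0 : 0 ≤ max 0 (min 1 r) := le_max_left _ _
  have hrs' : max 0 (min 1 r) ≤ s := max_le h0 ((min_le_right _ _).trans hrs)
  rw [e, inc_eq, cv_sub_right hμ,
    cv_cr hμ c d _ t hr0 (by linarith) (by linarith),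
    cv_cr hμ c d _ s hr0 (by linarith) (by linarith)]
  ring

/-- all the continuous linear maps to a finite dimensional space are jointly Gaussian -/
lemma isGP (hμ : IsW μ) (E : Type) [NormedAddCommGroup E] [NormedSpace ℝ E] [MeasurableSpace E]
    [BorelSpace E] [SecondCountableTopology E] :
    IsGaussianProcess (fun (L : Om →L[ℝ] E) (ω : Om) => L ω) μ := by
  haveI := hμ.gauss
  refine ⟨fun I => ?_⟩
  have := (IsGaussian.hasGaussianLaw_id (μ := μ)).map_fun
    (ContinuousLinearMap.pi fun i : I => (i : Om →L[ℝ] E))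
  exact this

end Pool.Agent.T2H68.UB.PkgG
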