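import Pool.Agent.T2H68.UB.Stm
import Pool.Agent.T2H68.UB.GBase

/-! # Package IN (helper74): increments of the Wiener measure -/

set_option autoImplicit false

open MeasureTheory ProbabilityTheory Set Filter Finset
open scoped ENNReal NNReal Topology ComplexConjugate

namespace Pool.Agent.T2H68.UB

namespace PkgIN

open PkgG

variable {μ : Measure Om}

lemma dual_apply (L : StrongDual ℝ ℂ) (z : ℂ) : L z = L 1 * co false z + L Complex.I * co true z := by
  rw [co_false, co_true]
  conv_lhs => rw [show z = z.re • (1 : ℂ) + z.im • Complex.I by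
    rw [Complex.real_smul, Complex.real_smul, mul_one]; exact (Complex.re_add_im z).symm]
  rw [map_add, map_smul, map_smul]
  simp only [smul_eq_mul]
  ring

lemma part1 (hμ : IsW μ) (s t : ℝ) (h0 : 0 ≤ s) (hst : s ≤ t) (h1 : t ≤ 1) :
    Indep (Fil s) (MeasurableSpace.comap (fun ω => X t ω - X s ω) inferInstance) μ := by
  have hp := hμ.gauss
  have key : IndepFun (fun (ω : Om) (r : Set.Iic s) => X r ω)
      (fun (ω : Om) (_ : Unit) => X t ω - X s ω) μ := by
    refine IsGaussianProcess.indepFun_of_covariance_strongDual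
      (X := fun (r : Set.Iic s) (ω : Om) => X r ω) (Y := fun (_ : Unit) (ω : Om) => X t ω - X s ω)
      ?_ ?_ ?_ ?_
    · have := (isGP hμ ℂ).comp_right
        (Sum.elim (fun r : Set.Iic s => ev r) (fun _ : Unit => ev t - ev s))
      have hE : (Sum.elim (fun (r : Set.Iic s) (ω : Om) => X r ω)
          (fun (_ : Unit) (ω : Om) => X t ω - X s ω)) =
          (fun (L : Om →L[ℝ] ℂ) (ω : Om) => L ω) ∘
            (Sum.elim (fun r : Set.Iic s => ev r) (fun _ : Unit => ev t - ev s)) := by
        funext x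
        rcases x with r | u
        · rfl
        · rfl
      rw [hE]
      exact this
    · intro r
      exact (ev r).continuous.measurable.aemeasurable
    · intro _
      exact (ev t - ev s).continuous.measurable.aemeasurable
    · intro r _ L₁ L₂
      have e1 : L₁ ∘ (fun ω => X r ω) = fun ω => (L₁ 1 • cr false r + L₁ Complex.I • cr true r) ω := by
        ext ω
        simp only [Function.comp_apply]
        rw [dual_apply L₁]
        rfl
      have e2 : L₂ ∘ (fun ω => X t ω - X s ω) =
          fun ω => (L₂ 1 • inc false s t + L₂ Complex.I • inc true s t) ω := by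
        ext ω
        simp only [Function.comp_apply]
        rw [dual_apply L₂]
        rfl
      have hr : (r : ℝ) ≤ s := r.2
      rw [e1, e2, cov_eq hμ, cv_add_left hμ, cv_add_right hμ, cv_add_right hμ]
      simp only [cv_smul_left, cv_smul_right, cv_cr_inc hμ _ _ _ _ _ hr h0 hst h1]
      ring
  have h2 : Indep (MeasurableSpace.comap (fun (ω : Om) (r : Set.Iic s) => X r ω) MeasurableSpace.pi)
      (MeasurableSpace.comap (fun (ω : Om) (_ : Unit) => X t ω - X s ω) MeasurableSpace.pi) μ := key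
  refine indep_of_indep_of_le_left (indep_of_indep_of_le_right h2 ?_) ?_
  · have : (fun ω => X t ω - X s ω) = (fun f : Unit → ℂ => f ()) ∘
        (fun (ω : Om) (_ : Unit) => X t ω - X s ω) := rfl
    rw [this, ← MeasurableSpace.comap_comp]
    exact MeasurableSpace.comap_mono (measurable_pi_apply ()).comap_le
  · refine iSup₂_le fun r hr => ?_
    have : (fun ω => X r ω) = (fun f : Set.Iic s → ℂ => f ⟨r, hr⟩) ∘
        (fun (ω : Om) (r : Set.Iic s) => X r ω) := rfl
    rw [show X r = (fun ω => X r ω) from rfl, this, ← MeasurableSpace.comap_comp]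
    exact MeasurableSpace.comap_mono (measurable_pi_apply (⟨r, hr⟩ : Set.Iic s)).comap_le

lemma part2 (hμ : IsW μ) (s t : ℝ) (ξ : ℂ) (h0 : 0 ≤ s) (hst : s ≤ t) (h1 : t ≤ 1) :
    ∫ ω, Complex.exp (Complex.I * (((conj ξ * (X t ω - X s ω)).re : ℝ) : ℂ)) ∂μ =
      ((Real.exp (-(‖ξ‖ ^ 2 * (t - s) / 2)) : ℝ) : ℂ) := by
  have hp := hμ.gauss
  set L : StrongDual ℝ Om := ξ.re • inc false s t + ξ.im • inc true s t with hL
  have hLa : ∀ ω, (conj ξ * (X t ω - X s ω)).re = L ω := by
    intro ω
    rw [hL]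
    change _ = ξ.re * (X t ω - X s ω).re + ξ.im * (X t ω - X s ω).im
    simp [Complex.mul_re]
  have hv : Var[L; μ] = ‖ξ‖ ^ 2 * (t - s) := by
    rw [← covariance_self (by exact L.continuous.measurable.aemeasurable)]
    have := cov_eq hμ L L
    rw [show (fun ω => L ω) = (L : Om → ℝ) from rfl] at this
    rw [this, hL, cv_add_left hμ, cv_add_right hμ, cv_add_right hμ]
    simp only [cv_smul_left, cv_smul_right, cv_inc_self hμ _ _ _ _ h0 hst h1]
    rw [← Complex.normSq_eq_norm_sq, Complex.normSq_apply]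
    simp
    ring
  have hm : μ[L] = 0 := hμ.mean L
  have hc := IsGaussian.charFunDual_eq (μ := μ) L
  rw [charFunDual_apply] at hc
  rw [hv] at hc
  have hm' : ∫ x, ((L x : ℝ) : ℂ) ∂μ = 0 := by
    rw [integral_complex_ofReal]
    simpa using congrArg (fun x : ℝ => (x : ℂ)) hm
  rw [hm'] at hc
  have e : (fun ω => Complex.exp (Complex.I * (((conj ξ * (X t ω - X s ω)).re : ℝ) : ℂ))) =
      fun ω => Complex.exp ((L ω : ℂ) * Complex.I) := by
    ext ω
    rw [hLa, mul_comm]
  rw [e, hc]
  push_cast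
  congr 1
  ring

lemma part3 (hμ : IsW μ) : ∀ᵐ ω ∂μ, X 0 ω = 0 := by
  have h : ∀ c : Bool, ∀ᵐ ω ∂μ, co c (X 0 ω) = 0 := by
    intro c
    have h1 := cv_cr hμ c c 0 0 le_rfl le_rfl zero_le_one
    rw [if_pos rfl] at h1
    unfold cv at h1
    rw [integral_eq_zero_iff_of_nonneg (fun ω => mul_self_nonneg _)
      (int_mul hμ (cr c 0) (cr c 0))] at h1
    filter_upwards [h1] with ω hω
    have : co c (X 0 ω) * co c (X 0 ω) = 0 := hω
    exact mul_self_eq_zero.mp this
  filter_upwards [h false, h true] with ω h1 h2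
  exact Complex.ext h1 h2

end PkgIN

theorem pIN (μ : Measure Om) (hμ : IsW μ) : S_IN μ :=
  ⟨fun s t h0 hst h1 => PkgIN.part1 hμ s t h0 hst h1,
    fun s t ξ h0 hst h1 => PkgIN.part2 hμ s t ξ h0 hst h1, PkgIN.part3 hμ⟩

end Pool.Agent.T2H68.UB
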