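import Pool.Agent.T2H68.UB.Stm

/-!
# Project UB, package LW: law of `β` and independence.
-/

set_option autoImplicit false

open MeasureTheory ProbabilityTheory Set Filter Finset
open scoped ENNReal NNReal Topology ComplexConjugate

namespace Pool.Agent.T2H68.UB

open Pool.Agent.R876.WM

namespace PkgLW

lemma continuous_X (t : ℝ) : Continuous (X t) := by
  unfold X
  exact continuous_eval_const _

lemma measurable_X (t : ℝ) : Measurable (X t) := (continuous_X t).measurable

lemma Fil_le (t : ℝ) : Fil t ≤ (instMeasurableSpaceOm : MeasurableSpace Om) := by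
  refine iSup₂_le fun s _ => ?_
  exact (measurable_X s).comap_le

/-- Abel summation over a finite set of times -/
lemma abel_sum (I : Finset ℝ) : ∀ s : ℝ, s ≤ 1 → (∀ t ∈ I, s ≤ t) → (∀ t ∈ I, t ≤ 1) →
    ∀ η : ℝ → ℂ, ∃ (N : ℕ) (r : ℕ → ℝ) (ξ : ℕ → ℂ), (∀ l < N, r l ≤ r (l + 1)) ∧ r 0 = s ∧ r N ≤ 1 ∧
      ∀ f : ℝ → ℂ, ∑ t ∈ I, conj (η t) * (f t - f s) =
        ∑ l ∈ Finset.range N, conj (ξ l) * (f (r (l + 1)) - f (r l)) := by
  induction I using Finset.induction_on_min with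
  | empty =>
    intro s hs _ _ η
    exact ⟨0, fun _ => s, fun _ => 0, by simp, rfl, hs, by simp⟩
  | insert a I ha ih =>
    intro s hs h1 h2 η
    have ha1 : a ≤ 1 := h2 a (Finset.mem_insert_self _ _)
    have has : s ≤ a := h1 a (Finset.mem_insert_self _ _)
    obtain ⟨N, r, ξ, hr, hr0, hrN, hf⟩ := ih a ha1 (fun t ht => (ha t ht).le)
      (fun t ht => h2 t (Finset.mem_insert_of_mem ht)) η
    refine ⟨N + 1, fun l => if l = 0 then s else r (l - 1),
      fun l => if l = 0 then η a + ∑ t ∈ I, η t else ξ (l - 1), ?_, by simp, by simpa using hrN, ?_⟩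
    · intro l hl
      rcases Nat.eq_zero_or_pos l with rfl | hpos
      · simp [hr0, has]
      · obtain ⟨m, rfl⟩ : ∃ m, l = m + 1 := ⟨l - 1, by omega⟩
        simpa using hr m (by omega)
    · intro f
      have hnot : a ∉ I := fun hmem => lt_irrefl a (ha a hmem)
      rw [Finset.sum_insert hnot, Finset.sum_range_succ']
      simp only [Nat.add_eq_zero_iff, one_ne_zero, and_false, if_false, Nat.add_sub_cancel, if_true,
        zero_add, hr0]
      rw [← hf f]
      have h3 : ∑ t ∈ I, conj (η t) * (f t - f s) =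
          ∑ t ∈ I, conj (η t) * (f t - f a) + (∑ t ∈ I, conj (η t)) * (f a - f s) := by
        rw [Finset.sum_mul, ← Finset.sum_add_distrib]
        refine Finset.sum_congr rfl fun t _ => ?_
        ring
      rw [h3, map_add, map_sum]
      ring

variable {μ : Measure Om}

/-- joint characteristic function -/
lemma key (hCF : S_CF μ) {s : ℝ} (hs0 : 0 ≤ s) (hs1 : s ≤ 1) {ι : Type*} (J : Finset ι)
    (T : ι → ℝ) (hT : ∀ i ∈ J, s ≤ T i ∧ T i ≤ 1) (η : ι → ℂ) :
    ∃ c : ℂ, ∀ (U : ℝ → Om → ℂ) (β : Om → Om), IsInt μ U β → ∀ (Y : Om → ℂ) (C : ℝ),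
      Measurable[Fil s] Y → (∀ ω, ‖Y ω‖ ≤ C) →
      ∫ ω, Y ω * Complex.exp (Complex.I *
        ((∑ i ∈ J, (conj (η i) * (X (T i) (β ω) - X s (β ω))).re : ℝ) : ℂ)) ∂μ =
        (∫ ω, Y ω ∂μ) * c := by
  classical
  obtain ⟨N, r, ξ, hr, hr0, hrN, hf⟩ := abel_sum (J.image T) s hs1
    (by
      intro t ht
      obtain ⟨i, hi, rfl⟩ := Finset.mem_image.1 ht
      exact (hT i hi).1)
    (by
      intro t ht
      obtain ⟨i, hi, rfl⟩ := Finset.mem_image.1 ht
      exact (hT i hi).2)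
    (fun t => ∑ i ∈ J with T i = t, η i)
  refine ⟨((Real.exp (-(∑ l ∈ Finset.range N, ‖ξ l‖ ^ 2 * (r (l + 1) - r l) / 2)) : ℝ) : ℂ), ?_⟩
  intro U β hInt Y C hY hC
  have h := hCF U β hInt N r ξ Y C hr (by rw [hr0]; exact hs0) hrN (by rw [hr0]; exact hY) hC
  rw [← h]
  refine integral_congr_ae (ae_of_all _ fun ω => ?_)
  simp only
  congr 4
  have h2 := hf (fun t => X t (β ω))
  rw [← Complex.re_sum, ← Complex.re_sum]
  congr 1
  rw [← h2]
  rw [← Finset.sum_fiberwise_of_maps_to (g := T) (t := J.image T)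
    (fun i hi => Finset.mem_image_of_mem T hi)]
  refine Finset.sum_congr rfl fun t _ => ?_
  rw [map_sum, Finset.sum_mul]
  refine Finset.sum_congr rfl fun i hi => ?_
  rw [(Finset.mem_filter.1 hi).2]

/-- real linear functionals on `ι → ℂ` -/
lemma dual_pi {ι : Type*} [Fintype ι] (L : StrongDual ℝ (ι → ℂ)) :
    ∃ η : ι → ℂ, ∀ x, L x = ∑ i, (conj (η i) * x i).re := by
  classical
  refine ⟨fun i => ((L (Pi.single i 1) : ℝ) : ℂ) + ((L (Pi.single i Complex.I) : ℝ) : ℂ) * Complex.I,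
    fun x => ?_⟩
  conv_lhs => rw [← Finset.univ_sum_single x]
  rw [map_sum]
  refine Finset.sum_congr rfl fun i _ => ?_
  have h1 : (Pi.single i (x i) : ι → ℂ) = (x i).re • (Pi.single i (1 : ℂ) : ι → ℂ) +
      (x i).im • (Pi.single i Complex.I : ι → ℂ) := by
    rw [← Pi.single_smul, ← Pi.single_smul, ← Pi.single_add]
    congr 1
    apply Complex.ext <;> simp
  rw [h1, map_add, map_smul, map_smul]
  simp
  ring

/-- the identity is an integral -/
lemma isInt_id (hX0 : ∀ᵐ ω ∂μ, X 0 ω = 0) : IsInt μ (fun _ _ => (1 : ℂ)) id where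
  norm := by simp
  adapted := fun t _ _ => measurable_const
  meas := measurable_id
  rs := by
    filter_upwards [hX0] with ω hω
    intro ε hε
    refine ⟨1, one_pos, fun n τ h0 _ _ => ?_⟩
    simp only [map_one, one_mul, id]
    rw [Finset.sum_range_sub (fun i => X (τ i) ω), h0, hω]
    simp [hε.le]

lemma X0_of_isRS {u : ℝ → ℂ} {ω b : Om} (h : IsRS u ω b) : X 0 b = 0 := by
  have h1 : ∀ ε > (0 : ℝ), ‖X 0 b‖ ≤ ε := by
    intro ε hε
    obtain ⟨δ, hδ, h2⟩ := h ε hε
    have h3 := h2 0 (fun _ => 0) rfl zero_le_one (by simp)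
    simpa using h3
  have h4 : ‖X 0 b‖ ≤ 0 := le_of_forall_pos_le_add fun ε hε => by
    have := h1 ε hε
    linarith
  exact norm_le_zero_iff.1 h4

/-- the joint law of finitely many values -/
lemma fd_law [IsProbabilityMeasure μ] (hCF : S_CF μ) (hX0 : ∀ᵐ ω ∂μ, X 0 ω = 0)
    {U : ℝ → Om → ℂ} {β : Om → Om} (hInt : IsInt μ U β) (I : Finset (Set.Icc (0 : ℝ) 1)) :
    μ.map (fun (ω : Om) (i : I) => X (i : Set.Icc (0 : ℝ) 1) (β ω)) =
      μ.map (fun (ω : Om) (i : I) => X (i : Set.Icc (0 : ℝ) 1) ω) := by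
  have hm1 : Measurable fun (ω : Om) (i : I) => X (i : Set.Icc (0 : ℝ) 1) (β ω) :=
    measurable_pi_lambda _ fun i => (measurable_X _).comp hInt.meas
  have hm2 : Measurable fun (ω : Om) (i : I) => X (i : Set.Icc (0 : ℝ) 1) ω :=
    measurable_pi_lambda _ fun i => measurable_X _
  have := Measure.isProbabilityMeasure_map (μ := μ) hm1.aemeasurable
  have := Measure.isProbabilityMeasure_map (μ := μ) hm2.aemeasurable
  refine Measure.ext_of_charFunDual ?_
  ext L
  rw [charFunDual_apply, charFunDual_apply, integral_map hm1.aemeasurable (by fun_prop),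
    integral_map hm2.aemeasurable (by fun_prop)]
  obtain ⟨η, hη⟩ := dual_pi L
  obtain ⟨c, hc⟩ := key hCF le_rfl zero_le_one (Finset.univ : Finset I)
    (fun i => ((i : Set.Icc (0 : ℝ) 1) : ℝ)) (fun i _ => ⟨i.1.2.1, i.1.2.2⟩) η
  have hgen : ∀ (U : ℝ → Om → ℂ) (β : Om → Om), IsInt μ U β →
      ∫ ω, Complex.exp (((L fun i : I => X (i : Set.Icc (0 : ℝ) 1) (β ω)) : ℝ) * Complex.I) ∂μ = c := by
    intro U β hInt
    have h1 := hc U β hInt (fun _ => 1) 1 measurable_const (by simp)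
    simp only [one_mul, integral_const, probReal_univ, one_smul] at h1
    rw [← h1]
    refine integral_congr_ae ?_
    filter_upwards [hInt.rs] with ω hω
    rw [hη, mul_comm]
    simp only [X0_of_isRS hω, sub_zero]
  rw [hgen U β hInt]
  exact (hgen _ _ (isInt_id hX0)).symm

/-- the law of `β` -/
lemma law [IsProbabilityMeasure μ] (hEV : S_EV) (hCF : S_CF μ) (hX0 : ∀ᵐ ω ∂μ, X 0 ω = 0)
    {U : ℝ → Om → ℂ} {β : Om → Om} (hInt : IsInt μ U β) : μ.map β = μ := by
  set Pr : Om → (Set.Icc (0 : ℝ) 1 → ℂ) := fun ω t => X t ω with hPr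
  have hPrm : Measurable Pr := measurable_pi_lambda _ fun i => measurable_X _
  have := Measure.isProbabilityMeasure_map (μ := μ) hInt.meas.aemeasurable
  have h1 : (μ.map β).map Pr = μ.map Pr := by
    have := Measure.isProbabilityMeasure_map (μ := μ) hPrm.aemeasurable
    have hP : ∀ I : Finset (Set.Icc (0 : ℝ) 1), IsFiniteMeasure ((μ.map Pr).map I.restrict) := by
      intro I
      infer_instance
    refine IsProjectiveLimit.unique (P := fun I => (μ.map Pr).map I.restrict) ?_ ?_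
    · intro I
      show ((μ.map β).map Pr).map I.restrict = (μ.map Pr).map I.restrict
      have hres : Measurable (I.restrict : (Set.Icc (0 : ℝ) 1 → ℂ) → (I → ℂ)) := by fun_prop
      rw [Measure.map_map hres hPrm, Measure.map_map (hres.comp hPrm) hInt.meas,
        Measure.map_map hres hPrm]
      exact fd_law hCF hX0 hInt I
    · intro I
      rfl
  have h2 : borel Om ≤ MeasurableSpace.comap Pr MeasurableSpace.pi := by
    refine hEV _ fun t h0 h1 => ?_
    have h3 : X t = (fun f : Set.Icc (0 : ℝ) 1 → ℂ => f ⟨t, h0, h1⟩) ∘ Pr := rfl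
    rw [h3]
    exact (measurable_pi_apply _).comp (comap_measurable Pr)
  refine Measure.ext fun A hA => ?_
  obtain ⟨B, hB, rfl⟩ := h2 A hA
  rw [← Measure.map_apply hPrm hB, ← Measure.map_apply hPrm hB, h1]

/-- independence -/
lemma indep [IsProbabilityMeasure μ] (hCF : S_CF μ)
    {U : ℝ → Om → ℂ} {β : Om → Om} (hInt : IsInt μ U β) {s : ℝ} {Z : Om → ℝ} (hs0 : 0 ≤ s)
    (hs1 : s ≤ 1) (hZ : Measurable[Fil s] Z) :
    IndepFun Z (fun (ω : Om) (t : Set.Icc s 1) => X t (β ω) - X s (β ω)) μ := by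
  have hZm : Measurable Z := hZ.mono (Fil_le s) le_rfl
  have hinc : ∀ t : Set.Icc s 1, Measurable fun ω : Om => X t (β ω) - X s (β ω) := fun t =>
    ((measurable_X _).comp hInt.meas).sub ((measurable_X _).comp hInt.meas)
  refine IndepFun.indepFun_process hZm hinc fun I => ?_
  have hIm : Measurable fun (ω : Om) (i : I) => X (i : Set.Icc s 1) (β ω) - X s (β ω) :=
    measurable_pi_lambda _ fun i => hinc i
  rw [indepFun_iff_charFunDual_prod hZm.aemeasurable hIm.aemeasurable]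
  intro L
  rw [charFunDual_apply, charFunDual_apply, charFunDual_apply,
    integral_map (hZm.prodMk hIm).aemeasurable (by fun_prop),
    integral_map hZm.aemeasurable (by fun_prop), integral_map hIm.aemeasurable (by fun_prop)]
  obtain ⟨η, hη⟩ := dual_pi (L.comp (.inr ℝ ℝ (I → ℂ)))
  obtain ⟨c, hc⟩ := key hCF hs0 hs1 (Finset.univ : Finset I)
    (fun i => ((i : Set.Icc s 1) : ℝ)) (fun i _ => ⟨i.1.2.1, i.1.2.2⟩) η
  have h1 := hc U β hInt (fun _ => 1) 1 measurable_const (by simp)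
  simp only [one_mul, integral_const, probReal_univ, one_smul] at h1
  have hY : Measurable[Fil s] fun ω => Complex.exp
      (((L.comp (.inl ℝ ℝ (I → ℂ)) (Z ω) : ℝ) : ℂ) * Complex.I) := by
    have hc : Continuous fun x : ℝ => Complex.exp
      (((L.comp (.inl ℝ ℝ (I → ℂ)) x : ℝ) : ℂ) * Complex.I) := by fun_prop
    exact hc.measurable.comp hZ
  have h2 := hc U β hInt _ 1 hY (fun ω => by rw [Complex.norm_exp_ofReal_mul_I])
  have h3 : ∫ ω, Complex.exp (((L.comp (.inr ℝ ℝ (I → ℂ))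
      fun i : I => X (i : Set.Icc s 1) (β ω) - X s (β ω) : ℝ) : ℂ) * Complex.I) ∂μ = c := by
    rw [← h1]
    refine integral_congr_ae (ae_of_all _ fun ω => ?_)
    simp only
    rw [hη, mul_comm]
  rw [h3, ← h2]
  refine integral_congr_ae (ae_of_all _ fun ω => ?_)
  simp only
  rw [← hη, ← L.comp_inl_add_comp_inr, Complex.ofReal_add, add_mul, Complex.exp_add,
    mul_comm Complex.I]

end PkgLW

open PkgLW in
/-- Package LW -/
theorem pLW (μ : Measure Om) (hμ : IsW μ) (hEV : S_EV) (hIN : S_IN μ) (hCF : S_CF μ) :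
    S_LW μ := by
  have := hμ.gauss
  intro U β hInt
  exact ⟨law hEV hCF hIN.2.2 hInt, fun s Z hs0 hs1 hZ => indep hCF hInt hs0 hs1 hZ⟩

end Pool.Agent.T2H68.UB
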