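import Pool.Agent.T2H68.UB.Stm

/-!
# Package ML: the difference of the operators, slot by slot.
-/

set_option autoImplicit false

open MeasureTheory ProbabilityTheory Set Filter Finset
open scoped ENNReal NNReal Topology ComplexConjugate

namespace Pool.Agent.T2H68.UB

open Pool.Agent.R876.WM

namespace PkgML

lemma norm_sq (f : HH) : ENNReal.ofReal ‖f‖ ^ 2 = ∫⁻ t, ‖(f : ℝ → ℂ) t‖ₑ ^ 2 ∂lb := by
  rw [ofReal_norm, Lp.enorm_def]
  have h := eLpNorm_nnreal_pow_eq_lintegral (μ := lb) (f := (f : ℝ → ℂ)) (p := 2) (by norm_num)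
  have e2 : ((2 : ℝ≥0) : ℝ) = ((2 : ℕ) : ℝ) := by norm_num
  rw [e2] at h
  simp only [ENNReal.rpow_natCast] at h
  exact_mod_cast h

lemma sq_tsum_le (b : ℕ → ℝ≥0∞) : ∑' k, b k ^ 2 ≤ (∑' k, b k) ^ 2 := by
  rw [sq (∑' k, b k), ← ENNReal.tsum_mul_right]
  refine ENNReal.tsum_le_tsum fun k => ?_
  rw [sq]
  exact mul_le_mul_right (ENNReal.le_tsum k) _

lemma le_of_sq {a b : ℝ≥0∞} (h : a ^ 2 ≤ b ^ 2) : a ≤ b := by
  exact (ENNReal.pow_le_pow_left_iff two_ne_zero).1 h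

/-- pointwise representation of the difference -/
lemma dif_ae {A : Om → (HH →L[ℝ] HH)} (hA : IsA A) (n : ℕ) (θ : ℝ) (z : Om × Om) (W : HH) :
    (dif n θ A z W : ℝ → ℂ) =ᵐ[lb] fun t => dif n θ (fun ω => UU t ω) z * (W : ℝ → ℂ) t := by
  have h1 : ∀ i : ℕ, (A (Real.cos (i * θ) • z.1 + Real.sin (i * θ) • z.2) W : ℝ → ℂ) =ᵐ[lb]
      fun t => UU t (Real.cos (i * θ) • z.1 + Real.sin (i * θ) • z.2) * (W : ℝ → ℂ) t := fun i => hA _ W
  have e1 : dif n θ A z W = ∑ i ∈ Finset.range (n + 1), ((-1 : ℝ) ^ (n - i) * (n.choose i : ℝ)) •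
      A (Real.cos (i * θ) • z.1 + Real.sin (i * θ) • z.2) W := by
    unfold dif
    rw [_root_.sum_apply]
    rfl
  rw [e1]
  have h2 : ∀ s : Finset ℕ, ((∑ i ∈ s, ((-1 : ℝ) ^ (n - i) * (n.choose i : ℝ)) •
      A (Real.cos (i * θ) • z.1 + Real.sin (i * θ) • z.2) W : HH) : ℝ → ℂ) =ᵐ[lb]
      fun t => (∑ i ∈ s, ((-1 : ℝ) ^ (n - i) * (n.choose i : ℝ)) •
        UU t (Real.cos (i * θ) • z.1 + Real.sin (i * θ) • z.2)) * (W : ℝ → ℂ) t := by
    intro s
    induction s using Finset.induction_on with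
    | empty =>
      simp only [Finset.sum_empty, zero_mul]
      exact Lp.coeFn_zero ℂ 2 lb
    | insert a s ha ih =>
      rw [Finset.sum_insert ha]
      filter_upwards [Lp.coeFn_add (((-1 : ℝ) ^ (n - a) * (n.choose a : ℝ)) •
        A (Real.cos (a * θ) • z.1 + Real.sin (a * θ) • z.2) W)
        (∑ i ∈ s, ((-1 : ℝ) ^ (n - i) * (n.choose i : ℝ)) •
      A (Real.cos (i * θ) • z.1 + Real.sin (i * θ) • z.2) W), ih, h1 a,
        Lp.coeFn_smul ((-1 : ℝ) ^ (n - a) * (n.choose a : ℝ))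
          (A (Real.cos (a * θ) • z.1 + Real.sin (a * θ) • z.2) W)] with t ht1 ht2 ht3 ht4
      rw [ht1, Pi.add_apply, ht2, ht4, Pi.smul_apply, ht3, Finset.sum_insert ha, add_mul, smul_mul_assoc]
  exact h2 _

end PkgML

open PkgML in
theorem pML (hSU : S_SU) : S_ML := by
  intro E A hE hA n θ z W κ hκ hb
  obtain ⟨hmm, hbt, -, hphi, -, -, hcov⟩ := hSU
  apply le_of_sq
  refine le_trans ?_ (sq_tsum_le _)
  rw [norm_sq]
  -- the slots cover
  set D : HH := dif n θ A z W with hD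
  have hslot : ∀ k j : ℕ, j < mm k →
      ∫⁻ t in Set.Ico (st k j) (st k j + hh k), ‖(D : ℝ → ℂ) t‖ₑ ^ 2 ∂lb ≤
        ENNReal.ofReal (κ k j ^ 2 * ‖E k j W‖ ^ 2) := by
    intro k j hj
    have hm : MeasurableSet (Set.Ico (st k j) (st k j + hh k)) := measurableSet_Ico
    have e1 : ENNReal.ofReal (κ k j ^ 2 * ‖E k j W‖ ^ 2) =
        ENNReal.ofReal (κ k j ^ 2) * ∫⁻ t in Set.Ico (st k j) (st k j + hh k), ‖(W : ℝ → ℂ) t‖ₑ ^ 2 ∂lb := by
      rw [ENNReal.ofReal_mul (sq_nonneg _), ENNReal.ofReal_pow (norm_nonneg _), norm_sq]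
      congr 1
      rw [← lintegral_indicator hm]
      refine lintegral_congr_ae ?_
      filter_upwards [hE k j W] with t ht
      rw [ht]
      by_cases h : t ∈ Set.Ico (st k j) (st k j + hh k)
      · rw [Set.indicator_of_mem h, Set.indicator_of_mem h]
      · rw [Set.indicator_of_notMem h, Set.indicator_of_notMem h]
        simp
    rw [e1, ← lintegral_const_mul' _ _ ENNReal.ofReal_ne_top]
    refine lintegral_mono_ae ?_
    filter_upwards [ae_restrict_of_ae (dif_ae hA n θ z W), ae_restrict_mem hm] with t ht hts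
    rw [ht, enorm_mul, mul_pow]
    refine mul_le_mul_left ?_ _
    have e2 : (fun ω : Om => UU t ω) =
        fun ω : Om => Complex.exp (Complex.I * ((bt k j t * ang k j ω : ℝ) : ℂ)) := by
      funext ω
      unfold UU
      rw [hphi k j t ω hj hts.1 hts.2.le, mul_comm (ang k j ω)]
    rw [e2, ENNReal.ofReal_pow (hκ k j), ← ofReal_norm]
    exact pow_le_pow_left₀ zero_le (ENNReal.ofReal_le_ofReal
      (hb k j hj _ (hbt k j t).1 (hbt k j t).2.1)) 2
  calc ∫⁻ t, ‖(D : ℝ → ℂ) t‖ₑ ^ 2 ∂lb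
      ≤ ∫⁻ t in ⋃ k : ℕ, ⋃ j : Fin (mm k), Set.Ico (st k j) (st k j + hh k), ‖(D : ℝ → ℂ) t‖ₑ ^ 2 ∂lb := by
        have hmem : ∀ᵐ t ∂lb, t ∈ ⋃ k : ℕ, ⋃ j : Fin (mm k), Set.Ico (st k j) (st k j + hh k) := by
          have e3 : lb = (volume : Measure ℝ).restrict (Set.Ioo (0 : ℝ) 1) :=
            (restrict_Ioo_eq_restrict_Icc (μ := volume) (a := (0 : ℝ)) (b := 1)).symm
          rw [e3]
          filter_upwards [ae_restrict_mem measurableSet_Ioo] with t ht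
          obtain ⟨k, j, hj, h1, h2⟩ := hcov t ht.1 ht.2
          exact Set.mem_iUnion.2 ⟨k, Set.mem_iUnion.2 ⟨⟨j, hj⟩, h1, h2⟩⟩
        rw [Measure.restrict_eq_self_of_ae_mem hmem]
    _ ≤ ∑' k : ℕ, ∑' j : Fin (mm k), ∫⁻ t in Set.Ico (st k j) (st k j + hh k), ‖(D : ℝ → ℂ) t‖ₑ ^ 2 ∂lb := by
        refine (lintegral_iUnion_le _ _).trans (ENNReal.tsum_le_tsum fun k => ?_)
        exact lintegral_iUnion_le _ _
    _ ≤ ∑' k : ℕ, ENNReal.ofReal (Real.sqrt
        (∑ j ∈ Finset.range (mm k), κ k j ^ 2 * ‖E k j W‖ ^ 2)) ^ 2 := by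
        refine ENNReal.tsum_le_tsum fun k => ?_
        rw [tsum_fintype, ← ENNReal.ofReal_pow (Real.sqrt_nonneg _),
          Real.sq_sqrt (Finset.sum_nonneg fun j _ => by positivity),
          ENNReal.ofReal_sum_of_nonneg (fun j _ => by positivity), Finset.sum_range]
        exact Finset.sum_le_sum fun j _ => hslot k j j.2

end Pool.Agent.T2H68.UB
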