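import Pool.Agent.T2H68.UB.Stm

/-!
# Package MO: moments of the weights of the active slots.
-/

set_option autoImplicit false

open MeasureTheory ProbabilityTheory Set Filter Finset
open scoped ENNReal NNReal Topology ComplexConjugate

namespace Pool.Agent.T2H68.UB

open Pool.Agent.R876.WM

namespace PkgMO

/-! ### independence under the product measure -/

lemma iIndep_prod {Ω : Type*} [MeasurableSpace Ω] {μ : Measure Ω} [IsProbabilityMeasure μ]
    {ι : Type*} [Fintype ι] {β : Type*} [MeasurableSpace β] {Y : ι → Ω → β}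
    (hY : ∀ i, Measurable (Y i)) (h : iIndepFun Y μ) :
    iIndepFun (fun i (z : Ω × Ω) => (Y i z.1, Y i z.2)) (μ.prod μ) := by
  have hm : ∀ i, Measurable (fun z : Ω × Ω => (Y i z.1, Y i z.2)) := fun i =>
    ((hY i).comp measurable_fst).prodMk ((hY i).comp measurable_snd)
  rw [iIndepFun_iff_map_fun_eq_pi_map (fun i => (hm i).aemeasurable)]
  have h1 := (iIndepFun_iff_map_fun_eq_pi_map (fun i => (hY i).aemeasurable)).1 h
  have hcomp : ∀ i, (μ.prod μ).map (fun z => (Y i z.1, Y i z.2)) =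
      (μ.map (Y i)).prod (μ.map (Y i)) := fun i =>
    (Measure.map_prod_map μ μ (hY i) (hY i)).symm
  simp_rw [hcomp]
  have : ∀ i, IsProbabilityMeasure (μ.map (Y i)) := fun i =>
    Measure.isProbabilityMeasure_map (hY i).aemeasurable
  have h2 := (measurePreserving_arrowProdEquivProdArrow β β ι (fun i => μ.map (Y i))
    (fun i => μ.map (Y i))).symm
  have hv : Measurable (fun (ω : Ω) (i : ι) => Y i ω) := measurable_pi_lambda _ hY
  rw [← h2.map_eq, ← h1, Measure.map_prod_map _ _ hv hv, Measure.map_map h2.measurable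
    (hv.prodMap hv)]
  rfl

/-! ### moments of a sum of independent nonnegative variables -/

lemma add_pow_le_en (x y : ℝ≥0∞) (r : ℕ) : (x + y) ^ r ≤ 2 ^ r * (x ^ r + y ^ r) := by
  rcases le_total x y with h | h
  · calc (x + y) ^ r ≤ (2 * y) ^ r := by
          refine pow_le_pow_left₀ zero_le ?_ r
          rw [two_mul]
          exact add_le_add h le_rfl
      _ = 2 ^ r * y ^ r := mul_pow _ _ _
      _ ≤ _ := by gcongr; exact le_add_self
  · calc (x + y) ^ r ≤ (2 * x) ^ r := by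
          refine pow_le_pow_left₀ zero_le ?_ r
          rw [two_mul]
          exact add_le_add le_rfl h
      _ = 2 ^ r * x ^ r := mul_pow _ _ _
      _ ≤ _ := by gcongr; exact le_self_add

lemma moment_sum {Ω : Type*} [MeasurableSpace Ω] {P : Measure Ω} [IsProbabilityMeasure P]
    {ι : Type*} [Fintype ι] [DecidableEq ι] {Z : ι → Ω → ℝ≥0∞} (hZ : ∀ i, Measurable (Z i))
    (hI : iIndepFun Z P) {a : ℝ≥0∞} (ha : 1 ≤ a) {q : ℕ}
    (h : ∀ r, 1 ≤ r → r ≤ q → ∑ i, ∫⁻ ω, Z i ω ^ r ∂P ≤ a) :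
    ∀ r ≤ q, ∫⁻ ω, (∑ i, Z i ω) ^ r ∂P ≤ (2 ^ (q + 1) * a) ^ r := by
  intro r
  induction r with
  | zero => intro _; simp
  | succ r ih =>
    intro hr
    have ihr := ih (by omega)
    set B : ℝ≥0∞ := (2 ^ (q + 1) * a) ^ r with hB
    have h2a : (1 : ℝ≥0∞) ≤ 2 ^ (q + 1) * a :=
      one_le_mul (one_le_pow₀ (by norm_num)) ha
    have hB1 : 1 ≤ B := one_le_pow₀ h2a
    have hS : Measurable fun ω => ∑ i, Z i ω := Finset.measurable_fun_sum _ fun i _ => hZ i
    have hterm : ∀ i, ∫⁻ ω, Z i ω * (∑ j, Z j ω) ^ r ∂P ≤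
        2 ^ r * (∫⁻ ω, Z i ω ^ (r + 1) ∂P + (∫⁻ ω, Z i ω ∂P) * B) := by
      intro i
      have hR : Measurable fun ω => ∑ j ∈ Finset.univ.erase i, Z j ω :=
        Finset.measurable_fun_sum _ fun i _ => hZ i
      have hind : IndepFun (fun ω => (∑ j ∈ Finset.univ.erase i, Z j ω) ^ r) (Z i) P := by
        have h0 := hI.indepFun_finsetSum_of_notMem hZ (Finset.notMem_erase i Finset.univ)
        have h1 := h0.comp (φ := fun x : ℝ≥0∞ => x ^ r) (ψ := id) (measurable_id.pow_const r) measurable_id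
        have e : (fun ω => (∑ j ∈ Finset.univ.erase i, Z j ω) ^ r) =
            (fun x : ℝ≥0∞ => x ^ r) ∘ (∑ j ∈ Finset.univ.erase i, Z j) := by
          funext ω
          simp [Finset.sum_apply]
        rw [e]
        exact h1
      calc ∫⁻ ω, Z i ω * (∑ j, Z j ω) ^ r ∂P
          ≤ ∫⁻ ω, 2 ^ r * (Z i ω ^ (r + 1) +
              Z i ω * (∑ j ∈ Finset.univ.erase i, Z j ω) ^ r) ∂P := by
            refine lintegral_mono fun ω => ?_
            have e1 : ∑ j, Z j ω = Z i ω + ∑ j ∈ Finset.univ.erase i, Z j ω :=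
              (Finset.add_sum_erase _ _ (Finset.mem_univ i)).symm
            rw [e1]
            calc Z i ω * (Z i ω + ∑ j ∈ Finset.univ.erase i, Z j ω) ^ r
                ≤ Z i ω * (2 ^ r * (Z i ω ^ r + (∑ j ∈ Finset.univ.erase i, Z j ω) ^ r)) := by
                  gcongr
                  exact add_pow_le_en _ _ _
              _ = _ := by ring
        _ = 2 ^ r * (∫⁻ ω, Z i ω ^ (r + 1) ∂P +
              ∫⁻ ω, Z i ω * (∑ j ∈ Finset.univ.erase i, Z j ω) ^ r ∂P) := by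
            rw [lintegral_const_mul _ (by fun_prop), lintegral_add_left (by fun_prop)]
        _ = 2 ^ r * (∫⁻ ω, Z i ω ^ (r + 1) ∂P +
              (∫⁻ ω, Z i ω ∂P) * ∫⁻ ω, (∑ j ∈ Finset.univ.erase i, Z j ω) ^ r ∂P) := by
            rw [lintegral_mul_eq_lintegral_mul_lintegral_of_indepFun'' (hZ i).aemeasurable
              (hR.pow_const r).aemeasurable hind.symm]
        _ ≤ _ := by
            gcongr
            refine le_trans (lintegral_mono fun ω => ?_) ihr
            refine pow_le_pow_left₀ zero_le ?_ r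
            exact Finset.sum_le_sum_of_subset (Finset.erase_subset _ _)
    calc ∫⁻ ω, (∑ i, Z i ω) ^ (r + 1) ∂P = ∑ i, ∫⁻ ω, Z i ω * (∑ j, Z j ω) ^ r ∂P := by
          rw [← lintegral_finsetSum (f := fun i ω => Z i ω * (∑ j, Z j ω) ^ r) _
            (fun i _ => (hZ i).mul (hS.pow_const r))]
          refine lintegral_congr fun ω => ?_
          rw [pow_succ', Finset.sum_mul]
      _ ≤ ∑ i, 2 ^ r * (∫⁻ ω, Z i ω ^ (r + 1) ∂P + (∫⁻ ω, Z i ω ∂P) * B) :=
          Finset.sum_le_sum fun i _ => hterm i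
      _ = 2 ^ r * ((∑ i, ∫⁻ ω, Z i ω ^ (r + 1) ∂P) + (∑ i, ∫⁻ ω, Z i ω ∂P) * B) := by
          rw [← Finset.mul_sum, Finset.sum_add_distrib, Finset.sum_mul]
      _ ≤ 2 ^ r * (a + a * B) := by
          have h1 := h (r + 1) (by omega) hr
          have h2 := h 1 le_rfl (by omega)
          simp only [pow_one] at h2
          gcongr
      _ ≤ 2 ^ r * (a * B + a * B) := by
          gcongr
          exact le_mul_of_one_le_right zero_le hB1
      _ = 2 ^ (r + 1) * a * B := by ring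
      _ ≤ 2 ^ (q + 1) * a * B := by
          gcongr
          · norm_num
          · omega
      _ = (2 ^ (q + 1) * a) ^ (r + 1) := by rw [hB]; ring

/-! ### Gaussian integrals -/

/-- moments of the standard Gaussian -/
noncomputable def GG (N : ℕ) : ℝ≥0∞ := ∫⁻ u, ENNReal.ofReal ((1 + |u|) ^ N) ∂(gaussianReal 0 1)

lemma GG_lt_top (N : ℕ) : GG N < ∞ := by
  have h0 : MemLp (fun u : ℝ => |u|) (N : ℝ≥0∞) (gaussianReal 0 1) := by
    have h := (memLp_id_gaussianReal' (μ := 0) (v := 1) (N : ℝ≥0∞) (ENNReal.natCast_ne_top N)).norm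
    exact h
  have h00 : MemLp (fun _ : ℝ => (1 : ℝ)) (N : ℝ≥0∞) (gaussianReal 0 1) := memLp_const 1
  have h1 : MemLp (fun u : ℝ => 1 + |u|) (N : ℝ≥0∞) (gaussianReal 0 1) := h00.add h0
  have h2 : Integrable (fun u : ℝ => ‖1 + |u|‖ ^ N) (gaussianReal 0 1) := by
    rcases Nat.eq_zero_or_pos N with rfl | hN
    · simp only [pow_zero]; exact integrable_const 1
    · exact h1.integrable_norm_pow hN.ne'
  have h3 := h2.lintegral_lt_top
  refine lt_of_le_of_lt (lintegral_mono fun u => ?_) h3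
  rw [Real.norm_eq_abs, abs_of_nonneg (a := 1 + |u|) (by positivity)]

lemma gauss_exp (N : ℕ) {l : ℝ} (hl : 1 ≤ l) :
    ∫⁻ u, ENNReal.ofReal ((1 + |u|) ^ N * Real.exp ((1 - 1 / l ^ 2) * u ^ 2 / 2)) ∂(gaussianReal 0 1) ≤
      ENNReal.ofReal (l * (1 + l) ^ N) * GG N := by
  have hl0 : 0 < l := by linarith
  have hpow : Measurable fun u : ℝ => ENNReal.ofReal ((1 + |u|) ^ N) := by fun_prop
  have hv : (NNReal.mk (l ^ 2) (sq_nonneg l) : ℝ≥0) ≠ 0 := by
    intro h
    have := congrArg NNReal.toReal h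
    simp at this
    linarith
  have h1 : ∫⁻ u, ENNReal.ofReal ((1 + |u|) ^ N * Real.exp ((1 - 1 / l ^ 2) * u ^ 2 / 2)) ∂(gaussianReal 0 1)
      = ENNReal.ofReal l * ∫⁻ u, ENNReal.ofReal ((1 + |u|) ^ N) ∂(gaussianReal 0 (NNReal.mk (l ^ 2) (sq_nonneg l))) := by
    rw [gaussianReal_of_var_ne_zero _ hv, gaussianReal_of_var_ne_zero _ one_ne_zero,
      lintegral_withDensity_eq_lintegral_mul _ (measurable_gaussianPDF _ _) (by fun_prop),
      lintegral_withDensity_eq_lintegral_mul _ (measurable_gaussianPDF _ _) hpow,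
      ← lintegral_const_mul _ ((measurable_gaussianPDF _ _).mul hpow)]
    refine lintegral_congr fun u => ?_
    simp only [Pi.mul_apply, gaussianPDF, gaussianPDFReal]
    rw [← ENNReal.ofReal_mul (by positivity), ← ENNReal.ofReal_mul (by positivity),
      ← ENNReal.ofReal_mul (by positivity)]
    congr 1
    have e1 : Real.sqrt (2 * Real.pi * (NNReal.mk (l ^ 2) (sq_nonneg l) : ℝ≥0)) =
        Real.sqrt (2 * Real.pi) * l := by
      rw [NNReal.coe_mk, Real.sqrt_mul (by positivity), Real.sqrt_sq hl0.le]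
    rw [e1]
    have e2 : Real.exp (-(u - 0) ^ 2 / (2 * ((1 : ℝ≥0) : ℝ))) *
        Real.exp ((1 - 1 / l ^ 2) * u ^ 2 / 2) =
        Real.exp (-(u - 0) ^ 2 / (2 * ((NNReal.mk (l ^ 2) (sq_nonneg l) : ℝ≥0) : ℝ))) := by
      rw [← Real.exp_add]
      congr 1
      rw [NNReal.coe_mk, NNReal.coe_one]
      field_simp
      ring
    rw [← e2]
    rw [NNReal.coe_one]
    field_simp
  have h2 : gaussianReal 0 (NNReal.mk (l ^ 2) (sq_nonneg l)) = (gaussianReal 0 1).map (l * ·) := by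
    rw [gaussianReal_map_const_mul, mul_zero, mul_one]
  rw [h1, h2, lintegral_map hpow (by fun_prop), ENNReal.ofReal_mul hl0.le, mul_assoc]
  refine mul_le_mul_of_nonneg_left ?_ zero_le
  unfold GG
  rw [← lintegral_const_mul _ hpow]
  refine lintegral_mono fun u => ?_
  rw [← ENNReal.ofReal_mul (by positivity)]
  refine ENNReal.ofReal_le_ofReal ?_
  rw [← mul_pow]
  refine pow_le_pow_left₀ (by positivity) ?_ N
  rw [abs_mul, abs_of_pos hl0]
  nlinarith [abs_nonneg u]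

/-- the weight of a slot as a function of `((wv z.1, Re xv z.1), (wv z.2, Re xv z.2))` -/
noncomputable def zeta (l : ℝ) (n : ℕ) (p : (ℝ × ℝ) × (ℝ × ℝ)) : ℝ :=
  if l ^ 2 < p.1.1 ^ 2 + p.2.1 ^ 2 then
    (1 + |p.1.2| + |p.2.2|) * (1 + l * (1 + |p.1.1| + |p.2.1|)) ^ n else 0

lemma measurable_zeta (l : ℝ) (n : ℕ) : Measurable (zeta l n) := by
  unfold zeta
  exact Measurable.ite (measurableSet_lt (by fun_prop) (by fun_prop)) (by fun_prop) measurable_const

lemma zeta_nonneg {l : ℝ} (hl : 0 ≤ l) (n : ℕ) (p : (ℝ × ℝ) × (ℝ × ℝ)) : 0 ≤ zeta l n p := by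
  unfold zeta
  split_ifs
  · positivity
  · exact le_rfl

/-- one factor of the bound -/
noncomputable def fac (l : ℝ) (N q : ℕ) (p : ℝ × ℝ) : ℝ :=
  ((1 + |p.1|) ^ N * Real.exp ((1 - 1 / l ^ 2) * p.1 ^ 2 / 2)) * (1 + |p.2|) ^ q

lemma fac_nonneg (l : ℝ) (N q : ℕ) (p : ℝ × ℝ) : 0 ≤ fac l N q p := by
  unfold fac; positivity

lemma zeta_pow_le {l : ℝ} (hl : 1 ≤ l) {n q r : ℕ} (h1 : 1 ≤ r) (hr : r ≤ q)
    (p : (ℝ × ℝ) × (ℝ × ℝ)) :
    zeta l n p ^ r ≤ (2 * Real.exp (-(l ^ 2 / 2)) * (1 + l) ^ (n * q)) *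
      (fac l (n * q) q p.1 * fac l (n * q) q p.2) := by
  have hl0 : 0 < l := by linarith
  unfold zeta
  split_ifs with h
  · have hA : (1 : ℝ) ≤ 1 + |p.1.2| + |p.2.2| := by
      linarith [abs_nonneg p.1.2, abs_nonneg p.2.2]
    have hB : (1 : ℝ) ≤ 1 + l * (1 + |p.1.1| + |p.2.1|) := by
      have : 0 ≤ l * (1 + |p.1.1| + |p.2.1|) := by positivity
      linarith
    have e1 : 1 + |p.1.2| + |p.2.2| ≤ (1 + |p.1.2|) * (1 + |p.2.2|) := by
      nlinarith [mul_nonneg (abs_nonneg p.1.2) (abs_nonneg p.2.2)]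
    have e2 : 1 + l * (1 + |p.1.1| + |p.2.1|) ≤ (1 + l) * ((1 + |p.1.1|) * (1 + |p.2.1|)) := by
      have hx := abs_nonneg p.1.1
      have hy := abs_nonneg p.2.1
      nlinarith [mul_nonneg hx hy, mul_nonneg hl0.le (mul_nonneg hx hy)]
    have e3 : (1 : ℝ) ≤ 2 * Real.exp (-(l ^ 2 / 2)) *
        (Real.exp ((1 - 1 / l ^ 2) * p.1.1 ^ 2 / 2) * Real.exp ((1 - 1 / l ^ 2) * p.2.1 ^ 2 / 2)) := by
      have hs : 0 ≤ 1 - 1 / l ^ 2 := by
        rw [sub_nonneg, div_le_one (by positivity)]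
        exact one_le_pow₀ hl
      have h3 : (1 - 1 / l ^ 2) * l ^ 2 = l ^ 2 - 1 := by field_simp
      have h4 : Real.exp (-(l ^ 2 / 2)) * (Real.exp ((1 - 1 / l ^ 2) * p.1.1 ^ 2 / 2) *
          Real.exp ((1 - 1 / l ^ 2) * p.2.1 ^ 2 / 2)) =
          Real.exp (-(l ^ 2 / 2) + (1 - 1 / l ^ 2) * (p.1.1 ^ 2 + p.2.1 ^ 2) / 2) := by
        rw [← Real.exp_add, ← Real.exp_add]
        congr 1
        ring
      rw [mul_assoc, h4]
      have h5 : -(1 / 2 : ℝ) ≤ -(l ^ 2 / 2) + (1 - 1 / l ^ 2) * (p.1.1 ^ 2 + p.2.1 ^ 2) / 2 := by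
        have := mul_le_mul_of_nonneg_left h.le hs
        rw [h3] at this
        linarith
      have h6 : (1 / 2 : ℝ) ≤ Real.exp (-(1 / 2)) := by
        have := Real.add_one_le_exp (-(1 / 2 : ℝ))
        linarith
      have h7 := Real.exp_le_exp.2 h5
      linarith
    calc ((1 + |p.1.2| + |p.2.2|) * (1 + l * (1 + |p.1.1| + |p.2.1|)) ^ n) ^ r
        ≤ ((1 + |p.1.2| + |p.2.2|) * (1 + l * (1 + |p.1.1| + |p.2.1|)) ^ n) ^ q :=
          pow_le_pow_right₀ (one_le_mul_of_one_le_of_one_le hA (one_le_pow₀ hB)) hr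
      _ = (1 + |p.1.2| + |p.2.2|) ^ q * (1 + l * (1 + |p.1.1| + |p.2.1|)) ^ (n * q) := by
          rw [mul_pow, ← pow_mul]
      _ ≤ ((1 + |p.1.2|) * (1 + |p.2.2|)) ^ q *
            ((1 + l) * ((1 + |p.1.1|) * (1 + |p.2.1|))) ^ (n * q) := by
          refine mul_le_mul (pow_le_pow_left₀ (by linarith) e1 q)
            (pow_le_pow_left₀ (by linarith) e2 _) (by positivity) (by positivity)
      _ = 1 * (((1 + |p.1.2|) * (1 + |p.2.2|)) ^ q *
            ((1 + l) * ((1 + |p.1.1|) * (1 + |p.2.1|))) ^ (n * q)) := (one_mul _).symm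
      _ ≤ (2 * Real.exp (-(l ^ 2 / 2)) *
        (Real.exp ((1 - 1 / l ^ 2) * p.1.1 ^ 2 / 2) * Real.exp ((1 - 1 / l ^ 2) * p.2.1 ^ 2 / 2))) *
          (((1 + |p.1.2|) * (1 + |p.2.2|)) ^ q *
            ((1 + l) * ((1 + |p.1.1|) * (1 + |p.2.1|))) ^ (n * q)) :=
          mul_le_mul_of_nonneg_right e3 (by positivity)
      _ = _ := by
          unfold fac
          simp only [mul_pow]
          ring
  · rw [zero_pow (by omega)]
    have := fac_nonneg l (n * q) q p.1
    have := fac_nonneg l (n * q) q p.2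
    positivity

lemma measurable_fac (l : ℝ) (N q : ℕ) : Measurable (fac l N q) := by
  unfold fac; fun_prop

lemma lint_fac {l : ℝ} (hl : 1 ≤ l) (N q : ℕ) :
    ∫⁻ p, ENNReal.ofReal (fac l N q p) ∂((gaussianReal 0 1).prod (gaussianReal 0 1)) ≤
      ENNReal.ofReal (l * (1 + l) ^ N) * GG N * GG q := by
  have e : ∀ p : ℝ × ℝ, ENNReal.ofReal (fac l N q p) =
      ENNReal.ofReal ((1 + |p.1|) ^ N * Real.exp ((1 - 1 / l ^ 2) * p.1 ^ 2 / 2)) *
        ENNReal.ofReal ((1 + |p.2|) ^ q) := by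
    intro p
    rw [← ENNReal.ofReal_mul (by positivity)]
    rfl
  simp_rw [e]
  rw [lintegral_prod_mul (f := fun u : ℝ => ENNReal.ofReal ((1 + |u|) ^ N *
    Real.exp ((1 - 1 / l ^ 2) * u ^ 2 / 2))) (g := fun u : ℝ => ENNReal.ofReal ((1 + |u|) ^ q))
    (by fun_prop) (by fun_prop)]
  exact mul_le_mul' (gauss_exp N hl) le_rfl

lemma lint_zeta {l : ℝ} (hl : 1 ≤ l) {n q r : ℕ} (h1 : 1 ≤ r) (hr : r ≤ q) :
    ∫⁻ p, ENNReal.ofReal (zeta l n p ^ r)
      ∂(((gaussianReal 0 1).prod (gaussianReal 0 1)).prod ((gaussianReal 0 1).prod (gaussianReal 0 1))) ≤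
      ENNReal.ofReal (2 * Real.exp (-(l ^ 2 / 2)) * (1 + l) ^ (n * q)) *
        (ENNReal.ofReal (l * (1 + l) ^ (n * q)) * GG (n * q) * GG q) ^ 2 := by
  calc ∫⁻ p, ENNReal.ofReal (zeta l n p ^ r)
      ∂(((gaussianReal 0 1).prod (gaussianReal 0 1)).prod ((gaussianReal 0 1).prod (gaussianReal 0 1)))
      ≤ ∫⁻ p, ENNReal.ofReal (2 * Real.exp (-(l ^ 2 / 2)) * (1 + l) ^ (n * q)) *
        (ENNReal.ofReal (fac l (n * q) q p.1) * ENNReal.ofReal (fac l (n * q) q p.2))
      ∂(((gaussianReal 0 1).prod (gaussianReal 0 1)).prod ((gaussianReal 0 1).prod (gaussianReal 0 1))) := by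
        refine lintegral_mono fun p => ?_
        rw [← ENNReal.ofReal_mul (fac_nonneg _ _ _ _), ← ENNReal.ofReal_mul (by positivity)]
        exact ENNReal.ofReal_le_ofReal (zeta_pow_le hl h1 hr p)
    _ = ENNReal.ofReal (2 * Real.exp (-(l ^ 2 / 2)) * (1 + l) ^ (n * q)) *
        ((∫⁻ p, ENNReal.ofReal (fac l (n * q) q p) ∂((gaussianReal 0 1).prod (gaussianReal 0 1))) *
        (∫⁻ p, ENNReal.ofReal (fac l (n * q) q p) ∂((gaussianReal 0 1).prod (gaussianReal 0 1)))) := by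
        have hm := (measurable_fac l (n * q) q).ennreal_ofReal
        have hm2 : Measurable fun p : (ℝ × ℝ) × (ℝ × ℝ) => ENNReal.ofReal (fac l (n * q) q p.1) *
            ENNReal.ofReal (fac l (n * q) q p.2) :=
          (hm.comp measurable_fst).mul (hm.comp measurable_snd)
        rw [lintegral_const_mul _ hm2, lintegral_prod_mul hm.aemeasurable hm.aemeasurable]
    _ ≤ _ := by
        rw [sq (ENNReal.ofReal (l * (1 + l) ^ (n * q)) * GG (n * q) * GG q)]
        exact mul_le_mul' le_rfl (mul_le_mul' (lint_fac hl _ _) (lint_fac hl _ _))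

lemma lam_ge (k : ℕ) : 8 ≤ lam k := by
  unfold lam
  calc (8 : ℝ) = 2 ^ 3 := by norm_num
    _ ≤ 2 ^ (k + 3) := pow_le_pow_right₀ (by norm_num) (by omega)

lemma measurable_X (t : ℝ) : Measurable (X t) := by
  unfold X
  exact (continuous_eval_const _).measurable

lemma measurable_wv (k j : ℕ) : Measurable (wv k j) := by
  unfold wv
  exact ((Complex.measurable_re.comp ((measurable_X _).sub (measurable_X _))).const_mul _)

lemma measurable_xv (k j : ℕ) : Measurable (xv k j) := by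
  unfold xv
  exact (((measurable_X _).sub (measurable_X _)).const_mul _)

end PkgMO

open PkgMO in
theorem pMO (μ : Measure Om) (hμ : IsW μ) (hWH : S_WH μ) (hGT : S_GT) : S_MO μ := by
  intro n q
  have : IsGaussian μ := hμ.gauss
  have : IsProbabilityMeasure μ := inferInstance
  obtain ⟨-, -, hI, hL⟩ := hWH
  set N : ℕ := n * q with hN
  set g1 : ℝ := (GG N).toReal with hg1
  set g2 : ℝ := (GG q).toReal with hg2
  have eg1 : GG N = ENNReal.ofReal g1 := (ENNReal.ofReal_toReal (GG_lt_top N).ne).symm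
  have eg2 : GG q = ENNReal.ofReal g2 := (ENNReal.ofReal_toReal (GG_lt_top q).ne).symm
  have hg1' : 0 ≤ g1 := ENNReal.toReal_nonneg
  have hg2' : 0 ≤ g2 := ENNReal.toReal_nonneg
  set C0 : ℝ := 200 * 2 ^ (3 * N) * (g1 * g2) ^ 2 with hC0
  refine ⟨(2 ^ (q + 1) * (1 + C0)) ^ q, (3 * N + 4) * q, by positivity, fun k => ?_⟩
  have hl := lam_ge k
  have hl1 : 1 ≤ lam k := by linarith
  have hl0 : 0 < lam k := by linarith
  -- the variables
  set Y : Fin (mm k) → Om → ℝ × ℝ := fun j ω => (wv k j ω, (xv k j ω).re) with hY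
  have hYm : ∀ j, Measurable (Y j) := fun j =>
    (measurable_wv k j).prodMk (Complex.measurable_re.comp (measurable_xv k j))
  have hI2 : iIndepFun (fun (j : Fin (mm k)) (z : Om × Om) => (Y j z.1, Y j z.2)) (μ.prod μ) :=
    iIndep_prod hYm (hI k)
  have hY2m : ∀ j, Measurable fun z : Om × Om => (Y j z.1, Y j z.2) := fun j =>
    ((hYm j).comp measurable_fst).prodMk ((hYm j).comp measurable_snd)
  have hlaw : ∀ j, (μ.prod μ).map (fun z : Om × Om => (Y j z.1, Y j z.2)) =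
      ((gaussianReal 0 1).prod (gaussianReal 0 1)).prod ((gaussianReal 0 1).prod (gaussianReal 0 1)) := by
    intro j
    have h1 : μ.map (Y j) = (gaussianReal 0 1).prod (gaussianReal 0 1) := hL k j j.2
    rw [← h1]
    exact (Measure.map_prod_map μ μ (hYm j) (hYm j)).symm
  set Z : Fin (mm k) → Om × Om → ℝ≥0∞ := fun j z =>
    ENNReal.ofReal (zeta (lam k) n (Y j z.1, Y j z.2)) with hZ
  have hz0 : Measurable fun p => ENNReal.ofReal (zeta (lam k) n p) :=
    (measurable_zeta _ _).ennreal_ofReal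
  have hZm : ∀ j, Measurable (Z j) := fun j => hz0.comp (hY2m j)
  have hZI : iIndepFun Z (μ.prod μ) := hI2.comp (fun _ p => ENNReal.ofReal (zeta (lam k) n p))
    (fun _ => hz0)
  set a : ℝ≥0∞ := ENNReal.ofReal ((1 + C0) * lam k ^ (3 * N + 4)) with ha
  have hC0' : 0 ≤ C0 := by positivity
  have hpow1 : (1 : ℝ) ≤ lam k ^ (3 * N + 4) := one_le_pow₀ hl1
  have ha1 : 1 ≤ a := by
    rw [ha, ENNReal.one_le_ofReal]
    nlinarith
  have hmom : ∀ r, 1 ≤ r → r ≤ q → ∑ j, ∫⁻ z, Z j z ^ r ∂(μ.prod μ) ≤ a := by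
    intro r h1 hr
    have hone : ∀ j, ∫⁻ z, Z j z ^ r ∂(μ.prod μ) ≤
        ENNReal.ofReal (2 * Real.exp (-(lam k ^ 2 / 2)) * (1 + lam k) ^ N *
          (lam k * (1 + lam k) ^ N * g1 * g2) ^ 2) := by
      intro j
      have e1 : ∫⁻ z, Z j z ^ r ∂(μ.prod μ) = ∫⁻ p, ENNReal.ofReal (zeta (lam k) n p ^ r)
          ∂(((gaussianReal 0 1).prod (gaussianReal 0 1)).prod
            ((gaussianReal 0 1).prod (gaussianReal 0 1))) := by
        rw [← hlaw j, lintegral_map ((measurable_zeta _ _).pow_const r).ennreal_ofReal (hY2m j)]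
        refine lintegral_congr fun z => ?_
        rw [hZ]
        beta_reduce
        rw [ENNReal.ofReal_pow (zeta_nonneg hl0.le _ _)]
      rw [e1]
      refine (lint_zeta hl1 h1 hr).trans (le_of_eq ?_)
      rw [← hN, eg1, eg2, ← ENNReal.ofReal_mul (by positivity), ← ENNReal.ofReal_mul (by positivity),
        ← ENNReal.ofReal_pow (by positivity), ← ENNReal.ofReal_mul (by positivity)]
    refine (Finset.sum_le_sum fun j _ => hone j).trans ?_
    rw [Finset.sum_const, Finset.card_univ, Fintype.card_fin, nsmul_eq_mul, ha,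
      ← ENNReal.ofReal_natCast, ← ENNReal.ofReal_mul (Nat.cast_nonneg _)]
    refine ENNReal.ofReal_le_ofReal ?_
    have hmm := hGT.2.2 k
    have hexp : Real.exp (lam k ^ 2 / 2) * Real.exp (-(lam k ^ 2 / 2)) = 1 := by
      rw [← Real.exp_add, add_neg_cancel, Real.exp_zero]
    have h2l : 1 + lam k ≤ 2 * lam k := by linarith
    calc (mm k : ℝ) * (2 * Real.exp (-(lam k ^ 2 / 2)) * (1 + lam k) ^ N *
          (lam k * (1 + lam k) ^ N * g1 * g2) ^ 2)
        ≤ (100 * lam k ^ 2 * Real.exp (lam k ^ 2 / 2)) * (2 * Real.exp (-(lam k ^ 2 / 2)) * (1 + lam k) ^ N *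
          (lam k * (1 + lam k) ^ N * g1 * g2) ^ 2) :=
          mul_le_mul_of_nonneg_right hmm (by positivity)
      _ = (Real.exp (lam k ^ 2 / 2) * Real.exp (-(lam k ^ 2 / 2))) *
            (200 * lam k ^ 4 * (g1 * g2) ^ 2 * (1 + lam k) ^ (3 * N)) := by ring
      _ = 200 * lam k ^ 4 * (g1 * g2) ^ 2 * (1 + lam k) ^ (3 * N) := by rw [hexp, one_mul]
      _ ≤ 200 * lam k ^ 4 * (g1 * g2) ^ 2 * (2 * lam k) ^ (3 * N) := by
          refine mul_le_mul_of_nonneg_left (pow_le_pow_left₀ (by positivity) h2l _) (by positivity)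
      _ = C0 * lam k ^ (3 * N + 4) := by rw [hC0, mul_pow, pow_add]; ring
      _ ≤ _ := by
          refine mul_le_mul_of_nonneg_right (by linarith) (by positivity)
  have hfin := moment_sum hZm hZI ha1 hmom q le_rfl
  have e2 : ∀ z, ENNReal.ofReal (SS n k z ^ q) = (∑ j, Z j z) ^ q := by
    intro z
    have e3 : SS n k z = ∑ j : Fin (mm k), zeta (lam k) n (Y j z.1, Y j z.2) := by
      rw [SS, Finset.sum_range]
      rfl
    rw [e3, ENNReal.ofReal_pow (Finset.sum_nonneg fun j _ => zeta_nonneg hl0.le _ _),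
      ENNReal.ofReal_sum_of_nonneg (fun j _ => zeta_nonneg hl0.le _ _)]
  simp_rw [e2]
  refine hfin.trans (le_of_eq ?_)
  rw [ha, show (2 : ℝ≥0∞) ^ (q + 1) = ENNReal.ofReal (2 ^ (q + 1)) by
    rw [ENNReal.ofReal_pow (by norm_num)]; norm_num, ← ENNReal.ofReal_mul (by positivity),
    ← ENNReal.ofReal_pow (by positivity)]
  congr 1
  rw [pow_mul, ← mul_pow]
  congr 1
  ring

end Pool.Agent.T2H68.UB
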