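import Pool.Agent.T2H68.UB.Stm
import Pool.Agent.R876.WM.MP
import Pool.Agent.R876.WM.OPL
import Pool.Agent.R876.WM.OPS
import Pool.Agent.R876.WM.OPC
import Pool.Agent.R876.WM.OP
import Pool.Agent.R876.WM.BOP
import Pool.Agent.R876.WM.BRI
import Pool.Agent.R876.WM.OUL
import Pool.Agent.R876.WM.POT
import Pool.Agent.R876.WM.CE
import Pool.Agent.R876.WM.DIFL
import Pool.Agent.R876.WM.AVG
import Pool.Agent.R876.WM.ABS
import Pool.Agent.R876.WM.SMD
import Pool.Agent.R876.WM.L3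
import Pool.Agent.R876.WM.LYA
import Pool.Agent.R876.WM.IPR
import Pool.Agent.R876.WM.TAY
import Pool.Agent.R876.WM.FD
import Pool.Agent.R876.WM.D2S
import Pool.Agent.R876.WM.L1
import Pool.Agent.R876.WM.FINA

/-!
# Project UB, package MU: `UU` is a multiplicator
-/

set_option autoImplicit false

open MeasureTheory ProbabilityTheory Set Filter Finset
open scoped ENNReal NNReal Topology ComplexConjugate

namespace Pool.Agent.T2H68.UB

open Pool.Agent.R876.WM

theorem pMU (μ : Measure Om) (hμ : IsW μ) (hMA : S_MA μ) (hAS : S_AS μ) : S_MU μ := by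
  intro A hA
  have hG : IsGaussian μ := hμ.gauss
  have hMP : S_MP μ := mp_thm μ hμ.mean
  have hOPL : ∀ (E : Type) [NormedAddCommGroup E] [InnerProductSpace ℝ E] [CompleteSpace E],
      S_OPL E μ := fun E => opl_thm μ E hMP
  have hOP : ∀ (E : Type) [NormedAddCommGroup E] [InnerProductSpace ℝ E] [CompleteSpace E],
      S_OP E μ := fun E => op_thm μ E (hOPL E) (ops_thm μ E hMP) (opc_thm μ E hMP)
  have hBRI : ∀ (E : Type) [NormedAddCommGroup E] [InnerProductSpace ℝ E] [CompleteSpace E],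
      S_BRI E μ := fun E => bri_thm μ E hMP (hOPL E)
  have hOUL : ∀ (E : Type) [NormedAddCommGroup E] [InnerProductSpace ℝ E] [CompleteSpace E],
      S_OUL E μ := fun E => oul_thm μ E (hOP E) bop_thm (hBRI E)
  have hPOT : ∀ (E : Type) [NormedAddCommGroup E] [InnerProductSpace ℝ E] [CompleteSpace E],
      S_POT E μ := fun E => pot_thm μ E hMP (hOP E) bop_thm (hBRI E)
  have hSMD : ∀ (E : Type) [NormedAddCommGroup E] [InnerProductSpace ℝ E] [CompleteSpace E],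
      S_SMD E μ := fun E => smd_thm μ E hMP (hOUL E) (ce_thm μ E hMP) avg_thm abs_thm
  have hL3 : ∀ (E : Type) [NormedAddCommGroup E] [InnerProductSpace ℝ E] [CompleteSpace E],
      S_L3 E μ := fun E => l3_thm μ E (hSMD E)
  have hDIFL : ∀ (E : Type) [NormedAddCommGroup E] [InnerProductSpace ℝ E] [CompleteSpace E],
      S_DIFL E μ := fun E => difl_thm μ E hMP
  have hL1 : ∀ (E : Type) [NormedAddCommGroup E] [InnerProductSpace ℝ E] [CompleteSpace E],
      S_L1 E μ := fun E => l1_thm μ E hMP (hPOT E)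
        (d2s_thm μ E hMP (hPOT E) (hOUL E) (ipr_thm μ E hMP) tay_thm fd_thm) (lya_thm E) (hDIFL E)
  refine fina_thm μ HH hPOT A ?_
  intro S hUB hUD p hp
  obtain ⟨-, -, hMA3⟩ := hMA
  obtain ⟨hAn, -, hAm⟩ := hMA3 A hA
  have h1 : ∀ p : ℕ, 2 ≤ p → USm μ p S := fun q hq => hL1 HH S hUB hUD q hq
  refine hL3 HH p hp _ ?_ (hAS A hA S hUB h1 p hp)
  obtain ⟨D, hD, hD'⟩ := hUB p hp
  refine ⟨D, hD, ?_⟩
  rintro W ⟨V, hV, rfl⟩
  obtain ⟨hVm, hVn⟩ := hD' V hV
  have hm : AEStronglyMeasurable (fun ω => A ω (V ω)) μ := hAm V hVm.1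
  have hn : ∀ᵐ ω ∂μ, ‖A ω (V ω)‖ = ‖V ω‖ := Eventually.of_forall fun ω => hAn ω (V ω)
  have he : eLpNorm (fun ω => A ω (V ω)) (p : ℝ≥0∞) μ = eLpNorm V (p : ℝ≥0∞) μ :=
    eLpNorm_congr_norm_ae hn
  exact ⟨⟨hm, he ▸ hVm.2⟩, he ▸ hVn⟩

end Pool.Agent.T2H68.UB
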