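import Pool.Agent.T2H68.UB.Stm

/-!
# Project UB, package NM: `e^{i ph 0}` is not a function of `β`
-/

set_option autoImplicit false

open MeasureTheory ProbabilityTheory Set Filter Finset
open scoped ENNReal NNReal Topology ComplexConjugate

namespace Pool.Agent.T2H68.UB

namespace PkgNM

/-! ### Functionals of a function of time -/

noncomputable def wx (k j : ℕ) (x : ℝ → ℂ) : ℝ :=
  2 / Real.sqrt (hh k) * (x (st k j + hh k / 4) - x (st k j)).re

noncomputable def xx (k j : ℕ) (x : ℝ → ℂ) : ℂ :=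
  ((2 / Real.sqrt (hh k) : ℝ) : ℂ) * (x (st k j + 3 * hh k / 4) - x (st k j + hh k / 2))

noncomputable def stx (k : ℕ) (p : ℝ) (x : ℝ → ℂ) : ℝ :=
  amp k * ∑ j ∈ Finset.range (mm k), chi k (wx k j x) *
    (Complex.exp (Complex.I * ((eta k * chi k (wx k j x) * gg j p : ℝ) : ℂ)) * xx k j x).re

noncomputable def Phx : ℕ → ℝ → (ℝ → ℂ) → ℝ
  | 0, p, _ => p
  | K + 1, p, x => Phx K (stx K p x) x

theorem Phi_eq (K : ℕ) : ∀ (p : ℝ) (b : Om), Phi K p b = Phx K p (fun t => X t b) := by
  induction K with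
  | zero => intro p b; rfl
  | succ K ih =>
    intro p b
    show Phi K (stepf K p b) b = Phx K (stx K p fun t => X t b) (fun t => X t b)
    rw [ih]
    rfl

theorem mm_pos (k : ℕ) : 0 < mm k := by
  unfold mm lam
  have : 0 < ⌈40 * (2 ^ (k + 3) : ℝ) ^ 2 * Real.exp ((2 ^ (k + 3)) ^ 2 / 2)⌉₊ :=
    Nat.ceil_pos.2 (by positivity)
  omega

theorem hh_pos (k : ℕ) : 0 < hh k := by
  unfold hh
  have : (0 : ℝ) < mm k := by exact_mod_cast mm_pos k
  positivity

theorem st_lb (k j : ℕ) : 1 / 2 ^ (k + 1) ≤ st k j := by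
  unfold st
  have := hh_pos k
  have : 0 ≤ (j : ℝ) * hh k := by positivity
  linarith

theorem st_ub (k j : ℕ) (hj : j < mm k) : st k j + hh k ≤ 1 / 2 ^ k := by
  have h0 : (0 : ℝ) < mm k := by exact_mod_cast mm_pos k
  have h1 : ((j : ℝ) + 1) * hh k ≤ mm k * hh k := by
    have : (j : ℝ) + 1 ≤ mm k := by exact_mod_cast hj
    have := hh_pos k
    gcongr
  have h2 : (mm k : ℝ) * hh k = 1 / 2 ^ (k + 1) := by
    unfold hh
    field_simp
  have h3 : (1 : ℝ) / 2 ^ k = 1 / 2 ^ (k + 1) + 1 / 2 ^ (k + 1) := by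
    rw [pow_succ]
    field_simp
    norm_num
  unfold st
  rw [h3]
  linarith

theorem stx_congr (k : ℕ) (p : ℝ) (x x' : ℝ → ℂ) (c : ℂ)
    (h : ∀ t : ℝ, 1 / 2 ^ (k + 1) ≤ t → t ≤ 1 → x t - x' t = c) : stx k p x = stx k p x' := by
  have hk : (1 : ℝ) / 2 ^ k ≤ 1 := by
    rw [div_le_one (by positivity)]
    exact one_le_pow₀ (by norm_num)
  have hd : ∀ s t : ℝ, 1 / 2 ^ (k + 1) ≤ s → s ≤ 1 → 1 / 2 ^ (k + 1) ≤ t → t ≤ 1 →
      x s - x t = x' s - x' t := by
    intro s t h1 h2 h3 h4
    have e1 := h s h1 h2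
    have e2 := h t h3 h4
    have : x s - x t - (x' s - x' t) = (x s - x' s) - (x t - x' t) := by ring
    rw [e1, e2, sub_self] at this
    exact sub_eq_zero.1 this
  unfold stx
  congr 1
  refine Finset.sum_congr rfl fun j hj => ?_
  have hj' := Finset.mem_range.1 hj
  have hp := hh_pos k
  have a1 := st_lb k j
  have a2 := st_ub k j hj'
  have ew : wx k j x = wx k j x' := by
    unfold wx
    rw [hd _ _ (by linarith) (by linarith) (by linarith) (by linarith)]
  have ex : xx k j x = xx k j x' := by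
    unfold xx
    rw [hd _ _ (by linarith) (by linarith) (by linarith) (by linarith)]
  rw [ew, ex]

theorem Phx_congr (K : ℕ) : ∀ (p : ℝ) (x x' : ℝ → ℂ) (c : ℂ),
    (∀ t : ℝ, 1 / 2 ^ K ≤ t → t ≤ 1 → x t - x' t = c) → Phx K p x = Phx K p x' := by
  induction K with
  | zero => intro p x x' c _; rfl
  | succ K ih =>
    intro p x x' c h
    show Phx K (stx K p x) x = Phx K (stx K p x') x'
    rw [stx_congr K p x x' c h]
    refine ih _ x x' c fun t ht ht1 => h t (le_trans ?_ ht) ht1
    rw [pow_succ]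
    gcongr
    have : (0 : ℝ) < 2 ^ K := by positivity
    linarith

theorem measurable_gg (j : ℕ) : Measurable (gg j) := by
  unfold gg
  split_ifs
  · exact Real.measurable_cos
  · exact Real.measurable_sin

theorem measurable_chi (k : ℕ) : Measurable (chi k) := by
  unfold chi
  exact (Real.smoothTransition.continuous.comp (by fun_prop)).measurable

theorem measurable_stx {Z : Type*} [MeasurableSpace Z] (k : ℕ) (f : Z → ℝ) (g : Z → ℝ → ℂ)
    (hf : Measurable f) (hg : ∀ t, Measurable fun z => g z t) :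
    Measurable fun z => stx k (f z) (g z) := by
  unfold stx
  have hw : ∀ j, Measurable fun z => wx k j (g z) := fun j => by
    unfold wx
    exact (Complex.measurable_re.comp ((hg _).sub (hg _))).const_mul _
  have hx : ∀ j, Measurable fun z => xx k j (g z) := fun j => by
    unfold xx
    exact ((hg _).sub (hg _)).const_mul _
  have hc : ∀ j, Measurable fun z => chi k (wx k j (g z)) := fun j => (measurable_chi k).comp (hw j)
  refine (Finset.measurable_fun_sum _ fun j _ => ?_).const_mul _
  refine (hc j).mul (Complex.measurable_re.comp ?_)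
  refine Measurable.mul (Complex.measurable_exp.comp ?_) (hx j)
  exact (Complex.measurable_ofReal.comp (((hc j).const_mul _).mul ((measurable_gg j).comp hf))).const_mul _

theorem measurable_Phx {Z : Type*} [MeasurableSpace Z] (K : ℕ) : ∀ (f : Z → ℝ) (g : Z → ℝ → ℂ),
    Measurable f → (∀ t, Measurable fun z => g z t) → Measurable fun z => Phx K (f z) (g z) := by
  induction K with
  | zero => intro f g hf _; exact hf
  | succ K ih =>
    intro f g hf hg
    exact ih (fun z => stx K (f z) (g z)) g (measurable_stx K f g hf hg) hg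

/-! ### The increments after `2^-K` -/

abbrev T (K : ℕ) : Type := Set.Icc ((1 : ℝ) / 2 ^ K) 1

noncomputable def Yk (K : ℕ) (b : Om) (t : T K) : ℂ := X t b - X (1 / 2 ^ K) b

noncomputable def ext (K : ℕ) (y : T K → ℂ) (t : ℝ) : ℂ :=
  if h : t ∈ Set.Icc ((1 : ℝ) / 2 ^ K) 1 then y ⟨t, h⟩ else 0

theorem continuous_X (t : ℝ) : Continuous (X t) := by
  unfold X
  exact continuous_eval_const _

theorem measurable_X (t : ℝ) : Measurable (X t) := (continuous_X t).measurable

theorem measurable_Yk (K : ℕ) : Measurable (Yk K) :=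
  measurable_pi_lambda _ fun _ => (measurable_X _).sub (measurable_X _)

theorem measurable_ext (K : ℕ) (t : ℝ) : Measurable fun y : T K → ℂ => ext K y t := by
  unfold ext
  split_ifs with h
  · exact measurable_pi_apply _
  · exact measurable_const

/-- `Phi` as a function of the increments -/
noncomputable def PY (K : ℕ) (q : ℝ × (T K → ℂ)) : ℝ := Phx K q.1 (ext K q.2)

theorem measurable_PY (K : ℕ) : Measurable (PY K) :=
  measurable_Phx K (fun q : ℝ × (T K → ℂ) => q.1) (fun q => ext K q.2) measurable_fst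
    fun t => (measurable_ext K t).comp measurable_snd

theorem Phi_PY (K : ℕ) (p : ℝ) (b : Om) : Phi K p b = PY K (p, Yk K b) := by
  rw [Phi_eq, PY]
  refine Phx_congr K p _ _ (X (1 / 2 ^ K) b) fun t h1 h2 => ?_
  simp only [ext, dif_pos (Set.mem_Icc.2 ⟨h1, h2⟩), Yk]
  ring

theorem measurable_ph (k : ℕ) : Measurable (ph k) := by
  unfold ph
  refine (Finset.measurable_fun_sum _ fun j _ => ?_).const_mul _
  refine ((measurable_chi k).comp ?_).mul (Complex.measurable_re.comp ?_)
  · unfold wv
    exact (Complex.measurable_re.comp ((measurable_X _).sub (measurable_X _))).const_mul _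
  · unfold xv
    exact ((measurable_X _).sub (measurable_X _)).const_mul _

/-! ### The filtration -/

noncomputable def FF : Filtration ℕ (inferInstance : MeasurableSpace Om) where
  seq K := MeasurableSpace.comap (Yk K) inferInstance
  mono' := by
    refine monotone_nat_of_le_succ fun K => ?_
    rw [← measurable_iff_comap_le]
    refine @measurable_pi_lambda _ _ _ (MeasurableSpace.comap (Yk (K + 1)) inferInstance) _ _ fun t => ?_
    have hK : (1 : ℝ) / 2 ^ (K + 1) ≤ 1 / 2 ^ K := by
      rw [pow_succ]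
      gcongr
      have : (0 : ℝ) < 2 ^ K := by positivity
      linarith
    have hK1 : (1 : ℝ) / 2 ^ K ≤ 1 := by
      rw [div_le_one (by positivity)]
      exact one_le_pow₀ (by norm_num)
    have e : (fun b => Yk K b t) = fun b => Yk (K + 1) b ⟨t, hK.trans t.2.1, t.2.2⟩ -
        Yk (K + 1) b ⟨1 / 2 ^ K, hK, hK1⟩ := by
      funext b
      simp only [Yk]
      ring
    have hc : @Measurable Om (T (K + 1) → ℂ) (MeasurableSpace.comap (Yk (K + 1)) inferInstance) _ (Yk (K + 1)) :=
      comap_measurable _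
    have hev : ∀ s : T (K + 1), @Measurable Om ℂ (MeasurableSpace.comap (Yk (K + 1)) inferInstance) _
        (fun b => Yk (K + 1) b s) := fun s => (measurable_pi_apply s).comp hc
    rw [e]
    exact (hev ⟨t, hK.trans t.2.1, t.2.2⟩).sub (hev ⟨1 / 2 ^ K, hK, hK1⟩)
  le' K := (measurable_Yk K).comap_le

/-- recentering of the path -/
noncomputable def Lam (b : Om) : Om := b - ContinuousMap.const _ (X 0 b)

theorem X_Lam (t : ℝ) (b : Om) : X t (Lam b) = X t b - X 0 b := by
  simp [X, Lam]

theorem measurable_Lam (hEV : S_EV) : Measurable[⨆ n, FF n] Lam := by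
  rw [measurable_iff_le_map]
  refine hEV (MeasurableSpace.map Lam (⨆ n, (FF n : MeasurableSpace Om))) fun t ht0 ht1 => ?_
  have hm : Measurable[⨆ n, (FF n : MeasurableSpace Om)] fun b => X t (Lam b) := by
    rcases ht0.eq_or_lt with h0 | h0
    · have : (fun b => X t (Lam b)) = fun _ => 0 := by
        funext b
        rw [X_Lam, ← h0, sub_self]
      rw [this]
      exact measurable_const
    · let f : ℕ → Om → ℂ := fun K b => if (1 : ℝ) / 2 ^ K ≤ t then X t b - X (1 / 2 ^ K) b else 0
      have hf : ∀ K, Measurable[⨆ n, (FF n : MeasurableSpace Om)] (f K) := by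
        intro K
        by_cases hK : (1 : ℝ) / 2 ^ K ≤ t
        · have e : f K = fun b => Yk K b ⟨t, hK, ht1⟩ := by
            funext b
            simp only [f, if_pos hK, Yk]
          rw [e]
          have hc : Measurable[(FF K : MeasurableSpace Om)] (Yk K) := comap_measurable _
          have h1 : Measurable[(FF K : MeasurableSpace Om)] fun b => Yk K b ⟨t, hK, ht1⟩ :=
            (measurable_pi_apply _).comp hc
          exact h1.mono (le_iSup (fun n => (FF n : MeasurableSpace Om)) K) le_rfl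
        · have e : f K = fun _ => 0 := by
            funext b
            simp only [f, if_neg hK]
          rw [e]
          exact measurable_const
      refine @measurable_of_tendsto_metrizable _ _ (⨆ n, (FF n : MeasurableSpace Om)) _ _ _ _ f _ hf ?_
      rw [tendsto_pi_nhds]
      intro b
      rw [X_Lam]
      have hlim : Tendsto (fun K : ℕ => (1 : ℝ) / 2 ^ K) atTop (𝓝 0) := by
        have := tendsto_pow_atTop_nhds_zero_of_lt_one (show (0 : ℝ) ≤ 1 / 2 by norm_num) (by norm_num)
        simpa [one_div_pow] using this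
      have hX : Continuous fun s : ℝ => X s b := by
        unfold X
        exact b.continuous.comp continuous_projIcc
      have h2 : Tendsto (fun K : ℕ => X t b - X (1 / 2 ^ K) b) atTop (𝓝 (X t b - X 0 b)) :=
        tendsto_const_nhds.sub ((hX.tendsto 0).comp hlim)
      refine h2.congr' ?_
      filter_upwards [hlim.eventually (gt_mem_nhds h0)] with K hK
      simp only [f, if_pos hK.le]
  intro A hA
  exact hm hA

/-- approximation of a function of the path by a function of the increments -/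
theorem approx {μ : Measure Om} [IsProbabilityMeasure μ] (hEV : S_EV) (h0 : ∀ᵐ ω ∂μ, X 0 ω = 0)
    (g : Om → ℝ) (hg : Integrable g μ) :
    Tendsto (fun n => eLpNorm (μ[g | FF n] - g) 1 μ) atTop (𝓝 0) := by
  -- a measurable version which is measurable with respect to the limit
  have hgm := hg.1
  set g1 : Om → ℝ := hgm.mk g with hg1
  have hg1m : StronglyMeasurable g1 := hgm.stronglyMeasurable_mk
  have hg1e : g =ᵐ[μ] g1 := hgm.ae_eq_mk
  let g2 : Om → ℝ := fun b => g1 (Lam b)
  have hg2e : g1 =ᵐ[μ] g2 := by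
    filter_upwards [h0] with b hb
    have : Lam b = b := by
      ext t
      simp [Lam, hb]
    show g1 b = g1 (Lam b)
    rw [this]
  have hg2m : StronglyMeasurable[⨆ n, FF n] g2 := by
    have h1 : Measurable[⨆ n, FF n] g2 := hg1m.measurable.comp (measurable_Lam hEV)
    exact h1.stronglyMeasurable
  have hee : g =ᵐ[μ] g2 := hg1e.trans hg2e
  have hg2i : Integrable g2 μ := hg.congr hee
  have h2 := hg2i.tendsto_eLpNorm_condExp hg2m
  refine h2.congr fun n => ?_
  refine eLpNorm_congr_ae ?_
  have h3 : μ[g | FF n] =ᵐ[μ] μ[g2 | FF n] := condExp_congr_ae hee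
  filter_upwards [h3, hee] with b hb1 hb2
  simp only [Pi.sub_apply, hb1, hb2]

/-- the comparison: `e` is a bounded function of `Phi K (ph K) ω'` which is nearly a function of the increments -/
theorem transfer {μ : Measure Om} [IsProbabilityMeasure μ] (β : Om → Om) (hβ : Measurable β)
    (hlaw : μ.map β = μ) (K : ℕ)
    (hind : IndepFun (ph K) (fun (ω : Om) (t : Set.Icc ((1 : ℝ) / 2 ^ K) 1) =>
      X t (β ω) - X (1 / 2 ^ K) (β ω)) μ)
    (hrel : ∀ᵐ ω ∂μ, ph 0 ω = Phi K (ph K ω) (β ω))
    (c : ℝ → ℝ) (hc : Measurable c) (g : Om → ℝ) (hg : AEStronglyMeasurable g μ)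
    (hcg : (fun ω => c (ph 0 ω)) =ᵐ[μ] fun ω => g (β ω))
    (h : (T K → ℂ) → ℝ) (hh : Measurable h) :
    ∫⁻ z, ENNReal.ofReal |c (Phi K (ph K z.1) z.2) - h (Yk K z.2)| ∂(μ.prod μ) =
      ∫⁻ b, ENNReal.ofReal |g b - h (Yk K b)| ∂μ := by
  have hph := measurable_ph K
  have hY := measurable_Yk K
  have hP : IsProbabilityMeasure (μ.map (ph K)) := Measure.isProbabilityMeasure_map hph.aemeasurable
  have hQ : IsProbabilityMeasure (μ.map (Yk K)) := Measure.isProbabilityMeasure_map hY.aemeasurable
  have hYβ : Measurable fun ω => Yk K (β ω) := hY.comp hβ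
  have hind' : IndepFun (ph K) (fun ω => Yk K (β ω)) μ := hind
  have hmap1 : μ.map (fun ω => (ph K ω, Yk K (β ω))) = (μ.map (ph K)).prod (μ.map (Yk K)) := by
    rw [(indepFun_iff_map_prod_eq_prod_map_map hph.aemeasurable hYβ.aemeasurable).1 hind']
    have e : μ.map (fun ω => Yk K (β ω)) = (μ.map β).map (Yk K) := (Measure.map_map hY hβ).symm
    rw [e, hlaw]
  have hmap2 : (μ.prod μ).map (fun z : Om × Om => (ph K z.1, Yk K z.2)) =
      (μ.map (ph K)).prod (μ.map (Yk K)) := by
    have := Measure.map_prod_map μ μ hph hY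
    exact this.symm
  let F : ℝ × (T K → ℂ) → ℝ≥0∞ := fun q => ENNReal.ofReal |c (PY K q) - h q.2|
  have hF : Measurable F :=
    (measurable_abs.comp ((hc.comp (measurable_PY K)).sub (hh.comp measurable_snd))).ennreal_ofReal
  have e1 : ∫⁻ z, ENNReal.ofReal |c (Phi K (ph K z.1) z.2) - h (Yk K z.2)| ∂(μ.prod μ) =
      ∫⁻ q, F q ∂((μ.map (ph K)).prod (μ.map (Yk K))) := by
    rw [← hmap2, lintegral_map (g := fun z : Om × Om => (ph K z.1, Yk K z.2)) hF
      ((hph.comp measurable_fst).prodMk (hY.comp measurable_snd))]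
    refine lintegral_congr fun z => ?_
    simp only [F, Phi_PY]
  have e2 : ∫⁻ q, F q ∂((μ.map (ph K)).prod (μ.map (Yk K))) =
      ∫⁻ ω, F (ph K ω, Yk K (β ω)) ∂μ := by
    rw [← hmap1, lintegral_map hF (hph.prodMk hYβ)]
  have e3 : ∫⁻ ω, F (ph K ω, Yk K (β ω)) ∂μ = ∫⁻ ω, ENNReal.ofReal |g (β ω) - h (Yk K (β ω))| ∂μ := by
    refine lintegral_congr_ae ?_
    filter_upwards [hrel, hcg] with ω h1 h2
    simp only [F, ← Phi_PY, ← h1]
    rw [h2]
  have e4 : ∫⁻ ω, ENNReal.ofReal |g (β ω) - h (Yk K (β ω))| ∂μ =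
      ∫⁻ b, ENNReal.ofReal |g b - h (Yk K b)| ∂μ := by
    have hm : AEMeasurable (fun b => ENNReal.ofReal |g b - h (Yk K b)|) μ :=
      (measurable_abs.comp_aemeasurable (hg.aemeasurable.sub (hh.comp hY).aemeasurable)).ennreal_ofReal
    conv_rhs => rw [← hlaw]
    rw [lintegral_map' (by rw [hlaw]; exact hm) hβ.aemeasurable]
  rw [e1, e2, e3, e4]

theorem final (μ : Measure Om) [IsProbabilityMeasure μ] (A : Om × Om → ℝ) (hPm : Measurable A)
    (u v : Om → ℝ) (hu : Measurable u) (hv : Measurable v)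
    (hTP : ∫ ω₁, ∫ ω₂, ∫ ω₃, Real.cos (A (ω₁, ω₃) - A (ω₂, ω₃)) ∂μ ∂μ ∂μ ≤ 1 / 2)
    (hb1 : ∫⁻ z, ENNReal.ofReal |Real.cos (A z) - u z.2| ∂(μ.prod μ) ≤ ENNReal.ofReal (1 / 16))
    (hb2 : ∫⁻ z, ENNReal.ofReal |Real.sin (A z) - v z.2| ∂(μ.prod μ) ≤ ENNReal.ofReal (1 / 16)) :
    False := by
  let D : Om × Om × Om → ℝ := fun z => 1 - Real.cos (A (z.1, z.2.2) - A (z.2.1, z.2.2))
  have hA1 : Measurable fun z : Om × Om × Om => A (z.1, z.2.2) :=
    hPm.comp (measurable_fst.prodMk (measurable_snd.comp measurable_snd))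
  have hA2 : Measurable fun z : Om × Om × Om => A (z.2.1, z.2.2) := hPm.comp measurable_snd
  have hDm : Measurable D := measurable_const.sub (Real.measurable_cos.comp (hA1.sub hA2))
  have hD0 : ∀ z, 0 ≤ D z := fun z => by
    have := Real.cos_le_one (A (z.1, z.2.2) - A (z.2.1, z.2.2))
    simp only [D]; linarith
  have hDb : ∀ z, ‖D z‖ ≤ 2 := fun z => by
    have := Real.neg_one_le_cos (A (z.1, z.2.2) - A (z.2.1, z.2.2))
    rw [Real.norm_of_nonneg (hD0 z)]
    simp only [D]; linarith
  have hDi : Integrable D (μ.prod (μ.prod μ)) :=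
    Integrable.of_bound hDm.aestronglyMeasurable 2 (Eventually.of_forall hDb)
  have hval : 1 / 2 ≤ ∫ z, D z ∂(μ.prod (μ.prod μ)) := by
    have hci : Integrable (fun z : Om × Om × Om => Real.cos (A (z.1, z.2.2) - A (z.2.1, z.2.2)))
        (μ.prod (μ.prod μ)) :=
      Integrable.of_bound (Real.measurable_cos.comp (hA1.sub hA2)).aestronglyMeasurable 1
        (Eventually.of_forall fun z => by simpa using Real.abs_cos_le_one _)
    have e1 : ∫ z, D z ∂(μ.prod (μ.prod μ)) = 1 -
        ∫ z : Om × Om × Om, Real.cos (A (z.1, z.2.2) - A (z.2.1, z.2.2)) ∂(μ.prod (μ.prod μ)) := by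
      simp only [D]
      rw [integral_sub (integrable_const _) hci]
      simp
    have e2 : ∫ z : Om × Om × Om, Real.cos (A (z.1, z.2.2) - A (z.2.1, z.2.2)) ∂(μ.prod (μ.prod μ)) =
        ∫ ω₁, ∫ ω₂, ∫ ω₃, Real.cos (A (ω₁, ω₃) - A (ω₂, ω₃)) ∂μ ∂μ ∂μ := by
      rw [integral_prod _ hci]
      refine integral_congr_ae (Eventually.of_forall fun ω₁ => ?_)
      have hm : Measurable fun z : Om × Om => Real.cos (A (ω₁, z.2) - A (z.1, z.2)) :=
        Real.measurable_cos.comp ((hA1.comp (measurable_const.prodMk measurable_id)).sub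
          (hA2.comp (measurable_const (a := ω₁)|>.prodMk measurable_id)))
      have hi : Integrable (fun z : Om × Om => Real.cos (A (ω₁, z.2) - A (z.1, z.2))) (μ.prod μ) :=
        Integrable.of_bound hm.aestronglyMeasurable 1
          (Eventually.of_forall fun z => by simpa using Real.abs_cos_le_one _)
      exact integral_prod _ hi
    rw [e1, e2]
    linarith
  -- the upper bound
  let E1 : Om × Om → ℝ≥0∞ := fun z => ENNReal.ofReal |Real.cos (A z) - u z.2|
  let E2 : Om × Om → ℝ≥0∞ := fun z => ENNReal.ofReal |Real.sin (A z) - v z.2|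
  have hE1 : Measurable E1 := (measurable_abs.comp ((Real.measurable_cos.comp hPm).sub
    (hu.comp measurable_snd))).ennreal_ofReal
  have hE2 : Measurable E2 := (measurable_abs.comp ((Real.measurable_sin.comp hPm).sub
    (hv.comp measurable_snd))).ennreal_ofReal
  have hpt : ∀ z : Om × Om × Om, ENNReal.ofReal (D z) ≤
      (E1 (z.1, z.2.2) + E1 z.2) + (E2 (z.1, z.2.2) + E2 z.2) := by
    intro z
    simp only [E1, E2, D]
    rw [← ENNReal.ofReal_add (abs_nonneg _) (abs_nonneg _), ← ENNReal.ofReal_add (abs_nonneg _) (abs_nonneg _),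
      ← ENNReal.ofReal_add (by positivity) (by positivity)]
    refine ENNReal.ofReal_le_ofReal ?_
    set a := A (z.1, z.2.2)
    set b := A z.2
    set u' := u z.2.2
    set v' := v z.2.2
    have e : 1 - Real.cos (a - b) = ((Real.cos a - Real.cos b) ^ 2 + (Real.sin a - Real.sin b) ^ 2) / 2 := by
      rw [Real.cos_sub]
      have h1 := Real.sin_sq_add_cos_sq a
      have h2 := Real.sin_sq_add_cos_sq b
      nlinarith
    have c1 : (Real.cos a - Real.cos b) ^ 2 ≤ 2 * |Real.cos a - Real.cos b| := by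
      rw [← sq_abs]
      have h1 : |Real.cos a - Real.cos b| ≤ 2 := by
        have := abs_sub (Real.cos a) (Real.cos b)
        have := Real.abs_cos_le_one a
        have := Real.abs_cos_le_one b
        linarith
      have h2 := abs_nonneg (Real.cos a - Real.cos b)
      nlinarith
    have c2 : (Real.sin a - Real.sin b) ^ 2 ≤ 2 * |Real.sin a - Real.sin b| := by
      rw [← sq_abs]
      have h1 : |Real.sin a - Real.sin b| ≤ 2 := by
        have := abs_sub (Real.sin a) (Real.sin b)
        have := Real.abs_sin_le_one a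
        have := Real.abs_sin_le_one b
        linarith
      have h2 := abs_nonneg (Real.sin a - Real.sin b)
      nlinarith
    have d1 : |Real.cos a - Real.cos b| ≤ |Real.cos a - u'| + |Real.cos b - u'| := by
      have := abs_sub_le (Real.cos a) u' (Real.cos b)
      rw [abs_sub_comm u'] at this
      exact this
    have d2 : |Real.sin a - Real.sin b| ≤ |Real.sin a - v'| + |Real.sin b - v'| := by
      have := abs_sub_le (Real.sin a) v' (Real.sin b)
      rw [abs_sub_comm v'] at this
      exact this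
    rw [e]
    linarith
  have hproj : MeasurePreserving (fun z : Om × Om × Om => (z.1, z.2.2)) (μ.prod (μ.prod μ)) (μ.prod μ) :=
    (MeasurePreserving.id μ).prod (measurePreserving_snd (μ := μ) (ν := μ))
  have hproj2 : MeasurePreserving (fun z : Om × Om × Om => z.2) (μ.prod (μ.prod μ)) (μ.prod μ) :=
    measurePreserving_snd
  have hup : ∫⁻ z, ENNReal.ofReal (D z) ∂(μ.prod (μ.prod μ)) ≤ ENNReal.ofReal (1 / 4) := by
    refine (lintegral_mono hpt).trans ?_
    have m1 : Measurable fun z : Om × Om × Om => E1 (z.1, z.2.2) := hE1.comp hproj.measurable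
    have m2 : Measurable fun z : Om × Om × Om => E1 z.2 := hE1.comp measurable_snd
    have m3 : Measurable fun z : Om × Om × Om => E2 (z.1, z.2.2) := hE2.comp hproj.measurable
    have m12 : Measurable fun z : Om × Om × Om => E1 (z.1, z.2.2) + E1 z.2 := m1.add m2
    rw [lintegral_add_left m12, lintegral_add_left m1, lintegral_add_left m3]
    rw [hproj.lintegral_comp hE1, hproj2.lintegral_comp hE1, hproj.lintegral_comp hE2,
      hproj2.lintegral_comp hE2]
    calc _ ≤ (ENNReal.ofReal (1 / 16) + ENNReal.ofReal (1 / 16)) +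
          (ENNReal.ofReal (1 / 16) + ENNReal.ofReal (1 / 16)) := by
          gcongr
      _ = ENNReal.ofReal (1 / 4) := by
          rw [← ENNReal.ofReal_add (by norm_num) (by norm_num), ← ENNReal.ofReal_add (by norm_num) (by norm_num)]
          norm_num
  have hfin : ∫ z, D z ∂(μ.prod (μ.prod μ)) ≤ 1 / 4 := by
    rw [integral_eq_lintegral_of_nonneg_ae (Eventually.of_forall hD0) hDm.aestronglyMeasurable]
    exact ENNReal.toReal_le_of_le_ofReal (by norm_num) hup
  linarith

end PkgNM

open PkgNM in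
theorem pNM (μ : Measure Om) (hμ : IsW μ) (hEV : S_EV) (hIN : S_IN μ) (hTP : S_TP μ) : S_NM μ := by
  intro β hβ hlaw hind hrel
  have hprob : IsProbabilityMeasure μ := by
    have := hμ.gauss
    infer_instance
  by_contra hcon
  push Not at hcon
  have hph0 := measurable_ph 0
  obtain ⟨g1, hg1, hc1⟩ := hcon (fun ω => Real.cos (ph 0 ω)) (Real.measurable_cos.comp hph0)
    (fun ω => Real.abs_cos_le_one _)
  obtain ⟨g2, hg2, hc2⟩ := hcon (fun ω => Real.sin (ph 0 ω)) (Real.measurable_sin.comp hph0)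
    (fun ω => Real.abs_sin_le_one _)
  -- integrability
  have hint : ∀ (c : ℝ → ℝ) (g : Om → ℝ), (∀ x, |c x| ≤ 1) → AEStronglyMeasurable g μ →
      ((fun ω => c (ph 0 ω)) =ᵐ[μ] fun ω => g (β ω)) → Integrable g μ := by
    intro c g hc hg hcg
    have h1 : ∀ᵐ b ∂μ, |g b| ≤ 1 := by
      have hge : g =ᵐ[μ] hg.mk g := hg.ae_eq_mk
      have hge' : ∀ᵐ ω ∂μ, g (β ω) = hg.mk g (β ω) := by
        have h3 : ∀ᵐ b ∂(μ.map β), g b = hg.mk g b := by rw [hlaw]; exact hge
        exact ae_of_ae_map hβ.aemeasurable h3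
      have hms : MeasurableSet {b | |hg.mk g b| ≤ 1} :=
        measurableSet_le (measurable_abs.comp hg.stronglyMeasurable_mk.measurable) measurable_const
      have h2 : ∀ᵐ b ∂(μ.map β), |hg.mk g b| ≤ 1 := by
        rw [ae_map_iff hβ.aemeasurable hms]
        filter_upwards [hcg, hge'] with ω h4 h5
        rw [← h5, ← h4]
        exact hc _
      rw [hlaw] at h2
      filter_upwards [h2, hge] with b h4 h5
      rw [h5]
      exact h4
    exact Integrable.of_bound hg 1 h1
  have hi1 := hint Real.cos g1 Real.abs_cos_le_one hg1 hc1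
  have hi2 := hint Real.sin g2 Real.abs_sin_le_one hg2 hc2
  have ha1 := approx hEV hIN.2.2 g1 hi1
  have ha2 := approx hEV hIN.2.2 g2 hi2
  -- choose K
  have hev : ∀ᶠ K in atTop, eLpNorm (μ[g1 | FF K] - g1) 1 μ < ENNReal.ofReal (1 / 16) ∧
      eLpNorm (μ[g2 | FF K] - g2) 1 μ < ENNReal.ofReal (1 / 16) :=
    (ha1.eventually (gt_mem_nhds (by simp))).and (ha2.eventually (gt_mem_nhds (by simp)))
  obtain ⟨K, hK1, hK2⟩ := hev.exists
  obtain ⟨h1, hh1, he1⟩ := StronglyMeasurable.exists_eq_measurable_comp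
    (f := Yk K) (g := μ[g1 | FF K]) stronglyMeasurable_condExp
  obtain ⟨h2, hh2, he2⟩ := StronglyMeasurable.exists_eq_measurable_comp
    (f := Yk K) (g := μ[g2 | FF K]) stronglyMeasurable_condExp
  have ht1 := transfer β hβ hlaw K (hind K) (hrel K) Real.cos Real.measurable_cos g1 hg1 hc1 h1 hh1.measurable
  have ht2 := transfer β hβ hlaw K (hind K) (hrel K) Real.sin Real.measurable_sin g2 hg2 hc2 h2 hh2.measurable
  have hb1 : ∫⁻ b, ENNReal.ofReal |g1 b - h1 (Yk K b)| ∂μ ≤ ENNReal.ofReal (1 / 16) := by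
    refine le_trans (le_of_eq ?_) hK1.le
    rw [eLpNorm_one_eq_lintegral_enorm, he1]
    refine lintegral_congr fun b => ?_
    rw [Pi.sub_apply, Function.comp_apply, Real.enorm_eq_ofReal_abs, abs_sub_comm]
  have hb2 : ∫⁻ b, ENNReal.ofReal |g2 b - h2 (Yk K b)| ∂μ ≤ ENNReal.ofReal (1 / 16) := by
    refine le_trans (le_of_eq ?_) hK2.le
    rw [eLpNorm_one_eq_lintegral_enorm, he2]
    refine lintegral_congr fun b => ?_
    rw [Pi.sub_apply, Function.comp_apply, Real.enorm_eq_ofReal_abs, abs_sub_comm]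
  rw [← ht1] at hb1
  rw [← ht2] at hb2
  have hPm : Measurable fun z : Om × Om => Phi K (ph K z.1) z.2 := by
    have : (fun z : Om × Om => Phi K (ph K z.1) z.2) = fun z => PY K (ph K z.1, Yk K z.2) := by
      funext z
      rw [Phi_PY]
    rw [this]
    exact (measurable_PY K).comp (((measurable_ph K).comp measurable_fst).prodMk
      ((measurable_Yk K).comp measurable_snd))
  exact final μ (fun z => Phi K (ph K z.1) z.2) hPm (fun b => h1 (Yk K b)) (fun b => h2 (Yk K b))
    (hh1.measurable.comp (measurable_Yk K)) (hh2.measurable.comp (measurable_Yk K)) (hTP K) hb1 hb2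

end Pool.Agent.T2H68.UB
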