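import Pool.Agent.T2H68.UB.Stm

/-!
# Package OS: one step of the two-point motion
-/

set_option autoImplicit false

open MeasureTheory ProbabilityTheory Set Filter Finset
open scoped ENNReal NNReal Topology ComplexConjugate

namespace Pool.Agent.T2H68.UB

namespace PkgOS

/-- integrals of powers of `(1 + cos D)/2` through the characteristic function of `D` -/
theorem pow_int {Y : Type*} [MeasurableSpace Y] (ν : Measure Y) [IsProbabilityMeasure ν]
    (D : Y → ℝ) (hD : Measurable D) (V : ℝ) (hV : 0 ≤ V)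
    (h : ∀ s : ℤ, ‖∫ y, Complex.exp (Complex.I * ((s * D y : ℝ) : ℂ)) ∂ν‖ ≤
      Real.exp (-((s : ℝ) ^ 2 * V / 2))) (n : ℕ) :
    ∫ y, ((1 + Real.cos (D y)) / 2) ^ n ∂ν ≤
      (Nat.centralBinom n : ℝ) / 4 ^ n + Real.exp (-(V / 2)) := by
  have hid : ∀ x : ℝ, ((((1 + Real.cos x) / 2) ^ n : ℝ) : ℂ) =
      ∑ l ∈ Finset.range (2 * n + 1), ((((2 * n).choose l : ℕ) : ℂ) / 4 ^ n) *
        Complex.exp (Complex.I * (((((l : ℤ) - (n : ℤ) : ℤ) : ℝ) * x : ℝ) : ℂ)) := by
    intro x
    have h1 : (((1 + Real.cos x) / 2 : ℝ) : ℂ) =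
        (Complex.exp (Complex.I * (x / 2)) + Complex.exp (-(Complex.I * (x / 2)))) ^ 2 / 4 := by
      push_cast
      rw [Complex.cos, add_sq, ← Complex.exp_nat_mul, ← Complex.exp_nat_mul, mul_assoc 2,
        ← Complex.exp_add, add_neg_cancel, Complex.exp_zero]
      have e1 : ((2 : ℕ) : ℂ) * (Complex.I * (x / 2)) = x * Complex.I := by push_cast; ring
      have e2 : ((2 : ℕ) : ℂ) * (-(Complex.I * (x / 2))) = -x * Complex.I := by push_cast; ring
      rw [e1, e2]
      ring
    push_cast at h1 ⊢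
    rw [h1, div_pow, ← pow_mul, add_pow, Finset.sum_div]
    refine Finset.sum_congr rfl fun l hl => ?_
    have hl' : l ≤ 2 * n := by
      have := Finset.mem_range.1 hl
      omega
    rw [← Complex.exp_nat_mul, ← Complex.exp_nat_mul, ← Complex.exp_add]
    have e3 : (l : ℂ) * (Complex.I * (x / 2)) + ((2 * n - l : ℕ) : ℂ) * (-(Complex.I * (x / 2))) =
        Complex.I * (((l : ℂ) - n) * x) := by
      rw [Nat.cast_sub hl']
      push_cast
      ring
    rw [e3]
    ring
  have hint : ∀ s : ℤ, Integrable (fun y => Complex.exp (Complex.I * ((s * D y : ℝ) : ℂ))) ν := by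
    intro s
    refine Integrable.of_bound (C := 1) ?_ (Eventually.of_forall fun y => ?_)
    · have : Measurable fun y => Complex.exp (Complex.I * ((s * D y : ℝ) : ℂ)) := by fun_prop
      exact this.aestronglyMeasurable
    · rw [mul_comm, Complex.norm_exp_ofReal_mul_I]
  have h2 : ((∫ y, ((1 + Real.cos (D y)) / 2) ^ n ∂ν : ℝ) : ℂ) =
      ∑ l ∈ Finset.range (2 * n + 1), ((((2 * n).choose l : ℕ) : ℂ) / 4 ^ n) *
        ∫ y, Complex.exp (Complex.I * (((((l : ℤ) - (n : ℤ) : ℤ) : ℝ) * D y : ℝ) : ℂ)) ∂ν := by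
    rw [← integral_complex_ofReal]
    simp_rw [hid]
    rw [integral_finsetSum]
    · simp_rw [integral_const_mul]
    · intro l _
      exact (hint _).const_mul _
  have h3 : |∫ y, ((1 + Real.cos (D y)) / 2) ^ n ∂ν| ≤
      ∑ l ∈ Finset.range (2 * n + 1), (((2 * n).choose l : ℕ) : ℝ) / 4 ^ n *
        Real.exp (-(((((l : ℤ) - (n : ℤ) : ℤ) : ℝ)) ^ 2 * V / 2)) := by
    rw [← Real.norm_eq_abs, ← Complex.norm_real, h2]
    refine (norm_sum_le _ _).trans (Finset.sum_le_sum fun l _ => ?_)
    rw [norm_mul, norm_div, norm_pow]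
    simp only [Complex.norm_natCast, Complex.norm_ofNat]
    exact mul_le_mul_of_nonneg_left (h _) (by positivity)
  refine ((le_abs_self _).trans h3).trans ?_
  have h4 : ∀ l ∈ Finset.range (2 * n + 1), (((2 * n).choose l : ℕ) : ℝ) / 4 ^ n *
        Real.exp (-(((((l : ℤ) - (n : ℤ) : ℤ) : ℝ)) ^ 2 * V / 2)) ≤
      (if l = n then (((2 * n).choose n : ℕ) : ℝ) / 4 ^ n else 0) +
        (((2 * n).choose l : ℕ) : ℝ) / 4 ^ n * Real.exp (-(V / 2)) := by
    intro l _
    by_cases hl : l = n
    · subst hl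
      rw [if_pos rfl]
      simp only [sub_self, Int.cast_zero]
      have : 0 ≤ (((2 * l).choose l : ℕ) : ℝ) / 4 ^ l * Real.exp (-(V / 2)) := by positivity
      simp
      positivity
    · rw [if_neg hl, zero_add]
      refine mul_le_mul_of_nonneg_left ?_ (by positivity)
      rw [Real.exp_le_exp]
      have h5 : (1 : ℝ) ≤ (((l : ℤ) - (n : ℤ) : ℤ) : ℝ) ^ 2 := by
        have h6 : (1 : ℤ) ≤ ((l : ℤ) - (n : ℤ)) ^ 2 := by
          have : (l : ℤ) - n ≠ 0 := by omega
          have := Int.one_le_abs this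
          nlinarith [abs_nonneg ((l : ℤ) - n), sq_abs ((l : ℤ) - n)]
        exact_mod_cast h6
      nlinarith
  refine (Finset.sum_le_sum h4).trans ?_
  rw [Finset.sum_add_distrib, Finset.sum_ite_eq' (Finset.range (2 * n + 1)) n,
    if_pos (Finset.mem_range.2 (by omega)), ← Finset.sum_mul, ← Finset.sum_div, ← Nat.cast_sum,
    Nat.sum_range_choose, Nat.centralBinom]
  have h7 : (((2 ^ (2 * n) : ℕ) : ℝ)) / 4 ^ n = 1 := by
    rw [pow_mul]
    norm_num
  rw [h7, one_mul]

theorem gauss_chf (t : ℝ) : ∫ x, Complex.exp (Complex.I * ((t * x : ℝ) : ℂ)) ∂(gaussianReal 0 1) =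
    ((Real.exp (-(t ^ 2 / 2)) : ℝ) : ℂ) := by
  have h := charFun_gaussianReal (μ := 0) (v := 1) t
  rw [charFun_apply_real] at h
  have e : ∀ x : ℝ, Complex.exp (Complex.I * ((t * x : ℝ) : ℂ)) =
      Complex.exp (t * x * Complex.I) := by
    intro x
    congr 1
    push_cast
    ring
  simp_rw [e, h]
  push_cast
  congr 1
  ring

/-- characteristic function of a linear combination of i.i.d. standard Gaussians -/
theorem pi_chf {ι : Type*} [Fintype ι] (a : ι → ℝ) (s : ℝ) :
    ∫ x : ι → ℝ, Complex.exp (Complex.I * ((s * ∑ j, a j * x j : ℝ) : ℂ))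
      ∂(Measure.pi fun _ : ι => gaussianReal 0 1) =
      ((Real.exp (-(s ^ 2 * (∑ j, a j ^ 2) / 2)) : ℝ) : ℂ) := by
  have e : ∀ x : ι → ℝ, Complex.exp (Complex.I * ((s * ∑ j, a j * x j : ℝ) : ℂ)) =
      ∏ j, Complex.exp (Complex.I * (((s * a j) * x j : ℝ) : ℂ)) := by
    intro x
    rw [← Complex.exp_sum]
    congr 1
    push_cast
    rw [Finset.mul_sum, Finset.mul_sum]
    refine Finset.sum_congr rfl fun j _ => ?_
    ring
  simp_rw [e]
  rw [integral_fintype_prod_eq_prod (𝕜 := ℂ)
    (fun (j : ι) (v : ℝ) => Complex.exp (Complex.I * (((s * a j) * v : ℝ) : ℂ)))]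
  simp_rw [gauss_chf]
  rw [← Complex.ofReal_prod, ← Real.exp_sum]
  congr 2
  rw [Finset.sum_neg_distrib, Finset.mul_sum, Finset.sum_div]
  congr 1
  refine Finset.sum_congr rfl fun j _ => ?_
  ring

theorem pair_chf {ι : Type*} [Fintype ι] (a b : ι → ℝ) (s : ℝ) :
    ∫ q : (ι → ℝ) × (ι → ℝ), Complex.exp (Complex.I *
      ((s * (∑ j, a j * q.1 j + ∑ j, b j * q.2 j) : ℝ) : ℂ))
      ∂((Measure.pi fun _ : ι => gaussianReal 0 1).prod (Measure.pi fun _ : ι => gaussianReal 0 1)) =
      ((Real.exp (-(s ^ 2 * (∑ j, a j ^ 2 + ∑ j, b j ^ 2) / 2)) : ℝ) : ℂ) := by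
  have e : ∀ q : (ι → ℝ) × (ι → ℝ), Complex.exp (Complex.I *
      ((s * (∑ j, a j * q.1 j + ∑ j, b j * q.2 j) : ℝ) : ℂ)) =
      Complex.exp (Complex.I * ((s * ∑ j, a j * q.1 j : ℝ) : ℂ)) *
        Complex.exp (Complex.I * ((s * ∑ j, b j * q.2 j : ℝ) : ℂ)) := by
    intro q
    rw [← Complex.exp_add]
    congr 1
    push_cast
    ring
  simp_rw [e]
  rw [integral_prod_mul (fun x : ι → ℝ => Complex.exp (Complex.I * ((s * ∑ j, a j * x j : ℝ) : ℂ)))
    (fun x : ι → ℝ => Complex.exp (Complex.I * ((s * ∑ j, b j * x j : ℝ) : ℂ))), pi_chf, pi_chf,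
    ← Complex.ofReal_mul, ← Real.exp_add]
  congr 2
  ring

/-! ### measurability of the data -/

theorem X_cont (t : ℝ) : Continuous (X t) := by
  unfold X
  fun_prop

theorem wv_cont (k j : ℕ) : Continuous (wv k j) := by
  unfold wv
  have h1 := X_cont (st k j + hh k / 4)
  have h2 := X_cont (st k j)
  fun_prop

theorem xv_cont (k j : ℕ) : Continuous (xv k j) := by
  unfold xv
  have h1 := X_cont (st k j + 3 * hh k / 4)
  have h2 := X_cont (st k j + hh k / 2)
  fun_prop

theorem chi_cont (k : ℕ) : Continuous (chi k) := by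
  unfold chi
  exact Real.smoothTransition.continuous.comp (by fun_prop)

theorem chi_nonneg (k : ℕ) (w : ℝ) : 0 ≤ chi k w := Real.smoothTransition.nonneg _

theorem lam_pos (k : ℕ) : 0 < lam k := by unfold lam; positivity

theorem chi_active {k : ℕ} {w : ℝ} (h : lam k + 1 / lam k ≤ w) : chi k w = 1 := by
  unfold chi
  apply Real.smoothTransition.one_of_one_le
  have h0 := lam_pos k
  have : 1 / lam k ≤ w - lam k := by linarith
  rw [div_le_iff₀ h0] at this
  linarith

/-- all the data of scale `k` -/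
noncomputable def Ph (k : ℕ) (ω : Om) : (Fin (mm k) → ℝ) × ((Fin (mm k) → ℝ) × (Fin (mm k) → ℝ)) :=
  ((fun j : Fin (mm k) => wv k j ω),
      (fun j : Fin (mm k) => (xv k j ω).re), (fun j : Fin (mm k) => (xv k j ω).im))

theorem Ph_meas (k : ℕ) : Measurable (Ph k) := by
  have h1 : ∀ j : Fin (mm k), Measurable (wv k j) := fun j => (wv_cont k j).measurable
  have h2 : ∀ j : Fin (mm k), Measurable (xv k j) := fun j => (xv_cont k j).measurable
  refine Measurable.prodMk (measurable_pi_iff.2 h1) (Measurable.prodMk ?_ ?_)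
  · exact measurable_pi_iff.2 fun j => Complex.measurable_re.comp (h2 j)
  · exact measurable_pi_iff.2 fun j => Complex.measurable_im.comp (h2 j)

/-- Fubini -/
theorem fub {μ : Measure Om} [IsProbabilityMeasure μ] (hWH : S_WH μ) (k : ℕ)
    (F : (Fin (mm k) → ℝ) × ((Fin (mm k) → ℝ) × (Fin (mm k) → ℝ)) → ℝ) (hF : Measurable F)
    (hFb : ∀ q, |F q| ≤ 1) (b : (Fin (mm k) → ℝ) → ℝ) (hb : Measurable b) (B : ℝ)
    (hbB : ∀ w, |b w| ≤ B)
    (h : ∀ w, ∫ q, F (w, q) ∂((Measure.pi fun _ => gaussianReal 0 1).prod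
      (Measure.pi fun _ => gaussianReal 0 1)) ≤ b w) :
    ∫ ω, F (Ph k ω) ∂μ ≤ ∫ ω, b (Ph k ω).1 ∂μ := by
  have hm := hWH.1 k
  set γ : Measure (Fin (mm k) → ℝ) := Measure.pi fun _ => gaussianReal 0 1 with hγ
  have e1 : ∫ ω, F (Ph k ω) ∂μ = ∫ q, F q ∂(γ.prod (γ.prod γ)) := by
    rw [← hm]
    exact (integral_map (Ph_meas k).aemeasurable hF.aestronglyMeasurable).symm
  have e2 : ∫ ω, b (Ph k ω).1 ∂μ = ∫ q, b q.1 ∂(γ.prod (γ.prod γ)) := by
    rw [← hm]
    exact (integral_map (Ph_meas k).aemeasurable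
      (hb.comp measurable_fst).aestronglyMeasurable).symm
  have hFi : Integrable F (γ.prod (γ.prod γ)) :=
    Integrable.of_bound hF.aestronglyMeasurable 1 (Eventually.of_forall fun q => by
      rw [Real.norm_eq_abs]; exact hFb q)
  have hbi : Integrable b γ :=
    Integrable.of_bound hb.aestronglyMeasurable B (Eventually.of_forall fun q => by
      rw [Real.norm_eq_abs]; exact hbB q)
  rw [e1, e2, integral_prod _ hFi, integral_fun_fst]
  simp only [probReal_univ, one_smul]
  exact integral_mono hFi.integral_prod_left hbi h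

/-! ### the two-point difference -/

section

variable (k : ℕ) (p p' : ℝ)

noncomputable def cA (w : Fin (mm k) → ℝ) (j : Fin (mm k)) : ℝ :=
  amp k * (chi k (w j) * (Real.cos (eta k * chi k (w j) * gg j p) -
    Real.cos (eta k * chi k (w j) * gg j p')))

noncomputable def cB (w : Fin (mm k) → ℝ) (j : Fin (mm k)) : ℝ :=
  -(amp k * (chi k (w j) * (Real.sin (eta k * chi k (w j) * gg j p) -
    Real.sin (eta k * chi k (w j) * gg j p'))))

noncomputable def DD (q : (Fin (mm k) → ℝ) × ((Fin (mm k) → ℝ) × (Fin (mm k) → ℝ))) : ℝ :=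
  ∑ j, cA k p p' q.1 j * q.2.1 j + ∑ j, cB k p p' q.1 j * q.2.2 j

noncomputable def VV (w : Fin (mm k) → ℝ) : ℝ := ∑ j, cA k p p' w j ^ 2 + ∑ j, cB k p p' w j ^ 2

theorem cA_cont (j : Fin (mm k)) : Continuous fun w => cA k p p' w j := by
  unfold cA
  have := chi_cont k
  fun_prop

theorem cB_cont (j : Fin (mm k)) : Continuous fun w => cB k p p' w j := by
  unfold cB
  have := chi_cont k
  fun_prop

theorem DD_cont : Continuous (DD k p p') := by
  unfold DD
  have h1 := cA_cont k p p'
  have h2 := cB_cont k p p'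
  refine (continuous_finsetSum _ fun j _ => ?_).add (continuous_finsetSum _ fun j _ => ?_)
  · exact ((h1 j).comp continuous_fst).mul (by fun_prop)
  · exact ((h2 j).comp continuous_fst).mul (by fun_prop)

theorem VV_cont : Continuous (VV k p p') := by
  unfold VV
  have h1 := cA_cont k p p'
  have h2 := cB_cont k p p'
  exact (continuous_finsetSum _ fun j _ => (h1 j).pow 2).add
    (continuous_finsetSum _ fun j _ => (h2 j).pow 2)

theorem VV_nonneg (w : Fin (mm k) → ℝ) : 0 ≤ VV k p p' w := by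
  unfold VV
  positivity

theorem step_sub (ω : Om) : stepf k p ω - stepf k p' ω = DD k p p' (Ph k ω) := by
  have e : ∀ q : ℝ, stepf k q ω = ∑ j : Fin (mm k), amp k * (chi k (wv k j ω) *
      (Real.cos (eta k * chi k (wv k j ω) * gg j q) * (xv k j ω).re -
        Real.sin (eta k * chi k (wv k j ω) * gg j q) * (xv k j ω).im)) := by
    intro q
    unfold stepf
    rw [Finset.mul_sum, Finset.sum_range]
    refine Finset.sum_congr rfl fun j _ => ?_
    rw [Complex.mul_re, mul_comm Complex.I, Complex.exp_ofReal_mul_I_re,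
      Complex.exp_ofReal_mul_I_im]
  rw [e, e, ← Finset.sum_sub_distrib]
  unfold DD cA cB Ph
  rw [← Finset.sum_add_distrib]
  refine Finset.sum_congr rfl fun j _ => ?_
  ring

theorem VV_eq (w : Fin (mm k) → ℝ) : VV k p p' w = ∑ j : Fin (mm k), (amp k * chi k (w j)) ^ 2 *
    (2 - 2 * Real.cos (eta k * chi k (w j) * gg j p - eta k * chi k (w j) * gg j p')) := by
  unfold VV cA cB
  rw [← Finset.sum_add_distrib]
  refine Finset.sum_congr rfl fun j _ => ?_
  set a := eta k * chi k (w j) * gg j p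
  set b := eta k * chi k (w j) * gg j p'
  rw [Real.cos_sub]
  have h1 := Real.sin_sq_add_cos_sq a
  have h2 := Real.sin_sq_add_cos_sq b
  have h3 : (Real.cos a - Real.cos b) ^ 2 + (Real.sin a - Real.sin b) ^ 2 =
      2 - 2 * (Real.cos a * Real.cos b + Real.sin a * Real.sin b) := by
    linear_combination h1 + h2
  rw [← h3]
  ring

theorem gg_abs (j : ℕ) (q : ℝ) : |gg j q| ≤ 1 := by
  unfold gg
  split_ifs
  · exact Real.abs_cos_le_one q
  · exact Real.abs_sin_le_one q

theorem lam_ge (k : ℕ) : 8 ≤ lam k := by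
  unfold lam
  calc (8 : ℝ) = 2 ^ 3 := by norm_num
    _ ≤ 2 ^ (k + 3) := pow_le_pow_right₀ (by norm_num) (by omega)

theorem amp_eta (k : ℕ) : amp k * eta k = lam k ^ 2 := by
  unfold amp eta
  have := (lam_pos k).ne'
  field_simp

theorem term_ge {w : Fin (mm k) → ℝ} {j : Fin (mm k)} (hj : lam k + 1 / lam k ≤ w j) :
    lam k ^ 4 / 4 * (gg j p - gg j p') ^ 2 ≤ (amp k * chi k (w j)) ^ 2 *
    (2 - 2 * Real.cos (eta k * chi k (w j) * gg j p - eta k * chi k (w j) * gg j p')) := by
  rw [chi_active hj, mul_one, mul_one]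
  have h8 := lam_ge k
  have hη : eta k ≤ 1 := by
    unfold eta
    rw [div_le_one (by positivity)]
    exact one_le_pow₀ (by linarith)
  have hη0 : 0 ≤ eta k := by unfold eta; positivity
  have h1 := abs_le.1 (gg_abs j p)
  have h2 := abs_le.1 (gg_abs j p')
  have hx : |eta k * gg j p - eta k * gg j p'| ≤ Real.pi := by
    rw [← mul_sub, abs_mul, abs_of_nonneg hη0]
    have : |gg j p - gg j p'| ≤ 2 := by
      rw [abs_le]
      constructor <;> linarith
    have h3 := Real.pi_gt_three
    nlinarith [abs_nonneg (gg j p - gg j p')]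
  have h3 := Real.cos_le_one_sub_mul_cos_sq hx
  have hpi : (1 : ℝ) / 4 ≤ 4 / Real.pi ^ 2 := by
    rw [div_le_div_iff₀ (by norm_num) (by positivity)]
    have := Real.pi_le_four
    have := Real.pi_pos
    nlinarith
  have h4 : (1 : ℝ) / 4 * (eta k * gg j p - eta k * gg j p') ^ 2 ≤
      2 - 2 * Real.cos (eta k * gg j p - eta k * gg j p') := by
    have h5 := mul_le_mul_of_nonneg_right hpi (sq_nonneg (eta k * gg j p - eta k * gg j p'))
    have h6 : 4 / Real.pi ^ 2 * (eta k * gg j p - eta k * gg j p') ^ 2 =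
        2 * (2 / Real.pi ^ 2 * (eta k * gg j p - eta k * gg j p') ^ 2) := by ring
    linarith
  have h5 := mul_le_mul_of_nonneg_left h4 (sq_nonneg (amp k))
  refine le_trans (le_of_eq ?_) h5
  have h6 : amp k ^ 2 * (1 / 4 * (eta k * gg j p - eta k * gg j p') ^ 2) =
      (amp k * eta k) ^ 2 / 4 * (gg j p - gg j p') ^ 2 := by ring
  rw [h6, amp_eta]
  ring

theorem VV_ge {w : Fin (mm k) → ℝ} (h1 : ∃ j : Fin (mm k), Even (j : ℕ) ∧ lam k + 1 / lam k ≤ w j)
    (h2 : ∃ j : Fin (mm k), ¬ Even (j : ℕ) ∧ lam k + 1 / lam k ≤ w j) :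
    lam k ^ 4 / 4 * (1 - Real.cos (p - p')) ≤ VV k p p' w / 2 := by
  obtain ⟨j, hje, hj⟩ := h1
  obtain ⟨i, hio, hi⟩ := h2
  have hij : j ≠ i := fun h => hio (h ▸ hje)
  rw [VV_eq]
  have hnn : ∀ l : Fin (mm k), 0 ≤ (amp k * chi k (w l)) ^ 2 *
      (2 - 2 * Real.cos (eta k * chi k (w l) * gg l p - eta k * chi k (w l) * gg l p')) := by
    intro l
    have := Real.cos_le_one (eta k * chi k (w l) * gg l p - eta k * chi k (w l) * gg l p')
    have h0 : 0 ≤ 2 - 2 * Real.cos (eta k * chi k (w l) * gg l p - eta k * chi k (w l) * gg l p') := by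
      linarith
    positivity
  have h3 : ∑ l ∈ ({j, i} : Finset (Fin (mm k))), (amp k * chi k (w l)) ^ 2 *
      (2 - 2 * Real.cos (eta k * chi k (w l) * gg l p - eta k * chi k (w l) * gg l p')) ≤
      ∑ l, (amp k * chi k (w l)) ^ 2 *
      (2 - 2 * Real.cos (eta k * chi k (w l) * gg l p - eta k * chi k (w l) * gg l p')) :=
    Finset.sum_le_sum_of_subset_of_nonneg (Finset.subset_univ _) fun l _ _ => hnn l
  rw [Finset.sum_pair hij] at h3
  have h4 := term_ge k p p' hj
  have h5 := term_ge k p p' hi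
  have e1 : gg j p - gg j p' = Real.cos p - Real.cos p' := by simp [gg, hje]
  have e2 : gg i p - gg i p' = Real.sin p - Real.sin p' := by simp [gg, hio]
  rw [e1] at h4
  rw [e2] at h5
  have h6 : (Real.cos p - Real.cos p') ^ 2 + (Real.sin p - Real.sin p') ^ 2 =
      2 - 2 * Real.cos (p - p') := by
    rw [Real.cos_sub]
    linear_combination Real.sin_sq_add_cos_sq p + Real.sin_sq_add_cos_sq p'
  have h7 : lam k ^ 4 / 4 * (Real.cos p - Real.cos p') ^ 2 +
      lam k ^ 4 / 4 * (Real.sin p - Real.sin p') ^ 2 =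
      2 * (lam k ^ 4 / 4 * (1 - Real.cos (p - p'))) := by
    rw [← mul_add, h6]
    ring
  linarith

theorem exp_V {μ : Measure Om} [IsProbabilityMeasure μ] (hAC : S_AC μ) :
    ∫ ω, Real.exp (-(VV k p p' (Ph k ω).1 / 2)) ∂μ ≤ 2 * Real.exp (-lam k) +
      Real.exp (-(lam k ^ 4 / 4 * (1 - Real.cos (p - p')))) := by
  obtain ⟨h1, h2⟩ := hAC k
  set A : Set Om := {ω | ¬ ∃ j < mm k, Even j ∧ lam k + 1 / lam k ≤ wv k j ω} with hA
  set B : Set Om := {ω | ¬ ∃ j < mm k, ¬ Even j ∧ lam k + 1 / lam k ≤ wv k j ω} with hB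
  have hset : ∀ P : ℕ → Prop, MeasurableSet {ω | ¬ ∃ j < mm k, P j ∧ lam k + 1 / lam k ≤ wv k j ω} := by
    intro P
    have : {ω : Om | ¬ ∃ j < mm k, P j ∧ lam k + 1 / lam k ≤ wv k j ω} =
        ⋂ (j : ℕ) (_ : j < mm k) (_ : P j), {ω | lam k + 1 / lam k ≤ wv k j ω}ᶜ := by
      ext ω
      simp only [Set.mem_ofPred_eq, not_exists, not_and, Set.mem_iInter, Set.mem_compl_iff]
    rw [this]
    exact MeasurableSet.iInter fun j => MeasurableSet.iInter fun _ => MeasurableSet.iInter fun _ =>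
      (measurableSet_le measurable_const (wv_cont k j).measurable).compl
  have hAm : MeasurableSet A := hset fun j => Even j
  have hBm : MeasurableSet B := hset fun j => ¬ Even j
  have hle : ∀ ω, Real.exp (-(VV k p p' (Ph k ω).1 / 2)) ≤
      A.indicator 1 ω + B.indicator 1 ω +
        Real.exp (-(lam k ^ 4 / 4 * (1 - Real.cos (p - p')))) := by
    intro ω
    have hV := VV_nonneg k p p' (Ph k ω).1
    have hle1 : Real.exp (-(VV k p p' (Ph k ω).1 / 2)) ≤ 1 := by
      rw [Real.exp_le_one_iff]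
      linarith
    have hA0 : 0 ≤ A.indicator (1 : Om → ℝ) ω := indicator_nonneg (fun _ _ => zero_le_one) _
    have hB0 : 0 ≤ B.indicator (1 : Om → ℝ) ω := indicator_nonneg (fun _ _ => zero_le_one) _
    have hE0 := Real.exp_pos (-(lam k ^ 4 / 4 * (1 - Real.cos (p - p'))))
    by_cases hωA : ω ∈ A
    · rw [indicator_of_mem hωA, Pi.one_apply]
      linarith
    by_cases hωB : ω ∈ B
    · rw [indicator_of_mem hωB, Pi.one_apply]
      linarith
    rw [indicator_of_notMem hωA, indicator_of_notMem hωB, zero_add, zero_add, Real.exp_le_exp,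
      neg_le_neg_iff]
    rw [hA, Set.mem_ofPred_eq, not_not] at hωA
    rw [hB, Set.mem_ofPred_eq, not_not] at hωB
    obtain ⟨j, hj, hj1, hj2⟩ := hωA
    obtain ⟨i, hi, hi1, hi2⟩ := hωB
    exact VV_ge k p p' ⟨⟨j, hj⟩, hj1, hj2⟩ ⟨⟨i, hi⟩, hi1, hi2⟩
  have hA1 : Integrable (A.indicator (1 : Om → ℝ)) μ := (integrable_const 1).indicator hAm
  have hB1 : Integrable (B.indicator (1 : Om → ℝ)) μ := (integrable_const 1).indicator hBm
  have hint : Integrable (fun ω => Real.exp (-(VV k p p' (Ph k ω).1 / 2))) μ := by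
    have hm : Measurable fun ω => Real.exp (-(VV k p p' (Ph k ω).1 / 2)) :=
      ((((VV_cont k p p').measurable.comp measurable_fst).comp (Ph_meas k)).div_const 2).neg.exp
    refine Integrable.of_bound hm.aestronglyMeasurable 1 (Eventually.of_forall fun ω => ?_)
    rw [Real.norm_eq_abs, abs_of_pos (Real.exp_pos _), Real.exp_le_one_iff]
    have hV := VV_nonneg k p p' (Ph k ω).1
    linarith
  calc ∫ ω, Real.exp (-(VV k p p' (Ph k ω).1 / 2)) ∂μ
      ≤ ∫ ω, (A.indicator 1 ω + B.indicator 1 ω +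
        Real.exp (-(lam k ^ 4 / 4 * (1 - Real.cos (p - p'))))) ∂μ :=
        integral_mono hint ((hA1.add hB1).add (integrable_const _)) hle
    _ = μ.real A + μ.real B + Real.exp (-(lam k ^ 4 / 4 * (1 - Real.cos (p - p')))) := by
        have e1 : ∫ ω, (A.indicator (1 : Om → ℝ) ω + B.indicator (1 : Om → ℝ) ω +
            Real.exp (-(lam k ^ 4 / 4 * (1 - Real.cos (p - p'))))) ∂μ =
            ∫ ω, (A.indicator (1 : Om → ℝ) ω + B.indicator (1 : Om → ℝ) ω) ∂μ +
              ∫ _ω, Real.exp (-(lam k ^ 4 / 4 * (1 - Real.cos (p - p')))) ∂μ :=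
          integral_add (hA1.add hB1) (integrable_const _)
        have e2 : ∫ ω, (A.indicator (1 : Om → ℝ) ω + B.indicator (1 : Om → ℝ) ω) ∂μ =
            ∫ ω, A.indicator (1 : Om → ℝ) ω ∂μ + ∫ ω, B.indicator (1 : Om → ℝ) ω ∂μ :=
          integral_add hA1 hB1
        rw [e1, e2, integral_indicator_one hAm, integral_indicator_one hBm, integral_const,
          probReal_univ, one_smul]
    _ ≤ 2 * Real.exp (-lam k) +
      Real.exp (-(lam k ^ 4 / 4 * (1 - Real.cos (p - p')))) := by
        have h3 : μ.real A ≤ Real.exp (-lam k) := h1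
        have h4 : μ.real B ≤ Real.exp (-lam k) := h2
        linarith

end

end PkgOS

open PkgOS in
theorem pOS (μ : Measure Om) (hμ : IsW μ) (hWH : S_WH μ) (hAC : S_AC μ) : S_OS μ := by
  intro k p p'
  have hg := hμ.gauss
  have : IsProbabilityMeasure μ := inferInstance
  have hmeas : Measurable fun q => DD k p p' q := (DD_cont k p p').measurable
  have hchf : ∀ (w : Fin (mm k) → ℝ) (s : ℝ), ‖∫ q, Complex.exp (Complex.I *
      ((s * DD k p p' (w, q) : ℝ) : ℂ)) ∂((Measure.pi fun _ => gaussianReal 0 1).prod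
        (Measure.pi fun _ => gaussianReal 0 1))‖ ≤ Real.exp (-(s ^ 2 * VV k p p' w / 2)) := by
    intro w s
    have h1 := pair_chf (cA k p p' w) (cB k p p' w) s
    unfold DD VV
    simp only
    rw [h1, Complex.norm_real, Real.norm_eq_abs, abs_of_pos (Real.exp_pos _)]
  have hVm : Measurable fun w => Real.exp (-(VV k p p' w / 2)) :=
    (((VV_cont k p p').measurable).div_const 2).neg.exp
  have hV1 : ∀ w, Real.exp (-(VV k p p' w / 2)) ≤ 1 := fun w => by
    rw [Real.exp_le_one_iff]
    have := VV_nonneg k p p' w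
    linarith
  constructor
  · intro n
    simp_rw [step_sub]
    have hc : (0 : ℝ) ≤ (Nat.centralBinom n : ℝ) / 4 ^ n := by positivity
    have h1 := fub hWH k (fun q => ((1 + Real.cos (DD k p p' q)) / 2) ^ n)
      (((hmeas.cos.const_add 1).div_const 2).pow_const n)
      (fun q => by
        have h1 := Real.neg_one_le_cos (DD k p p' q)
        have h2 := Real.cos_le_one (DD k p p' q)
        rw [abs_of_nonneg (pow_nonneg (by linarith) _)]
        exact pow_le_one₀ (by linarith) (by linarith))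
      (fun w => (Nat.centralBinom n : ℝ) / 4 ^ n + Real.exp (-(VV k p p' w / 2)))
      (hVm.const_add _) ((Nat.centralBinom n : ℝ) / 4 ^ n + 1)
      (fun w => by
        rw [abs_of_nonneg (by positivity)]
        linarith [hV1 w])
      (fun w => pow_int _ (fun q => DD k p p' (w, q)) (hmeas.comp measurable_prodMk_left)
        (VV k p p' w) (VV_nonneg k p p' w) (fun s => hchf w s) n)
    refine h1.trans ?_
    rw [integral_add (integrable_const _), integral_const]
    · have h2 := exp_V k p p' hAC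
      rw [probReal_univ, one_smul]
      linarith
    · have hm : Measurable fun ω => Real.exp (-(VV k p p' (Ph k ω).1 / 2)) :=
        (hVm.comp measurable_fst).comp (Ph_meas k)
      refine Integrable.of_bound hm.aestronglyMeasurable 1 (Eventually.of_forall fun ω => ?_)
      rw [Real.norm_eq_abs, abs_of_pos (Real.exp_pos _)]
      exact hV1 _
  · simp_rw [step_sub]
    have h1 := fub hWH k (fun q => Real.cos (DD k p p' q)) hmeas.cos
      (fun q => Real.abs_cos_le_one _)
      (fun w => Real.exp (-(VV k p p' w / 2))) hVm 1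
      (fun w => by
        rw [abs_of_pos (Real.exp_pos _)]
        exact hV1 w)
      (fun w => by
        have h2 := hchf w 1
        have h3 : ((∫ q, Real.cos (DD k p p' (w, q)) ∂((Measure.pi fun _ => gaussianReal 0 1).prod
            (Measure.pi fun _ => gaussianReal 0 1)) : ℝ)) =
            (∫ q, Complex.exp (Complex.I * ((1 * DD k p p' (w, q) : ℝ) : ℂ))
              ∂((Measure.pi fun _ => gaussianReal 0 1).prod
                (Measure.pi fun _ => gaussianReal 0 1))).re := by
          have h4 := integral_re (𝕜 := ℂ) (f := fun q => Complex.exp (Complex.I *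
            ((1 * DD k p p' (w, q) : ℝ) : ℂ))) (μ := (Measure.pi fun _ => gaussianReal 0 1).prod
                (Measure.pi fun _ => gaussianReal 0 1)) ?_
          · refine Eq.trans ?_ h4
            refine integral_congr_ae (Eventually.of_forall fun q => ?_)
            simp only [one_mul]
            rw [mul_comm]
            exact (Complex.exp_ofReal_mul_I_re _).symm
          · refine Integrable.of_bound (C := 1) ?_ (Eventually.of_forall fun y => ?_)
            · have h5 : Measurable fun q => DD k p p' (w, q) := hmeas.comp measurable_prodMk_left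
              have : Measurable fun q => Complex.exp (Complex.I *
                ((1 * DD k p p' (w, q) : ℝ) : ℂ)) := by fun_prop
              exact this.aestronglyMeasurable
            · rw [mul_comm, Complex.norm_exp_ofReal_mul_I]
        rw [h3]
        refine (Complex.re_le_norm _).trans (h2.trans (le_of_eq ?_))
        congr 2
        ring)
    exact h1.trans (exp_V k p p' hAC)

end Pool.Agent.T2H68.UB
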