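import Pool.Agent.T2H68.UB.P_OS

/-!
# Package OZ: the initial phase
-/

set_option autoImplicit false

open MeasureTheory ProbabilityTheory Set Filter Finset
open scoped ENNReal NNReal Topology ComplexConjugate

namespace Pool.Agent.T2H68.UB

namespace PkgOZ

open PkgOS

section

variable (k : ℕ)

noncomputable def aa (w : Fin (mm k) → ℝ) (j : Fin (mm k)) : ℝ := -(amp k * chi k (w j))

noncomputable def VZ (w : Fin (mm k) → ℝ) : ℝ := ∑ j, aa k w j ^ 2

theorem aa_cont (j : Fin (mm k)) : Continuous fun w => aa k w j := by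
  unfold aa
  have := chi_cont k
  fun_prop

theorem VZ_cont : Continuous (VZ k) := by
  unfold VZ
  exact continuous_finsetSum _ fun j _ => (aa_cont k j).pow 2

theorem VZ_nonneg (w : Fin (mm k) → ℝ) : 0 ≤ VZ k w := by
  unfold VZ
  positivity

theorem ph_eq (ω : Om) : - ph k ω = ∑ j, aa k (Ph k ω).1 j * (Ph k ω).2.1 j := by
  unfold ph aa Ph
  rw [Finset.sum_range, Finset.mul_sum, ← Finset.sum_neg_distrib]
  refine Finset.sum_congr rfl fun j _ => ?_
  ring

theorem VZ_ge {w : Fin (mm k) → ℝ} (h1 : ∃ j : Fin (mm k), lam k + 1 / lam k ≤ w j) :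
    amp k ^ 2 / 2 ≤ VZ k w / 2 := by
  obtain ⟨j, hj⟩ := h1
  have h2 : aa k w j ^ 2 ≤ VZ k w :=
    Finset.single_le_sum (f := fun j => aa k w j ^ 2) (fun _ _ => sq_nonneg _) (Finset.mem_univ j)
  have h3 : aa k w j ^ 2 = amp k ^ 2 := by
    unfold aa
    rw [chi_active hj, mul_one, neg_sq]
  linarith

theorem exp_VZ {μ : Measure Om} [IsProbabilityMeasure μ] (hAC : S_AC μ) :
    ∫ ω, Real.exp (-(VZ k (Ph k ω).1 / 2)) ∂μ ≤ 2 * Real.exp (-lam k) +
      Real.exp (-(amp k ^ 2 / 2)) := by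
  obtain ⟨h1, -⟩ := hAC k
  set A : Set Om := {ω | ¬ ∃ j < mm k, Even j ∧ lam k + 1 / lam k ≤ wv k j ω} with hA
  have hAm : MeasurableSet A := by
    have : A = ⋂ (j : ℕ) (_ : j < mm k) (_ : Even j), {ω | lam k + 1 / lam k ≤ wv k j ω}ᶜ := by
      ext ω
      rw [hA]
      simp only [Set.mem_ofPred_eq, not_exists, not_and, Set.mem_iInter, Set.mem_compl_iff]
    rw [this]
    exact MeasurableSet.iInter fun j => MeasurableSet.iInter fun _ => MeasurableSet.iInter fun _ =>
      (measurableSet_le measurable_const (wv_cont k j).measurable).compl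
  have hle : ∀ ω, Real.exp (-(VZ k (Ph k ω).1 / 2)) ≤
      A.indicator 1 ω + Real.exp (-(amp k ^ 2 / 2)) := by
    intro ω
    have hV := VZ_nonneg k (Ph k ω).1
    have hle1 : Real.exp (-(VZ k (Ph k ω).1 / 2)) ≤ 1 := by
      rw [Real.exp_le_one_iff]
      linarith
    have hE0 := Real.exp_pos (-(amp k ^ 2 / 2))
    by_cases hωA : ω ∈ A
    · rw [indicator_of_mem hωA, Pi.one_apply]
      linarith
    rw [indicator_of_notMem hωA, zero_add, Real.exp_le_exp, neg_le_neg_iff]
    rw [hA, Set.mem_ofPred_eq, not_not] at hωA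
    obtain ⟨j, hj, hj1, hj2⟩ := hωA
    exact VZ_ge k ⟨⟨j, hj⟩, hj2⟩
  have hA1 : Integrable (A.indicator (1 : Om → ℝ)) μ := (integrable_const 1).indicator hAm
  have hint : Integrable (fun ω => Real.exp (-(VZ k (Ph k ω).1 / 2))) μ := by
    have hm : Measurable fun ω => Real.exp (-(VZ k (Ph k ω).1 / 2)) :=
      ((((VZ_cont k).measurable.comp measurable_fst).comp (Ph_meas k)).div_const 2).neg.exp
    refine Integrable.of_bound hm.aestronglyMeasurable 1 (Eventually.of_forall fun ω => ?_)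
    rw [Real.norm_eq_abs, abs_of_pos (Real.exp_pos _), Real.exp_le_one_iff]
    have hV := VZ_nonneg k (Ph k ω).1
    linarith
  calc ∫ ω, Real.exp (-(VZ k (Ph k ω).1 / 2)) ∂μ
      ≤ ∫ ω, (A.indicator 1 ω + Real.exp (-(amp k ^ 2 / 2))) ∂μ :=
        integral_mono hint (hA1.add (integrable_const _)) hle
    _ = μ.real A + Real.exp (-(amp k ^ 2 / 2)) := by
        have e1 : ∫ ω, (A.indicator (1 : Om → ℝ) ω + Real.exp (-(amp k ^ 2 / 2))) ∂μ =
            ∫ ω, A.indicator (1 : Om → ℝ) ω ∂μ + ∫ _ω, Real.exp (-(amp k ^ 2 / 2)) ∂μ :=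
          integral_add hA1 (integrable_const _)
        rw [e1, integral_indicator_one hAm, integral_const, probReal_univ, one_smul]
    _ ≤ 2 * Real.exp (-lam k) + Real.exp (-(amp k ^ 2 / 2)) := by
        have h3 : μ.real A ≤ Real.exp (-lam k) := h1
        have h4 := Real.exp_pos (-lam k)
        linarith

theorem one_phase {μ : Measure Om} [IsProbabilityMeasure μ] (hWH : S_WH μ) (hAC : S_AC μ) (n : ℕ)
    (c : ℝ) : ∫ ω, ((1 + Real.cos (c - ph k ω)) / 2) ^ n ∂μ ≤
      (Nat.centralBinom n : ℝ) / 4 ^ n + 2 * Real.exp (-lam k) + Real.exp (-(amp k ^ 2 / 2)) := by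
  set D : (Fin (mm k) → ℝ) × ((Fin (mm k) → ℝ) × (Fin (mm k) → ℝ)) → ℝ :=
    fun q => c + ∑ j, aa k q.1 j * q.2.1 j with hD
  have hDc : Continuous D := by
    refine continuous_const.add (continuous_finsetSum _ fun j _ => ?_)
    exact ((aa_cont k j).comp continuous_fst).mul (by fun_prop)
  have hDm := hDc.measurable
  have e : ∀ ω, c - ph k ω = D (Ph k ω) := by
    intro ω
    rw [hD]
    simp only
    rw [← ph_eq]
    ring
  simp_rw [e]
  have hchf : ∀ (w : Fin (mm k) → ℝ) (s : ℝ), ‖∫ q, Complex.exp (Complex.I *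
      ((s * D (w, q) : ℝ) : ℂ)) ∂((Measure.pi fun _ => gaussianReal 0 1).prod
        (Measure.pi fun _ => gaussianReal 0 1))‖ ≤ Real.exp (-(s ^ 2 * VZ k w / 2)) := by
    intro w s
    have h1 := pair_chf (aa k w) (fun _ : Fin (mm k) => (0:ℝ)) s
    have h2 : ∀ q : (Fin (mm k) → ℝ) × (Fin (mm k) → ℝ),
        Complex.exp (Complex.I * ((s * D (w, q) : ℝ) : ℂ)) =
        Complex.exp (Complex.I * ((s * c : ℝ) : ℂ)) * Complex.exp (Complex.I *
          ((s * (∑ j, aa k w j * q.1 j + ∑ j, (fun _ : Fin (mm k) => (0:ℝ)) j * q.2 j) : ℝ) : ℂ)) := by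
      intro q
      rw [← Complex.exp_add, hD]
      congr 1
      simp only [zero_mul, Finset.sum_const_zero, add_zero]
      push_cast
      ring
    simp_rw [h2]
    rw [integral_const_mul, h1, norm_mul, Complex.norm_real, Real.norm_eq_abs,
      abs_of_pos (Real.exp_pos _), mul_comm Complex.I, Complex.norm_exp_ofReal_mul_I, one_mul]
    unfold VZ
    simp
  have hVm : Measurable fun w => Real.exp (-(VZ k w / 2)) :=
    (((VZ_cont k).measurable).div_const 2).neg.exp
  have hV1 : ∀ w, Real.exp (-(VZ k w / 2)) ≤ 1 := fun w => by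
    rw [Real.exp_le_one_iff]
    have := VZ_nonneg k w
    linarith
  have hc : (0 : ℝ) ≤ (Nat.centralBinom n : ℝ) / 4 ^ n := by positivity
  have h1 := fub hWH k (fun q => ((1 + Real.cos (D q)) / 2) ^ n)
    (((hDm.cos.const_add 1).div_const 2).pow_const n)
    (fun q => by
      have h1 := Real.neg_one_le_cos (D q)
      have h2 := Real.cos_le_one (D q)
      rw [abs_of_nonneg (pow_nonneg (by linarith) _)]
      exact pow_le_one₀ (by linarith) (by linarith))
    (fun w => (Nat.centralBinom n : ℝ) / 4 ^ n + Real.exp (-(VZ k w / 2)))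
    (hVm.const_add _) ((Nat.centralBinom n : ℝ) / 4 ^ n + 1)
    (fun w => by
      rw [abs_of_nonneg (by positivity)]
      linarith [hV1 w])
    (fun w => pow_int _ (fun q => D (w, q)) (hDm.comp measurable_prodMk_left)
      (VZ k w) (VZ_nonneg k w) (fun s => hchf w s) n)
  refine h1.trans ?_
  rw [integral_add (integrable_const _), integral_const]
  · have h2 := exp_VZ k hAC
    rw [probReal_univ, one_smul]
    linarith
  · have hm : Measurable fun ω => Real.exp (-(VZ k (Ph k ω).1 / 2)) :=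
      (hVm.comp measurable_fst).comp (Ph_meas k)
    refine Integrable.of_bound hm.aestronglyMeasurable 1 (Eventually.of_forall fun ω => ?_)
    rw [Real.norm_eq_abs, abs_of_pos (Real.exp_pos _)]
    exact hV1 _

end

end PkgOZ

open PkgOS PkgOZ in
theorem pOZ (μ : Measure Om) (hμ : IsW μ) (hWH : S_WH μ) (hAC : S_AC μ) : S_OZ μ := by
  intro K n
  have hg := hμ.gauss
  have : IsProbabilityMeasure μ := inferInstance
  set B : ℝ := (Nat.centralBinom n : ℝ) / 4 ^ n + 2 * Real.exp (-lam K) +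
    Real.exp (-(amp K ^ 2 / 2)) with hB
  have h1 : ∫ ω₁, ∫ ω₂, ((1 + Real.cos (ph K ω₁ - ph K ω₂)) / 2) ^ n ∂μ ∂μ ≤ ∫ _ω₁ : Om, B ∂μ := by
    refine integral_mono_of_nonneg (Eventually.of_forall fun ω₁ => ?_) (integrable_const _)
      (Eventually.of_forall fun ω₁ => one_phase K hWH hAC n (ph K ω₁))
    refine integral_nonneg fun ω₂ => ?_
    have := Real.neg_one_le_cos (ph K ω₁ - ph K ω₂)
    exact pow_nonneg (by linarith) _
  rw [integral_const, probReal_univ, one_smul] at h1
  exact h1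

end Pool.Agent.T2H68.UB
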