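import Pool.Agent.T2H68.UB.Stm
import Pool.Agent.R876.WM.MP

/-!
# Project UB, package SL: selecting the active slots is expensive.
-/

set_option autoImplicit false

open MeasureTheory ProbabilityTheory Set Filter Finset
open scoped ENNReal NNReal Topology ComplexConjugate

namespace Pool.Agent.T2H68.UB

open Pool.Agent.R876.WM

namespace PkgSL

/-- the sum over the active slots -/
noncomputable def QQ (E : ℕ → ℕ → HH →L[ℝ] HH) (k : ℕ) (x : Om) (v : HH) : ℝ :=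
  ∑ j ∈ Finset.range (mm k), (if lam k < wv k j x then ‖E k j v‖ ^ 2 else 0)

variable {E : ℕ → ℕ → HH →L[ℝ] HH}

lemma QQ_nonneg (k : ℕ) (x : Om) (v : HH) : 0 ≤ QQ E k x v := by
  unfold QQ
  refine Finset.sum_nonneg fun j _ => ?_
  split_ifs
  · positivity
  · exact le_rfl

lemma QQ_le (hE : ∀ k v, ∑ j ∈ Finset.range (mm k), ‖E k j v‖ ^ 2 ≤ ‖v‖ ^ 2) (k : ℕ) (x : Om)
    (v : HH) : QQ E k x v ≤ ‖v‖ ^ 2 := by
  refine le_trans ?_ (hE k v)
  unfold QQ
  refine Finset.sum_le_sum fun j _ => ?_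
  split_ifs
  · exact le_rfl
  · positivity

/-- `Q` of a sum -/
lemma QQ_sum (k : ℕ) (x : Om) {ι : Type*} (s : Finset ι) (c : ι → ℝ) (v : ι → HH) :
    QQ E k x (∑ i ∈ s, c i • v i) ≤ (s.card : ℝ) * ∑ i ∈ s, (c i) ^ 2 * QQ E k x (v i) := by
  unfold QQ
  simp_rw [Finset.mul_sum]
  rw [Finset.sum_comm]
  refine Finset.sum_le_sum fun j _ => ?_
  split_ifs with h
  · rw [map_sum]
    have h1 : ‖∑ i ∈ s, (E k j) (c i • v i)‖ ≤ ∑ i ∈ s, |c i| * ‖E k j (v i)‖ := by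
      refine (norm_sum_le _ _).trans (le_of_eq ?_)
      refine Finset.sum_congr rfl fun i _ => ?_
      rw [map_smul, norm_smul, Real.norm_eq_abs]
    have h2 : (∑ i ∈ s, |c i| * ‖E k j (v i)‖) ^ 2 ≤
        (s.card : ℝ) * ∑ i ∈ s, (|c i| * ‖E k j (v i)‖) ^ 2 := sq_sum_le_card_mul_sum_sq
    have h3 : ‖∑ i ∈ s, (E k j) (c i • v i)‖ ^ 2 ≤ (∑ i ∈ s, |c i| * ‖E k j (v i)‖) ^ 2 := by
      gcongr
    refine (h3.trans h2).trans (le_of_eq ?_)
    rw [Finset.mul_sum]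
    refine Finset.sum_congr rfl fun i _ => ?_
    rw [mul_pow, sq_abs]
  · simp

/-- power of a sum -/
lemma pow_sum_le {ι : Type*} (s : Finset ι) (a : ι → ℝ) (ha : ∀ i ∈ s, 0 ≤ a i) (p : ℕ) :
    (∑ i ∈ s, a i) ^ p ≤ ((s.card : ℝ) + 1) ^ p * (∑ i ∈ s, (a i) ^ p + (if p = 0 then 1 else 0)) := by
  rcases s.eq_empty_or_nonempty with rfl | hs
  · rcases Nat.eq_zero_or_pos p with rfl | hp
    · simp
    · simp [hp.ne']
  · obtain ⟨i₀, hi₀, hmax⟩ := s.exists_max_image a hs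
    have h1 : ∑ i ∈ s, a i ≤ (s.card : ℝ) * a i₀ := by
      have := Finset.sum_le_card_nsmul s a (a i₀) hmax
      simpa [nsmul_eq_mul] using this
    have h2 : (0 : ℝ) ≤ if p = 0 then 1 else 0 := by split_ifs <;> norm_num
    calc (∑ i ∈ s, a i) ^ p ≤ ((s.card : ℝ) * a i₀) ^ p := by
          refine pow_le_pow_left₀ (Finset.sum_nonneg ha) h1 p
      _ ≤ (((s.card : ℝ) + 1) * a i₀) ^ p := by
          have := ha i₀ hi₀
          gcongr
          linarith
      _ = ((s.card : ℝ) + 1) ^ p * (a i₀) ^ p := mul_pow _ _ _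
      _ ≤ ((s.card : ℝ) + 1) ^ p * (∑ i ∈ s, (a i) ^ p + (if p = 0 then 1 else 0)) := by
          have h3 : (a i₀) ^ p ≤ ∑ i ∈ s, (a i) ^ p :=
            Finset.single_le_sum (f := fun i => (a i) ^ p) (fun i hi => pow_nonneg (ha i hi) p) hi₀
          gcongr
          linarith

/-! ### continuity and measurability -/

lemma continuous_X (t : ℝ) : Continuous (X t) := by
  unfold X
  exact continuous_eval_const _

lemma continuous_wv (k j : ℕ) : Continuous (wv k j) := by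
  unfold wv
  have h1 := continuous_X (st k j + hh k / 4)
  have h2 := continuous_X (st k j)
  fun_prop

lemma measurable_wv (k j : ℕ) : Measurable (wv k j) := (continuous_wv k j).measurable

lemma continuous_r1 (α : ℝ) : Continuous (r1 α) := by
  unfold r1
  fun_prop

lemma wv_r1 (k j : ℕ) (α : ℝ) (z : Om × Om) :
    wv k j (r1 α z) = Real.cos α * wv k j z.1 + Real.sin α * wv k j z.2 := by
  unfold wv r1 X
  generalize Real.cos α = c
  generalize Real.sin α = s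
  simp
  ring

lemma measurable_QQ {V : Om → HH} (hV : StronglyMeasurable V) (k : ℕ) {f : Om × Om → Om}
    {g : Om × Om → Om} (hf : Measurable f) (hg : Measurable g) :
    Measurable fun z : Om × Om => QQ E k (f z) (V (g z)) := by
  unfold QQ
  refine Finset.measurable_sum _ fun j _ => ?_
  refine Measurable.ite ?_ ?_ measurable_const
  · exact measurableSet_lt measurable_const ((measurable_wv k j).comp hf)
  · have h1 : StronglyMeasurable fun z : Om × Om => E k j (V (g z)) :=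
      (E k j).continuous.comp_stronglyMeasurable (hV.comp_measurable hg)
    exact h1.norm.measurable.pow_const 2

/-! ### laws -/

variable {μ : Measure Om}

lemma measurable_xvre (k j : ℕ) : Measurable fun ω : Om => (xv k j ω).re := by
  have h : Continuous fun ω : Om => (xv k j ω).re := by
    unfold xv
    have h1 := continuous_X (st k j + 3 * hh k / 4)
    have h2 := continuous_X (st k j + hh k / 2)
    fun_prop
  exact h.measurable

lemma map_wv (hWH : S_WH μ) {k j : ℕ} (hj : j < mm k) :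
    μ.map (wv k j) = gaussianReal 0 1 := by
  have h := hWH.2.2.2 k j hj
  have h1 : μ.map (wv k j) = (μ.map (fun ω => (wv k j ω, (xv k j ω).re))).map Prod.fst := by
    rw [Measure.map_map measurable_fst ((measurable_wv k j).prodMk (measurable_xvre k j))]
    rfl
  rw [h1, h, Measure.map_fst_prod]
  simp

lemma gauss_tail (hGT : S_GT) {t : ℝ} (ht : 0 ≤ t) :
    (gaussianReal 0 1) (Set.Ioi t) ≤ ENNReal.ofReal (Real.exp (-(t ^ 2 / 2))) := by
  have h := hGT.2.1 t ht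
  exact (ENNReal.le_ofReal_iff_toReal_le (measure_ne_top _ _) (Real.exp_pos _).le).2 h

lemma gauss_tail' (hGT : S_GT) {t : ℝ} (ht : 0 ≤ t) :
    (gaussianReal 0 1) (Set.Iio (-t)) ≤ ENNReal.ofReal (Real.exp (-(t ^ 2 / 2))) := by
  have h : (gaussianReal 0 1).map (fun x : ℝ => -x) = gaussianReal 0 1 := by
    rw [gaussianReal_map_neg]
    simp
  rw [← h, Measure.map_apply measurable_neg measurableSet_Iio]
  have h2 : (fun x : ℝ => -x) ⁻¹' (Set.Iio (-t)) = Set.Ioi t := by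
    ext x
    simp
  rw [h2]
  exact gauss_tail hGT ht

lemma wv_tail (hWH : S_WH μ) (hGT : S_GT) {k j : ℕ} (hj : j < mm k) {t : ℝ} (ht : 0 ≤ t) :
    μ {x | t < wv k j x} ≤ ENNReal.ofReal (Real.exp (-(t ^ 2 / 2))) := by
  have h := gauss_tail hGT ht
  rw [← map_wv hWH hj, Measure.map_apply (measurable_wv k j) measurableSet_Ioi] at h
  exact h

lemma wv_tail' (hWH : S_WH μ) (hGT : S_GT) {k j : ℕ} (hj : j < mm k) {t : ℝ} (ht : 0 ≤ t) :
    μ {x | wv k j x < -t} ≤ ENNReal.ofReal (Real.exp (-(t ^ 2 / 2))) := by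
  have h := gauss_tail' hGT ht
  rw [← map_wv hWH hj, Measure.map_apply (measurable_wv k j) measurableSet_Iio] at h
  exact h

lemma lam_ge (k : ℕ) : 8 ≤ lam k := by
  unfold lam
  have h : (1 : ℝ) ≤ 2 ^ k := one_le_pow₀ (by norm_num)
  rw [pow_add]
  norm_num
  linarith

/-- the bad set -/
def Gc (k : ℕ) : Set Om := {x | ∃ j < mm k, lam k + 1 / 8 < wv k j x}

lemma Gc_eq (k : ℕ) : Gc k = ⋃ j ∈ Finset.range (mm k), {x : Om | lam k + 1 / 8 < wv k j x} := by
  ext x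
  simp [Gc]

lemma measurableSet_Gc (k : ℕ) : MeasurableSet (Gc k) := by
  rw [Gc_eq]
  exact Finset.measurableSet_biUnion _ fun j _ =>
    measurableSet_lt measurable_const (measurable_wv k j)

lemma measure_Gc (hWH : S_WH μ) (hGT : S_GT) (k : ℕ) :
    μ (Gc k) ≤ ENNReal.ofReal (100 * lam k ^ 2 * Real.exp (-(lam k / 8))) := by
  have hl := lam_ge k
  rw [Gc_eq]
  calc μ (⋃ j ∈ Finset.range (mm k), {x : Om | lam k + 1 / 8 < wv k j x})
      ≤ ∑ j ∈ Finset.range (mm k), μ {x : Om | lam k + 1 / 8 < wv k j x} :=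
        measure_biUnion_finset_le _ _
    _ ≤ ∑ _j ∈ Finset.range (mm k), ENNReal.ofReal (Real.exp (-((lam k + 1 / 8) ^ 2 / 2))) := by
        refine Finset.sum_le_sum fun j hj => ?_
        exact wv_tail hWH hGT (Finset.mem_range.1 hj) (by linarith)
    _ = ENNReal.ofReal ((mm k : ℝ) * Real.exp (-((lam k + 1 / 8) ^ 2 / 2))) := by
        rw [Finset.sum_const, Finset.card_range, nsmul_eq_mul, ENNReal.ofReal_mul (by positivity),
          ENNReal.ofReal_natCast]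
    _ ≤ ENNReal.ofReal (100 * lam k ^ 2 * Real.exp (-(lam k / 8))) := by
        refine ENNReal.ofReal_le_ofReal ?_
        have h1 := hGT.2.2 k
        have h2 : Real.exp (-((lam k + 1 / 8) ^ 2 / 2)) ≤
            Real.exp (-(lam k ^ 2 / 2)) * Real.exp (-(lam k / 8)) := by
          rw [← Real.exp_add]
          refine Real.exp_le_exp.2 ?_
          nlinarith
        calc (mm k : ℝ) * Real.exp (-((lam k + 1 / 8) ^ 2 / 2))
            ≤ (100 * lam k ^ 2 * Real.exp (lam k ^ 2 / 2)) *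
              (Real.exp (-(lam k ^ 2 / 2)) * Real.exp (-(lam k / 8))) := by
              refine mul_le_mul h1 h2 (Real.exp_pos _).le (by positivity)
          _ = 100 * lam k ^ 2 * Real.exp (-(lam k / 8)) *
              (Real.exp (lam k ^ 2 / 2) * Real.exp (-(lam k ^ 2 / 2))) := by ring
          _ = 100 * lam k ^ 2 * Real.exp (-(lam k / 8)) := by
              rw [← Real.exp_add]
              simp

/-! ### the main estimate for one angle -/

/-- elementary inequality: outside of the bad set, the selection at angle `β` forces `wv k j y` to be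
very negative -/
lemma angle_ineq {l β a b : ℝ} (hl : 8 ≤ l) (hβ1 : 1 / Real.sqrt l ≤ β) (hβ2 : β ≤ 1)
    (ha : a ≤ l + 1 / 8) (h : l < Real.cos β * a - Real.sin β * b) :
    b < -(Real.sqrt l / 5) := by
  have hl0 : 0 < l := by linarith
  have hs : 0 < Real.sqrt l := Real.sqrt_pos.2 hl0
  have hss : Real.sqrt l ^ 2 = l := Real.sq_sqrt hl0.le
  have hβ0 : 0 < β := lt_of_lt_of_le (by positivity) hβ1
  have hsin : 0 < Real.sin β := Real.sin_pos_of_pos_of_lt_pi hβ0 (by linarith [Real.pi_gt_three])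
  have hsin2 : Real.sin β ≤ β := Real.sin_le hβ0.le
  have hcos0 : 0 ≤ Real.cos β := Real.cos_nonneg_of_neg_pi_div_two_le_of_le
    (by linarith [Real.pi_gt_three]) (by linarith [Real.pi_gt_three])
  have hcos : Real.cos β ≤ 1 - β ^ 2 / 3 := by
    have := Real.cos_bound (x := β) (by rw [abs_of_pos hβ0]; exact hβ2)
    have h2 := abs_le.1 this
    rw [abs_of_pos hβ0] at h2
    have h3 : β ^ 4 ≤ β ^ 2 := pow_le_pow_of_le_one hβ0.le hβ2 (by norm_num)
    nlinarith [h2.2]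
  have hβl : 1 ≤ β ^ 2 * l := by
    have : 1 ≤ β * Real.sqrt l := by
      rw [div_le_iff₀ hs] at hβ1
      exact hβ1
    have h4 : (1 : ℝ) ≤ (β * Real.sqrt l) ^ 2 := by nlinarith
    rw [mul_pow, hss] at h4
    exact h4
  -- l < cos β (l + 1/8) - sin β b
  have h1 : Real.cos β * a ≤ (1 - β ^ 2 / 3) * (l + 1 / 8) := by
    calc Real.cos β * a ≤ Real.cos β * (l + 1 / 8) := by gcongr
      _ ≤ (1 - β ^ 2 / 3) * (l + 1 / 8) := by gcongr
  have h2 : l * β ^ 2 / 5 < -(Real.sin β * b) := by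
    have h3 : (1 - β ^ 2 / 3) * (l + 1 / 8) ≤ l - l * β ^ 2 / 5 := by nlinarith
    linarith
  have h3 : Real.sqrt l / 5 * Real.sin β ≤ l * β ^ 2 / 5 := by
    have h5 : 1 ≤ β * Real.sqrt l := by
      rw [div_le_iff₀ hs] at hβ1
      exact hβ1
    calc Real.sqrt l / 5 * Real.sin β ≤ Real.sqrt l / 5 * β := by gcongr
      _ ≤ Real.sqrt l / 5 * β * (β * Real.sqrt l) := le_mul_of_one_le_right (by positivity) h5
      _ = (Real.sqrt l ^ 2) * β ^ 2 / 5 := by ring
      _ = l * β ^ 2 / 5 := by rw [hss]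
  have h4 : Real.sqrt l / 5 * Real.sin β < -b * Real.sin β := by
    calc _ ≤ l * β ^ 2 / 5 := h3
      _ < -(Real.sin β * b) := h2
      _ = -b * Real.sin β := by ring
  have h5 := lt_of_mul_lt_mul_right h4 hsin.le
  linarith

/-- the rotation by `-β` -/
noncomputable def rotm (β : ℝ) (z : Om × Om) : Om × Om :=
  (Real.cos (-β) • z.1 + Real.sin (-β) • z.2, -Real.sin (-β) • z.1 + Real.cos (-β) • z.2)

lemma r1_rotm (β : ℝ) (z : Om × Om) : r1 β (rotm β z) = z.1 := by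
  unfold r1 rotm
  have h : Real.sin β ^ 2 + Real.cos β ^ 2 = 1 := Real.sin_sq_add_cos_sq β
  simp only [Real.cos_neg, Real.sin_neg, neg_neg]
  generalize Real.cos β = c at *
  generalize Real.sin β = s at *
  have hc : ((s : ℂ)) ^ 2 + (c : ℂ) ^ 2 = 1 := by exact_mod_cast h
  ext t
  simp
  linear_combination (z.1 t) * hc

lemma wv_rotm (k j : ℕ) (β : ℝ) (z : Om × Om) :
    wv k j (rotm β z).1 = Real.cos β * wv k j z.1 - Real.sin β * wv k j z.2 := by
  have h := wv_r1 k j (-β) z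
  unfold r1 at h
  unfold rotm
  rw [h, Real.cos_neg, Real.sin_neg]
  ring

lemma measurable_rotm (β : ℝ) : Measurable (rotm β) := by
  have : Continuous (rotm β) := by
    unfold rotm
    fun_prop
  exact this.measurable

lemma QQ_pow_le (hE : ∀ k v, ∑ j ∈ Finset.range (mm k), ‖E k j v‖ ^ 2 ≤ ‖v‖ ^ 2) (k : ℕ) (x : Om)
    (v : HH) (p : ℕ) : QQ E k x v ^ p ≤ ‖v‖ ^ (2 * p) := by
  rw [pow_mul]
  exact pow_le_pow_left₀ (QQ_nonneg k x v) (QQ_le hE k x v) p

lemma QQ_pow_le' (hE : ∀ k v, ∑ j ∈ Finset.range (mm k), ‖E k j v‖ ^ 2 ≤ ‖v‖ ^ 2) (k : ℕ) (x : Om)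
    (v : HH) {p : ℕ} (hp : 1 ≤ p) : QQ E k x v ^ p ≤ ‖v‖ ^ (2 * (p - 1)) * QQ E k x v := by
  obtain ⟨q, rfl⟩ : ∃ q, p = q + 1 := ⟨p - 1, by omega⟩
  rw [pow_succ]
  refine mul_le_mul_of_nonneg_right ?_ (QQ_nonneg k x v)
  rw [Nat.add_sub_cancel, pow_mul]
  exact pow_le_pow_left₀ (QQ_nonneg k x v) (QQ_le hE k x v) q

lemma enorm_pow_eq (v : HH) (n : ℕ) : ‖v‖ₑ ^ n = ENNReal.ofReal (‖v‖ ^ n) := by
  rw [ENNReal.ofReal_pow (norm_nonneg v), ofReal_norm]

/-- the pointwise bound after the change of variables -/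
lemma pointwise (hE : ∀ k v, ∑ j ∈ Finset.range (mm k), ‖E k j v‖ ^ 2 ≤ ‖v‖ ^ 2)
    (V : Om → HH) (k : ℕ) {p : ℕ} (hp : 1 ≤ p) {β : ℝ} (hβ1 : 1 / Real.sqrt (lam k) ≤ β)
    (hβ2 : β ≤ 1) (z : Om × Om) :
    ENNReal.ofReal (QQ E k (rotm β z).1 (V z.1) ^ p) ≤
      (Gc k).indicator (fun x => ‖V x‖ₑ ^ (2 * p)) z.1 +
      ∑ j ∈ Finset.range (mm k), ENNReal.ofReal (‖V z.1‖ ^ (2 * (p - 1)) * ‖E k j (V z.1)‖ ^ 2) *
        {y : Om | wv k j y < -(Real.sqrt (lam k) / 5)}.indicator (fun _ => (1 : ℝ≥0∞)) z.2 := by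
  by_cases hx : z.1 ∈ Gc k
  · rw [Set.indicator_of_mem hx]
    refine le_trans ?_ le_self_add
    rw [enorm_pow_eq]
    exact ENNReal.ofReal_le_ofReal (QQ_pow_le hE k _ _ p)
  · rw [Set.indicator_of_notMem hx, zero_add]
    refine (ENNReal.ofReal_le_ofReal (QQ_pow_le' hE k _ _ hp)).trans ?_
    unfold QQ
    rw [Finset.mul_sum, ENNReal.ofReal_sum_of_nonneg]
    · refine Finset.sum_le_sum fun j hj => ?_
      split_ifs with h
      · have h1 : wv k j z.1 ≤ lam k + 1 / 8 := by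
          by_contra hcon
          exact hx ⟨j, Finset.mem_range.1 hj, not_le.1 hcon⟩
        rw [wv_rotm] at h
        have h2 := angle_ineq (lam_ge k) hβ1 hβ2 h1 h
        rw [Set.indicator_of_mem (show z.2 ∈ {y : Om | wv k j y < -(Real.sqrt (lam k) / 5)} from h2),
          mul_one]
      · simp
    · intro j _
      split_ifs
      · positivity
      · simp

lemma main_beta [SFinite μ] [IsProbabilityMeasure μ] (hrot : ∀ β : ℝ, MeasurePreserving (rotm β) (μ.prod μ) (μ.prod μ))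
    (hWH : S_WH μ) (hGT : S_GT)
    (hE : ∀ k v, ∑ j ∈ Finset.range (mm k), ‖E k j v‖ ^ 2 ≤ ‖v‖ ^ 2)
    {V : Om → HH} (hV : StronglyMeasurable V) (k : ℕ) {p : ℕ} (hp : 1 ≤ p) {β : ℝ}
    (hβ1 : 1 / Real.sqrt (lam k) ≤ β) (hβ2 : β ≤ 1) :
    ∫⁻ z, ENNReal.ofReal (QQ E k z.1 (V (r1 β z)) ^ p) ∂(μ.prod μ) ≤
      ∫⁻ x in Gc k, ‖V x‖ₑ ^ (2 * p) ∂μ +
        ENNReal.ofReal (Real.exp (-(lam k / 50))) * ∫⁻ x, ‖V x‖ₑ ^ (2 * p) ∂μ := by
  have hl := lam_ge k
  have hVn : ∀ n : ℕ, Measurable fun x => ‖V x‖ₑ ^ n := fun n => hV.enorm.pow_const n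
  have hF : Measurable fun z : Om × Om => ENNReal.ofReal (QQ E k z.1 (V (r1 β z)) ^ p) :=
    ((measurable_QQ hV k measurable_fst (continuous_r1 β).measurable).pow_const p).ennreal_ofReal
  rw [← (hrot β).lintegral_comp hF]
  have hm1 : Measurable fun z : Om × Om =>
      (Gc k).indicator (fun x => ‖V x‖ₑ ^ (2 * p)) z.1 :=
    ((hVn (2 * p)).indicator (measurableSet_Gc k)).comp measurable_fst
  have hf : ∀ j, Measurable fun x : Om =>
      ENNReal.ofReal (‖V x‖ ^ (2 * (p - 1)) * ‖E k j (V x)‖ ^ 2) := by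
    intro j
    have h1 : Measurable fun x => ‖V x‖ := hV.norm.measurable
    have h2 : Measurable fun x => ‖E k j (V x)‖ :=
      ((E k j).continuous.comp_stronglyMeasurable hV).norm.measurable
    exact ((h1.pow_const _).mul (h2.pow_const 2)).ennreal_ofReal
  have hg : ∀ j, Measurable ({y : Om | wv k j y < -(Real.sqrt (lam k) / 5)}.indicator
      (fun _ => (1 : ℝ≥0∞))) := fun j =>
    measurable_const.indicator (measurableSet_lt (measurable_wv k j) measurable_const)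
  calc ∫⁻ z, ENNReal.ofReal (QQ E k (rotm β z).1 (V (r1 β (rotm β z))) ^ p) ∂(μ.prod μ)
      ≤ ∫⁻ z, ((Gc k).indicator (fun x => ‖V x‖ₑ ^ (2 * p)) z.1 +
        ∑ j ∈ Finset.range (mm k), ENNReal.ofReal (‖V z.1‖ ^ (2 * (p - 1)) * ‖E k j (V z.1)‖ ^ 2) *
        {y : Om | wv k j y < -(Real.sqrt (lam k) / 5)}.indicator (fun _ => (1 : ℝ≥0∞)) z.2)
          ∂(μ.prod μ) := by
        refine lintegral_mono fun z => ?_
        rw [r1_rotm]
        exact pointwise hE V k hp hβ1 hβ2 z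
    _ = ∫⁻ z, (Gc k).indicator (fun x => ‖V x‖ₑ ^ (2 * p)) z.1 ∂(μ.prod μ) +
        ∑ j ∈ Finset.range (mm k), ∫⁻ z, ENNReal.ofReal (‖V z.1‖ ^ (2 * (p - 1)) *
          ‖E k j (V z.1)‖ ^ 2) *
        {y : Om | wv k j y < -(Real.sqrt (lam k) / 5)}.indicator (fun _ => (1 : ℝ≥0∞)) z.2
          ∂(μ.prod μ) := by
        rw [lintegral_add_left hm1, lintegral_finsetSum]
        intro j _
        exact ((hf j).comp measurable_fst).mul ((hg j).comp measurable_snd)
    _ = ∫⁻ x in Gc k, ‖V x‖ₑ ^ (2 * p) ∂μ +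
        ∑ j ∈ Finset.range (mm k), (∫⁻ x, ENNReal.ofReal (‖V x‖ ^ (2 * (p - 1)) *
          ‖E k j (V x)‖ ^ 2) ∂μ) * μ {y : Om | wv k j y < -(Real.sqrt (lam k) / 5)} := by
        congr 1
        · have h3 := (measurePreserving_fst (μ := μ) (ν := μ)).lintegral_comp
            ((hVn (2 * p)).indicator (measurableSet_Gc k))
          rw [h3, lintegral_indicator (measurableSet_Gc k)]
        · refine Finset.sum_congr rfl fun j _ => ?_
          have h4 := lintegral_prod_mul (μ := μ) (ν := μ) (hf j).aemeasurable (hg j).aemeasurable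
          rw [h4, lintegral_indicator_const
            (measurableSet_lt (measurable_wv k j) measurable_const), one_mul]
    _ ≤ ∫⁻ x in Gc k, ‖V x‖ₑ ^ (2 * p) ∂μ +
        ∑ j ∈ Finset.range (mm k), (∫⁻ x, ENNReal.ofReal (‖V x‖ ^ (2 * (p - 1)) *
          ‖E k j (V x)‖ ^ 2) ∂μ) * ENNReal.ofReal (Real.exp (-(lam k / 50))) := by
        gcongr with j hj
        have h5 := wv_tail' hWH hGT (Finset.mem_range.1 hj)
          (show 0 ≤ Real.sqrt (lam k) / 5 by positivity)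
        refine h5.trans (le_of_eq ?_)
        rw [div_pow, Real.sq_sqrt (by linarith)]
        congr 3
        ring
    _ = ∫⁻ x in Gc k, ‖V x‖ₑ ^ (2 * p) ∂μ +
        ENNReal.ofReal (Real.exp (-(lam k / 50))) * ∫⁻ x, ∑ j ∈ Finset.range (mm k),
          ENNReal.ofReal (‖V x‖ ^ (2 * (p - 1)) * ‖E k j (V x)‖ ^ 2) ∂μ := by
        rw [lintegral_finsetSum _ (fun j _ => hf j), ← Finset.sum_mul]
        congr 1
        exact mul_comm _ _
    _ ≤ ∫⁻ x in Gc k, ‖V x‖ₑ ^ (2 * p) ∂μ +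
        ENNReal.ofReal (Real.exp (-(lam k / 50))) * ∫⁻ x, ‖V x‖ₑ ^ (2 * p) ∂μ := by
        gcongr with x
        rw [← ENNReal.ofReal_sum_of_nonneg (fun j _ => by positivity), ← Finset.mul_sum,
          enorm_pow_eq]
        refine ENNReal.ofReal_le_ofReal ?_
        calc ‖V x‖ ^ (2 * (p - 1)) * ∑ j ∈ Finset.range (mm k), ‖E k j (V x)‖ ^ 2
            ≤ ‖V x‖ ^ (2 * (p - 1)) * ‖V x‖ ^ 2 := by
              gcongr
              exact hE k (V x)
          _ = ‖V x‖ ^ (2 * p) := by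
              rw [← pow_add]
              congr 1
              omega

/-- Cauchy-Schwarz -/
lemma cs_Gc {V : Om → HH} (hV : StronglyMeasurable V) (k p : ℕ) :
    ∫⁻ x in Gc k, ‖V x‖ₑ ^ (2 * p) ∂μ ≤
      (μ (Gc k)) ^ (1 / 2 : ℝ) * (∫⁻ x, ‖V x‖ₑ ^ (4 * p) ∂μ) ^ (1 / 2 : ℝ) := by
  have h := ENNReal.lintegral_mul_le_Lp_mul_Lq μ (p := 2) (q := 2) Real.HolderConjugate.two_two
    (f := (Gc k).indicator fun _ => (1 : ℝ≥0∞)) (g := fun x => ‖V x‖ₑ ^ (2 * p))
    (measurable_const.indicator (measurableSet_Gc k)).aemeasurable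
    (hV.enorm.pow_const _).aemeasurable
  have h1 : ∫⁻ x in Gc k, ‖V x‖ₑ ^ (2 * p) ∂μ =
      ∫⁻ a, ((Gc k).indicator (fun _ => (1 : ℝ≥0∞)) * fun x => ‖V x‖ₑ ^ (2 * p)) a ∂μ := by
    rw [← lintegral_indicator (measurableSet_Gc k)]
    refine lintegral_congr fun x => ?_
    by_cases hx : x ∈ Gc k
    · simp [hx]
    · simp [hx]
  rw [h1]
  refine h.trans (le_of_eq ?_)
  congr 1
  · congr 1
    have h2 : ∀ a, (Gc k).indicator (fun _ => (1 : ℝ≥0∞)) a ^ (2 : ℝ) =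
        (Gc k).indicator (fun _ => (1 : ℝ≥0∞)) a := by
      intro a
      by_cases hx : a ∈ Gc k
      · simp [hx]
      · simp [hx]
    simp_rw [h2]
    rw [lintegral_indicator_const (measurableSet_Gc k), one_mul]
  · congr 1
    refine lintegral_congr fun x => ?_
    rw [ENNReal.rpow_two, ← pow_mul]
    congr 1
    omega

/-! ### reduction to the main estimate -/

lemma measurable_QQ' {W : Om × Om → HH} (hW : StronglyMeasurable W) (k : ℕ) {f : Om × Om → Om}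
    (hf : Measurable f) :
    Measurable fun z : Om × Om => QQ E k (f z) (W z) := by
  unfold QQ
  refine Finset.measurable_sum _ fun j _ => ?_
  refine Measurable.ite ?_ ?_ measurable_const
  · exact measurableSet_lt measurable_const ((measurable_wv k j).comp hf)
  · have h1 : StronglyMeasurable fun z : Om × Om => E k j (W z) :=
      (E k j).continuous.comp_stronglyMeasurable hW
    exact h1.norm.measurable.pow_const 2

lemma lint_pow {α : Type*} [MeasurableSpace α] (ν : Measure α) (f : α → HH) {n : ℕ} (hn : n ≠ 0) :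
    ∫⁻ x, ‖f x‖ₑ ^ n ∂ν = (eLpNorm f (n : ℝ≥0∞) ν) ^ n := by
  rw [eLpNorm_eq_lintegral_rpow_enorm_toReal (by exact_mod_cast hn) (ENNReal.natCast_ne_top n)]
  simp only [ENNReal.toReal_natCast, ENNReal.rpow_natCast]
  rw [← ENNReal.rpow_natCast, ← ENNReal.rpow_mul, one_div, inv_mul_cancel₀ (by exact_mod_cast hn),
    ENNReal.rpow_one]

lemma rot_add (α γ : ℝ) (z : Om × Om) :
    Real.cos γ • (rotm (-α) z).1 + Real.sin γ • (rotm (-α) z).2 = r1 (α + γ) z := by
  unfold rotm r1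
  rw [Real.cos_add, Real.sin_add]
  simp only [neg_neg]
  generalize Real.cos α = c
  generalize Real.sin α = s
  generalize Real.cos γ = c'
  generalize Real.sin γ = s'
  ext t
  simp
  ring

noncomputable def cf (K i : ℕ) : ℝ :=
  if i = 0 then (-1) ^ K else -((-1) ^ K * ((-1) ^ (K - i) * (K.choose i : ℝ)))

lemma cf_sq (K i : ℕ) : cf K i ^ 2 ≤ 4 ^ K := by
  unfold cf
  split_ifs
  · rw [← pow_mul, mul_comm, pow_mul]
    simp
    exact one_le_pow₀ (by norm_num)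
  · rw [neg_sq, mul_pow, mul_pow, ← pow_mul, mul_comm K 2, pow_mul, ← pow_mul _ (K - i) 2,
      mul_comm (K - i) 2, pow_mul]
    simp only [even_two, Even.neg_pow, one_pow, one_mul]
    have h : ((K.choose i : ℕ) : ℝ) ≤ 2 ^ K := by exact_mod_cast Nat.choose_le_two_pow K i
    calc ((K.choose i : ℕ) : ℝ) ^ 2 ≤ (2 ^ K) ^ 2 := by gcongr
      _ = 4 ^ K := by
        rw [← pow_mul, mul_comm, pow_mul]
        norm_num

noncomputable def vv (V : Om → HH) (K : ℕ) (δ α : ℝ) (i : ℕ) (z : Om × Om) : HH :=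
  if i = 0 then dif K δ V (rotm (-α) z) else V (r1 (α + i * δ) z)

lemma V_decomp (V : Om → HH) (K : ℕ) (δ α : ℝ) (z : Om × Om) :
    V (r1 α z) = ∑ i ∈ Finset.range (K + 1), cf K i • vv V K δ α i z := by
  have h0 : dif K δ V (rotm (-α) z) = ∑ i ∈ Finset.range (K + 1),
      ((-1 : ℝ) ^ (K - i) * (K.choose i : ℝ)) • V (r1 (α + i * δ) z) := by
    unfold dif
    refine Finset.sum_congr rfl fun i _ => ?_
    rw [rot_add]
  rw [Finset.sum_range_succ'] at h0 ⊢
  have h1 : ∀ i, cf K (i + 1) • vv V K δ α (i + 1) z = -((-1 : ℝ) ^ K •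
      (((-1 : ℝ) ^ (K - (i + 1)) * (K.choose (i + 1) : ℝ)) • V (r1 (α + (i + 1 : ℕ) * δ) z))) := by
    intro i
    unfold cf vv
    rw [if_neg (Nat.succ_ne_zero i), if_neg (Nat.succ_ne_zero i), smul_smul, neg_smul]
  simp_rw [h1]
  unfold cf vv
  rw [if_pos rfl, if_pos rfl, h0, Finset.sum_neg_distrib, ← Finset.smul_sum, smul_add, smul_smul]
  have h2 : ((-1 : ℝ) ^ K * ((-1) ^ (K - 0) * ((K.choose 0 : ℕ) : ℝ))) = 1 := by
    simp [← mul_pow]
  rw [h2]
  simp

lemma strong_dif {V : Om → HH} (hV : StronglyMeasurable V) (K : ℕ) (δ : ℝ) :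
    StronglyMeasurable (dif K δ V) := by
  unfold dif
  refine Finset.stronglyMeasurable_fun_sum _ fun i _ => ?_
  have h : StronglyMeasurable fun z : Om × Om => V (r1 (i * δ) z) :=
    hV.comp_measurable (continuous_r1 (i * δ)).measurable
  exact h.const_smul ((-1 : ℝ) ^ (K - i) * (K.choose i : ℝ))

lemma strong_vv {V : Om → HH} (hV : StronglyMeasurable V) (K : ℕ) (δ α : ℝ) (i : ℕ) :
    StronglyMeasurable (vv V K δ α i) := by
  unfold vv
  split_ifs with h
  · exact (strong_dif hV K δ).comp_measurable (measurable_rotm _)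
  · exact hV.comp_measurable (continuous_r1 _).measurable

noncomputable def MM (K p : ℕ) : ℝ := (((K : ℝ) + 1) * 4 ^ K) ^ p * ((K : ℝ) + 2) ^ p

lemma MM_nonneg (K p : ℕ) : 0 ≤ MM K p := by
  unfold MM
  positivity

lemma QQ_decomp (V : Om → HH) (K : ℕ) (δ α : ℝ) (z : Om × Om) (k : ℕ) {p : ℕ} (hp : 1 ≤ p)
    (x : Om) :
    QQ E k x (V (r1 α z)) ^ p ≤ MM K p * ∑ i ∈ Finset.range (K + 1), QQ E k x (vv V K δ α i z) ^ p := by
  have h1 := QQ_sum (E := E) k x (Finset.range (K + 1)) (cf K) (fun i => vv V K δ α i z)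
  rw [← V_decomp, Finset.card_range] at h1
  have h2 : ∑ i ∈ Finset.range (K + 1), cf K i ^ 2 * QQ E k x (vv V K δ α i z) ≤
      4 ^ K * ∑ i ∈ Finset.range (K + 1), QQ E k x (vv V K δ α i z) := by
    rw [Finset.mul_sum]
    refine Finset.sum_le_sum fun i _ => ?_
    exact mul_le_mul_of_nonneg_right (cf_sq K i) (QQ_nonneg k x _)
  have h3 : QQ E k x (V (r1 α z)) ≤ (((K : ℝ) + 1) * 4 ^ K) *
      ∑ i ∈ Finset.range (K + 1), QQ E k x (vv V K δ α i z) := by
    refine h1.trans ?_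
    push_cast
    rw [mul_assoc]
    gcongr
  have h4 := pow_sum_le (Finset.range (K + 1)) (fun i => QQ E k x (vv V K δ α i z))
    (fun i _ => QQ_nonneg k x _) p
  rw [if_neg (by omega : p ≠ 0), add_zero, Finset.card_range] at h4
  calc QQ E k x (V (r1 α z)) ^ p ≤ ((((K : ℝ) + 1) * 4 ^ K) *
      ∑ i ∈ Finset.range (K + 1), QQ E k x (vv V K δ α i z)) ^ p :=
        pow_le_pow_left₀ (QQ_nonneg k x _) h3 p
    _ = (((K : ℝ) + 1) * 4 ^ K) ^ p *
      (∑ i ∈ Finset.range (K + 1), QQ E k x (vv V K δ α i z)) ^ p := mul_pow _ _ _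
    _ ≤ (((K : ℝ) + 1) * 4 ^ K) ^ p * ((((K + 1 : ℕ) : ℝ) + 1) ^ p *
      ∑ i ∈ Finset.range (K + 1), QQ E k x (vv V K δ α i z) ^ p) := by
        gcongr
    _ = MM K p * ∑ i ∈ Finset.range (K + 1), QQ E k x (vv V K δ α i z) ^ p := by
        unfold MM
        push_cast
        ring

lemma lint_decomp {V : Om → HH} (hV : StronglyMeasurable V) (K : ℕ) (δ α : ℝ) (k : ℕ) {p : ℕ}
    (hp : 1 ≤ p) :
    ∫⁻ z, ENNReal.ofReal (QQ E k z.1 (V (r1 α z)) ^ p) ∂(μ.prod μ) ≤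
      ENNReal.ofReal (MM K p) * ∑ i ∈ Finset.range (K + 1),
        ∫⁻ z, ENNReal.ofReal (QQ E k z.1 (vv V K δ α i z) ^ p) ∂(μ.prod μ) := by
  rw [← lintegral_finsetSum, ← lintegral_const_mul]
  · refine lintegral_mono fun z => ?_
    rw [← ENNReal.ofReal_sum_of_nonneg (fun i _ => pow_nonneg (QQ_nonneg k _ _) p),
      ← ENNReal.ofReal_mul (MM_nonneg K p)]
    exact ENNReal.ofReal_le_ofReal (QQ_decomp V K δ α z k hp z.1)
  · refine Finset.measurable_sum _ fun i _ => ?_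
    exact ((measurable_QQ' (strong_vv hV K δ α i) k measurable_fst).pow_const p).ennreal_ofReal
  · intro i _
    exact ((measurable_QQ' (strong_vv hV K δ α i) k measurable_fst).pow_const p).ennreal_ofReal

/-! ### constants -/

lemma exp_bound (n : ℕ) {a x : ℝ} (ha : 0 < a) (hx : 0 ≤ x) :
    x ^ n * Real.exp (-(x / a)) ≤ a ^ n * n.factorial := by
  have h := Real.pow_div_factorial_le_exp (x / a) (by positivity) n
  have h1 : (0 : ℝ) < n.factorial := by exact_mod_cast n.factorial_pos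
  rw [div_le_iff₀ h1, div_pow, div_le_iff₀ (by positivity)] at h
  rw [Real.exp_neg]
  have h2 := Real.exp_pos (x / a)
  rw [← div_eq_mul_inv, div_le_iff₀ h2]
  calc x ^ n ≤ Real.exp (x / a) * n.factorial * a ^ n := h
    _ = a ^ n * n.factorial * Real.exp (x / a) := by ring

lemma half_pow {y : ℝ} (hy : 0 ≤ y) :
    (ENNReal.ofReal (y ^ 2)) ^ (1 / 2 : ℝ) = ENNReal.ofReal y := by
  rw [ENNReal.ofReal_rpow_of_nonneg (by positivity) (by norm_num), ← Real.sqrt_eq_rpow,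
    Real.sqrt_sq hy]

noncomputable def BB (p R : ℕ) (D1 D2 : ℝ) : ℝ :=
  10 * (16 ^ (R + 1) * (R + 1).factorial) * D2 ^ (2 * p) + 50 ^ R * R.factorial * D1 ^ (2 * p)

lemma BB_nonneg (p R : ℕ) {D1 D2 : ℝ} (h1 : 0 ≤ D1) (h2 : 0 ≤ D2) : 0 ≤ BB p R D1 D2 := by
  unfold BB
  positivity

lemma beta_bound [IsProbabilityMeasure μ]
    (hrot : ∀ β : ℝ, MeasurePreserving (rotm β) (μ.prod μ) (μ.prod μ))
    (hWH : S_WH μ) (hGT : S_GT)
    (hE : ∀ k v, ∑ j ∈ Finset.range (mm k), ‖E k j v‖ ^ 2 ≤ ‖v‖ ^ 2)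
    {V : Om → HH} (hV : StronglyMeasurable V) {p : ℕ} (hp : 1 ≤ p) (R : ℕ) {D1 D2 : ℝ}
    (h1 : 0 ≤ D1) (h2 : 0 ≤ D2)
    (hV1 : eLpNorm V ((2 * p : ℕ) : ℝ≥0∞) μ ≤ ENNReal.ofReal D1)
    (hV2 : eLpNorm V ((4 * p : ℕ) : ℝ≥0∞) μ ≤ ENNReal.ofReal D2) (k : ℕ) {β : ℝ}
    (hβ1 : 1 / Real.sqrt (lam k) ≤ β) (hβ2 : β ≤ 1) :
    ∫⁻ z, ENNReal.ofReal (QQ E k z.1 (V (r1 β z)) ^ p) ∂(μ.prod μ) ≤
      ENNReal.ofReal (BB p R D1 D2 / lam k ^ R) := by
  have hl := lam_ge k
  have hl0 : 0 < lam k := by linarith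
  refine (main_beta hrot hWH hGT hE hV k hp hβ1 hβ2).trans ?_
  have hA : ∫⁻ x, ‖V x‖ₑ ^ (2 * p) ∂μ ≤ ENNReal.ofReal (D1 ^ (2 * p)) := by
    rw [lint_pow μ V (by omega), ENNReal.ofReal_pow h1]
    gcongr
  have hB : ∫⁻ x, ‖V x‖ₑ ^ (4 * p) ∂μ ≤ ENNReal.ofReal ((D2 ^ (2 * p)) ^ 2) := by
    rw [lint_pow μ V (by omega), ← pow_mul, show 2 * p * 2 = 4 * p by omega,
      ENNReal.ofReal_pow h2]
    gcongr
  have hC : ∫⁻ x in Gc k, ‖V x‖ₑ ^ (2 * p) ∂μ ≤
      ENNReal.ofReal (10 * (16 ^ (R + 1) * (R + 1).factorial) * D2 ^ (2 * p) / lam k ^ R) := by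
    refine (cs_Gc hV k p).trans ?_
    have h3 : μ (Gc k) ≤ ENNReal.ofReal ((10 * lam k * Real.exp (-(lam k / 16))) ^ 2) := by
      refine (measure_Gc hWH hGT k).trans (le_of_eq ?_)
      congr 1
      have h5 : Real.exp (-(lam k / 16)) ^ 2 = Real.exp (-(lam k / 8)) := by
        rw [← Real.exp_nat_mul]
        congr 1
        push_cast
        ring
      rw [mul_pow, mul_pow, h5]
      norm_num
    calc (μ (Gc k)) ^ (1 / 2 : ℝ) * (∫⁻ x, ‖V x‖ₑ ^ (4 * p) ∂μ) ^ (1 / 2 : ℝ)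
        ≤ (ENNReal.ofReal ((10 * lam k * Real.exp (-(lam k / 16))) ^ 2)) ^ (1 / 2 : ℝ) *
          (ENNReal.ofReal ((D2 ^ (2 * p)) ^ 2)) ^ (1 / 2 : ℝ) := by
          gcongr
      _ = ENNReal.ofReal ((10 * lam k * Real.exp (-(lam k / 16))) * D2 ^ (2 * p)) := by
          rw [half_pow (by positivity), half_pow (by positivity), ← ENNReal.ofReal_mul
            (by positivity)]
      _ ≤ ENNReal.ofReal (10 * (16 ^ (R + 1) * (R + 1).factorial) * D2 ^ (2 * p) / lam k ^ R) := by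
          refine ENNReal.ofReal_le_ofReal ?_
          rw [le_div_iff₀ (by positivity)]
          have h4 := exp_bound (R + 1) (show (0 : ℝ) < 16 by norm_num) hl0.le
          calc 10 * lam k * Real.exp (-(lam k / 16)) * D2 ^ (2 * p) * lam k ^ R
              = 10 * (lam k ^ (R + 1) * Real.exp (-(lam k / 16))) * D2 ^ (2 * p) := by ring
            _ ≤ 10 * (16 ^ (R + 1) * (R + 1).factorial) * D2 ^ (2 * p) := by gcongr
  have hD : ENNReal.ofReal (Real.exp (-(lam k / 50))) * ∫⁻ x, ‖V x‖ₑ ^ (2 * p) ∂μ ≤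
      ENNReal.ofReal (50 ^ R * R.factorial * D1 ^ (2 * p) / lam k ^ R) := by
    calc ENNReal.ofReal (Real.exp (-(lam k / 50))) * ∫⁻ x, ‖V x‖ₑ ^ (2 * p) ∂μ
        ≤ ENNReal.ofReal (Real.exp (-(lam k / 50))) * ENNReal.ofReal (D1 ^ (2 * p)) := by gcongr
      _ = ENNReal.ofReal (Real.exp (-(lam k / 50)) * D1 ^ (2 * p)) := by
          rw [ENNReal.ofReal_mul (Real.exp_pos _).le]
      _ ≤ _ := by
          refine ENNReal.ofReal_le_ofReal ?_
          rw [le_div_iff₀ (by positivity)]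
          have h4 := exp_bound R (show (0 : ℝ) < 50 by norm_num) hl0.le
          calc Real.exp (-(lam k / 50)) * D1 ^ (2 * p) * lam k ^ R
              = (lam k ^ R * Real.exp (-(lam k / 50))) * D1 ^ (2 * p) := by ring
            _ ≤ _ := by gcongr
  refine (add_le_add hC hD).trans (le_of_eq ?_)
  rw [← ENNReal.ofReal_add (by positivity) (by positivity), ← add_div]
  rfl

noncomputable def CC (p R K : ℕ) (D1 D2 D3 : ℝ) : ℝ :=
  D1 ^ (2 * p) * (4 * (K : ℝ) ^ 2) ^ R + MM K p * (K * BB p R D1 D2 + D3 ^ (2 * p))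

lemma core [IsProbabilityMeasure μ]
    (hrot : ∀ β : ℝ, MeasurePreserving (rotm β) (μ.prod μ) (μ.prod μ))
    (hr1 : ∀ β : ℝ, MeasurePreserving (r1 β) (μ.prod μ) μ)
    (hWH : S_WH μ) (hGT : S_GT)
    (hE : ∀ k v, ∑ j ∈ Finset.range (mm k), ‖E k j v‖ ^ 2 ≤ ‖v‖ ^ 2)
    {V : Om → HH} (hV : StronglyMeasurable V) {p : ℕ} (hp : 1 ≤ p) {R K : ℕ} (hK : 1 ≤ K)
    {D1 D2 D3 : ℝ} (h1 : 0 ≤ D1) (h2 : 0 ≤ D2) (h3 : 0 ≤ D3)
    (hV1 : eLpNorm V ((2 * p : ℕ) : ℝ≥0∞) μ ≤ ENNReal.ofReal D1)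
    (hV2 : eLpNorm V ((4 * p : ℕ) : ℝ≥0∞) μ ≤ ENNReal.ofReal D2)
    (hV3 : ∀ θ : ℝ, 0 < θ → θ ≤ 1 / (2 * (K : ℝ)) →
      eLpNorm (dif K θ V) ((2 * p : ℕ) : ℝ≥0∞) (μ.prod μ) ≤ ENNReal.ofReal (D3 * θ ^ R))
    (k : ℕ) {α : ℝ} (hα0 : 0 ≤ α) (hα : α ≤ 1 / 2) :
    ∫⁻ z, ENNReal.ofReal (QQ E k z.1 (V (r1 α z)) ^ p) ∂(μ.prod μ) ≤
      ENNReal.ofReal (CC p R K D1 D2 D3 / lam k ^ R) := by
  have hl := lam_ge k
  have hl0 : 0 < lam k := by linarith
  have hs : 0 < Real.sqrt (lam k) := Real.sqrt_pos.2 hl0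
  have hss : Real.sqrt (lam k) ^ 2 = lam k := Real.sq_sqrt hl0.le
  have hK0 : (1 : ℝ) ≤ K := by exact_mod_cast hK
  have hMM := MM_nonneg K p
  have hBB := BB_nonneg p R h1 h2
  have hle : ∀ W : Om × Om → HH, ∀ z : Om × Om,
      ENNReal.ofReal (QQ E k z.1 (W z) ^ p) ≤ ‖W z‖ₑ ^ (2 * p) := by
    intro W z
    rw [enorm_pow_eq]
    exact ENNReal.ofReal_le_ofReal (QQ_pow_le hE k _ _ p)
  rcases lt_or_ge (1 / (2 * (K : ℝ))) (1 / Real.sqrt (lam k)) with hcase | hcase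
  · -- trivial case
    have h4 : lam k ≤ 4 * (K : ℝ) ^ 2 := by
      have h5 : Real.sqrt (lam k) < 2 * K := by
        rwa [div_lt_div_iff_of_pos_left one_pos (by positivity) hs] at hcase
      nlinarith
    calc ∫⁻ z, ENNReal.ofReal (QQ E k z.1 (V (r1 α z)) ^ p) ∂(μ.prod μ)
        ≤ ∫⁻ z, ‖V (r1 α z)‖ₑ ^ (2 * p) ∂(μ.prod μ) :=
          lintegral_mono fun z => hle (fun z => V (r1 α z)) z
      _ = ∫⁻ x, ‖V x‖ₑ ^ (2 * p) ∂μ :=
          (hr1 α).lintegral_comp (hV.enorm.pow_const (2 * p))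
      _ ≤ ENNReal.ofReal (D1 ^ (2 * p)) := by
          rw [lint_pow μ V (by omega), ENNReal.ofReal_pow h1]
          gcongr
      _ ≤ ENNReal.ofReal (CC p R K D1 D2 D3 / lam k ^ R) := by
          refine ENNReal.ofReal_le_ofReal ?_
          rw [le_div_iff₀ (by positivity)]
          unfold CC
          have h6 : lam k ^ R ≤ (4 * (K : ℝ) ^ 2) ^ R := pow_le_pow_left₀ hl0.le h4 R
          have h7 : 0 ≤ MM K p * (K * BB p R D1 D2 + D3 ^ (2 * p)) := by positivity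
          have h8 : D1 ^ (2 * p) * lam k ^ R ≤ D1 ^ (2 * p) * (4 * (K : ℝ) ^ 2) ^ R := by gcongr
          linarith
  · set δ : ℝ := 1 / Real.sqrt (lam k) with hδ
    have hδ0 : 0 < δ := by positivity
    refine (lint_decomp hV K δ α k hp).trans ?_
    have hb : ∀ i ∈ Finset.range K,
        ∫⁻ z, ENNReal.ofReal (QQ E k z.1 (vv V K δ α (i + 1) z) ^ p) ∂(μ.prod μ) ≤
          ENNReal.ofReal (BB p R D1 D2 / lam k ^ R) := by
      intro i hi
      have hiK : i + 1 ≤ K := Finset.mem_range.1 hi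
      unfold vv
      simp only [if_neg (Nat.succ_ne_zero i)]
      refine beta_bound hrot hWH hGT hE hV hp R h1 h2 hV1 hV2 k ?_ ?_
      · have : (1 : ℝ) ≤ ((i + 1 : ℕ) : ℝ) := by
          push_cast
          have : (0 : ℝ) ≤ i := by positivity
          linarith
        nlinarith
      · have h5 : ((i + 1 : ℕ) : ℝ) * δ ≤ K * (1 / (2 * K)) := by
          have : ((i + 1 : ℕ) : ℝ) ≤ K := by exact_mod_cast hiK
          gcongr
        have h6 : (K : ℝ) * (1 / (2 * K)) = 1 / 2 := by field_simp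
        linarith
    have h0 : ∫⁻ z, ENNReal.ofReal (QQ E k z.1 (vv V K δ α 0 z) ^ p) ∂(μ.prod μ) ≤
        ENNReal.ofReal (D3 ^ (2 * p) / lam k ^ R) := by
      unfold vv
      simp only [if_pos]
      calc ∫⁻ z, ENNReal.ofReal (QQ E k z.1 (dif K δ V (rotm (-α) z)) ^ p) ∂(μ.prod μ)
          ≤ ∫⁻ z, ‖dif K δ V (rotm (-α) z)‖ₑ ^ (2 * p) ∂(μ.prod μ) :=
            lintegral_mono fun z => hle (fun z => dif K δ V (rotm (-α) z)) z
        _ = ∫⁻ z, ‖dif K δ V z‖ₑ ^ (2 * p) ∂(μ.prod μ) :=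
            (hrot (-α)).lintegral_comp ((strong_dif hV K δ).enorm.pow_const (2 * p))
        _ ≤ ENNReal.ofReal ((D3 * δ ^ R) ^ (2 * p)) := by
            rw [lint_pow _ _ (by omega), ENNReal.ofReal_pow (by positivity)]
            gcongr
            exact hV3 δ hδ0 hcase
        _ ≤ ENNReal.ofReal (D3 ^ (2 * p) / lam k ^ R) := by
            refine ENNReal.ofReal_le_ofReal ?_
            have h5 : (D3 * δ ^ R) ^ (2 * p) = D3 ^ (2 * p) * (1 / lam k) ^ (R * p) := by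
              rw [mul_pow, hδ]
              congr 1
              rw [← pow_mul, show R * (2 * p) = 2 * (R * p) by ring, pow_mul, div_pow, hss]
              norm_num
            rw [h5, div_eq_mul_one_div (D3 ^ (2 * p)), ← one_div_pow]
            refine mul_le_mul_of_nonneg_left ?_ (by positivity)
            refine pow_le_pow_of_le_one (by positivity) ?_ ?_
            · rw [div_le_one hl0]
              linarith
            · exact Nat.le_mul_of_pos_right R (by omega)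
    rw [Finset.sum_range_succ']
    calc ENNReal.ofReal (MM K p) * (∑ i ∈ Finset.range K,
          ∫⁻ z, ENNReal.ofReal (QQ E k z.1 (vv V K δ α (i + 1) z) ^ p) ∂(μ.prod μ) +
          ∫⁻ z, ENNReal.ofReal (QQ E k z.1 (vv V K δ α 0 z) ^ p) ∂(μ.prod μ))
        ≤ ENNReal.ofReal (MM K p) * (∑ _i ∈ Finset.range K,
          ENNReal.ofReal (BB p R D1 D2 / lam k ^ R) +
          ENNReal.ofReal (D3 ^ (2 * p) / lam k ^ R)) := by
          gcongr with i hi
          exact hb i hi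
      _ = ENNReal.ofReal (MM K p * (K * BB p R D1 D2 + D3 ^ (2 * p)) / lam k ^ R) := by
          rw [Finset.sum_const, Finset.card_range, nsmul_eq_mul, ← ENNReal.ofReal_natCast,
            ← ENNReal.ofReal_mul (by positivity), ← ENNReal.ofReal_add (by positivity)
            (by positivity), ← ENNReal.ofReal_mul hMM]
          congr 1
          ring
      _ ≤ ENNReal.ofReal (CC p R K D1 D2 D3 / lam k ^ R) := by
          refine ENNReal.ofReal_le_ofReal ?_
          refine div_le_div_of_nonneg_right ?_ (by positivity)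
          unfold CC
          have : 0 ≤ D1 ^ (2 * p) * (4 * (K : ℝ) ^ 2) ^ R := by positivity
          linarith

end PkgSL

open PkgSL in
/-- Package SL -/
theorem pSL (μ : Measure Om) (hμ : IsW μ) (hWH : S_WH μ) (hGT : S_GT) : S_SL μ := by
  have := hμ.gauss
  have hMP := mp_thm μ hμ.mean
  have hrot : ∀ β : ℝ, MeasurePreserving (rotm β) (μ.prod μ) (μ.prod μ) := fun β => hMP.2 (-β)
  have hr1 : ∀ β : ℝ, MeasurePreserving (r1 β) (μ.prod μ) μ := fun β => hMP.1 β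
  intro E hE S hUB hUS p R hp
  obtain ⟨D1, hD1, hV1⟩ := hUB (2 * p) (by omega)
  obtain ⟨D2, hD2, hV2⟩ := hUB (4 * p) (by omega)
  obtain ⟨K0, hK0⟩ := hUS (2 * p) (by omega) R
  obtain ⟨D3, hD3, hV3⟩ := hK0 (max K0 1) (le_max_left _ _)
  refine ⟨CC p R (max K0 1) D1 D2 D3, ?_, ?_⟩
  · unfold CC
    have := MM_nonneg (max K0 1) p
    have := BB_nonneg p R hD1 hD2
    positivity
  intro V hVS k α hα0 hα
  have hVm := (hV1 V hVS).1.1
  set V' : Om → HH := hVm.mk V with hV'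
  have hsm : StronglyMeasurable V' := hVm.stronglyMeasurable_mk
  have hae : V =ᵐ[μ] V' := hVm.ae_eq_mk
  have hcomp : ∀ β : ℝ, (fun z => V (r1 β z)) =ᵐ[μ.prod μ] fun z => V' (r1 β z) := fun β =>
    (hr1 β).quasiMeasurePreserving.ae_eq_comp hae
  have hdif : ∀ K θ, dif K θ V =ᵐ[μ.prod μ] dif K θ V' := by
    intro K θ
    have hall : ∀ᵐ z ∂(μ.prod μ), ∀ i : ℕ, V (r1 (i * θ) z) = V' (r1 (i * θ) z) :=
      ae_all_iff.2 fun i => hcomp (i * θ)
    filter_upwards [hall] with z hz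
    unfold dif
    refine Finset.sum_congr rfl fun i _ => ?_
    congr 1
    exact hz i
  have hmain := core (E := E) (R := R) hrot hr1 hWH hGT hE hsm hp (le_max_right K0 1) hD1 hD2 hD3
    (by rw [← eLpNorm_congr_ae hae]; exact (hV1 V hVS).2)
    (by rw [← eLpNorm_congr_ae hae]; exact (hV2 V hVS).2)
    (by
      intro θ h0 h1
      rw [← eLpNorm_congr_ae (hdif _ θ)]
      exact hV3 V hVS θ h0 h1) k hα0 hα
  refine le_trans (le_of_eq ?_) hmain
  refine lintegral_congr_ae ?_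
  filter_upwards [hcomp α] with z hz
  unfold QQ
  rw [← hz]

end Pool.Agent.T2H68.UB
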