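import Pool.Agent.T2H68.UB.Stm

/-!
# Package SU: supports of the bumps
-/

set_option autoImplicit false

open MeasureTheory ProbabilityTheory Set Filter Finset
open scoped ENNReal NNReal Topology ComplexConjugate

namespace Pool.Agent.T2H68.UB

namespace PkgSU

theorem lam_pos (k : ℕ) : 0 < lam k := by unfold lam; positivity

theorem eta_nonneg (k : ℕ) : 0 ≤ eta k := by
  unfold eta
  have := lam_pos k
  positivity

theorem mm_pos (k : ℕ) : 0 < mm k := by
  unfold mm
  have h : 0 < ⌈40 * lam k ^ 2 * Real.exp (lam k ^ 2 / 2)⌉₊ := by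
    rw [Nat.ceil_pos]
    have := lam_pos k
    positivity
  omega

theorem mm_pos' (k : ℕ) : (0 : ℝ) < mm k := by exact_mod_cast mm_pos k

theorem hh_pos (k : ℕ) : 0 < hh k := by
  unfold hh
  have := mm_pos' k
  positivity

theorem mm_hh (k : ℕ) : (mm k : ℝ) * hh k = 1 / 2 ^ (k + 1) := by
  unfold hh
  have := (mm_pos' k).ne'
  field_simp

theorem st_mm (k : ℕ) : st k (mm k) = 1 / 2 ^ k := by
  unfold st
  rw [mm_hh, pow_succ]
  field_simp
  norm_num

theorem st_succ (k j : ℕ) : st k (j + 1) = st k j + hh k := by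
  unfold st
  push_cast
  ring

theorem st_mono (k : ℕ) {i j : ℕ} (h : i ≤ j) : st k i ≤ st k j := by
  unfold st
  have h1 : (i : ℝ) ≤ j := by exact_mod_cast h
  have h2 := hh_pos k
  nlinarith

theorem st_end (k : ℕ) {j : ℕ} (h : j < mm k) : st k j + hh k ≤ 1 / 2 ^ k := by
  rw [← st_succ, ← st_mm]
  exact st_mono k h

theorem st_ge (k j : ℕ) : 1 / 2 ^ (k + 1) ≤ st k j := by
  unfold st
  have h2 := hh_pos k
  have : 0 ≤ (j : ℝ) * hh k := by positivity
  linarith

theorem st_pos (k j : ℕ) : 0 < st k j := lt_of_lt_of_le (by positivity) (st_ge k j)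

theorem bmp_nonneg (r : ℝ) : 0 ≤ bmp r := by
  unfold bmp
  exact mul_nonneg (Real.smoothTransition.nonneg _) (Real.smoothTransition.nonneg _)

theorem bmp_le (r : ℝ) : bmp r ≤ 1 := by
  unfold bmp
  exact mul_le_one₀ (Real.smoothTransition.le_one _) (Real.smoothTransition.nonneg _)
    (Real.smoothTransition.le_one _)

theorem bt_left {k j : ℕ} {t : ℝ} (h : t ≤ st k j + hh k / 4) : bt k j t = 0 := by
  unfold bt bmp
  have h1 : (t - st k j) / hh k ≤ 1 / 4 := by
    rw [div_le_iff₀ (hh_pos k)]
    linarith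
  rw [Real.smoothTransition.zero_of_nonpos (by linarith), zero_mul]

theorem bt_right {k j : ℕ} {t : ℝ} (h : st k j + hh k ≤ t) : bt k j t = 0 := by
  unfold bt bmp
  have h1 : 1 ≤ (t - st k j) / hh k := by
    rw [le_div_iff₀ (hh_pos k)]
    linarith
  rw [Real.smoothTransition.zero_of_nonpos (x := 4 - 4 * ((t - st k j) / hh k)) (by linarith),
    mul_zero]

theorem bt_mid {k j : ℕ} {t : ℝ} (h : st k j + hh k / 2 ≤ t) (h' : t ≤ st k j + 3 * hh k / 4) :
    bt k j t = 1 := by
  unfold bt bmp
  have h1 : 1 / 2 ≤ (t - st k j) / hh k := by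
    rw [le_div_iff₀ (hh_pos k)]
    linarith
  have h2 : (t - st k j) / hh k ≤ 3 / 4 := by
    rw [div_le_iff₀ (hh_pos k)]
    linarith
  rw [Real.smoothTransition.one_of_one_le (by linarith),
    Real.smoothTransition.one_of_one_le (by linarith), mul_one]

theorem chi_nonneg (k : ℕ) (w : ℝ) : 0 ≤ chi k w := Real.smoothTransition.nonneg _

theorem chi_le (k : ℕ) (w : ℝ) : chi k w ≤ 1 := Real.smoothTransition.le_one _

theorem gg_le (j : ℕ) (p : ℝ) : |gg j p| ≤ 1 := by
  unfold gg
  split_ifs
  · exact Real.abs_cos_le_one p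
  · exact Real.abs_sin_le_one p

theorem ang_le (k j : ℕ) (ω : Om) : |ang k j ω| ≤ eta k := by
  unfold ang
  rw [abs_mul, abs_mul, abs_of_nonneg (eta_nonneg k), abs_of_nonneg (chi_nonneg k _)]
  calc eta k * chi k (wv k j ω) * |gg j (ph (k + 1) ω)| ≤ eta k * 1 * 1 := by
        gcongr
        · exact mul_nonneg (eta_nonneg k) zero_le_one
        · exact eta_nonneg k
        · exact chi_le k _
        · exact gg_le j _
    _ = eta k := by ring

/-- a nonzero bump determines the slot -/
theorem bt_ne {k j k' j' : ℕ} {t : ℝ} (hj : j < mm k) (hj' : j' < mm k') (h1 : st k j ≤ t)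
    (h2 : t ≤ st k j + hh k) (h : bt k' j' t ≠ 0) : k' = k ∧ j' = j := by
  have h3 : st k' j' < t := by
    by_contra hc
    exact h (bt_left (by have := hh_pos k'; linarith))
  have h4 : t < st k' j' + hh k' := by
    by_contra hc
    exact h (bt_right (not_lt.1 hc))
  have hpow : ∀ a b : ℕ, a < b → (1 : ℝ) / 2 ^ b ≤ 1 / 2 ^ (a + 1) := by
    intro a b hab
    apply one_div_le_one_div_of_le (by positivity)
    exact pow_le_pow_right₀ (by norm_num) hab
  have hk : k' = k := by
    rcases lt_trichotomy k' k with hlt | heq | hgt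
    · exfalso
      have := hpow k' k hlt
      have := st_ge k' j'
      have := st_end k hj
      linarith
    · exact heq
    · exfalso
      have := hpow k k' hgt
      have := st_ge k j
      have := st_end k' hj'
      linarith
  subst hk
  refine ⟨rfl, ?_⟩
  rcases lt_trichotomy j' j with hlt | heq | hgt
  · exfalso
    have := st_mono k' (Nat.succ_le_of_lt hlt)
    rw [Nat.succ_eq_add_one, st_succ] at this
    linarith
  · exact heq
  · exfalso
    have := st_mono k' (Nat.succ_le_of_lt hgt)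
    rw [Nat.succ_eq_add_one, st_succ] at this
    linarith

end PkgSU

open PkgSU in
theorem pSU : S_SU := by
  refine ⟨fun k => ⟨mm_pos k, hh_pos k, st_mm k⟩, fun k j t => ⟨bmp_nonneg _, bmp_le _, bt_left,
    bt_right, bt_mid⟩, ang_le, ?_, ?_, ?_, ?_⟩
  · intro k j t ω hj h1 h2
    unfold phi
    rw [tsum_eq_single k, Finset.sum_eq_single j]
    · intro j' hj' hne
      by_contra hc
      exact hne (bt_ne hj (Finset.mem_range.1 hj') h1 h2 (right_ne_zero_of_mul hc)).2
    · intro hc
      exact absurd (Finset.mem_range.2 hj) hc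
    · intro k' hne
      refine Finset.sum_eq_zero fun j' hj' => ?_
      by_contra hc
      exact hne (bt_ne hj (Finset.mem_range.1 hj') h1 h2 (right_ne_zero_of_mul hc)).1
  · intro t ω ht
    unfold phi
    have : ∀ k : ℕ, ∑ j ∈ Finset.range (mm k), ang k j ω * bt k j t = 0 := fun k =>
      Finset.sum_eq_zero fun j _ => by
        rw [bt_left (by have := st_pos k j; have := hh_pos k; linarith), mul_zero]
    simp only [this, tsum_zero]
  · intro t ω ht
    unfold phi
    have : ∀ k : ℕ, ∑ j ∈ Finset.range (mm k), ang k j ω * bt k j t = 0 := fun k =>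
      Finset.sum_eq_zero fun j hj => by
        have h1 := st_end k (Finset.mem_range.1 hj)
        have h2 : (1 : ℝ) / 2 ^ k ≤ 1 := by
          rw [div_le_one (by positivity)]
          exact one_le_pow₀ (by norm_num)
        rw [bt_right (by linarith), mul_zero]
    simp only [this, tsum_zero]
  · intro t h0 h1
    have hk : ∃ k : ℕ, 1 / 2 ^ (k + 1) ≤ t ∧ t < 1 / 2 ^ k := by
      obtain ⟨n, hn1, hn2⟩ := exists_nat_pow_near_of_lt_one h0 h1.le
        (show (0 : ℝ) < 1 / 2 by norm_num) (by norm_num)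
      rw [one_div_pow] at hn1 hn2
      rcases lt_or_eq_of_le hn2 with h | h
      · exact ⟨n, hn1.le, h⟩
      · rcases n with _ | m
        · rw [pow_zero, div_one] at h
          exact absurd h h1.ne
        · refine ⟨m, h.ge, ?_⟩
          rw [h]
          exact one_div_lt_one_div_of_lt (by positivity) (pow_lt_pow_right₀ (by norm_num) (by omega))
    obtain ⟨k, hk1, hk2⟩ := hk
    have hp := hh_pos k
    have hnn : 0 ≤ (t - 1 / 2 ^ (k + 1)) / hh k := div_nonneg (by linarith) hp.le
    refine ⟨k, ⌊(t - 1 / 2 ^ (k + 1)) / hh k⌋₊, ?_, ?_, ?_⟩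
    · rw [Nat.floor_lt hnn, div_lt_iff₀ hp, mm_hh]
      have : (1 : ℝ) / 2 ^ k = 1 / 2 ^ (k + 1) + 1 / 2 ^ (k + 1) := by
        rw [pow_succ]
        field_simp
        norm_num
      linarith
    · have := Nat.floor_le hnn
      rw [le_div_iff₀ hp] at this
      unfold st
      linarith
    · have := Nat.lt_floor_add_one ((t - 1 / 2 ^ (k + 1)) / hh k)
      rw [div_lt_iff₀ hp] at this
      unfold st
      linarith

end Pool.Agent.T2H68.UB
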