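import Pool.Agent.T2H68.UB.P_OZ

/-!
# Package TP: the two-point motion does not synchronise
-/

set_option autoImplicit false

open MeasureTheory ProbabilityTheory Set Filter Finset
open scoped ENNReal NNReal Topology ComplexConjugate

namespace Pool.Agent.T2H68.UB

namespace PkgTP

open PkgOS

/-! ### the phases as functions of the data -/

abbrev Dat : Type := ℕ → ℕ → ℝ × ℂ

noncomputable def dat (ω : Om) : Dat := fun l j => (wv l j ω, xv l j ω)

noncomputable def stepS (k : ℕ) (p : ℝ) (d : Dat) : ℝ :=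
  amp k * ∑ j ∈ Finset.range (mm k), chi k (d k j).1 *
    (Complex.exp (Complex.I * ((eta k * chi k (d k j).1 * gg j p : ℝ) : ℂ)) * (d k j).2).re

noncomputable def PhiS : ℕ → ℝ → Dat → ℝ
  | 0, p, _ => p
  | K + 1, p, d => PhiS K (stepS K p d) d

theorem PhiS_succ (K : ℕ) (p : ℝ) (d : Dat) : PhiS (K + 1) p d = PhiS K (stepS K p d) d := rfl

theorem PhiS_zero (p : ℝ) (d : Dat) : PhiS 0 p d = p := rfl

theorem stepf_eq (k : ℕ) (p : ℝ) (ω : Om) : stepf k p ω = stepS k p (dat ω) := rfl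

theorem Phi_eq (K : ℕ) (p : ℝ) (ω : Om) : Phi K p ω = PhiS K p (dat ω) := by
  induction K generalizing p with
  | zero => rfl
  | succ K ih =>
    show Phi K (stepf K p ω) ω = PhiS K (stepS K p (dat ω)) (dat ω)
    rw [ih, stepf_eq]

theorem dat_meas : Measurable dat := by
  refine measurable_pi_iff.2 fun l => measurable_pi_iff.2 fun j => ?_
  exact (wv_cont l j).measurable.prodMk (xv_cont l j).measurable

theorem gg_cont (j : ℕ) : Continuous (gg j) := by
  unfold gg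
  split_ifs
  · exact Real.continuous_cos
  · exact Real.continuous_sin

theorem stepS_cont (k : ℕ) : Continuous fun q : ℝ × Dat => stepS k q.1 q.2 := by
  unfold stepS
  have h1 := chi_cont k
  have h2 := gg_cont
  refine continuous_const.mul (continuous_finsetSum _ fun j _ => ?_)
  have h3 : Continuous fun q : ℝ × Dat => q.2 k j := by fun_prop
  have h4 : Continuous fun q : ℝ × Dat => chi k (q.2 k j).1 := h1.comp (continuous_fst.comp h3)
  have h5 : Continuous fun q : ℝ × Dat => gg j q.1 := (h2 j).comp continuous_fst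
  have h6 : Continuous fun q : ℝ × Dat => (q.2 k j).2 := continuous_snd.comp h3
  fun_prop

theorem PhiS_cont (K : ℕ) : Continuous fun q : ℝ × Dat => PhiS K q.1 q.2 := by
  induction K with
  | zero => exact continuous_fst
  | succ K ih => exact ih.comp ((stepS_cont K).prodMk continuous_snd)

theorem PhiS_meas (K : ℕ) : Measurable fun q : ℝ × Dat => PhiS K q.1 q.2 :=
  (PhiS_cont K).measurable

theorem stepS_meas (K : ℕ) : Measurable fun q : ℝ × Dat => stepS K q.1 q.2 :=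
  (stepS_cont K).measurable

attribute [local irreducible] stepS

theorem PhiS_cmp (K : ℕ) {Y : Type*} [MeasurableSpace Y] {u : Y → ℝ} {v : Y → Dat}
    (hu : Measurable u) (hv : Measurable v) : Measurable fun y => PhiS K (u y) (v y) :=
  (PhiS_meas K).comp (hu.prodMk hv)

theorem stepS_cmp (K : ℕ) {Y : Type*} [MeasurableSpace Y] {u : Y → ℝ} {v : Y → Dat}
    (hu : Measurable u) (hv : Measurable v) : Measurable fun y => stepS K (u y) (v y) :=
  (stepS_meas K).comp (hu.prodMk hv)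

theorem stepS_congr (k : ℕ) (p : ℝ) (d d' : Dat) (h : ∀ j < mm k, d k j = d' k j) :
    stepS k p d = stepS k p d' := by
  unfold stepS
  congr 1
  refine Finset.sum_congr rfl fun j hj => ?_
  rw [h j (Finset.mem_range.1 hj)]

theorem PhiS_congr (K : ℕ) (p : ℝ) (d d' : Dat) (h : ∀ l < K, ∀ j < mm l, d l j = d' l j) :
    PhiS K p d = PhiS K p d' := by
  induction K generalizing p with
  | zero => rfl
  | succ K ih =>
    show PhiS K (stepS K p d) d = PhiS K (stepS K p d') d'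
    rw [stepS_congr K p d d' (fun j hj => h K (Nat.lt_succ_self K) j hj)]
    exact ih _ fun l hl j hj => h l (Nat.lt_succ_of_lt hl) j hj

/-- extension of the data of scale `k` -/
noncomputable def exS (k : ℕ) (a : Fin (mm k) → ℝ × ℂ) : Dat := fun l j =>
  if h : l = k ∧ j < mm k then a ⟨j, h.2⟩ else 0

/-- extension of the data of the scales `< k` -/
noncomputable def exL (k : ℕ) (a : (Σ l : Fin k, Fin (mm l)) → ℝ × ℂ) : Dat := fun l j =>
  if h : l < k then (if h' : j < mm l then a ⟨⟨l, h⟩, ⟨j, h'⟩⟩ else 0) else 0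

theorem exS_meas (k : ℕ) : Measurable (exS k) := by
  refine measurable_pi_iff.2 fun l => measurable_pi_iff.2 fun j => ?_
  unfold exS
  by_cases h : l = k ∧ j < mm k
  · simp only [h, and_self, dite_true]
    exact measurable_pi_apply _
  · simp only [h, dite_false]
    exact measurable_const

theorem exL_meas (k : ℕ) : Measurable (exL k) := by
  refine measurable_pi_iff.2 fun l => measurable_pi_iff.2 fun j => ?_
  unfold exL
  by_cases h : l < k
  · simp only [h, dite_true]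
    by_cases h' : j < mm l
    · simp only [h', dite_true]
      exact measurable_pi_apply _
    · simp only [h', dite_false]
      exact measurable_const
  · simp only [h, dite_false]
    exact measurable_const

/-! ### integrals over probability spaces -/

theorem ib {Y : Type*} [MeasurableSpace Y] {ν : Measure Y} [IsProbabilityMeasure ν] {f : Y → ℝ}
    (hf : Measurable f) {B : ℝ} (hB : ∀ y, |f y| ≤ B) : Integrable f ν :=
  Integrable.of_bound hf.aestronglyMeasurable B (Eventually.of_forall fun y => by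
    rw [Real.norm_eq_abs]; exact hB y)

theorem abs_int {Y : Type*} [MeasurableSpace Y] {ν : Measure Y} [IsProbabilityMeasure ν] {f : Y → ℝ}
    {B : ℝ} (hB : ∀ y, |f y| ≤ B) : |∫ y, f y ∂ν| ≤ B := by
  have h := norm_integral_le_of_norm_le_const (μ := ν) (f := f) (C := B)
    (Eventually.of_forall fun y => by rw [Real.norm_eq_abs]; exact hB y)
  rwa [probReal_univ, mul_one, Real.norm_eq_abs] at h

theorem in_meas {Y Z : Type*} [MeasurableSpace Y] [MeasurableSpace Z] {ν : Measure Z} [SFinite ν]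
    {F : Y × Z → ℝ} (hF : Measurable F) : Measurable fun y => ∫ z, F (y, z) ∂ν :=
  hF.stronglyMeasurable.integral_prod_right'.measurable

theorem indep_fub {Y A B : Type*} [MeasurableSpace Y] [MeasurableSpace A] [MeasurableSpace B]
    {ν : Measure Y} [IsProbabilityMeasure ν] {f : Y → A} {g : Y → B} (hf : Measurable f)
    (hg : Measurable g) (h : IndepFun f g ν) (H : A × B → ℝ) (hH : Measurable H)
    (hH1 : ∀ q, |H q| ≤ 1) :
    ∫ y, H (f y, g y) ∂ν = ∫ y, ∫ y', H (f y, g y') ∂ν ∂ν := by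
  have h1 := (indepFun_iff_map_prod_eq_prod_map_map hf.aemeasurable hg.aemeasurable).1 h
  have : IsProbabilityMeasure (ν.map f) := Measure.isProbabilityMeasure_map hf.aemeasurable
  have : IsProbabilityMeasure (ν.map g) := Measure.isProbabilityMeasure_map hg.aemeasurable
  have e1 : ∫ y, H (f y, g y) ∂ν = ∫ q, H q ∂(ν.map fun y => (f y, g y)) :=
    (integral_map (hf.prodMk hg).aemeasurable hH.aestronglyMeasurable).symm
  rw [e1, h1, integral_prod _ (ib hH hH1)]
  rw [integral_map hf.aemeasurable (in_meas hH).aestronglyMeasurable]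
  refine integral_congr_ae (Eventually.of_forall fun y => ?_)
  exact integral_map hg.aemeasurable (hH.comp measurable_prodMk_left).aestronglyMeasurable

/-! ### the two-point function -/

noncomputable def JJ (μ : Measure Om) (K : ℕ) (q : ℝ × ℝ) : ℝ :=
  ∫ ω, Real.cos (PhiS K q.1 (dat ω) - PhiS K q.2 (dat ω)) ∂μ

theorem JJ_eq (μ : Measure Om) (K : ℕ) (a b : ℝ) :
    JJ μ K (a, b) = ∫ ω, Real.cos (PhiS K a (dat ω) - PhiS K b (dat ω)) ∂μ := rfl

theorem exS_ap (k : ℕ) (a : Fin (mm k) → ℝ × ℂ) (j : ℕ) (hj : j < mm k) :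
    exS k a k j = a ⟨j, hj⟩ := by
  unfold exS
  rw [dif_pos ⟨rfl, hj⟩]

theorem exL_ap (k : ℕ) (a : (Σ l : Fin k, Fin (mm l)) → ℝ × ℂ) (l j : ℕ) (hl : l < k)
    (hj : j < mm l) : exL k a l j = a ⟨⟨l, hl⟩, ⟨j, hj⟩⟩ := by
  unfold exL
  rw [dif_pos hl, dif_pos hj]

noncomputable def fS (K : ℕ) (ω : Om) : Fin (mm K) → ℝ × ℂ := fun j => dat ω K j

noncomputable def gL (K : ℕ) (ω : Om) : (Σ l : Fin K, Fin (mm l)) → ℝ × ℂ := fun s => dat ω s.1 s.2

theorem fS_meas (K : ℕ) : Measurable (fS K) := measurable_pi_iff.2 fun j =>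
    (wv_cont K j).measurable.prodMk (xv_cont K j).measurable

theorem gL_meas (K : ℕ) : Measurable (gL K) := measurable_pi_iff.2 fun s =>
    (wv_cont s.1 s.2).measurable.prodMk (xv_cont s.1 s.2).measurable

theorem ex1 (K : ℕ) (q : ℝ) (ω : Om) : stepS K q (exS K (fS K ω)) = stepf K q ω := by
  rw [stepf_eq]
  refine stepS_congr K q _ _ fun j hj => ?_
  rw [exS_ap K _ j hj, fS]

theorem ex2 (K : ℕ) (q : ℝ) (ω : Om) : PhiS K q (exL K (gL K ω)) = PhiS K q (dat ω) := by
  refine PhiS_congr K q _ _ fun l hl j hj => ?_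
  rw [exL_ap K _ l j hl hj, gL]

noncomputable def HH (K : ℕ) (p p' : ℝ)
    (q : (Fin (mm K) → ℝ × ℂ) × ((Σ l : Fin K, Fin (mm l)) → ℝ × ℂ)) : ℝ :=
  Real.cos (PhiS K (stepS K p (exS K q.1)) (exL K q.2) -
      PhiS K (stepS K p' (exS K q.1)) (exL K q.2))

theorem HH_meas (K : ℕ) (p p' : ℝ) : Measurable (HH K p p') := by
  have h0 : Measurable fun q : (Fin (mm K) → ℝ × ℂ) ×
      ((Σ l : Fin K, Fin (mm l)) → ℝ × ℂ) => exS K q.1 := (exS_meas K).comp measurable_fst
  have h2 : Measurable fun q : (Fin (mm K) → ℝ × ℂ) ×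
      ((Σ l : Fin K, Fin (mm l)) → ℝ × ℂ) => exL K q.2 := (exL_meas K).comp measurable_snd
  have h1 : ∀ p : ℝ, Measurable fun q : (Fin (mm K) → ℝ × ℂ) ×
      ((Σ l : Fin K, Fin (mm l)) → ℝ × ℂ) => PhiS K (stepS K p (exS K q.1)) (exL K q.2) :=
    fun p => PhiS_cmp K (stepS_cmp K measurable_const h0) h2
  exact ((h1 p).sub (h1 p')).cos

theorem HH_le (K : ℕ) (p p' : ℝ)
    (q : (Fin (mm K) → ℝ × ℂ) × ((Σ l : Fin K, Fin (mm l)) → ℝ × ℂ)) : |HH K p p' q| ≤ 1 :=
  Real.abs_cos_le_one _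

theorem HH_ap (K : ℕ) (p p' : ℝ) (ω ω' : Om) : HH K p p' (fS K ω, gL K ω') =
    Real.cos (PhiS K (stepf K p ω) (dat ω') - PhiS K (stepf K p' ω) (dat ω')) := by
  unfold HH
  rw [ex1, ex1, ex2, ex2]

theorem H_meas (K : ℕ) : Measurable fun r : (ℝ × ℝ) × Om =>
    Real.cos (PhiS K r.1.1 (dat r.2) - PhiS K r.1.2 (dat r.2)) := by
  have h1 : Measurable fun r : (ℝ × ℝ) × Om => (r.1.1, dat r.2) :=
    (measurable_fst.comp measurable_fst).prodMk (dat_meas.comp measurable_snd)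
  have h2 : Measurable fun r : (ℝ × ℝ) × Om => (r.1.2, dat r.2) :=
    (measurable_snd.comp measurable_fst).prodMk (dat_meas.comp measurable_snd)
  exact (((PhiS_meas K).comp h1).sub ((PhiS_meas K).comp h2)).cos

theorem JJ_meas (μ : Measure Om) [IsProbabilityMeasure μ] (K : ℕ) : Measurable (JJ μ K) :=
  in_meas (H_meas K)

theorem JJ_le (μ : Measure Om) [IsProbabilityMeasure μ] (K : ℕ) (q : ℝ × ℝ) : |JJ μ K q| ≤ 1 :=
  abs_int fun _ => Real.abs_cos_le_one _

theorem st_meas (k : ℕ) (p : ℝ) : Measurable fun ω => stepf k p ω := by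
  simp_rw [stepf_eq]
  exact stepS_cmp k measurable_const dat_meas

theorem JJ_succ (μ : Measure Om) [IsProbabilityMeasure μ] (hWH : S_WH μ) (K : ℕ) (p p' : ℝ) :
    JJ μ (K + 1) (p, p') = ∫ ω, JJ μ K (stepf K p ω, stepf K p' ω) ∂μ := by
  have hI : IndepFun (fS K) (gL K) μ := hWH.2.1 K
  have hkey := indep_fub (fS_meas K) (gL_meas K) hI (HH K p p') (HH_meas K p p') (HH_le K p p')
  simp_rw [HH_ap] at hkey
  simp_rw [JJ_eq, PhiS_succ, ← stepf_eq]
  exact hkey

/-! ### real analysis -/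

theorem central (n : ℕ) : (2 * (n : ℝ) + 1) * (Nat.centralBinom n : ℝ) ^ 2 ≤ 16 ^ n := by
  induction n with
  | zero => simp
  | succ n ih =>
    have h := Nat.succ_mul_centralBinom_succ n
    have h' : ((n : ℝ) + 1) * (Nat.centralBinom (n + 1) : ℝ) =
        2 * (2 * n + 1) * (Nat.centralBinom n : ℝ) := by exact_mod_cast h
    have hn : (0 : ℝ) < (n : ℝ) + 1 := by positivity
    have e : (Nat.centralBinom (n + 1) : ℝ) =
        2 * (2 * n + 1) * (Nat.centralBinom n : ℝ) / ((n : ℝ) + 1) := by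
      rw [eq_div_iff hn.ne', mul_comm, h']
    rw [e]
    push_cast
    have h3 : (2 * ((n : ℝ) + 1) + 1) * (2 * (2 * n + 1) * (Nat.centralBinom n : ℝ) / ((n : ℝ) + 1)) ^ 2
        = 4 * ((2 * n + 3) * (2 * n + 1)) / ((n : ℝ) + 1) ^ 2 *
          ((2 * (n : ℝ) + 1) * (Nat.centralBinom n : ℝ) ^ 2) := by
      field_simp
      ring
    rw [h3, pow_succ (16 : ℝ)]
    have h4 : 4 * ((2 * (n : ℝ) + 3) * (2 * n + 1)) / ((n : ℝ) + 1) ^ 2 ≤ 16 := by
      rw [div_le_iff₀ (by positivity)]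
      nlinarith
    calc 4 * ((2 * (n : ℝ) + 3) * (2 * n + 1)) / ((n : ℝ) + 1) ^ 2 *
          ((2 * (n : ℝ) + 1) * (Nat.centralBinom n : ℝ) ^ 2)
        ≤ 16 * 16 ^ n := mul_le_mul h4 ih (by positivity) (by norm_num)
      _ = 16 ^ n * 16 := by ring

theorem central_div {x : ℝ} (hx : 0 < x) (n : ℕ) (hn : x ^ 2 ≤ n) :
    (Nat.centralBinom n : ℝ) / 4 ^ n ≤ 1 / x := by
  have h := central n
  rw [div_le_div_iff₀ (by positivity) hx, one_mul]
  have h4 : (0 : ℝ) ≤ 4 ^ n := by positivity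
  refine le_of_sq_le_sq ?_ h4
  have h16 : ((4 : ℝ) ^ n) ^ 2 = 16 ^ n := by
    rw [← pow_mul, mul_comm, pow_mul]
    norm_num
  rw [h16, mul_pow]
  have h5 : 0 ≤ (Nat.centralBinom n : ℝ) ^ 2 := by positivity
  nlinarith

theorem exp_neg_le {x : ℝ} (h0 : 0 ≤ x) (h1 : x ≤ 1) : Real.exp (-x) ≤ 1 - x / 2 := by
  rw [Real.exp_neg, inv_le_iff_one_le_mul₀ (Real.exp_pos x)]
  have h2 := Real.quadratic_le_exp_of_nonneg h0
  have h3 : 0 ≤ 1 - x / 2 := by linarith
  nlinarith [mul_nonneg h0 h0, mul_nonneg (mul_nonneg h0 h0) h0]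

theorem ptw {c x : ℝ} {n : ℕ} (hn : (n : ℝ) ≤ c) (h0 : 0 ≤ x) (h2 : x ≤ 2) :
    Real.exp (-(c * x)) ≤ (1 - x / 2) ^ n + Real.exp (-c) := by
  have hc : 0 ≤ c := (Nat.cast_nonneg n).trans hn
  rcases le_total x 1 with h | h
  · have h1 : Real.exp (-(c * x)) ≤ Real.exp (-(n * x)) := by
      rw [Real.exp_le_exp, neg_le_neg_iff]
      exact mul_le_mul_of_nonneg_right hn h0
    have h3 : Real.exp (-(n * x)) = Real.exp (-x) ^ n := by
      rw [← Real.exp_nat_mul]
      congr 1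
      ring
    have h4 : Real.exp (-x) ^ n ≤ (1 - x / 2) ^ n :=
      pow_le_pow_left₀ (Real.exp_pos _).le (exp_neg_le h0 h) n
    have := Real.exp_pos (-c)
    linarith
  · have h1 : Real.exp (-(c * x)) ≤ Real.exp (-c) := by
      rw [Real.exp_le_exp, neg_le_neg_iff]
      nlinarith
    have h3 : 0 ≤ (1 - x / 2) ^ n := pow_nonneg (by linarith) n
    linarith

theorem half_sum (k : ℕ) : (1 : ℝ) / 2 ^ (k + 2) = 1 / 2 ^ (k + 3) + 1 / 2 ^ (k + 3) := by
  have h5 : (2 : ℝ) ^ (k + 3) = 2 ^ (k + 2) * 2 := pow_succ _ _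
  have h6 : (0 : ℝ) < 2 ^ (k + 2) := by positivity
  rw [h5]
  field_simp
  norm_num

/-- the errors of one scale -/
theorem err_le (k : ℕ) : Real.exp (-(lam k ^ 4 / 4)) +
    (Nat.centralBinom (2 ^ (2 * k + 8)) : ℝ) / 4 ^ (2 ^ (2 * k + 8)) +
      2 * Real.exp (-lam (k + 1)) ≤ 1 / 2 ^ (k + 3) := by
  set x : ℝ := lam (k + 1) with hx
  have hxe : x = 2 ^ (k + 4) := by rw [hx]; rfl
  have hx16 : 16 ≤ x := by
    rw [hxe]
    calc (16 : ℝ) = 2 ^ 4 := by norm_num
      _ ≤ 2 ^ (k + 4) := pow_le_pow_right₀ (by norm_num) (by omega)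
  have hx0 : 0 < x := by linarith
  have h1 : (Nat.centralBinom (2 ^ (2 * k + 8)) : ℝ) / 4 ^ (2 ^ (2 * k + 8)) ≤ 1 / x := by
    refine central_div hx0 _ ?_
    rw [hxe, ← pow_mul]
    push_cast
    exact pow_le_pow_right₀ (by norm_num) (by omega)
  have h2 : Real.exp (-(lam k ^ 4 / 4)) ≤ Real.exp (-x) := by
    rw [Real.exp_le_exp, neg_le_neg_iff, hxe]
    unfold lam
    rw [← pow_mul]
    have : (2 : ℝ) ^ ((k + 3) * 4) / 4 = 2 ^ (4 * k + 10) := by
      rw [show (k + 3) * 4 = (4 * k + 10) + 2 by ring, pow_add]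
      norm_num
    rw [this]
    exact pow_le_pow_right₀ (by norm_num) (by omega)
  have h3 : 3 * Real.exp (-x) ≤ 1 / x := by
    rw [Real.exp_neg, ← div_eq_mul_inv, div_le_div_iff₀ (Real.exp_pos x) hx0, one_mul]
    have := Real.quadratic_le_exp_of_nonneg hx0.le
    nlinarith
  have h4 : (1 : ℝ) / 2 ^ (k + 3) = 2 * (1 / x) := by
    have h5 : (2 : ℝ) ^ (k + 4) = 2 ^ (k + 3) * 2 := pow_succ _ _
    have h6 : (0 : ℝ) < 2 ^ (k + 3) := by positivity
    rw [hxe, h5]
    field_simp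
  rw [h4]
  linarith

theorem lam4 (k : ℕ) : ((2 ^ (2 * k + 8) : ℕ) : ℝ) ≤ lam k ^ 4 / 4 := by
  unfold lam
  rw [← pow_mul]
  have : (2 : ℝ) ^ ((k + 3) * 4) / 4 = 2 ^ (4 * k + 10) := by
    rw [show (k + 3) * 4 = (4 * k + 10) + 2 by ring, pow_add]
    norm_num
  rw [this]
  push_cast
  exact pow_le_pow_right₀ (by norm_num) (by omega)

theorem ptw_cos (k : ℕ) (D : ℝ) : Real.exp (-(lam k ^ 4 / 4 * (1 - Real.cos D))) ≤
    ((1 + Real.cos D) / 2) ^ (2 ^ (2 * k + 8)) + Real.exp (-(lam k ^ 4 / 4)) := by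
  have h1 := Real.neg_one_le_cos D
  have h2 := Real.cos_le_one D
  have h := ptw (lam4 k) (x := 1 - Real.cos D) (by linarith) (by linarith)
  have e : 1 - (1 - Real.cos D) / 2 = (1 + Real.cos D) / 2 := by ring
  rwa [e] at h

theorem pow_bd (D : ℝ) (n : ℕ) : |((1 + Real.cos D) / 2) ^ n| ≤ 1 := by
  have h1 := Real.neg_one_le_cos D
  have h2 := Real.cos_le_one D
  rw [abs_of_nonneg (pow_nonneg (by linarith) _)]
  exact pow_le_one₀ (by linarith) (by linarith)

/-! ### the induction over the scales -/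

theorem claim (μ : Measure Om) [IsProbabilityMeasure μ] (hWH : S_WH μ) (hOS : S_OS μ) (k : ℕ)
    (p p' : ℝ) : JJ μ (k + 1) (p, p') ≤ (2 * Real.exp (-8) + 1 / 4 - 1 / 2 ^ (k + 2)) +
      Real.exp (-(lam k ^ 4 / 4 * (1 - Real.cos (p - p')))) := by
  induction k generalizing p p' with
  | zero =>
    rw [JJ_succ μ hWH]
    have h := (hOS 0 p p').2
    have e1 : ∫ ω, JJ μ 0 (stepf 0 p ω, stepf 0 p' ω) ∂μ =
        ∫ ω, Real.cos (stepf 0 p ω - stepf 0 p' ω) ∂μ := by
      refine integral_congr_ae (Eventually.of_forall fun ω => ?_)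
      show ∫ _ω', Real.cos (stepf 0 p ω - stepf 0 p' ω) ∂μ = _
      rw [integral_const, probReal_univ, one_smul]
    rw [e1]
    have e2 : lam 0 = 8 := by unfold lam; norm_num
    rw [e2] at h ⊢
    refine h.trans (le_of_eq ?_)
    norm_num
  | succ k ih =>
    rw [JJ_succ μ hWH]
    have h := (hOS (k + 1) p p').1 (2 ^ (2 * k + 8))
    have he := err_le k
    set n := 2 ^ (2 * k + 8) with hn
    set A : ℝ := 2 * Real.exp (-8) + 1 / 4 - 1 / 2 ^ (k + 2) with hA
    have hsm := st_meas (k + 1)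
    have hDm : Measurable fun ω => stepf (k + 1) p ω - stepf (k + 1) p' ω := (hsm p).sub (hsm p')
    have hI1 : Integrable (fun ω => JJ μ (k + 1) (stepf (k + 1) p ω, stepf (k + 1) p' ω)) μ :=
      ib ((JJ_meas μ (k + 1)).comp ((hsm p).prodMk (hsm p'))) (fun _ => JJ_le μ _ _)
    have hI2 : Integrable (fun ω =>
        ((1 + Real.cos (stepf (k + 1) p ω - stepf (k + 1) p' ω)) / 2) ^ n) μ :=
      ib (((hDm.cos.const_add 1).div_const 2).pow_const n) (fun _ => pow_bd _ _)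
    have h1 : ∫ ω, JJ μ (k + 1) (stepf (k + 1) p ω, stepf (k + 1) p' ω) ∂μ ≤
        ∫ ω, (((1 + Real.cos (stepf (k + 1) p ω - stepf (k + 1) p' ω)) / 2) ^ n +
          (A + Real.exp (-(lam k ^ 4 / 4)))) ∂μ := by
      refine integral_mono hI1 (hI2.add (integrable_const _)) fun ω => ?_
      have h2 := ih (stepf (k + 1) p ω) (stepf (k + 1) p' ω)
      have h3 := ptw_cos k (stepf (k + 1) p ω - stepf (k + 1) p' ω)
      simp only
      linarith
    rw [integral_add hI2 (integrable_const _), integral_const, probReal_univ, one_smul] at h1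
    have e3 : (1 : ℝ) / 2 ^ (k + 1 + 2) = 1 / 2 ^ (k + 3) := by ring_nf
    have e4 : (1 : ℝ) / 2 ^ (k + 2) = 1 / 2 ^ (k + 3) + 1 / 2 ^ (k + 3) := half_sum k
    rw [e3]
    linarith

theorem exp8 : Real.exp (-8) ≤ 1 / 41 := by
  rw [Real.exp_neg, ← one_div, div_le_div_iff₀ (Real.exp_pos _) (by norm_num)]
  have := Real.quadratic_le_exp_of_nonneg (show (0:ℝ) ≤ 8 by norm_num)
  linarith

theorem amp8 (k : ℕ) : Real.exp (-(amp k ^ 2 / 2)) ≤ Real.exp (-8) := by
  rw [Real.exp_le_exp, neg_le_neg_iff]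
  have h := lam_ge k
  unfold amp
  have h1 : (8 : ℝ) ≤ lam k ^ 5 := by
    calc (8 : ℝ) ≤ lam k := h
      _ ≤ lam k ^ 5 := le_self_pow₀ (by linarith) (by norm_num)
  nlinarith

theorem ph_meas (k : ℕ) : Measurable (ph k) := by
  unfold ph
  have h1 : Continuous fun ω : Om => ∑ j ∈ Finset.range (mm k), chi k (wv k j ω) * (xv k j ω).re :=
    continuous_finsetSum _ fun j _ => ((chi_cont k).comp (wv_cont k j)).mul
      (Complex.continuous_re.comp (xv_cont k j))
  exact h1.measurable.const_mul _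

theorem dbl_le (μ : Measure Om) [IsProbabilityMeasure μ] (F G : Om × Om → ℝ) (hF : Measurable F)
    (hG : Measurable G) (hF1 : ∀ q, |F q| ≤ 1) (hG1 : ∀ q, |G q| ≤ 1) (a b : ℝ)
    (hab : ∀ q, F q ≤ a * G q + b) :
    ∫ x, ∫ y, F (x, y) ∂μ ∂μ ≤ a * ∫ x, ∫ y, G (x, y) ∂μ ∂μ + b := by
  have hi : ∀ {H : Om × Om → ℝ}, Measurable H → (∀ q, |H q| ≤ 1) → ∀ x,
      Integrable (fun y => H (x, y)) μ := fun {H} hH hH1 x =>
    ib (hH.comp measurable_prodMk_left) (B := 1) (fun y => hH1 (x, y))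
  have hj : ∀ {H : Om × Om → ℝ}, Measurable H → (∀ q, |H q| ≤ 1) →
      Integrable (fun x => ∫ y, H (x, y) ∂μ) μ := fun {H} hH hH1 =>
    ib (in_meas hH) (B := 1) (fun x => abs_int fun y => hH1 (x, y))
  have h1 : ∫ x, ∫ y, F (x, y) ∂μ ∂μ ≤ ∫ x, (a * ∫ y, G (x, y) ∂μ + b) ∂μ := by
    refine integral_mono (hj hF hF1) (((hj hG hG1).const_mul a).add (integrable_const b)) ?_
    intro x
    have h2 : ∫ y, F (x, y) ∂μ ≤ ∫ y, (a * G (x, y) + b) ∂μ :=
      integral_mono (hi hF hF1 x) (((hi hG hG1 x).const_mul a).add (integrable_const b))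
        (fun y => hab (x, y))
    have h3 : ∫ y, (a * G (x, y) + b) ∂μ = a * ∫ y, G (x, y) ∂μ + b := by
      rw [integral_add ((hi hG hG1 x).const_mul a) (integrable_const b), integral_const_mul,
        integral_const, probReal_univ, one_smul]
    rw [h3] at h2
    exact h2
  rw [integral_add ((hj hG hG1).const_mul a) (integrable_const b), integral_const_mul,
    integral_const, probReal_univ, one_smul] at h1
  exact h1

theorem cB1 : (Nat.centralBinom 1 : ℝ) = 2 := by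
  have : Nat.centralBinom 1 = 2 := by decide
  exact_mod_cast this

theorem JJ_zero (μ : Measure Om) [IsProbabilityMeasure μ] (a b : ℝ) :
    JJ μ 0 (a, b) = Real.cos (a - b) := by
  rw [JJ_eq]
  simp_rw [PhiS_zero]
  rw [integral_const, probReal_univ, one_smul]

/-- the general upper bound -/
theorem gen_le (μ : Measure Om) [IsProbabilityMeasure μ] (hOZ : S_OZ μ) (K n : ℕ) (a b : ℝ)
    (ha : 0 ≤ a) (hab : ∀ ω₁ ω₂, JJ μ K (ph K ω₁, ph K ω₂) ≤
      a * ((1 + Real.cos (ph K ω₁ - ph K ω₂)) / 2) ^ n + b) :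
      ∫ ω₁, ∫ ω₂, JJ μ K (ph K ω₁, ph K ω₂) ∂μ ∂μ ≤
        a * ((Nat.centralBinom n : ℝ) / 4 ^ n + 2 * Real.exp (-lam K) +
          Real.exp (-(amp K ^ 2 / 2))) + b := by
  have hDm : Measurable fun q : Om × Om => ph K q.1 - ph K q.2 :=
    ((ph_meas K).comp measurable_fst).sub ((ph_meas K).comp measurable_snd)
  have hpow : Measurable fun q : Om × Om => ((1 + Real.cos (ph K q.1 - ph K q.2)) / 2) ^ n :=
    ((hDm.cos.const_add 1).div_const 2).pow_const n
  have hJm : Measurable fun q : Om × Om => JJ μ K (ph K q.1, ph K q.2) :=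
    (JJ_meas μ K).comp (((ph_meas K).comp measurable_fst).prodMk ((ph_meas K).comp measurable_snd))
  have h := dbl_le μ _ _ hJm hpow (fun q => JJ_le μ _ _) (fun q => pow_bd _ _) a b
    (fun q => hab q.1 q.2)
  have h5 := mul_le_mul_of_nonneg_left (hOZ K n) ha
  exact h.trans (by linarith)

end PkgTP

open PkgOS PkgTP in
theorem pTP (μ : Measure Om) (hμ : IsW μ) (hWH : S_WH μ) (hOS : S_OS μ) (hOZ : S_OZ μ) :
    S_TP μ := by
  intro K
  have hg := hμ.gauss
  have : IsProbabilityMeasure μ := inferInstance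
  have h8 := exp8
  have hgen := gen_le μ hOZ K
  have e0 : ∫ ω₁, ∫ ω₂, ∫ ω₃, Real.cos (Phi K (ph K ω₁) ω₃ - Phi K (ph K ω₂) ω₃) ∂μ ∂μ ∂μ =
      ∫ ω₁, ∫ ω₂, JJ μ K (ph K ω₁, ph K ω₂) ∂μ ∂μ := by
    simp_rw [Phi_eq, JJ_eq]
  rw [e0]
  clear e0
  have hamp := amp8 K
  cases K with
  | zero =>
    have h1 := hgen 1 2 (-1) (by norm_num) (fun ω₁ ω₂ => by
      rw [JJ_zero, pow_one]
      linarith)
    refine h1.trans ?_
    have e2 : lam 0 = 8 := by unfold lam; norm_num
    rw [cB1, e2, pow_one]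
    linarith
  | succ k =>
    have hcl := claim μ hWH hOS k
    have he := err_le k
    have h1 := hgen (2 ^ (2 * k + 8)) 1
      ((2 * Real.exp (-8) + 1 / 4 - 1 / 2 ^ (k + 2)) + Real.exp (-(lam k ^ 4 / 4))) zero_le_one
      (fun ω₁ ω₂ => by
        have h2 := hcl (ph (k + 1) ω₁) (ph (k + 1) ω₂)
        have h3 := ptw_cos k (ph (k + 1) ω₁ - ph (k + 1) ω₂)
        rw [one_mul]
        linarith)
    refine h1.trans ?_
    have e4 : (1 : ℝ) / 2 ^ (k + 2) = 1 / 2 ^ (k + 3) + 1 / 2 ^ (k + 3) := half_sum k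
    have e5 : (0 : ℝ) < 1 / 2 ^ (k + 3) := by positivity
    rw [one_mul]
    linarith

end Pool.Agent.T2H68.UB
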