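import Pool.Agent.T2H68.UB.Defs

/-!
# Project UB: the slots (helper74)
-/

set_option autoImplicit false

open MeasureTheory ProbabilityTheory Set Filter Finset
open scoped ENNReal NNReal Topology ComplexConjugate

namespace Pool.Agent.T2H68.UB.PkgG

open Pool.Agent.T2H68.UB

lemma lam_pos (k : ℕ) : 0 < lam k := by unfold lam; positivity

lemma mm_pos (k : ℕ) : 0 < mm k := by
  unfold mm
  have : 0 < ⌈40 * lam k ^ 2 * Real.exp (lam k ^ 2 / 2)⌉₊ := by
    rw [Nat.ceil_pos]
    have := lam_pos k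
    positivity
  omega

lemma mm_pos' (k : ℕ) : (0 : ℝ) < mm k := by exact_mod_cast mm_pos k

lemma hh_pos (k : ℕ) : 0 < hh k := by
  unfold hh
  have := mm_pos' k
  positivity

lemma st_mm (k : ℕ) : st k (mm k) = 1 / 2 ^ k := by
  unfold st hh
  have := mm_pos' k
  field_simp
  ring

lemma st_succ (k j : ℕ) : st k j + hh k = st k (j + 1) := by
  unfold st
  push_cast
  ring

lemma st_mono (k : ℕ) {i j : ℕ} (h : i ≤ j) : st k i ≤ st k j := by
  unfold st
  have := hh_pos k
  have : (i : ℝ) ≤ j := by exact_mod_cast h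
  nlinarith

lemma st_ge (k j : ℕ) : 1 / 2 ^ (k + 1) ≤ st k j := by
  unfold st
  have := hh_pos k
  have : (0 : ℝ) ≤ j := by positivity
  nlinarith

lemma st_pos (k j : ℕ) : 0 < st k j := lt_of_lt_of_le (by positivity) (st_ge k j)

lemma st_end_le (k j : ℕ) (h : j < mm k) : st k j + hh k ≤ 1 / 2 ^ k := by
  rw [st_succ, ← st_mm]
  exact st_mono k h

lemma pow_le_one' (k : ℕ) : (1 : ℝ) / 2 ^ k ≤ 1 := by
  rw [div_le_one (by positivity)]
  exact one_le_pow₀ (by norm_num)

lemma st_end_le_one (k j : ℕ) (h : j < mm k) : st k j + hh k ≤ 1 :=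
  (st_end_le k j h).trans (pow_le_one' k)

lemma slot_disj (k j k' j' : ℕ) (hj : j < mm k) (hj' : j' < mm k') (h : ¬ (k = k' ∧ j = j')) :
    st k j + hh k ≤ st k' j' ∨ st k' j' + hh k' ≤ st k j := by
  rcases lt_trichotomy k k' with hk | hk | hk
  · right
    refine (st_end_le k' j' hj').trans (le_trans ?_ (st_ge k j))
    exact one_div_le_one_div_of_le (by positivity) (pow_le_pow_right₀ (by norm_num) hk)
  · subst hk
    rcases lt_trichotomy j j' with hjj | hjj | hjj
    · left; rw [st_succ]; exact st_mono k hjj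
    · exact absurd ⟨rfl, hjj⟩ h
    · right; rw [st_succ]; exact st_mono k hjj
  · left
    refine (st_end_le k j hj).trans (le_trans ?_ (st_ge k' j'))
    exact one_div_le_one_div_of_le (by positivity) (pow_le_pow_right₀ (by norm_num) hk)

end Pool.Agent.T2H68.UB.PkgG
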