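import Pool.Agent.T2H68.UB.Stm
import Pool.Agent.T2H68.UB.GBase
import Pool.Agent.T2H68.UB.GSlots

/-! # Package WG (helper74): the data are i.i.d. standard Gaussian -/

set_option autoImplicit false

open MeasureTheory ProbabilityTheory Set Filter Finset
open scoped ENNReal NNReal Topology ComplexConjugate

namespace Pool.Agent.T2H68.UB

namespace PkgWG

open PkgG

variable {μ : Measure Om}

/-- the functional number `i` of the slot `(k, j)` -/
noncomputable def fn (k j : ℕ) : Fin 3 → StrongDual ℝ Om :=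
  ![(2 / Real.sqrt (hh k)) • inc false (st k j) (st k j + hh k / 4),
    (2 / Real.sqrt (hh k)) • inc false (st k j + hh k / 2) (st k j + 3 * hh k / 4),
    (2 / Real.sqrt (hh k)) • inc true (st k j + hh k / 2) (st k j + 3 * hh k / 4)]

lemma fn_apply (k j : ℕ) (i : Fin 3) (ω : Om) :
    fn k j i ω = (![wv k j ω, (xv k j ω).re, (xv k j ω).im] : Fin 3 → ℝ) i := by
  fin_cases i
  · rfl
  · simp only [fn, xv]
    change (2 / Real.sqrt (hh k)) * (X (st k j + 3 * hh k / 4) ω - X (st k j + hh k / 2) ω).re = 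
      (((2 / Real.sqrt (hh k) : ℝ) : ℂ) * (X (st k j + 3 * hh k / 4) ω - X (st k j + hh k / 2) ω)).re
    rw [Complex.re_ofReal_mul]
  · simp only [fn, xv]
    change (2 / Real.sqrt (hh k)) * (X (st k j + 3 * hh k / 4) ω - X (st k j + hh k / 2) ω).im = 
      (((2 / Real.sqrt (hh k) : ℝ) : ℂ) * (X (st k j + 3 * hh k / 4) ω - X (st k j + hh k / 2) ω)).im
    rw [Complex.im_ofReal_mul]

lemma sc (k : ℕ) : (2 / Real.sqrt (hh k)) * ((2 / Real.sqrt (hh k)) * (hh k / 4)) = 1 := by
  have h := hh_pos k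
  have hs : Real.sqrt (hh k) * Real.sqrt (hh k) = hh k := Real.mul_self_sqrt h.le
  have hs0 : Real.sqrt (hh k) ≠ 0 := (Real.sqrt_pos.mpr h).ne'
  field_simp
  nlinarith

/-- same slot -/
lemma cv_same (hμ : IsW μ) (k j : ℕ) (hj : j < mm k) (i i' : Fin 3) :
    cv μ (fn k j i) (fn k j i') = if i = i' then 1 else 0 := by
  have h := hh_pos k
  have h0 := (st_pos k j).le
  have h1 := st_end_le_one k j hj
  have hsc := sc k
  fin_cases i <;> fin_cases i' <;>
    simp only [fn, cv_smul_left, cv_smul_right, Fin.zero_eta, Fin.mk_one, Fin.reduceFinMk, 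
      Matrix.cons_val]
  · rw [cv_inc_self hμ _ _ _ _ (by linarith) (by linarith) (by linarith)]
    simp only [if_true]
    rw [show st k j + hh k / 4 - st k j = hh k / 4 by ring]; exact hsc
  · rw [cv_inc_disj hμ _ _ _ _ _ _ (by linarith) (by linarith) (by linarith) (by linarith) (by linarith)]
    simp
  · rw [cv_inc_disj hμ _ _ _ _ _ _ (by linarith) (by linarith) (by linarith) (by linarith) (by linarith)]
    simp
  · rw [cv_comm, cv_inc_disj hμ _ _ _ _ _ _ (by linarith) (by linarith) (by linarith) (by linarith) (by linarith)]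
    simp
  · rw [cv_inc_self hμ _ _ _ _ (by linarith) (by linarith) (by linarith)]
    simp only [if_true]
    rw [show st k j + 3 * hh k / 4 - (st k j + hh k / 2) = hh k / 4 by ring]; exact hsc
  · rw [cv_inc_self hμ _ _ _ _ (by linarith) (by linarith) (by linarith)]
    simp
  · rw [cv_comm, cv_inc_disj hμ _ _ _ _ _ _ (by linarith) (by linarith) (by linarith) (by linarith) (by linarith)]
    simp
  · rw [cv_inc_self hμ _ _ _ _ (by linarith) (by linarith) (by linarith)]
    simp
  · rw [cv_inc_self hμ _ _ _ _ (by linarith) (by linarith) (by linarith)]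
    simp only [if_true]
    rw [show st k j + 3 * hh k / 4 - (st k j + hh k / 2) = hh k / 4 by ring]; exact hsc

lemma fn_form (k j : ℕ) (i : Fin 3) : ∃ (c : Bool) (a b x : ℝ), fn k j i = x • inc c a b ∧
    st k j ≤ a ∧ a ≤ b ∧ b ≤ st k j + hh k := by
  have h := hh_pos k
  fin_cases i
  · exact ⟨false, st k j, st k j + hh k / 4, 2 / Real.sqrt (hh k), rfl, by linarith, by linarith,
      by linarith⟩
  · exact ⟨false, st k j + hh k / 2, st k j + 3 * hh k / 4, 2 / Real.sqrt (hh k), rfl,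
      by linarith, by linarith, by linarith⟩
  · exact ⟨true, st k j + hh k / 2, st k j + 3 * hh k / 4, 2 / Real.sqrt (hh k), rfl,
      by linarith, by linarith, by linarith⟩

lemma cv_diff (hμ : IsW μ) (k j k' j' : ℕ) (hj : j < mm k) (hj' : j' < mm k')
    (h : ¬ (k = k' ∧ j = j')) (i i' : Fin 3) : cv μ (fn k j i) (fn k' j' i') = 0 := by
  obtain ⟨c, a, b, x, e, h1, h2, h3⟩ := fn_form k j i
  obtain ⟨c', a', b', x', e', h1', h2', h3'⟩ := fn_form k' j' i'
  have p := (st_pos k j).le
  have p' := (st_pos k' j').le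
  have q := st_end_le_one k j hj
  have q' := st_end_le_one k' j' hj'
  rw [e, e', cv_smul_left, cv_smul_right]
  rcases slot_disj k j k' j' hj hj' h with hh | hh
  · rw [cv_inc_disj hμ _ _ _ _ _ _ (by linarith) h2 (by linarith) h2' (by linarith)]
    simp
  · rw [cv_comm, cv_inc_disj hμ _ _ _ _ _ _ (by linarith) h2' (by linarith) h2 (by linarith)]
    simp

/-- the law of one functional -/
lemma law_fn (hμ : IsW μ) (k j : ℕ) (hj : j < mm k) (i : Fin 3) :
    μ.map (fun ω => fn k j i ω) = gaussianReal 0 1 := by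
  have hp := hμ.gauss
  have h := IsGaussian.map_eq_gaussianReal (μ := μ) (fn k j i)
  have hv : Var[fn k j i; μ] = 1 := by
    rw [← covariance_self (by exact (fn k j i).continuous.measurable.aemeasurable)]
    have := cov_eq hμ (fn k j i) (fn k j i)
    rw [show (fun ω => fn k j i ω) = (fn k j i : Om → ℝ) from rfl] at this
    rw [this, cv_same hμ k j hj, if_pos rfl]
  have hm : μ[fn k j i] = 0 := hμ.mean _
  rw [hm, hv] at h
  simpa using h

end PkgWG

open PkgG PkgWG in
theorem pWG (μ : Measure Om) (hμ : IsW μ) : S_WG μ := by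
  intro K
  have hp := hμ.gauss
  set f : (Σ k : Fin K, Fin (mm k)) × Fin 3 → StrongDual ℝ Om :=
    fun s => fn s.1.1 s.1.2 s.2 with hf
  have hL : HasGaussianLaw (fun (ω : Om) (s : (Σ k : Fin K, Fin (mm k)) × Fin 3) => f s ω) μ :=
    (IsGaussian.hasGaussianLaw_id (μ := μ)).map_fun (ContinuousLinearMap.pi f)
  have hI : iIndepFun (fun (s : (Σ k : Fin K, Fin (mm k)) × Fin 3) (ω : Om) => f s ω) μ := by
    refine HasGaussianLaw.iIndepFun_of_covariance_eq_zero hL ?_
    rintro ⟨⟨k, j⟩, i⟩ ⟨⟨k', j'⟩, i'⟩ hne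
    change cov[fun ω => f _ ω, fun ω => f _ ω; μ] = 0
    rw [cov_eq hμ]
    simp only [hf]
    by_cases hkj : (k : ℕ) = k' ∧ (j : ℕ) = j'
    · obtain ⟨h1, h2⟩ := hkj
      have hk : k = k' := Fin.ext h1
      subst hk
      have hj : j = j' := Fin.ext h2
      subst hj
      have hi : i ≠ i' := fun h => hne (by rw [h])
      rw [cv_same hμ _ _ j.2, if_neg hi]
    · exact cv_diff hμ _ _ _ _ j.2 j'.2 hkj i i'
  have hE : (fun (ω : Om) (s : (Σ k : Fin K, Fin (mm k)) × Fin 3) =>
      (![wv s.1.1 s.1.2 ω, (xv s.1.1 s.1.2 ω).re, (xv s.1.1 s.1.2 ω).im] : Fin 3 → ℝ) s.2) =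
      fun (ω : Om) (s : (Σ k : Fin K, Fin (mm k)) × Fin 3) => f s ω := by
    funext ω s
    rw [hf]
    exact (fn_apply _ _ _ _).symm
  rw [hE]
  rw [iIndepFun_iff_map_fun_eq_pi_map
    (fun s => (f s).continuous.measurable.aemeasurable)] at hI
  rw [hI]
  congr 1
  funext s
  exact law_fn hμ _ _ s.1.2.2 _

end Pool.Agent.T2H68.UB
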