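import Pool.Agent.T2H68.UB.P_WG

/-! # Package WH (helper74): regrouping of a product measure -/

set_option autoImplicit false

open MeasureTheory ProbabilityTheory Set Filter Finset
open scoped ENNReal NNReal Topology ComplexConjugate

namespace Pool.Agent.T2H68.UB

namespace PkgWH

open PkgG PkgWG

variable {μ : Measure Om}

/-- index set -/
abbrev II (K : ℕ) : Type := (Σ k : Fin K, Fin (mm k)) × Fin 3

noncomputable def F {K : ℕ} (s : II K) (ω : Om) : ℝ :=
  (![wv s.1.1 s.1.2 ω, (xv s.1.1 s.1.2 ω).re, (xv s.1.1 s.1.2 ω).im] : Fin 3 → ℝ) s.2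

lemma F_eq {K : ℕ} (s : II K) : F s = fun ω => fn s.1.1 s.1.2 s.2 ω := by
  funext ω
  exact (fn_apply _ _ _ _).symm

lemma F_meas {K : ℕ} (s : II K) : Measurable (F s) := by
  rw [F_eq]
  exact (fn _ _ _).continuous.measurable

lemma F_law (hμ : IsW μ) {K : ℕ} (s : II K) : μ.map (F s) = gaussianReal 0 1 := by
  rw [F_eq]
  exact law_fn hμ _ _ s.1.2.2 _

lemma F_indep (hμ : IsW μ) (hWG : S_WG μ) (K : ℕ) : iIndepFun (fun (s : II K) => F s) μ := by
  have hp := hμ.gauss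
  rw [iIndepFun_iff_map_fun_eq_pi_map (fun s => (F_meas s).aemeasurable)]
  have h := hWG K
  refine Eq.trans h ?_
  congr 1
  funext s
  exact (F_law hμ s).symm

/-- the coordinates of the last scale -/
def e (k : ℕ) (i : Fin 3) (j : Fin (mm k)) : II (k + 1) := (⟨⟨k, k.lt_succ_self⟩, j⟩, i)

lemma e_inj {k : ℕ} {i i' : Fin 3} {j j' : Fin (mm k)} (h : e k i j = e k i' j') :
    i = i' ∧ j = j' := by
  unfold e at h
  simpa [Prod.ext_iff, and_comm] using h

lemma law_sub (hμ : IsW μ) (hWG : S_WG μ) {K : ℕ} {ι : Type} [Fintype ι] (g : ι → II K)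
    (hg : Function.Injective g) :
    μ.map (fun ω i => F (g i) ω) = Measure.pi fun _ => gaussianReal 0 1 := by
  have hp := hμ.gauss
  have h := (F_indep hμ hWG K).precomp hg
  rw [iIndepFun_iff_map_fun_eq_pi_map (fun s => (F_meas _).aemeasurable)] at h
  refine Eq.trans h ?_
  congr 1
  funext s
  exact F_law hμ _

lemma F0 (k : ℕ) (j : Fin (mm k)) (ω : Om) : F (e k 0 j) ω = wv k j ω := rfl
lemma F1 (k : ℕ) (j : Fin (mm k)) (ω : Om) : F (e k 1 j) ω = (xv k j ω).re := rfl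
lemma F2 (k : ℕ) (j : Fin (mm k)) (ω : Om) : F (e k 2 j) ω = (xv k j ω).im := rfl

lemma meas_wv (k j : ℕ) (_h : j < mm k) : Measurable (wv k j) := by
  have := (fn k j 0).continuous.measurable
  have e : (fun ω => fn k j 0 ω) = wv k j := by
    funext ω; rw [fn_apply]; rfl
  rw [← e]; exact this

lemma meas_re (k j : ℕ) (_h : j < mm k) : Measurable (fun ω => (xv k j ω).re) := by
  have := (fn k j 1).continuous.measurable
  have e : (fun ω => fn k j 1 ω) = fun ω => (xv k j ω).re := by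
    funext ω; rw [fn_apply]; rfl
  rw [← e]; exact this

lemma meas_im (k j : ℕ) (_h : j < mm k) : Measurable (fun ω => (xv k j ω).im) := by
  have := (fn k j 2).continuous.measurable
  have e : (fun ω => fn k j 2 ω) = fun ω => (xv k j ω).im := by
    funext ω; rw [fn_apply]; rfl
  rw [← e]; exact this

/-- first part -/
lemma part1 (hμ : IsW μ) (hWG : S_WG μ) (k : ℕ) :
    μ.map (fun ω => ((fun j : Fin (mm k) => wv k j ω),
      (fun j : Fin (mm k) => (xv k j ω).re), (fun j : Fin (mm k) => (xv k j ω).im))) =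
    (Measure.pi fun _ => gaussianReal 0 1).prod
      ((Measure.pi fun _ => gaussianReal 0 1).prod (Measure.pi fun _ => gaussianReal 0 1)) := by
  set g : Fin (mm k) ⊕ (Fin (mm k) ⊕ Fin (mm k)) → II (k + 1) :=
    Sum.elim (e k 0) (Sum.elim (e k 1) (e k 2)) with hg
  have hinj : Function.Injective g := by
    rintro (x | x | x) (y | y | y) h
    · rw [(e_inj (h : e k 0 x = e k 0 y)).2]
    · exact absurd (e_inj (h : e k 0 x = e k 1 y)).1 (by decide)
    · exact absurd (e_inj (h : e k 0 x = e k 2 y)).1 (by decide)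
    · exact absurd (e_inj (h : e k 1 x = e k 0 y)).1 (by decide)
    · rw [(e_inj (h : e k 1 x = e k 1 y)).2]
    · exact absurd (e_inj (h : e k 1 x = e k 2 y)).1 (by decide)
    · exact absurd (e_inj (h : e k 2 x = e k 0 y)).1 (by decide)
    · exact absurd (e_inj (h : e k 2 x = e k 1 y)).1 (by decide)
    · rw [(e_inj (h : e k 2 x = e k 2 y)).2]
  have h := law_sub hμ hWG g hinj
  have m1 := measurePreserving_sumPiEquivProdPi
    (X := fun _ : Fin (mm k) ⊕ (Fin (mm k) ⊕ Fin (mm k)) => ℝ) (fun _ => gaussianReal 0 1)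
  have m2 := measurePreserving_sumPiEquivProdPi
    (X := fun _ : Fin (mm k) ⊕ Fin (mm k) => ℝ) (fun _ => gaussianReal 0 1)
  have m3 := (MeasurePreserving.id (Measure.pi fun _ : Fin (mm k) => gaussianReal 0 1)).prod m2
  have m4 := m3.comp m1
  rw [← m4.map_eq, ← h, Measure.map_map m4.measurable]
  · rfl
  · exact measurable_pi_lambda _ fun i => F_meas _

/-- second part -/
lemma part2 (hμ : IsW μ) (hWG : S_WG μ) (k : ℕ) :
    IndepFun (fun (ω : Om) (j : Fin (mm k)) => (wv k j ω, xv k j ω))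
    (fun (ω : Om) (s : Σ l : Fin k, Fin (mm l)) => (wv s.1 s.2 ω, xv s.1 s.2 ω)) μ := by
  classical
  set S : Finset (II (k + 1)) := Finset.univ.filter fun s => (s.1.1 : ℕ) = k with hS
  set T : Finset (II (k + 1)) := Finset.univ.filter fun s => (s.1.1 : ℕ) ≠ k with hT
  have hST : Disjoint S T := by
    rw [Finset.disjoint_left]
    intro s h1 h2
    rw [hS, Finset.mem_filter] at h1
    rw [hT, Finset.mem_filter] at h2
    exact h2.2 h1.2
  have h := iIndepFun.indepFun_finset S T hST (F_indep hμ hWG (k + 1)) F_meas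
  have hSm : ∀ (i : Fin 3) (j : Fin (mm k)), e k i j ∈ S := by
    intro i j
    rw [hS, Finset.mem_filter]
    exact ⟨Finset.mem_univ _, rfl⟩
  have hTm : ∀ (i : Fin 3) (s : Σ l : Fin k, Fin (mm l)),
      ((⟨⟨s.1, s.1.2.trans k.lt_succ_self⟩, s.2⟩, i) : II (k + 1)) ∈ T := by
    intro i s
    rw [hT, Finset.mem_filter]
    exact ⟨Finset.mem_univ _, s.1.2.ne⟩
  have h2 := IndepFun.comp h
    (φ := fun (f : S → ℝ) (j : Fin (mm k)) =>
      (f ⟨e k 0 j, hSm 0 j⟩, ((f ⟨e k 1 j, hSm 1 j⟩ : ℝ) : ℂ) + (f ⟨e k 2 j, hSm 2 j⟩ : ℝ) * Complex.I))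
    (ψ := fun (f : T → ℝ) (s : Σ l : Fin k, Fin (mm l)) =>
      (f ⟨_, hTm 0 s⟩, ((f ⟨_, hTm 1 s⟩ : ℝ) : ℂ) + (f ⟨_, hTm 2 s⟩ : ℝ) * Complex.I))
    (by fun_prop) (by fun_prop)
  have e1 : (fun (ω : Om) (j : Fin (mm k)) => (wv k j ω, xv k j ω)) =
      (fun (f : S → ℝ) (j : Fin (mm k)) =>
      (f ⟨e k 0 j, hSm 0 j⟩, ((f ⟨e k 1 j, hSm 1 j⟩ : ℝ) : ℂ) + (f ⟨e k 2 j, hSm 2 j⟩ : ℝ) * Complex.I)) ∘
      (fun a (i : S) => F (i : II (k + 1)) a) := by
    funext ω j
    refine Prod.ext rfl ?_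
    exact (Complex.re_add_im _).symm
  have e2 : (fun (ω : Om) (s : Σ l : Fin k, Fin (mm l)) => (wv s.1 s.2 ω, xv s.1 s.2 ω)) =
      (fun (f : T → ℝ) (s : Σ l : Fin k, Fin (mm l)) =>
      (f ⟨_, hTm 0 s⟩, ((f ⟨_, hTm 1 s⟩ : ℝ) : ℂ) + (f ⟨_, hTm 2 s⟩ : ℝ) * Complex.I)) ∘
      (fun a (i : T) => F (i : II (k + 1)) a) := by
    funext ω s
    refine Prod.ext rfl ?_
    exact (Complex.re_add_im _).symm
  rw [e1, e2]
  exact h2

/-- third part -/
lemma part34 (hμ : IsW μ) (hWG : S_WG μ) (k : ℕ) :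
    (∀ j : Fin (mm k), μ.map (fun ω => (wv k j ω, (xv k j ω).re)) =
      (gaussianReal 0 1).prod (gaussianReal 0 1)) ∧
    iIndepFun (fun (j : Fin (mm k)) (ω : Om) => (wv k j ω, (xv k j ω).re)) μ := by
  have hp := hμ.gauss
  have hI := F_indep hμ hWG (k + 1)
  have hm : ∀ j : Fin (mm k), Measurable fun ω => (wv k j ω, (xv k j ω).re) := fun j =>
    (meas_wv k j j.2).prodMk (meas_re k j j.2)
  have h4 : ∀ j : Fin (mm k), μ.map (fun ω => (wv k j ω, (xv k j ω).re)) =
      (gaussianReal 0 1).prod (gaussianReal 0 1) := by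
    intro j
    have hne : e k 0 j ≠ e k 1 j := fun h => absurd (e_inj h).1 (by decide)
    have h := hI.indepFun hne
    rw [indepFun_iff_map_prod_eq_prod_map_map (F_meas _).aemeasurable (F_meas _).aemeasurable,
      F_law hμ, F_law hμ] at h
    exact h
  refine ⟨h4, ?_⟩
  rw [iIndepFun_iff_map_fun_eq_pi_map (fun j => (hm j).aemeasurable)]
  simp_rw [h4]
  set g : Fin (mm k) ⊕ Fin (mm k) → II (k + 1) := Sum.elim (e k 0) (e k 1) with hg
  have hinj : Function.Injective g := by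
    rintro (x | x) (y | y) h
    · rw [(e_inj (h : e k 0 x = e k 0 y)).2]
    · exact absurd (e_inj (h : e k 0 x = e k 1 y)).1 (by decide)
    · exact absurd (e_inj (h : e k 1 x = e k 0 y)).1 (by decide)
    · rw [(e_inj (h : e k 1 x = e k 1 y)).2]
  have h := law_sub hμ hWG g hinj
  have m1 := measurePreserving_sumPiEquivProdPi
    (X := fun _ : Fin (mm k) ⊕ Fin (mm k) => ℝ) (fun _ => gaussianReal 0 1)
  have m2 := (measurePreserving_arrowProdEquivProdArrow ℝ ℝ (Fin (mm k))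
    (fun _ => gaussianReal 0 1) (fun _ => gaussianReal 0 1)).symm
  have m4 := m2.comp m1
  rw [← m4.map_eq, ← h, Measure.map_map m4.measurable]
  · rfl
  · exact measurable_pi_lambda _ fun i => F_meas _

end PkgWH

theorem pWH (μ : Measure Om) (hμ : IsW μ) (hWG : S_WG μ) : S_WH μ :=
  ⟨fun k => PkgWH.part1 hμ hWG k, fun k => PkgWH.part2 hμ hWG k,
    fun k => (PkgWH.part34 hμ hWG k).2, fun k j hj => (PkgWH.part34 hμ hWG k).1 ⟨j, hj⟩⟩

end Pool.Agent.T2H68.UB
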