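import Mathlib
import Pool.Agent.R876.WM.Stm

/-!
# Project UB (MP_ddd117_pr): a continuous adapted multiplicator `U` for which `θ` (`dB ↦ U dB`) is not
invertible.

`Om = C([0,1], ℂ)` with `ℂ = ℝ²` is the path space, `X t` the coordinate process.
Scales `k = 0, 1, 2, …`: the time interval `[2^(-k-1), 2^(-k)]` is divided into `mm k` slots
`[st k j, st k j + hh k)`, `j < mm k`.  In the first quarter of a slot nothing happens, and the
increment of the real part of the path is `wv k j` (standard Gaussian).  In the third quarter the angle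
of rotation is constant equal to `ang k j ω`, and `xv k j` is the (normalised) increment of the path.
The slot is active only if `wv k j > lam k` (rare event for one slot, but `mm k` is so large that
there are active slots), and the angle depends on the phase `ph (k+1)`, which is read from the
active slots of the previous scale `k + 1`.
-/

set_option autoImplicit false

open MeasureTheory ProbabilityTheory Set Filter Finset
open scoped ENNReal NNReal Topology ComplexConjugate

namespace Pool.Agent.T2H68.UB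

/-- the path space -/
abbrev Om : Type := C(Set.Icc (0 : ℝ) 1, ℂ)

noncomputable instance instMeasurableSpaceOm : MeasurableSpace Om := borel Om
instance instBorelSpaceOm : BorelSpace Om := ⟨rfl⟩

/-- Lebesgue measure on `[0,1]` -/
noncomputable abbrev lb : Measure ℝ := (volume : Measure ℝ).restrict (Set.Icc (0 : ℝ) 1)

/-- The Cameron-Martin space `H`, identified with `L²([0,1], ℝ²)` by `h ↦ ḣ` -/
abbrev HH : Type := Lp ℂ 2 lb

/-- the coordinate process (constant for `t ≤ 0` and `t ≥ 1`) -/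
noncomputable def X (t : ℝ) (ω : Om) : ℂ := ω (Set.projIcc 0 1 zero_le_one t)

/-- `μ` is the Wiener measure on the paths in `ℝ² = ℂ` -/
structure IsW (μ : Measure Om) : Prop where
  gauss : IsGaussian μ
  mean : ∀ L : StrongDual ℝ Om, ∫ ω, L ω ∂μ = 0
  rr : ∀ s t : ℝ, 0 ≤ s → s ≤ t → t ≤ 1 → ∫ ω, (X s ω).re * (X t ω).re ∂μ = s
  ii : ∀ s t : ℝ, 0 ≤ s → s ≤ t → t ≤ 1 → ∫ ω, (X s ω).im * (X t ω).im ∂μ = s
  ri : ∀ s t : ℝ, 0 ≤ s → s ≤ 1 → 0 ≤ t → t ≤ 1 → ∫ ω, (X s ω).re * (X t ω).im ∂μ = 0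

/-- the Brownian filtration -/
@[reducible] noncomputable def Fil (t : ℝ) : MeasurableSpace Om :=
  ⨆ (s : ℝ) (_ : s ≤ t), MeasurableSpace.comap (X s) inferInstance

/-- `b = ∫_0^· u(s)⁻¹ dω(s)` : limit of the left Riemann sums, uniformly for all partitions -/
def IsRS (u : ℝ → ℂ) (ω b : Om) : Prop :=
  ∀ ε > (0 : ℝ), ∃ δ > (0 : ℝ), ∀ (n : ℕ) (τ : ℕ → ℝ), τ 0 = 0 → τ n ≤ 1 →
    (∀ i < n, τ i ≤ τ (i + 1) ∧ τ (i + 1) - τ i ≤ δ) →
    ‖∑ i ∈ Finset.range n, conj (u (τ i)) * (X (τ (i + 1)) ω - X (τ i) ω) - X (τ n) b‖ ≤ ε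

/-! ### Parameters -/

noncomputable def lam (k : ℕ) : ℝ := 2 ^ (k + 3)
noncomputable def eta (k : ℕ) : ℝ := 1 / lam k ^ 3
noncomputable def amp (k : ℕ) : ℝ := lam k ^ 5
/-- number of slots of scale `k` -/
noncomputable def mm (k : ℕ) : ℕ := 2 * ⌈40 * lam k ^ 2 * Real.exp (lam k ^ 2 / 2)⌉₊
/-- length of a slot -/
noncomputable def hh (k : ℕ) : ℝ := 1 / 2 ^ (k + 1) / (mm k : ℝ)
/-- beginning of a slot -/
noncomputable def st (k j : ℕ) : ℝ := 1 / 2 ^ (k + 1) + (j : ℝ) * hh k

/-! ### The functionals of the path -/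

/-- standard Gaussian, increment of the first quarter of the slot -/
noncomputable def wv (k j : ℕ) (ω : Om) : ℝ :=
  2 / Real.sqrt (hh k) * (X (st k j + hh k / 4) ω - X (st k j) ω).re
/-- increment of the third quarter of the slot -/
noncomputable def xv (k j : ℕ) (ω : Om) : ℂ :=
  ((2 / Real.sqrt (hh k) : ℝ) : ℂ) * (X (st k j + 3 * hh k / 4) ω - X (st k j + hh k / 2) ω)
/-- activity -/
noncomputable def chi (k : ℕ) (w : ℝ) : ℝ := Real.smoothTransition (lam k * (w - lam k))
/-- the phase read from scale `k` -/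
noncomputable def ph (k : ℕ) (ω : Om) : ℝ :=
  amp k * ∑ j ∈ Finset.range (mm k), chi k (wv k j ω) * (xv k j ω).re
noncomputable def gg (j : ℕ) (p : ℝ) : ℝ := if Even j then Real.cos p else Real.sin p
/-- the angle of the rotation in the third quarter of the slot -/
noncomputable def ang (k j : ℕ) (ω : Om) : ℝ := eta k * chi k (wv k j ω) * gg j (ph (k + 1) ω)
/-- smooth bump: `0` on `(-∞, 1/4]` and on `[1, ∞)`, `1` on `[1/2, 3/4]` -/
noncomputable def bmp (r : ℝ) : ℝ := Real.smoothTransition (4 * r - 1) * Real.smoothTransition (4 - 4 * r)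
noncomputable def bt (k j : ℕ) (t : ℝ) : ℝ := bmp ((t - st k j) / hh k)
/-- the angle of rotation at time `t` -/
noncomputable def phi (t : ℝ) (ω : Om) : ℝ :=
  ∑' k : ℕ, ∑ j ∈ Finset.range (mm k), ang k j ω * bt k j t
/-- the multiplicator: `UU t ω` is the rotation of `ℂ = ℝ²` by the angle `phi t ω` -/
noncomputable def UU (t : ℝ) (ω : Om) : ℂ := Complex.exp (Complex.I * (phi t ω : ℝ))

/-! ### The dynamics of the phases, given the path `b` of the integral -/

noncomputable def stepf (k : ℕ) (p : ℝ) (b : Om) : ℝ :=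
  amp k * ∑ j ∈ Finset.range (mm k), chi k (wv k j b) *
    (Complex.exp (Complex.I * ((eta k * chi k (wv k j b) * gg j p : ℝ) : ℂ)) * xv k j b).re

noncomputable def Phi : ℕ → ℝ → Om → ℝ
  | 0, p, _ => p
  | K + 1, p, b => Phi K (stepf K p b) b

/-! ### Operators -/

/-- multiplication by `UU` -/
def IsA (A : Om → (HH →L[ℝ] HH)) : Prop :=
  ∀ (ω : Om) (v : HH), (A ω v : ℝ → ℂ) =ᵐ[lb] fun t => UU t ω * (v : ℝ → ℂ) t

/-- restriction to the slots -/
def IsE (E : ℕ → ℕ → HH →L[ℝ] HH) : Prop :=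
  ∀ (k j : ℕ) (v : HH), (E k j v : ℝ → ℂ) =ᵐ[lb]
    (Set.Ico (st k j) (st k j + hh k)).indicator (v : ℝ → ℂ)

/-- one rotation of a pair of paths -/
noncomputable def r1 (α : ℝ) (z : Om × Om) : Om := Real.cos α • z.1 + Real.sin α • z.2

/-- weight of the (nearly) active slots of scale `k` -/
noncomputable def SS (n k : ℕ) (z : Om × Om) : ℝ :=
  ∑ j ∈ Finset.range (mm k), if lam k ^ 2 < wv k j z.1 ^ 2 + wv k j z.2 ^ 2 then
    (1 + |(xv k j z.1).re| + |(xv k j z.2).re|) * (1 + lam k * (1 + |wv k j z.1| + |wv k j z.2|)) ^ n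
    else 0

end Pool.Agent.T2H68.UB
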