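import Pool.Agent.T2H68.UB.Stm

/-!
# Package EV: the Borel sets of the path space are generated by the evaluations
-/

set_option autoImplicit false

open MeasureTheory Set Filter Topology

namespace Pool.Agent.T2H68.UB.PkgEV

variable {Z : Type} [MeasurableSpace Z]

theorem ball_meas (F : Z → Om) (hF : ∀ t, Measurable (fun z => F z t)) (d : Om) {r : ℝ}
    (hr : 0 ≤ r) : MeasurableSet (F ⁻¹' Metric.closedBall d r) := by
  obtain ⟨S, hSc, hSd⟩ := TopologicalSpace.exists_countable_dense (Set.Icc (0 : ℝ) 1)
  have e : F ⁻¹' Metric.closedBall d r = ⋂ t ∈ S, {z | dist (F z t) (d t) ≤ r} := by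
    ext z
    simp only [Set.mem_preimage, Metric.mem_closedBall, Set.mem_iInter, Set.mem_ofPred_eq]
    rw [ContinuousMap.dist_le hr]
    constructor
    · exact fun h t _ => h t
    · intro h
      have hcl : IsClosed {t | dist (F z t) (d t) ≤ r} :=
        isClosed_le ((F z).continuous.dist d.continuous) continuous_const
      have hsub : closure S ⊆ {t | dist (F z t) (d t) ≤ r} := closure_minimal h hcl
      rw [hSd.closure_eq] at hsub
      exact fun t => hsub (Set.mem_univ t)
  rw [e]
  exact MeasurableSet.biInter hSc fun t _ =>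
    measurableSet_le ((hF t).dist measurable_const) measurable_const

theorem open_meas (F : Z → Om) (hF : ∀ t, Measurable (fun z => F z t)) (U : Set Om)
    (hU : IsOpen U) : MeasurableSet (F ⁻¹' U) := by
  obtain ⟨D, hDc, hDd⟩ := TopologicalSpace.exists_countable_dense Om
  set I : Set (Om × ℕ) := {p | p.1 ∈ D ∧ Metric.closedBall p.1 (1 / ((p.2 : ℝ) + 1)) ⊆ U} with hI
  have hIc : I.Countable := by
    refine (hDc.prod (Set.countable_univ (α := ℕ))).mono ?_
    intro p hp
    exact ⟨hp.1, Set.mem_univ _⟩
  have e : F ⁻¹' U = ⋃ p ∈ I, F ⁻¹' Metric.closedBall p.1 (1 / ((p.2 : ℝ) + 1)) := by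
    ext z
    simp only [Set.mem_preimage, Set.mem_iUnion, exists_prop]
    constructor
    · intro hz
      obtain ⟨ε, hε, hsub⟩ := Metric.isOpen_iff.1 hU _ hz
      obtain ⟨n, hn⟩ := exists_nat_one_div_lt (half_pos hε)
      have hn0 : (0 : ℝ) < 1 / ((n : ℝ) + 1) := by positivity
      obtain ⟨d, hd, hdz⟩ := hDd.exists_dist_lt (F z) hn0
      refine ⟨(d, n), ⟨hd, fun w hw => hsub ?_⟩, hdz.le⟩
      rw [Metric.mem_closedBall] at hw
      rw [Metric.mem_ball]
      have h1 := dist_triangle w d (F z)
      rw [dist_comm d (F z)] at h1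
      simp only at hw
      linarith
    · rintro ⟨p, hp, hz⟩
      exact hp.2 hz
  rw [e]
  exact MeasurableSet.biUnion hIc fun p _ => ball_meas F hF p.1 (by positivity)

end Pool.Agent.T2H68.UB.PkgEV

namespace Pool.Agent.T2H68.UB

theorem pEV : S_EV := by
  intro m hm
  apply MeasurableSpace.generateFrom_le
  intro U hU
  have h := @PkgEV.open_meas Om m id (fun t => by
    have h1 := hm t t.2.1 t.2.2
    have h2 : X (t : ℝ) = fun ω : Om => ω t := by
      funext ω
      unfold X
      rw [Set.projIcc_val]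
    rw [h2] at h1
    exact h1) U hU
  exact h

end Pool.Agent.T2H68.UB
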