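import Pool.Agent.T2H68.UB.P_EV
import Pool.Agent.Helper41.Exist

/-!
# Package EX: existence of the planar Wiener measure on `C([0,1], ℂ)`
-/

set_option autoImplicit false

open MeasureTheory ProbabilityTheory Set Filter
open scoped ENNReal NNReal Topology

namespace Pool.Agent.T2H68.UB.PkgEX

variable {Ω : Type} [MeasurableSpace Ω] {P : Measure Ω}

/-- pointwise limits of centred Gaussian variables are centred Gaussian -/
theorem lim_gauss [IsProbabilityMeasure P] (Y : ℕ → Ω → ℝ) (Z : Ω → ℝ) (hY : ∀ n, Measurable (Y n))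
    (hZ : Measurable Z) (v : ℕ → ℝ≥0) (hg : ∀ n, P.map (Y n) = gaussianReal 0 (v n))
    (hl : ∀ ω, Tendsto (fun n => Y n ω) atTop (𝓝 (Z ω))) :
    ∃ w : ℝ≥0, P.map Z = gaussianReal 0 w := by
  have hcf : ∀ n (t : ℝ), ∫ ω, Complex.exp (t * Y n ω * Complex.I) ∂P =
      ((Real.exp (-(v n * t ^ 2 / 2)) : ℝ) : ℂ) := by
    intro n t
    have h1 : charFun (P.map (Y n)) t = ∫ ω, Complex.exp (t * Y n ω * Complex.I) ∂P := by
      rw [charFun_apply_real, integral_map (hY n).aemeasurable (by fun_prop)]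
    rw [← h1, hg n, charFun_gaussianReal]
    push_cast
    congr 1
    simp
  have hlim : ∀ t : ℝ, Tendsto (fun n => ((Real.exp (-(v n * t ^ 2 / 2)) : ℝ) : ℂ)) atTop
      (𝓝 (∫ ω, Complex.exp (t * Z ω * Complex.I) ∂P)) := by
    intro t
    simp_rw [← hcf]
    refine tendsto_integral_of_dominated_convergence (fun _ => 1) ?_ (integrable_const _) ?_ ?_
    · intro n
      have := hY n
      exact (by fun_prop : Measurable fun ω => Complex.exp (t * Y n ω * Complex.I)).aestronglyMeasurable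
    · intro n
      refine Eventually.of_forall fun ω => ?_
      have e : (t : ℂ) * Y n ω * Complex.I = ((t * Y n ω : ℝ) : ℂ) * Complex.I := by push_cast; ring
      rw [e, Complex.norm_exp_ofReal_mul_I]
    · refine Eventually.of_forall fun ω => ?_
      have h2 : Continuous fun y : ℝ => Complex.exp ((t : ℂ) * y * Complex.I) := by fun_prop
      exact (h2.tendsto _).comp (hl ω)
  have hr : ∀ t : ℝ, ∃ r : ℝ, 0 ≤ r ∧ Tendsto (fun n => Real.exp (-(v n * t ^ 2 / 2))) atTop (𝓝 r) ∧
      ∫ ω, Complex.exp (t * Z ω * Complex.I) ∂P = (r : ℂ) := by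
    intro t
    have h1 := hlim t
    have h2 := (Complex.continuous_re.tendsto _).comp h1
    have h3 := (Complex.continuous_im.tendsto _).comp h1
    simp only [Function.comp_def, Complex.ofReal_re, Complex.ofReal_im] at h2 h3
    have h4 : (∫ ω, Complex.exp (t * Z ω * Complex.I) ∂P).im = 0 :=
      (tendsto_nhds_unique h3 tendsto_const_nhds)
    refine ⟨_, ge_of_tendsto' h2 fun n => (Real.exp_pos _).le, h2, ?_⟩
    apply Complex.ext
    · simp
    · rw [h4]; simp
  obtain ⟨r1, hr1, hr1', hr1''⟩ := hr 1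
  have hpos : 0 < r1 := by
    rcases hr1.eq_or_lt with h | h
    · exfalso
      -- `v n → ∞`
      have hz : ∀ t : ℝ, t ≠ 0 → ∫ ω, Complex.exp (t * Z ω * Complex.I) ∂P = 0 := by
        intro t ht
        obtain ⟨r, _, hr2, hr3⟩ := hr t
        rw [hr3]
        have e : (fun n => Real.exp (-(v n * t ^ 2 / 2))) =
            fun n => (Real.exp (-(v n * (1 : ℝ) ^ 2 / 2))) ^ (t ^ 2 : ℝ) := by
          funext n
          rw [← Real.exp_mul]
          congr 1
          ring
        rw [e] at hr2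
        have ht2 : (0 : ℝ) < t ^ 2 := by positivity
        have h5 : Tendsto (fun n => (Real.exp (-(v n * (1 : ℝ) ^ 2 / 2))) ^ (t ^ 2 : ℝ)) atTop
            (𝓝 (r1 ^ (t ^ 2 : ℝ))) := by
          exact (Real.continuousAt_rpow_const r1 (t ^ 2) (Or.inr ht2.le)).tendsto.comp hr1'
        have h6 := tendsto_nhds_unique hr2 h5
        rw [h6, ← h, Real.zero_rpow ht2.ne']
        simp
      have hc : Continuous fun t : ℝ => ∫ ω, Complex.exp (t * Z ω * Complex.I) ∂P := by
        refine continuous_of_dominated (bound := fun _ => 1) ?_ ?_ (integrable_const _) ?_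
        · intro t
          exact (by fun_prop : Measurable fun ω => Complex.exp (t * Z ω * Complex.I)).aestronglyMeasurable
        · intro t
          refine Eventually.of_forall fun ω => ?_
          have e : (t : ℂ) * Z ω * Complex.I = ((t * Z ω : ℝ) : ℂ) * Complex.I := by push_cast; ring
          rw [e, Complex.norm_exp_ofReal_mul_I]
        · refine Eventually.of_forall fun ω => by fun_prop
      have h7 : (fun t : ℝ => ∫ ω, Complex.exp (t * Z ω * Complex.I) ∂P) 0 = 0 := by
        have h8 : Tendsto (fun t : ℝ => ∫ ω, Complex.exp (t * Z ω * Complex.I) ∂P) (𝓝[≠] 0)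
            (𝓝 ((fun t : ℝ => ∫ ω, Complex.exp (t * Z ω * Complex.I) ∂P) 0)) :=
          (hc.tendsto 0).mono_left nhdsWithin_le_nhds
        have h9 : Tendsto (fun t : ℝ => ∫ ω, Complex.exp (t * Z ω * Complex.I) ∂P) (𝓝[≠] 0)
            (𝓝 0) := by
          refine tendsto_const_nhds.congr' ?_
          filter_upwards [self_mem_nhdsWithin] with t ht
          exact (hz t ht).symm
        exact tendsto_nhds_unique h8 h9
      simp at h7
    · exact h
  set w : ℝ := -2 * Real.log r1 with hw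
  have hvw : Tendsto (fun n => (v n : ℝ)) atTop (𝓝 w) := by
    have h1 := (Real.continuousAt_log hpos.ne').tendsto.comp hr1'
    have h2 := h1.const_mul (-2)
    refine h2.congr fun n => ?_
    simp only [Function.comp, Real.log_exp]
    ring
  have hw0 : 0 ≤ w := ge_of_tendsto' hvw fun n => (v n).2
  refine ⟨w.toNNReal, ?_⟩
  have : IsProbabilityMeasure (P.map Z) := Measure.isProbabilityMeasure_map hZ.aemeasurable
  refine Measure.ext_of_charFun ?_
  ext t
  rw [charFun_apply_real, integral_map hZ.aemeasurable (by fun_prop), charFun_gaussianReal]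
  have h1 := hlim t
  have h2 : Tendsto (fun n => ((Real.exp (-(v n * t ^ 2 / 2)) : ℝ) : ℂ)) atTop
      (𝓝 ((Real.exp (-(w * t ^ 2 / 2)) : ℝ) : ℂ)) := by
    have h3 : Continuous fun x : ℝ => ((Real.exp (-(x * t ^ 2 / 2)) : ℝ) : ℂ) := by fun_prop
    exact (h3.tendsto w).comp hvw
  rw [tendsto_nhds_unique h1 h2, Real.coe_toNNReal _ hw0]
  push_cast
  congr 1
  simp

/-- the path -/
noncomputable def pth (B : Fin 2 × ℝ≥0 × ℝ≥0 → Ω → ℝ)
    (hc : ∀ ω c, Continuous (fun p : ℝ≥0 × ℝ≥0 => B (c, p.1, p.2) ω)) (ω : Ω) : Om :=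
  ⟨fun t => ⟨B (0, (t : ℝ).toNNReal, 1) ω, B (1, (t : ℝ).toNNReal, 1) ω⟩, by
    have h1 : Continuous fun t : Set.Icc (0 : ℝ) 1 => B (0, (t : ℝ).toNNReal, 1) ω :=
      (hc ω 0).comp (f := fun t : Set.Icc (0 : ℝ) 1 => ((t : ℝ).toNNReal, 1))
        ((continuous_real_toNNReal.comp continuous_subtype_val).prodMk continuous_const)
    have h2 : Continuous fun t : Set.Icc (0 : ℝ) 1 => B (1, (t : ℝ).toNNReal, 1) ω :=
      (hc ω 1).comp (f := fun t : Set.Icc (0 : ℝ) 1 => ((t : ℝ).toNNReal, 1))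
        ((continuous_real_toNNReal.comp continuous_subtype_val).prodMk continuous_const)
    exact Complex.equivRealProdCLM.symm.continuous.comp (h1.prodMk h2)⟩

theorem functional (L : StrongDual ℝ Om) (ω : Om) :
    Tendsto (fun n : ℕ => ∑ k : Fin (n + 1), ((ω (bernstein.z k)).re * L (bernstein n k • .const _ 1)
      + (ω (bernstein.z k)).im * L (bernstein n k • .const _ Complex.I))) atTop (𝓝 (L ω)) := by
  have h1 := (L.continuous.tendsto ω).comp (bernsteinApproximation_uniform ω)
  refine h1.congr fun n => ?_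
  simp only [Function.comp, bernsteinApproximation, map_sum]
  refine Finset.sum_congr rfl fun k _ => ?_
  rw [← smul_eq_mul, ← smul_eq_mul, ← map_smul, ← map_smul, ← map_add]
  congr 1
  ext t
  simp only [ContinuousMap.smul_apply', ContinuousMap.const_apply, ContinuousMap.add_apply,
    ContinuousMap.smul_apply, Complex.real_smul]
  conv_lhs => rw [← Complex.re_add_im (ω (bernstein.z k))]
  ring

open Pool.Agent.Helper41

variable {B : Fin 2 × ℝ≥0 × ℝ≥0 → Ω → ℝ}
  {hc : ∀ ω c, Continuous (fun p : ℝ≥0 × ℝ≥0 => B (c, p.1, p.2) ω)}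

omit [MeasurableSpace Ω] in
theorem pth_apply (ω : Ω) (t : Set.Icc (0 : ℝ) 1) : pth B hc ω t =
    ⟨B (0, (t : ℝ).toNNReal, 1) ω, B (1, (t : ℝ).toNNReal, 1) ω⟩ := rfl

theorem pth_meas (hB : ∀ q, Measurable (B q)) : Measurable (pth B hc) := by
  refine measurable_of_isOpen fun U hU => PkgEV.open_meas _ (fun t => ?_) U hU
  have h : (fun z => pth B hc z t) = fun ω =>
      Complex.equivRealProdCLM.symm (B (0, (t : ℝ).toNNReal, 1) ω, B (1, (t : ℝ).toNNReal, 1) ω) := by
    funext ω
    rw [pth_apply]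
    rfl
  rw [h]
  exact Complex.equivRealProdCLM.symm.continuous.measurable.comp ((hB _).prodMk (hB _))

theorem comb [IsProbabilityMeasure P] (hB : IsSheet B P) (n : ℕ) (r : Fin n → ℝ≥0) (a b : Fin n → ℝ) :
    ∃ v : ℝ≥0, P.map (fun ω => ∑ k : Fin n, (B (0, r k, 1) ω * a k + B (1, r k, 1) ω * b k)) =
      gaussianReal 0 v := by
  set q : Fin n ⊕ Fin n → Fin 2 × ℝ≥0 × ℝ≥0 :=
    Sum.elim (fun k => (0, r k, 1)) (fun k => (1, r k, 1)) with hq
  set c : Fin n ⊕ Fin n → ℝ := Sum.elim a b with hcc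
  have hG := (hB.gauss.comp_right q).smul c
  have hG2 := hG.hasGaussianLaw_fun_sum (I := Finset.univ)
  set Z : Ω → ℝ := fun ω => ∑ k, c k * B (q k) ω with hZdef
  have hZ : HasGaussianLaw Z P := hG2
  have hmap := hZ.map_eq_gaussianReal
  have hmem : ∀ k, MemLp (fun ω => c k * B (q k) ω) 2 P := fun k => (hB.memLp _).const_mul _
  have hmean : P[Z] = 0 := by
    rw [hZdef]
    rw [integral_finsetSum _ (fun k _ => (hmem k).integrable (by norm_num))]
    refine Finset.sum_eq_zero fun k _ => ?_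
    rw [integral_const_mul]
    have := hB.char.mean hB.meas (q k)
    rw [this, mul_zero]
  have e : (fun ω => ∑ k : Fin n, (B (0, r k, 1) ω * a k + B (1, r k, 1) ω * b k)) = Z := by
    funext ω
    rw [hZdef]
    simp only [Fintype.sum_sum_type, hq, hcc, Sum.elim_inl, Sum.elim_inr]
    rw [← Finset.sum_add_distrib]
    exact Finset.sum_congr rfl fun k _ => by ring
  rw [e, hmap, hmean]
  exact ⟨_, rfl⟩

theorem functional_gauss [IsProbabilityMeasure P] (hB : IsSheet B P) (L : StrongDual ℝ Om) :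
    ∃ w : ℝ≥0, (P.map (pth B hc)).map L = gaussianReal 0 w := by
  have hm := pth_meas (hc := hc) hB.meas
  rw [Measure.map_map (by fun_prop) hm]
  choose v hv using fun n => comb (P := P) hB (n + 1) (fun k => ((bernstein.z k : unitInterval) : ℝ).toNNReal)
    (fun k => L (bernstein n k • .const _ 1)) (fun k => L (bernstein n k • .const _ Complex.I))
  refine lim_gauss _ _ ?_ (by fun_prop) v hv ?_
  · intro n
    have := hB.meas
    fun_prop
  · intro ω
    exact functional L (pth B hc ω)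

end Pool.Agent.T2H68.UB.PkgEX

namespace Pool.Agent.T2H68.UB

open PkgEX Pool.Agent.Helper41

theorem pEX : S_EX := by
  obtain ⟨Ω, mΩ, P, hP, B, hB, hc⟩ := exists_sheet 2
  have hm := pth_meas (hc := hc) hB.meas
  have hmap := functional_gauss (hc := hc) hB
  have hmean : ∀ c t, ∫ ω, B (c, t, 1) ω ∂P = 0 := fun c t => hB.char.mean hB.meas _
  have hcov : ∀ c c' s t, ∫ ω, B (c, s, 1) ω * B (c', t, 1) ω ∂P =
      if c = c' then ((min s t : ℝ≥0) : ℝ) else 0 := by
    intro c c' s t
    have h1 := hB.cov (c, s, 1) (c', t, 1)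
    rw [covariance_eq_sub (hB.memLp _) (hB.memLp _)] at h1
    rw [hmean, zero_mul, sub_zero] at h1
    have h2 : ∫ ω, B (c, s, 1) ω * B (c', t, 1) ω ∂P = sheetK (c, s, 1) (c', t, 1) := h1
    rw [h2]
    simp [sheetK]
  have hX : ∀ s : ℝ, 0 ≤ s → s ≤ 1 → ∀ ω, X s (pth B hc ω) =
      ⟨B (0, s.toNNReal, 1) ω, B (1, s.toNNReal, 1) ω⟩ := by
    intro s hs hs1 ω
    unfold X
    rw [Set.projIcc_of_mem _ ⟨hs, hs1⟩, pth_apply]
  have hXm : ∀ s : ℝ, Measurable (X s) := by
    intro s
    have : Continuous (X s) := continuous_eval_const _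
    exact this.measurable
  refine ⟨P.map (pth B hc), ?_, ?_, ?_, ?_, ?_⟩
  · refine isGaussian_of_map_eq_gaussianReal fun L => ?_
    obtain ⟨w, hw⟩ := hmap L
    exact ⟨0, w, hw⟩
  · intro L
    obtain ⟨w, hw⟩ := hmap L
    have h1 : ∫ ω, L ω ∂(P.map (pth B hc)) = ∫ x, x ∂((P.map (pth B hc)).map L) :=
      (integral_map (μ := P.map (pth B hc)) (φ := L) (f := fun x => x) (by fun_prop)
        (by fun_prop)).symm
    rw [h1, hw, integral_id_gaussianReal]
  · intro s t hs hst ht
    have h1 := hXm s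
    have h2 := hXm t
    rw [integral_map hm.aemeasurable (by fun_prop)]
    have h3 : ∀ ω, (X s (pth B hc ω)).re * (X t (pth B hc ω)).re =
        B (0, s.toNNReal, 1) ω * B (0, t.toNNReal, 1) ω := by
      intro ω
      rw [hX s hs (hst.trans ht), hX t (hs.trans hst) ht]
    simp_rw [h3]
    rw [hcov]
    rw [if_pos rfl, min_eq_left (Real.toNNReal_le_toNNReal hst), Real.coe_toNNReal _ hs]
  · intro s t hs hst ht
    have h1 := hXm s
    have h2 := hXm t
    rw [integral_map hm.aemeasurable (by fun_prop)]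
    have h3 : ∀ ω, (X s (pth B hc ω)).im * (X t (pth B hc ω)).im =
        B (1, s.toNNReal, 1) ω * B (1, t.toNNReal, 1) ω := by
      intro ω
      rw [hX s hs (hst.trans ht), hX t (hs.trans hst) ht]
    simp_rw [h3]
    rw [hcov]
    rw [if_pos rfl, min_eq_left (Real.toNNReal_le_toNNReal hst), Real.coe_toNNReal _ hs]
  · intro s t hs hs1 ht ht1
    have h1 := hXm s
    have h2 := hXm t
    rw [integral_map hm.aemeasurable (by fun_prop)]
    have h3 : ∀ ω, (X s (pth B hc ω)).re * (X t (pth B hc ω)).im =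
        B (0, s.toNNReal, 1) ω * B (1, t.toNNReal, 1) ω := by
      intro ω
      rw [hX s hs hs1, hX t ht ht1]
    simp_rw [h3]
    rw [hcov]
    simp

end Pool.Agent.T2H68.UB
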