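import Pool.Agent.T2H68.UB.Stm

/-!
# Project UB, package MA: the multiplication operators
-/

set_option autoImplicit false

open MeasureTheory ProbabilityTheory Set Filter Finset
open scoped ENNReal NNReal Topology ComplexConjugate

namespace Pool.Agent.T2H68.UB

namespace PkgMA

/-! ### Multiplication by a bounded function -/

theorem memMul (u : ℝ → ℂ) (hu : AEStronglyMeasurable u lb) (hb : ∀ t, ‖u t‖ ≤ 1) (v : HH) :
    MemLp (fun t => u t * (v : ℝ → ℂ) t) 2 lb := by
  refine (Lp.memLp v).of_le (hu.mul (Lp.memLp v).1) (Eventually.of_forall fun t => ?_)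
  rw [norm_mul]
  calc ‖u t‖ * ‖(v : ℝ → ℂ) t‖ ≤ 1 * ‖(v : ℝ → ℂ) t‖ := by gcongr; exact hb t
    _ = _ := one_mul _

noncomputable def mulL (u : ℝ → ℂ) (hu : AEStronglyMeasurable u lb) (hb : ∀ t, ‖u t‖ ≤ 1) :
    HH →L[ℝ] HH :=
  LinearMap.mkContinuous
    { toFun := fun v => (memMul u hu hb v).toLp
      map_add' := by
        intro v w
        apply Lp.ext
        filter_upwards [(memMul u hu hb (v + w)).coeFn_toLp, (memMul u hu hb v).coeFn_toLp,
          (memMul u hu hb w).coeFn_toLp, Lp.coeFn_add v w,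
          Lp.coeFn_add (memMul u hu hb v).toLp (memMul u hu hb w).toLp] with t h1 h2 h3 h4 h5
        rw [h1, h5, Pi.add_apply, h2, h3, h4, Pi.add_apply, mul_add]
      map_smul' := by
        intro c v
        apply Lp.ext
        filter_upwards [(memMul u hu hb (c • v)).coeFn_toLp, (memMul u hu hb v).coeFn_toLp,
          Lp.coeFn_smul c v, Lp.coeFn_smul c (memMul u hu hb v).toLp] with t h1 h2 h3 h4
        rw [h1, RingHom.id_apply, h4, Pi.smul_apply, h2, h3, Pi.smul_apply, mul_smul_comm] }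
    1 (by
      intro v
      rw [one_mul]
      refine Lp.norm_le_norm_of_ae_le ?_
      filter_upwards [(memMul u hu hb v).coeFn_toLp] with t h1
      show ‖((memMul u hu hb v).toLp : ℝ → ℂ) t‖ ≤ _
      rw [h1, norm_mul]
      calc ‖u t‖ * ‖(v : ℝ → ℂ) t‖ ≤ 1 * ‖(v : ℝ → ℂ) t‖ := by gcongr; exact hb t
        _ = _ := one_mul _)

theorem mulL_coe (u : ℝ → ℂ) (hu : AEStronglyMeasurable u lb) (hb : ∀ t, ‖u t‖ ≤ 1) (v : HH) :
    (mulL u hu hb v : ℝ → ℂ) =ᵐ[lb] fun t => u t * (v : ℝ → ℂ) t :=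
  (memMul u hu hb v).coeFn_toLp

theorem nsq (f : HH) : ‖f‖ ^ 2 = ∫ t, ‖(f : ℝ → ℂ) t‖ ^ 2 ∂lb := by
  rw [← real_inner_self_eq_norm_sq, L2.inner_def]
  refine integral_congr_ae (Eventually.of_forall fun t => ?_)
  exact real_inner_self_eq_norm_sq _

theorem int_sq (f : HH) : Integrable (fun t => ‖(f : ℝ → ℂ) t‖ ^ 2) lb :=
  (Lp.memLp f).integrable_norm_pow (by norm_num)

theorem norm_UU (t : ℝ) (ω : Om) : ‖UU t ω‖ = 1 := by
  unfold UU
  rw [mul_comm]
  exact Complex.norm_exp_ofReal_mul_I _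

theorem hh_pos (hSU : S_SU) (k : ℕ) : 0 < hh k := (hSU.1 k).2.1

theorem disj (hSU : S_SU) (k j j' : ℕ) (t : ℝ) (h : t ∈ Set.Ico (st k j) (st k j + hh k))
    (h' : t ∈ Set.Ico (st k j') (st k j' + hh k)) : j ≤ j' := by
  by_contra hlt
  push Not at hlt
  have hp := hh_pos hSU k
  have h1 : (j' : ℝ) + 1 ≤ j := by exact_mod_cast hlt
  have h2 : ((j' : ℝ) + 1) * hh k ≤ j * hh k := by gcongr
  have h3 := h.1
  have h4 := h'.2
  unfold st at h3 h4
  linarith

theorem continuous_X (t : ℝ) : Continuous (X t) := by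
  unfold X
  exact continuous_eval_const _

theorem continuous_wv (k j : ℕ) : Continuous (wv k j) := by
  unfold wv
  exact continuous_const.mul (Complex.continuous_re.comp ((continuous_X _).sub (continuous_X _)))

theorem continuous_xv (k j : ℕ) : Continuous (xv k j) := by
  unfold xv
  exact continuous_const.mul ((continuous_X _).sub (continuous_X _))

theorem continuous_chi (k : ℕ) : Continuous (chi k) := by
  unfold chi
  exact Real.smoothTransition.continuous.comp (by fun_prop)

theorem continuous_ph (k : ℕ) : Continuous (ph k) := by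
  unfold ph
  refine continuous_const.mul (continuous_finsetSum _ fun j _ => ?_)
  exact ((continuous_chi k).comp (continuous_wv k j)).mul (Complex.continuous_re.comp (continuous_xv k j))

theorem continuous_gg (j : ℕ) : Continuous (gg j) := by
  unfold gg
  split_ifs
  · exact Real.continuous_cos
  · exact Real.continuous_sin

theorem continuous_ang (k j : ℕ) : Continuous (ang k j) := by
  unfold ang
  exact (continuous_const.mul ((continuous_chi k).comp (continuous_wv k j))).mul
    ((continuous_gg j).comp (continuous_ph (k + 1)))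

theorem continuous_phi (hSU : S_SU) (t : ℝ) : Continuous fun ω => phi t ω := by
  obtain ⟨-, -, -, h4, h5, h6, h7⟩ := hSU
  by_cases ht0 : t ≤ 0
  · simp only [h5 t _ ht0]
    exact continuous_const
  by_cases ht1 : 1 ≤ t
  · simp only [h6 t _ ht1]
    exact continuous_const
  push Not at ht0 ht1
  obtain ⟨k, j, hj, h8, h9⟩ := h7 t ht0 ht1
  simp only [h4 k j t _ hj h8 h9.le]
  exact (continuous_ang k j).mul continuous_const

theorem continuous_UU (hSU : S_SU) (t : ℝ) : Continuous fun ω => UU t ω := by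
  unfold UU
  exact Complex.continuous_exp.comp (continuous_const.mul
    (Complex.continuous_ofReal.comp (continuous_phi hSU t)))

theorem continuous_A (hSU : S_SU) (hCT : S_CT) (A : Om → (HH →L[ℝ] HH)) (hA : IsA A) (v : HH) :
    Continuous fun ω => A ω v := by
  rw [continuous_iff_continuousAt]
  intro ω₀
  rw [ContinuousAt, tendsto_iff_norm_sub_tendsto_zero]
  have hsq : Tendsto (fun ω => ‖A ω v - A ω₀ v‖ ^ 2) (𝓝 ω₀) (𝓝 0) := by
    have e : ∀ ω, ‖A ω v - A ω₀ v‖ ^ 2 = ∫ t, ‖(UU t ω - UU t ω₀) * (v : ℝ → ℂ) t‖ ^ 2 ∂lb := by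
      intro ω
      rw [nsq]
      refine integral_congr_ae ?_
      filter_upwards [Lp.coeFn_sub (A ω v) (A ω₀ v), hA ω v, hA ω₀ v] with t h1 h2 h3
      rw [h1, Pi.sub_apply, h2, h3, sub_mul]
    simp only [e]
    have hm : ∀ ω, AEStronglyMeasurable (fun t => UU t ω) lb := fun ω =>
      (Complex.continuous_exp.comp (continuous_const.mul
        (Complex.continuous_ofReal.comp (hCT.1 ω)))).aestronglyMeasurable
    have h0 : ∫ t, ‖(UU t ω₀ - UU t ω₀) * (v : ℝ → ℂ) t‖ ^ 2 ∂lb = (0 : ℝ) := by simp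
    have h00 : Tendsto (fun ω => ∫ t, ‖(UU t ω - UU t ω₀) * (v : ℝ → ℂ) t‖ ^ 2 ∂lb) (𝓝 ω₀)
        (𝓝 (∫ t, ‖(UU t ω₀ - UU t ω₀) * (v : ℝ → ℂ) t‖ ^ 2 ∂lb)) := ?_
    · rw [h0] at h00
      exact h00
    refine tendsto_integral_filter_of_dominated_convergence (fun t => 4 * ‖(v : ℝ → ℂ) t‖ ^ 2) ?_ ?_ ?_ ?_
    · refine Eventually.of_forall fun ω => ?_
      exact (((hm ω).sub (hm ω₀)).mul (Lp.memLp v).1).norm.pow 2
    · refine Eventually.of_forall fun ω => Eventually.of_forall fun t => ?_
      rw [norm_mul, Real.norm_of_nonneg (by positivity), mul_pow]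
      have h1 : ‖UU t ω - UU t ω₀‖ ≤ 2 := by
        refine (norm_sub_le _ _).trans ?_
        rw [norm_UU, norm_UU]
        norm_num
      have h2 : ‖UU t ω - UU t ω₀‖ ^ 2 ≤ 4 := by nlinarith [norm_nonneg (UU t ω - UU t ω₀)]
      gcongr
    · exact (int_sq v).const_mul 4
    · refine Eventually.of_forall fun t => ?_
      have h1 : Continuous fun ω => ‖(UU t ω - UU t ω₀) * (v : ℝ → ℂ) t‖ ^ 2 :=
        ((((continuous_UU hSU t).sub continuous_const).mul continuous_const).norm).pow 2
      exact h1.tendsto ω₀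
  have h3 : Tendsto (fun ω => Real.sqrt (‖A ω v - A ω₀ v‖ ^ 2)) (𝓝 ω₀) (𝓝 (Real.sqrt 0)) :=
    (Real.continuous_sqrt.tendsto 0).comp hsq
  simpa [Real.sqrt_sq (norm_nonneg _)] using h3

end PkgMA

open PkgMA in
theorem pMA (μ : Measure Om) (_hμ : IsW μ) (hSU : S_SU) (hCT : S_CT) : S_MA μ := by
  classical
  refine ⟨?_, ?_, ?_⟩
  · have hm : ∀ k j, AEStronglyMeasurable ((Set.Ico (st k j) (st k j + hh k)).indicator
        (fun _ : ℝ => (1 : ℂ))) lb := fun k j =>
      (measurable_const.indicator measurableSet_Ico).aestronglyMeasurable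
    have hb : ∀ k j t, ‖(Set.Ico (st k j) (st k j + hh k)).indicator (fun _ : ℝ => (1 : ℂ)) t‖ ≤ 1 := by
      intro k j t
      rw [Set.indicator_apply]
      split_ifs <;> simp
    refine ⟨fun k j => mulL _ (hm k j) (hb k j), ?_, ?_⟩
    · intro k j v
      filter_upwards [mulL_coe _ (hm k j) (hb k j) v] with t ht
      rw [ht, Set.indicator_apply, Set.indicator_apply]
      split_ifs <;> simp
    · intro k v
      simp only [nsq]
      have e : ∀ j, ∫ t, ‖(mulL _ (hm k j) (hb k j) v : ℝ → ℂ) t‖ ^ 2 ∂lb =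
          ∫ t, (Set.Ico (st k j) (st k j + hh k)).indicator (fun t => ‖(v : ℝ → ℂ) t‖ ^ 2) t ∂lb := by
        intro j
        refine integral_congr_ae ?_
        filter_upwards [mulL_coe _ (hm k j) (hb k j) v] with t ht
        rw [ht, Set.indicator_apply, Set.indicator_apply]
        split_ifs <;> simp
      simp only [e]
      rw [← integral_finsetSum _ fun j _ => (int_sq v).indicator measurableSet_Ico]
      refine integral_mono (integrable_finsetSum _ fun j _ => (int_sq v).indicator measurableSet_Ico)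
        (int_sq v) fun t => ?_
      show ∑ j ∈ Finset.range (mm k), (Set.Ico (st k j) (st k j + hh k)).indicator
        (fun t => ‖(v : ℝ → ℂ) t‖ ^ 2) t ≤ ‖(v : ℝ → ℂ) t‖ ^ 2
      by_cases hex : ∃ j ∈ Finset.range (mm k), t ∈ Set.Ico (st k j) (st k j + hh k)
      · obtain ⟨j, hj, hjt⟩ := hex
        rw [Finset.sum_eq_single j]
        · rw [Set.indicator_of_mem hjt]
        · intro j' _ hne
          refine Set.indicator_of_notMem (fun hmem => hne ?_) _
          exact le_antisymm (disj hSU k j' j t hmem hjt) (disj hSU k j j' t hjt hmem)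
        · intro h
          exact absurd hj h
      · push Not at hex
        rw [Finset.sum_eq_zero fun j hj => Set.indicator_of_notMem (hex j hj) _]
        positivity
  · have hm : ∀ ω, AEStronglyMeasurable (fun t => UU t ω) lb := fun ω =>
      (Complex.continuous_exp.comp (continuous_const.mul
        (Complex.continuous_ofReal.comp (hCT.1 ω)))).aestronglyMeasurable
    exact ⟨fun ω => mulL _ (hm ω) (fun t => (norm_UU t ω).le), fun ω v => mulL_coe _ _ _ v⟩
  · intro A hA
    have hn : ∀ ω v, ‖A ω v‖ = ‖v‖ := by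
      intro ω v
      have h : ‖A ω v‖ ^ 2 = ‖v‖ ^ 2 := by
        rw [nsq, nsq]
        refine integral_congr_ae ?_
        filter_upwards [hA ω v] with t ht
        rw [ht, norm_mul, norm_UU, one_mul]
      exact (pow_left_inj₀ (norm_nonneg _) (norm_nonneg _) two_ne_zero).1 h
    have hs : ∀ v, StronglyMeasurable fun ω => A ω v := fun v =>
      (continuous_A hSU hCT A hA v).stronglyMeasurable
    refine ⟨hn, hs, fun V hV => ?_⟩
    borelize HH
    have hf : Fact ((2 : ℝ≥0∞) ≠ ∞) := ⟨by norm_num⟩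
    have hu : StronglyMeasurable (Function.uncurry fun (v : HH) (ω : Om) => A ω v) :=
      stronglyMeasurable_uncurry_of_continuous_of_stronglyMeasurable (fun ω => (A ω).continuous) hs
    refine ⟨fun ω => A ω (hV.mk V ω), ?_, ?_⟩
    · exact hu.comp_measurable (hV.stronglyMeasurable_mk.measurable.prodMk measurable_id)
    · filter_upwards [hV.ae_eq_mk] with ω hω
      rw [← hω]

end Pool.Agent.T2H68.UB
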