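import Pool.Agent.T2H68.UB.Defs

/-!
# Project UB (MP_ddd117_pr): the packages as `Prop`s.

Package `Y` proves `theorem pY : S_Y` (for those with an argument: `theorem pY (μ : Measure Om)
(hμ : IsW μ) : S_Y μ`), with the packages listed under `deps` as extra hypotheses, in the file
`Pool/Agent/T2H68/UB/P_Y.lean`; auxiliary lemmas in the namespace `Pool.Agent.T2H68.UB.PkgY`.
`γ = gaussianReal 0 1` everywhere.
-/

set_option autoImplicit false

open MeasureTheory ProbabilityTheory Set Filter Finset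
open scoped ENNReal NNReal Topology ComplexConjugate

namespace Pool.Agent.T2H68.UB

open Pool.Agent.R876.WM

/-! ## A. Structure of the Wiener space -/

/-- EV (30 min): the Borel sets of the path space are generated by the evaluations.
Proof.  `Om` is second countable, so its topology is generated as a σ-algebra by the closed (or open)
balls; `‖ω - ω₀‖ ≤ r` iff `‖X t ω - X t ω₀‖ ≤ r` for all rational `t ∈ [0,1]`. -/
def S_EV : Prop :=
  ∀ m : MeasurableSpace Om, (∀ t : ℝ, 0 ≤ t → t ≤ 1 → @Measurable Om ℂ m _ (X t)) → borel Om ≤ m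

/-- IN (60 min): increments.  Proof.  Under `μ` every continuous linear functional is Gaussian
(`IsGaussian`), centred, with the covariances of `IsW`; so `(X t)` is a Gaussian process in `ℂ = ℝ²`
(real and imaginary parts are jointly Gaussian: continuous linear functionals of `ω`), the increment
`X t - X s` is uncorrelated with, hence independent of, `(X r)_{r ≤ s}` (Mathlib:
`Probability/Distributions/Gaussian/IsGaussianProcess/Independence`, `HasGaussianLaw.*`,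
`IndepFun.process_indepFun`; use the real process indexed by `Icc 0 s × Bool`), and the functional
`Re (conj ξ (X t - X s))` has variance `‖ξ‖² (t - s)`. Note `X r = X 0` for `r ≤ 0`. -/
def S_IN (μ : Measure Om) : Prop :=
  (∀ s t : ℝ, 0 ≤ s → s ≤ t → t ≤ 1 →
    Indep (Fil s) (MeasurableSpace.comap (fun ω => X t ω - X s ω) inferInstance) μ) ∧
  (∀ (s t : ℝ) (ξ : ℂ), 0 ≤ s → s ≤ t → t ≤ 1 →
    ∫ ω, Complex.exp (Complex.I * (((conj ξ * (X t ω - X s ω)).re : ℝ) : ℂ)) ∂μ =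
      ((Real.exp (-(‖ξ‖ ^ 2 * (t - s) / 2)) : ℝ) : ℂ)) ∧
  (∀ᵐ ω ∂μ, X 0 ω = 0)

/-- WG (60 min): the data are i.i.d. standard Gaussian.  Proof.  All the components are continuous
linear functionals of `ω`, so they are jointly Gaussian, centred; their covariance matrix is the
identity (disjoint increments; the variance of the increment over a quarter of a slot is `hh k / 4`;
the slots are disjoint: `st k j + hh k ≤ st k (j+1)`, `st k (mm k) = 1 / 2^k`). A centred Gaussian measure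
on `ι → ℝ` with identity covariance is the product (compare characteristic functions, or
`HasGaussianLaw.iIndepFun_of_covariance_eq_zero` and `iIndepFun_iff_map_fun_eq_pi_map`). -/
def S_WG (μ : Measure Om) : Prop :=
  ∀ K : ℕ, μ.map (fun (ω : Om) (s : (Σ k : Fin K, Fin (mm k)) × Fin 3) =>
      (![wv s.1.1 s.1.2 ω, (xv s.1.1 s.1.2 ω).re, (xv s.1.1 s.1.2 ω).im] : Fin 3 → ℝ) s.2) =
    Measure.pi fun _ => gaussianReal 0 1

/-- WH (45 min), deps WG: convenient forms.  Regroup the coordinates of a product measure. -/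
def S_WH (μ : Measure Om) : Prop :=
  (∀ k : ℕ, μ.map (fun ω => ((fun j : Fin (mm k) => wv k j ω),
      (fun j : Fin (mm k) => (xv k j ω).re), (fun j : Fin (mm k) => (xv k j ω).im))) =
    (Measure.pi fun _ => gaussianReal 0 1).prod
      ((Measure.pi fun _ => gaussianReal 0 1).prod (Measure.pi fun _ => gaussianReal 0 1))) ∧
  (∀ k : ℕ, IndepFun (fun (ω : Om) (j : Fin (mm k)) => (wv k j ω, xv k j ω))
    (fun (ω : Om) (s : Σ l : Fin k, Fin (mm l)) => (wv s.1 s.2 ω, xv s.1 s.2 ω)) μ) ∧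
  (∀ k : ℕ, iIndepFun (fun (j : Fin (mm k)) (ω : Om) => (wv k j ω, (xv k j ω).re)) μ) ∧
  (∀ k j : ℕ, j < mm k → μ.map (fun ω => (wv k j ω, (xv k j ω).re)) =
    (gaussianReal 0 1).prod (gaussianReal 0 1))

/-! ## B. The phases: two-point motion -/

/-- GT (40 min): Gaussian tails and the number of slots.  Proof.  (1) with `λ = lam k ≥ 8`:
`γ [λ + 1/λ, ∞) ≥ ∫_{λ+1/λ}^{λ+2/λ} φ ≥ (1/λ) (2π)^{-1/2} exp (-(λ + 2/λ)²/2) ≥ exp (-λ²/2) / (40 λ)`, as
`(λ+2/λ)²/2 = λ²/2 + 2 + 2/λ²`; and `mm k / 2 ≥ 40 λ² exp (λ²/2)`. (2) Chernoff: `1_{u > t} ≤ exp (t (u - t))`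
and `∫ exp (t u) dγ = exp (t²/2)` (Mathlib: `mgf_gaussianReal`, `measure_ge_le_exp_mul_mgf`).
(3) `⌈a⌉₊ ≤ a + 1`. -/
def S_GT : Prop :=
  (∀ k : ℕ, lam k ≤ (mm k : ℝ) / 2 * ((gaussianReal 0 1) (Set.Ici (lam k + 1 / lam k))).toReal) ∧
  (∀ t : ℝ, 0 ≤ t → ((gaussianReal 0 1) (Set.Ioi t)).toReal ≤ Real.exp (-(t ^ 2 / 2))) ∧
  (∀ k : ℕ, (mm k : ℝ) ≤ 100 * lam k ^ 2 * Real.exp (lam k ^ 2 / 2))

/-- AC (30 min), deps WH GT: there are active slots with even and with odd number.  Proof.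
Independence of the `mm k / 2` even slots: the probability is `(1 - π)^(mm k / 2) ≤ exp (-π mm k / 2)
≤ exp (-lam k)`, `π = γ [lam k + 1 / lam k, ∞)`. -/
def S_AC (μ : Measure Om) : Prop :=
  ∀ k : ℕ,
    (μ {ω | ¬ ∃ j < mm k, Even j ∧ lam k + 1 / lam k ≤ wv k j ω}).toReal ≤ Real.exp (-lam k) ∧
    (μ {ω | ¬ ∃ j < mm k, ¬ Even j ∧ lam k + 1 / lam k ≤ wv k j ω}).toReal ≤ Real.exp (-lam k)

/-- OS (80 min), deps WH AC: one step of the two-point motion.  Proof.  Write `θ_j = eta k χ_j gg j p`,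
`θ'_j = eta k χ_j gg j p'`, `χ_j = chi k (wv k j)`. By WH (first part) condition on `w = (wv k j)_j` (Fubini):
`D = stepf k p - stepf k p' = amp k ∑_j χ_j Re ((e^{iθ_j} - e^{iθ'_j}) x_j)` is a linear combination of the
i.i.d. standard Gaussians `Re x_j`, `Im x_j`, with variance `V = amp² ∑ χ_j² |e^{iθ_j} - e^{iθ'_j}|²`, so
`E e^{imD} = exp (-m² V / 2)`.  Now `((1 + cos D)/2)^n = cos (D/2)^(2n) = 4^(-n) ∑_{l ≤ 2n} C(2n,l) e^{i(l-n)D}`
so its conditional expectation is `≤ 4^(-n) C(2n,n) + e^{-V/2}`, and `E cos D = e^{-V/2}`.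
If there is an active (`wv ≥ lam + 1/lam`, so `χ_j = 1`) even slot and an active odd slot then
(`|e^{ia} - e^{ib}| = 2 |sin ((a-b)/2)| ≥ (2/π)|a-b|` for `|a-b| ≤ 2`, `amp k * eta k = lam k ^ 2`)
`V ≥ lam⁴ (4/π²) ((cos p - cos p')² + (sin p - sin p')²) = lam⁴ (8/π²)(1 - cos (p-p'))`,
so `V/2 ≥ lam⁴/4 (1 - cos (p-p'))`; the other event has probability `≤ 2 exp (-lam k)` (AC). -/
def S_OS (μ : Measure Om) : Prop :=
  ∀ (k : ℕ) (p p' : ℝ),
    (∀ n : ℕ, ∫ ω, ((1 + Real.cos (stepf k p ω - stepf k p' ω)) / 2) ^ n ∂μ ≤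
      (Nat.centralBinom n : ℝ) / 4 ^ n + 2 * Real.exp (-lam k) +
        Real.exp (-(lam k ^ 4 / 4 * (1 - Real.cos (p - p'))))) ∧
    ∫ ω, Real.cos (stepf k p ω - stepf k p' ω) ∂μ ≤ 2 * Real.exp (-lam k) +
        Real.exp (-(lam k ^ 4 / 4 * (1 - Real.cos (p - p'))))

/-- OZ (50 min), deps WH AC: the initial phase.  Proof.  Fix `ω₂` and condition on the `wv K j ω₁`:
`ph K ω₁` is centred Gaussian with variance `amp² ∑ χ_j² ≥ amp²` if some slot is active. As in OS: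
`E (((1 + cos (ph K ω₁ - c))/2)^n | w) ≤ 4^(-n) C(2n,n) + exp (- amp²/2)`. -/
def S_OZ (μ : Measure Om) : Prop :=
  ∀ K n : ℕ, ∫ ω₁, ∫ ω₂, ((1 + Real.cos (ph K ω₁ - ph K ω₂)) / 2) ^ n ∂μ ∂μ ≤
    (Nat.centralBinom n : ℝ) / 4 ^ n + 2 * Real.exp (-lam K) + Real.exp (-(amp K ^ 2 / 2))

/-- TP (75 min), deps WH OS OZ: the two-point motion does not synchronise.  Proof.  Put
`J K p p' = ∫ cos (Phi K p ω - Phi K p' ω) dμ`. Claim: for `K ≥ 1`,
`J K p p' ≤ err K + exp (-(lam (K-1))⁴/4 (1 - cos (p-p')))`, with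
`err 1 = 2 exp (-lam 0)` and `err (K+1) = err K + exp (-(lam (K-1))⁴/4) + C(2n,n)/4^n + 2 exp (-lam K)`,
`n = 2^(2K+6) = lam K ^ 2`.  `K = 1`: OS, as `Phi 1 p = stepf 0 p`.  Step: `Phi (K+1) p ω =
Phi K (stepf K p ω) ω`, where `Phi K q ω` only depends on the data of the scales `< K` and `stepf K p ω` on
those of scale `K`; by independence (WH, second part) `J (K+1) p p' = ∫ J K (stepf K p ω) (stepf K p' ω) dμ(ω)
≤ err K + ∫ exp (-c (1 - cos D))`, `c = (lam (K-1))⁴/4 = 2^(4K+6)`, `D = stepf K p ω - stepf K p' ω`. With `x = 1 - cos D ∈ [0,2]`: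
`exp (-c x) ≤ (1 - x/2)^n + exp (-c)` for `n ≤ c` (for `x ≤ 1`: `1 - x/2 ≥ exp (-x)`; for `x ≥ 1` clear); use OS.
Finally integrate over `p = ph K ω₁`, `p' = ph K ω₂`, use the same inequality and OZ.  Sum of all the errors:
`C(2n,n)/4^n ≤ 1/√n = 1/lam K` (`K ≥ 1`: in total `≤ 1/8 + 1/16`), the exponentials are tiny (`lam k ≥ 8 · 2^k`). For `K = 0`
use OZ with `n = 1` (`cos D = 2 ((1 + cos D)/2) - 1`). -/
def S_TP (μ : Measure Om) : Prop :=
  ∀ K : ℕ, ∫ ω₁, ∫ ω₂, ∫ ω₃, Real.cos (Phi K (ph K ω₁) ω₃ - Phi K (ph K ω₂) ω₃) ∂μ ∂μ ∂μ ≤ 1 / 2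

/-! ## C. `UU` is a multiplicator -/

/-- SL (90 min), deps WH (last part: the law of `wv k j`) GT: selecting the active slots is expensive.
`UB`, `USm`, `dif` are in `Pool/Agent/R876/WM/Defs.lean`; `S_MP μ` (rotations preserve `μ ⊗ μ`) is
`mp_thm μ hμ.mean` in `Pool/Agent/R876/WM/MP.lean`.
Proof.  `L = 2 p`.  `λ = lam k`, `δ = λ^(-1/2)`, `x_α = cos α x + sin α y`.  Choose `K` (≥ 1) with the `USm`-property for
the order `j = R` at the exponent `L`.  If `δ > 1/(2K)` then `λ < 4K²` and the trivial bound `∫ ‖V‖^{2p} ≤ C`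
suffices.  Otherwise, `V(x_α) = ± (dif K δ V (rotated by α) - ∑_{l=1}^K ± C(K,l) V(x_{α + lδ}))`, the first term has
`∫ ‖·‖^{2p} ≤ (D δ^R)^{2p} ≤ D^{2p} λ^{-R}`. For the other terms: let `β = α + lδ ∈ [δ, 1]` and
`x' = x_β`, `y' = -sin β x + cos β y` (a measure preserving change of variables), `x = cos β x' - sin β y'`.
`(∑_j 1[wv k j x > λ] ‖E k j V(x')‖²)^p ≤ ‖V(x')‖^{2p-2} ∑_j 1[…] ‖E k j V(x')‖²` (Bessel).
Let `G = {x' : ∀ j < mm k, wv k j x' ≤ λ (1 + δ²/8)}`.  For `x' ∈ G`, `y'`-probability of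
`cos β wv k j x' - sin β wv k j y' > λ` is `≤ γ (Ioi (λ (1 - cos β (1+δ²/8))/sin β)) ≤ exp (-(λδ/5)²/2)` since
`cos β ≤ 1 - β²/3`, so `1 - cos β (1+δ²/8) ≥ β²/5`. So this part is `≤ E ‖V‖^{2p} exp (-λ/50)`. On `Gᶜ`:
`E 1_{Gᶜ} ‖V‖^{2p} ≤ μ(Gᶜ)^{1/2} (E ‖V‖^{4p})^{1/2}` and `μ (Gᶜ) ≤ mm k exp (-λ²(1+δ²/8)²/2) ≤ 100 λ² exp (-λ/8)`.
(`λ² δ² = λ`.)  Exponentials in `-λ` are `≤ C / λ^R`. -/
def S_SL (μ : Measure Om) : Prop :=
  ∀ E : ℕ → ℕ → HH →L[ℝ] HH, (∀ k v, ∑ j ∈ Finset.range (mm k), ‖E k j v‖ ^ 2 ≤ ‖v‖ ^ 2) →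
    ∀ S : Set (Om → HH), (∀ p : ℕ, 2 ≤ p → UB μ p S) → (∀ p : ℕ, 2 ≤ p → USm μ p S) →
      ∀ p R : ℕ, 1 ≤ p → ∃ C : ℝ, 0 ≤ C ∧ ∀ V ∈ S, ∀ (k : ℕ) (α : ℝ), 0 ≤ α → α ≤ 1 / 2 →
        ∫⁻ z, ENNReal.ofReal ((∑ j ∈ Finset.range (mm k),
            (if lam k < wv k j z.1 then ‖E k j (V (r1 α z))‖ ^ 2 else 0)) ^ p) ∂(μ.prod μ) ≤
          ENNReal.ofReal (C / lam k ^ R)

/-- DB (80 min): differences of the rotations (deterministic).  Proof.  If `lam k < wv k j (x_{aθ})` for no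
`a ≤ n` then the function is `1` at all the nodes and `dif = 0` (`n ≥ 1`).  Put `f(ϑ) = exp (i b ang k j (x_ϑ))`,
`x_ϑ = r1 ϑ z`; then `dif n θ (…) z = Δ_θ^n f (0)` and `|Δ_θ^n f(0)| ≤ θ^n sup |f^{(n)}|`. Bound of the derivatives
(pointwise in `ϑ`, order `i ≤ n`), by `norm_iteratedFDeriv_comp_le` and `norm_iteratedFDeriv_mul_le`
(or `iteratedDeriv` versions): `wv(x_ϑ) = cos ϑ wv(z.1) + sin ϑ wv(z.2)` has all derivatives `≤ w̄ = |wv z.1| + |wv z.2|`;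
`χ(ϑ) = smoothTransition (λ(w(ϑ) - λ))`: `|χ^{(i)}| ≤ n! C_n (λ(1+w̄))^i` (the derivatives of `smoothTransition` of
order `≤ n` are bounded: compact support of the derivative); if `wv(z.1)² + wv(z.2)² ≤ λ²` then `w(ϑ) ≤ λ` for all `ϑ` and
`χ = 0` identically.  So `P(ϑ) = ph (k+1) (x_ϑ)` satisfies `|P^{(i)}| ≤ Q^i` for `1 ≤ i ≤ n`,
`Q = 1 + C amp(k+1) SS n (k+1) z`; `|∂^i gg j (P)| ≤ n! Q^i`; `|∂^i ang| ≤ C (D+Q)^i`, `D = 1 + λ(1+w̄) ≤ SS n k z` if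
`wv(z.1)² + wv(z.2)² > λ²` (the sum `SS n k z` contains the term of this slot); finally `|f^{(n)}| ≤ C (D+Q)^n`. -/
def S_DB : Prop :=
  ∀ n : ℕ, 1 ≤ n → ∃ C : ℝ, 0 ≤ C ∧ ∀ (k j : ℕ) (z : Om × Om) (b θ : ℝ), j < mm k → 0 ≤ b → b ≤ 1 →
    0 < θ → ‖dif n θ (fun ω : Om => Complex.exp (Complex.I * ((b * ang k j ω : ℝ) : ℂ))) z‖ ≤
      C * θ ^ n * (1 + SS n k z + amp (k + 1) * SS n (k + 1) z) ^ n *
        (if ∃ a ≤ n, lam k < wv k j (r1 (a * θ) z) then 1 else 0)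

/-- MO (80 min), deps WH GT: moments of the weights of the active slots.  Proof.  Under `μ ⊗ μ` the
4-tuples `(wv k j z.1, wv k j z.2, Re xv k j z.1, Re xv k j z.2)`, `j < mm k`, are i.i.d. with law `γ^4` (WH). The summand
`ζ_j` satisfies `E ζ_j^q ≤ C λ^c exp (-λ²/2)`: with `s = 1 - 1/λ²`, `1[w² + w'² > λ²] ≤ exp (s (w² + w'² - λ²)/2)`,
`exp (-s λ²/2) = e^{1/2} exp (-λ²/2)` and `∫∫ (1 + λ(1 + |w| + |w'|))^N exp (s (w²+w'²)/2) dγ dγ
= λ² ∫∫ (1 + λ(1 + λ|u| + λ|u'|))^N dγ dγ` (Gaussian density, `w = λ u`). So `∑_j E ζ_j^r ≤ a` for `1 ≤ r ≤ q`, with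
`a = C λ^c` (`mm k ≤ 100 λ² exp (λ²/2)`).  Moments of the sum `S` of nonnegative independent variables:
`E S^{q+1} = ∑_j E ζ_j S^q ≤ 2^q ∑_j E ζ_j (ζ_j^q + (S - ζ_j)^q) ≤ 2^q (a + a E S^q)`, induction on `q`. -/
def S_MO (μ : Measure Om) : Prop :=
  ∀ n q : ℕ, ∃ (C : ℝ) (c : ℕ), 0 ≤ C ∧ ∀ k : ℕ,
    ∫⁻ z, ENNReal.ofReal (SS n k z ^ q) ∂(μ.prod μ) ≤ ENNReal.ofReal (C * lam k ^ c)

/-- SU (40 min): supports.  Proof.  The slots are disjoint and contained in `[2^(-k-1), 2^(-k)]`, `bt k j t = 0`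
unless `st k j + hh k / 4 < t < st k j + hh k`, `0 ≤ bmp ≤ 1`, `bmp = 1` on `[1/2, 3/4]`, `|ang k j ω| ≤ eta k`. -/
def S_SU : Prop :=
  (∀ k, 0 < mm k ∧ 0 < hh k ∧ st k (mm k) = 1 / 2 ^ k) ∧
  (∀ k j t, 0 ≤ bt k j t ∧ bt k j t ≤ 1 ∧ (t ≤ st k j + hh k / 4 → bt k j t = 0) ∧
    (st k j + hh k ≤ t → bt k j t = 0) ∧
    (st k j + hh k / 2 ≤ t → t ≤ st k j + 3 * hh k / 4 → bt k j t = 1)) ∧
  (∀ k j ω, |ang k j ω| ≤ eta k) ∧
  (∀ k j t ω, j < mm k → st k j ≤ t → t ≤ st k j + hh k → phi t ω = ang k j ω * bt k j t) ∧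
  (∀ t ω, t ≤ 0 → phi t ω = 0) ∧ (∀ t ω, 1 ≤ t → phi t ω = 0) ∧
  (∀ t : ℝ, 0 < t → t < 1 → ∃ k j : ℕ, j < mm k ∧ st k j ≤ t ∧ t < st k j + hh k)

/-- CT (75 min), deps SU: continuity in time, adaptedness.  Proof.  `phi` is a series over `k` of finite sums
`T_k` of smooth functions of `t` with `|T_k| ≤ eta k` (at most one `j` contributes), so the series converges uniformly.
`T_k (t, ·)` is `Fil t`-measurable: if `bt k j t ≠ 0` then `t > st k j + hh k / 4`, and `wv k j` is a function of `X` at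
the times `st k j`, `st k j + hh k / 4`, and `ph (k+1)` a function of `X` at times `≤ 2^(-(k+1)) ≤ st k j`. -/
def S_CT : Prop :=
  (∀ ω, Continuous fun t => phi t ω) ∧
  (∀ t : ℝ, Measurable[Fil t] fun ω => phi t ω) ∧
  (Measurable fun q : ℝ × Om => phi q.1 q.2) ∧
  (∀ k : ℕ, Measurable[Fil (1 / 2 ^ k)] (ph k))

/-- MA (75 min), deps SU CT: the operators.  Proof.  Multiplication of `v ∈ L²` by a bounded measurable function
(`MemLp.toLp`, linear, norm bound; continuity by `LinearMap.mkContinuous`).  Strong measurability of `ω ↦ A ω v`: `HH` is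
separable, enough: weak measurability, `⟪A ω v, u⟫ = ∫ Re (UU t ω v(t) conj u(t)) dt` is measurable in `ω` by Fubini
(`phi` is jointly measurable by CT); then for a.e.-strongly measurable `V` approximate by simple functions. -/
def S_MA (μ : Measure Om) : Prop :=
  (∃ E : ℕ → ℕ → HH →L[ℝ] HH, IsE E ∧
    ∀ k v, ∑ j ∈ Finset.range (mm k), ‖E k j v‖ ^ 2 ≤ ‖v‖ ^ 2) ∧
  (∃ A : Om → (HH →L[ℝ] HH), IsA A) ∧
  (∀ A : Om → (HH →L[ℝ] HH), IsA A → (∀ ω v, ‖A ω v‖ = ‖v‖) ∧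
    (∀ v, StronglyMeasurable fun ω => A ω v) ∧
    ∀ V : Om → HH, AEStronglyMeasurable V μ → AEStronglyMeasurable (fun ω => A ω (V ω)) μ)

/-- ML (70 min), deps SU: the difference of the operators, slot by slot.  Proof.  `dif n θ A z W` is represented by
`t ↦ (dif n θ (UU t) z) W(t)` a.e.; for `t` in the slot `(k,j)`, `UU t ω = exp (i bt k j t ang k j ω)`, so
`|dif n θ (UU t) z| ≤ κ k j`. So `‖dif n θ A z W‖² ≤ ∑_k ∑_j κ² ∫_{slot} |W|² = ∑_k ∑_j κ² ‖E k j W‖²`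
(the slots cover `(0,1)`), and `√(∑_k a_k) ≤ ∑_k √a_k`. -/
def S_ML : Prop :=
  ∀ (E : ℕ → ℕ → HH →L[ℝ] HH) (A : Om → (HH →L[ℝ] HH)), IsE E → IsA A →
    ∀ (n : ℕ) (θ : ℝ) (z : Om × Om) (W : HH) (κ : ℕ → ℕ → ℝ), (∀ k j, 0 ≤ κ k j) →
      (∀ k j, j < mm k → ∀ b : ℝ, 0 ≤ b → b ≤ 1 →
        ‖dif n θ (fun ω : Om => Complex.exp (Complex.I * ((b * ang k j ω : ℝ) : ℂ))) z‖ ≤ κ k j) →
      ENNReal.ofReal ‖dif n θ A z W‖ ≤ ∑' k : ℕ, ENNReal.ofReal (Real.sqrt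
        (∑ j ∈ Finset.range (mm k), κ k j ^ 2 * ‖E k j W‖ ^ 2))

/-- AS (100 min), deps SL DB MO MA ML: the products are rotation smooth.  Proof.  Leibniz rule (`leib_thm`, file
`R876/WM/LEIB.lean`, applied to `ω ↦ (A ω, V ω)` in `(HH →L HH) × HH` and `B ((m,v),(m',v')) = m v'`):
`dif K θ (A V) z = ∑_{i ≤ K} C(K,i) (dif i θ A z) (dif (K-i) θ V (rot_{iθ} z))`.  Given the order `J` (and `J = 0` is trivial), take
`K ≥ K₀(V) + J`.  For `i < J`: `‖dif i θ A z‖ ≤ 2^i`, `K - i ≥ K₀(V)`, so the term is `≤ D θ^J` in `L^p`. For `i ≥ J`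
(`i ≥ 1`): by ML and DB with `κ k j = C θ^i G_k(z) 1[∃ a ≤ i, lam k < wv k j (r1 (aθ) z)]`, `G_k = (1 + SS i k + amp (k+1) SS i (k+1))^i`,
`W = dif (K-i) θ V (rot_{iθ} z) = ∑_l ± C(K-i,l) V (r1 ((i+l)θ) z)`, the norm is
`≤ C θ^i ∑_k G_k(z) ∑_{l,a} (∑_j 1[lam k < wv k j (r1 (aθ) z)] ‖E k j V (r1 ((i+l)θ) z)‖²)^{1/2}`.  In `L^p` (Minkowski, and
Hölder `L^{2p} × L^{2p}`): `‖G_k‖_{2p} ≤ C lam k ^ c` by MO (`lam (k+1) = 2 lam k`), and the last factor is, after the rotation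
by `aθ` (measure preserving), of the form of SL with `α = (i + l - a) θ ∈ [0, 1/2]`, so `≤ C lam k ^ (-c-1)`. Sum over `k`. -/
def S_AS (μ : Measure Om) : Prop :=
  ∀ A : Om → (HH →L[ℝ] HH), IsA A →
    ∀ S : Set (Om → HH), (∀ p : ℕ, 2 ≤ p → UB μ p S) → (∀ p : ℕ, 2 ≤ p → USm μ p S) →
      ∀ p : ℕ, 2 ≤ p → USm μ p {W : Om → HH | ∃ V ∈ S, W = fun ω => A ω (V ω)}

/-- MU (30 min), deps MA AS: `UU` is a multiplicator.  Proof.  `fina_thm`, `l1_thm` (L1: from bounded sets of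
`D^∞` to rotation smooth sets) and `l3_thm` (L3: back) of `Pool/Agent/R876/WM`, assembled as in
`Pool/Agent/Results/MP_e701d5_pr/WienerMultiplicators.lean`. -/
def S_MU (μ : Measure Om) : Prop :=
  ∀ A : Om → (HH →L[ℝ] HH), IsA A → IsMult μ A

/-! ## D. The path `β = ∫ U⁻¹ dB` -/

/-- GD (45 min), deps WH GT: the angles are summable.  Proof.  `|ang k j| ≤ eta k 1[wv k j > lam k]`, so
`E ∑_j |ang k j| ≤ eta k mm k exp (-lam k²/2) ≤ 100 / lam k`, summable. -/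
def S_GD (μ : Measure Om) : Prop :=
  ∀ᵐ ω ∂μ, Summable fun k : ℕ => ∑ j ∈ Finset.range (mm k), |ang k j ω|

/-- BE (100 min), deps EV SU CT: the pathwise integral.  Proof.  Let `f(t) = conj (UU t ω) = exp (-i phi t ω)`.
On `(0,1]` the function `phi` is locally a finite sum of smooth functions, derivative
`g(t) = ∑_k ∑_j ang k j bt' k j (t)` (at most one term; extend by `0`), and `∫_0^1 |g| ≤ C ∑_k ∑_j |ang k j| < ∞`
(`∫ |bt' k j| = ∫ |bmp'|`). So `f(t) - f(s) = ∫_s^t f'` for `0 ≤ s ≤ t ≤ 1`, `f' = -i g f ∈ L¹` (continuity at `0`: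
`intervalIntegral.integral_eq_sub_of_hasDeriv_right_of_le` or similar).  `β ω (t) = f(t) ω(t) - ∫_0^t ω(s) f'(s) ds` if `ω` is good,
`β ω = 0` otherwise: continuous in `t`; measurable in `ω` (EV and Fubini).  Riemann sums (Abel summation, `X 0 ω = 0`):
`∑ f(τ_i)(ω(τ_{i+1}) - ω(τ_i)) = f(τ_n) ω(τ_n) - ∑ ω(τ_{i+1}) ∫_{τ_i}^{τ_{i+1}} f'`, which differs from `β ω (τ_n)` by at most
`sup_{|s-t| ≤ δ} |ω(s) - ω(t)| · ∫ |f'|`. -/
def S_BE : Prop :=
  ∃ β : Om → Om, Measurable β ∧ ∀ ω, X 0 ω = 0 →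
    (Summable fun k : ℕ => ∑ j ∈ Finset.range (mm k), |ang k j ω|) →
      IsRS (fun t => UU t ω) ω (β ω)

/-- BI (45 min), deps SU: increments of the integral.  Proof.  Take partitions through the end points of an interval on
which `UU` is constant (`= c`): the integral has increment `conj c` times the increment of `ω`. In the first quarter of a slot `phi = 0`, in
the third quarter `phi = ang k j`.  The last statement: `xv k j ω = exp (i ang) xv k j b` and `ang k j ω = eta k chi k (wv k j b) gg j (ph (k+1) ω)`. -/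
def S_BI : Prop :=
  ∀ ω b : Om, IsRS (fun t => UU t ω) ω b →
    (∀ k j : ℕ, j < mm k → wv k j b = wv k j ω ∧
      xv k j ω = Complex.exp (Complex.I * ((ang k j ω : ℝ) : ℂ)) * xv k j b) ∧
    (∀ k : ℕ, ph k ω = stepf k (ph (k + 1) ω) b) ∧ ∀ K : ℕ, ph 0 ω = Phi K (ph K ω) b

/-- hypotheses on a general integrand -/
structure IsInt (μ : Measure Om) (U : ℝ → Om → ℂ) (β : Om → Om) : Prop where
  norm : ∀ t ω, ‖U t ω‖ = 1
  adapted : ∀ t : ℝ, 0 ≤ t → t ≤ 1 → Measurable[Fil t] (U t)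
  meas : Measurable β
  rs : ∀ᵐ ω ∂μ, IsRS (fun t => U t ω) ω (β ω)

/-- CF (70 min), deps IN: characteristic function of the integral.  Proof.  (1) For `Y`, `u` `Fil s`-measurable, `Y` bounded,
`|u| = 1`: `∫ Y exp (i Re (conj ξ conj u (X t - X s))) = (∫ Y) exp (-‖ξ‖² (t-s)/2)`: `(Y, u)` is independent of `X t - X s`, Fubini, and
`∫ exp (i Re (conj (ξ u) (X t - X s)))` does not depend on `u`.  (2) Discrete version: partitions `τ` of `[0, r N]` which contain all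
the `r l`: `∫ Y exp (i ∑_l Re (conj ξ_l (sum of conj (U (τ_i)) (X τ_{i+1} - X τ_i) over [r l, r (l+1)])))
= (∫ Y) exp (-∑ …)`, induction over the cells of the partition from the last one.  (3) Partitions with mesh → 0: by `rs` (difference of the
partition up to `r (l+1)` and up to `r l`) the sums converge a.e. to `X (r (l+1)) (β ω) - X (r l) (β ω)`; dominated convergence. -/
def S_CF (μ : Measure Om) : Prop :=
  ∀ (U : ℝ → Om → ℂ) (β : Om → Om), IsInt μ U β → ∀ (N : ℕ) (r : ℕ → ℝ) (ξ : ℕ → ℂ) (Y : Om → ℂ) (C : ℝ),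
    (∀ l < N, r l ≤ r (l + 1)) → 0 ≤ r 0 → r N ≤ 1 → Measurable[Fil (r 0)] Y → (∀ ω, ‖Y ω‖ ≤ C) →
    ∫ ω, Y ω * Complex.exp (Complex.I * ((∑ l ∈ Finset.range N,
        (conj (ξ l) * (X (r (l + 1)) (β ω) - X (r l) (β ω))).re : ℝ) : ℂ)) ∂μ =
      (∫ ω, Y ω ∂μ) * ((Real.exp (-(∑ l ∈ Finset.range N, ‖ξ l‖ ^ 2 * (r (l + 1) - r l) / 2)) : ℝ) : ℂ)

/-- LW (70 min), deps EV IN CF: `β` is a Brownian motion whose increments after `s` are independent of `Fil s`.  Proof.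
Law: apply CF to `β` and to the identity (`U = 1`, `β = id`; `IsRS 1 ω ω` as `X 0 ω = 0`) with `Y = 1`, `r 0 = 0`: the finite dimensional
marginals agree (characteristic functions of `(X (r l))_{l ≤ N}`, with `X 0 (β ω) = 0`), so the laws agree by EV (π-system of the cylinders,
`IsProjectiveLimit.unique` or `MeasureTheory.ext_of_generate_finite`).
Independence: CF with `Y = exp (i η Z)` gives `IndepFun Z (finite family of increments)` (`indepFun_iff_charFun_prod` …), then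
`IndepFun.indepFun_process`. -/
def S_LW (μ : Measure Om) : Prop :=
  ∀ (U : ℝ → Om → ℂ) (β : Om → Om), IsInt μ U β → μ.map β = μ ∧
    ∀ (s : ℝ) (Z : Om → ℝ), 0 ≤ s → s ≤ 1 → Measurable[Fil s] Z →
      IndepFun Z (fun (ω : Om) (t : Set.Icc s 1) => X t (β ω) - X s (β ω)) μ

/-- NM (90 min), deps EV IN TP: `e^{i ph 0}` is not a function of `β`.  Proof.  Suppose `F = e^{i ph 0 ω} = G (β ω)` a.e.
(if `cos (ph 0)` and `sin (ph 0)` are both functions of `β`, so is `F`; the required real function is one of them).  `Y_K (b) = (X t b - X (2^-K) b)_{t ∈ [2^-K, 1]}`,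
`𝒢_K = σ(Y_K)`, increasing in `K`.  With `Λ b = b - b(0)`, `Λ` is `⨆ 𝒢_K`-measurable (`X t b - X 0 b = lim`; EV) and `Λ b = b` a.e., so
`G = G ∘ Λ` a.e. and `μ[G∘Λ | 𝒢_K] → G ∘ Λ` in `L¹` (`tendsto_eLpNorm_condExp`); so for every `ε` there are `K` and a measurable bounded `h`
with `∫ |G (b) - h (Y_K b)| dμ(b) ≤ ε`, hence (law of `β`) `∫ |F - h (Y_K (β ω))| dμ ≤ ε`.  Now `F(ω) = Ψ (ph K ω, Y_K (β ω))` a.e. with
`Ψ (p, Y_K b) = exp (i Phi K p b)` measurable, and `ph K` is independent of `Y_K ∘ β`, which has the law of `Y_K`.  So for `ω₁, ω₂, ω₃` i.i.d.,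
`E |e^{i Phi K (ph K ω₁) ω₃} - h (Y_K ω₃)| ≤ ε` and the same for `ω₂`, so `E |e^{i Phi K (ph K ω₁) ω₃} - e^{i Phi K (ph K ω₂) ω₃}| ≤ 2ε`. But
`|e^{ia} - e^{ib}| ≥ |e^{ia} - e^{ib}|²/2 = 1 - cos (a-b)`, whose expectation is `≥ 1/2` by TP. Contradiction for `ε < 1/4`. -/
def S_NM (μ : Measure Om) : Prop :=
  ∀ β : Om → Om, Measurable β → μ.map β = μ →
    (∀ K : ℕ, IndepFun (ph K) (fun (ω : Om) (t : Set.Icc ((1 : ℝ) / 2 ^ K) 1) =>
      X t (β ω) - X (1 / 2 ^ K) (β ω)) μ) →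
    (∀ K : ℕ, ∀ᵐ ω ∂μ, ph 0 ω = Phi K (ph K ω) (β ω)) →
    ∃ F : Om → ℝ, Measurable F ∧ (∀ ω, |F ω| ≤ 1) ∧
      ∀ G : Om → ℝ, AEStronglyMeasurable G μ → ¬ (F =ᵐ[μ] fun ω => G (β ω))

/-- EX (90 min): existence of the Wiener measure on `C([0,1], ℂ)` (so that the theorem is not empty).  Proof.  There is a Brownian
motion with continuous paths in `Pool/Agent/Helper41/SK/BMExist.lean` (`exists_bm0`) or a planar one in `Pool/Agent/Helper41/BS/ExistBM.lean`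
(`exists_bm2`); take the law of the path `t ↦ W¹_t + i W²_t` (restricted to `[0,1]`).  `IsGaussian`: a continuous linear functional `L` is the pointwise limit of
`L (interpolation of ω at the points i/n)`, a finite linear combination of evaluations, so its law is a limit of centred Gaussian laws
(characteristic functions), and a limit in law of centred Gaussians is a centred Gaussian. -/
def S_EX : Prop := ∃ μ : Measure Om, IsW μ

end Pool.Agent.T2H68.UB
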